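import Mathlib.LinearAlgebra.Matrix.Transvection
import Mathlib.FieldTheory.IsAlgClosed.Basic
import Mathlib.Algebra.MvPolynomial.Basic
import Mathlib.Analysis.Complex.Polynomial.Basic

/-!
# Polynomial characters of `GL_n(ℂ)` are powers of the determinant
-/

open Matrix

namespace Pool.Agent.Lib.MP_4fcc12_ag

lemma poly_const_of_ne_zero (u : Polynomial ℂ) (h : ∀ t, u.eval t ≠ 0) :
    ∃ c, u = Polynomial.C c := by
  by_contra hcon
  have hd : u.degree ≠ 0 := by
    intro hd
    exact hcon ⟨_, Polynomial.eq_C_of_degree_eq_zero hd⟩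
  obtain ⟨z, hz⟩ := IsAlgClosed.exists_root u hd
  exact h z hz

lemma poly_monomial_of_ne_zero (u : Polynomial ℂ) (h : ∀ t, t ≠ 0 → u.eval t ≠ 0) :
    ∃ (c : ℂ) (r : ℕ), u = Polynomial.C c * Polynomial.X ^ r := by
  have hu : u ≠ 0 := by
    rintro rfl
    exact h 1 one_ne_zero (by simp)
  obtain ⟨q, hq, hnd⟩ := Polynomial.exists_eq_pow_rootMultiplicity_mul_and_not_dvd u hu 0
  have hq0 : ∀ t, q.eval t ≠ 0 := by
    intro t ht
    by_cases h0 : t = 0
    · subst h0
      exact hnd (Polynomial.dvd_iff_isRoot.2 ht)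
    · apply h t h0
      rw [hq, Polynomial.eval_mul, ht, mul_zero]
  obtain ⟨c, hc⟩ := poly_const_of_ne_zero q hq0
  refine ⟨c, Polynomial.rootMultiplicity 0 u, ?_⟩
  conv_lhs => rw [hq, hc]
  rw [Polynomial.C_0, sub_zero, mul_comm]

/-- restriction of a polynomial function on matrices to a polynomial curve -/
lemma exists_poly_curve {ι : Type*} (p : MvPolynomial ι ℂ) (v : ι → Polynomial ℂ) :
    ∃ u : Polynomial ℂ, ∀ t, u.eval t = MvPolynomial.eval (fun i => (v i).eval t) p := by
  refine ⟨MvPolynomial.aeval v p, fun t => ?_⟩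
  have h : (Polynomial.evalRingHom t).comp (MvPolynomial.aeval v).toRingHom =
      MvPolynomial.eval (fun i => (v i).eval t) := by
    apply MvPolynomial.ringHom_ext
    · intro r
      simp
    · intro i
      simp
  exact congrArg (fun φ => φ p) h

variable {n : ℕ}

/-- polynomial characters of `GL_n(ℂ)` -/
theorem char_det (i₀ : Fin n) (f : Matrix (Fin n) (Fin n) ℂ → ℂ) (p : MvPolynomial (Fin n × Fin n) ℂ)
    (hp : ∀ g, f g = MvPolynomial.eval (fun ij => g ij.1 ij.2) p) (h1 : f 1 = 1)
    (hmul : ∀ g h : Matrix (Fin n) (Fin n) ℂ, g.det ≠ 0 → h.det ≠ 0 → f (g * h) = f g * f h) :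
    ∃ r : ℕ, ∀ g : Matrix (Fin n) (Fin n) ℂ, g.det ≠ 0 → f g = g.det ^ r := by
  classical
  have hne : ∀ g : Matrix (Fin n) (Fin n) ℂ, g.det ≠ 0 → f g ≠ 0 := by
    intro g hg h0
    have hu : IsUnit g.det := isUnit_iff_ne_zero.2 hg
    have h2 : g * g⁻¹ = 1 := Matrix.mul_nonsing_inv g hu
    have h3 : (g⁻¹).det ≠ 0 := by
      have := congrArg Matrix.det h2
      rw [Matrix.det_mul, Matrix.det_one] at this
      exact right_ne_zero_of_mul_eq_one this
    have h4 := hmul g g⁻¹ hg h3
    rw [h2, h1, h0, zero_mul] at h4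
    exact one_ne_zero h4
  -- curves
  have hcurve : ∀ v : Matrix (Fin n) (Fin n) (Polynomial ℂ), ∃ u : Polynomial ℂ,
      ∀ t, u.eval t = f (v.map (Polynomial.eval t)) := by
    intro v
    obtain ⟨u, hu⟩ := exists_poly_curve p (fun ij => v ij.1 ij.2)
    exact ⟨u, fun t => by rw [hu, hp]; rfl⟩
  -- transvections
  have htr : ∀ t : TransvectionStruct (Fin n) ℂ, f t.toMatrix = 1 := by
    rintro ⟨i, j, hij, c⟩
    obtain ⟨u, hu⟩ := hcurve (transvection i j Polynomial.X)
    have hmap : ∀ t : ℂ, (transvection i j (Polynomial.X : Polynomial ℂ)).map (Polynomial.eval t) =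
        transvection i j t := by
      intro t
      ext a b
      simp only [transvection, Matrix.map_apply, Matrix.add_apply, Matrix.one_apply,
        Matrix.single_apply, Polynomial.eval_add]
      split_ifs <;> simp
    have hu' : ∀ t, u.eval t = f (transvection i j t) := fun t => by rw [hu, hmap]
    obtain ⟨c', hc'⟩ := poly_const_of_ne_zero u (fun t => by
      rw [hu']
      apply hne
      rw [det_transvection_of_ne _ _ hij]
      exact one_ne_zero)
    have h0 := hu' 0
    rw [transvection_zero, h1, hc', Polynomial.eval_C] at h0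
    have h2 := hu' c
    rw [hc', Polynomial.eval_C, h0] at h2
    exact h2.symm
  -- one-parameter diagonal subgroups
  have hdet : ∀ (i : Fin n) (t : ℂ), (diagonal (Function.update (1 : Fin n → ℂ) i t)).det = t := by
    intro i t
    rw [det_diagonal, Finset.prod_update_of_mem (Finset.mem_univ i)]
    simp
  have hdiag1 : ∀ i : Fin n, ∃ r : ℕ, ∀ t : ℂ, t ≠ 0 →
      f (diagonal (Function.update (1 : Fin n → ℂ) i t)) = t ^ r := by
    intro i
    obtain ⟨u, hu⟩ := hcurve (diagonal (Function.update (1 : Fin n → Polynomial ℂ) i Polynomial.X))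
    have hmap : ∀ t : ℂ, (diagonal (Function.update (1 : Fin n → Polynomial ℂ) i
        Polynomial.X)).map (Polynomial.eval t) = diagonal (Function.update (1 : Fin n → ℂ) i t) := by
      intro t
      ext a b
      simp only [Matrix.map_apply, diagonal_apply, Function.update_apply, Pi.one_apply]
      split_ifs <;> simp
    have hu' : ∀ t, u.eval t = f (diagonal (Function.update (1 : Fin n → ℂ) i t)) :=
      fun t => by rw [hu, hmap]
    obtain ⟨c, r, hcr⟩ := poly_monomial_of_ne_zero u (fun t ht => by
      rw [hu']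
      apply hne
      rw [hdet]
      exact ht)
    refine ⟨r, fun t _ => ?_⟩
    have h2 := hu' 1
    rw [hcr] at h2
    have h3 : Function.update (1 : Fin n → ℂ) i 1 = 1 := by
      rw [Function.update_eq_iff]
      simp
    rw [h3, show (diagonal (1 : Fin n → ℂ)) = 1 from diagonal_one, h1] at h2
    simp only [Polynomial.eval_mul, Polynomial.eval_C, Polynomial.eval_pow, Polynomial.eval_X,
      one_pow, mul_one] at h2
    rw [← hu', hcr, h2]
    simp
  obtain ⟨r, hr⟩ := hdiag1 i₀
  have hconj : ∀ (σ : Equiv.Perm (Fin n)) (v : Fin n → ℂ), (diagonal v).det ≠ 0 →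
      f (diagonal (v ∘ σ)) = f (diagonal v) := by
    intro σ v hv
    let P : Matrix (Fin n) (Fin n) ℂ := (1 : Matrix (Fin n) (Fin n) ℂ).submatrix σ id
    have hP : P.det ≠ 0 := by
      have : P.det = Equiv.Perm.sign σ * (1 : Matrix (Fin n) (Fin n) ℂ).det :=
        Matrix.det_permute σ 1
      rw [this, det_one, mul_one]
      exact_mod_cast (Equiv.Perm.sign σ).ne_zero
    have hv' : (diagonal (v ∘ σ)).det ≠ 0 := by
      rw [det_diagonal] at hv ⊢
      have : ∏ i, (v ∘ σ) i = ∏ i, v i := Equiv.prod_comp σ v
      rw [this]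
      exact hv
    have hcomm : P * diagonal v = diagonal (v ∘ σ) * P := by
      ext a b
      rw [mul_diagonal, diagonal_mul]
      simp only [P, submatrix_apply, id, one_apply, Function.comp_apply]
      split_ifs with h
      · rw [h]; ring
      · ring
    have h2 := hmul _ _ hP hv
    have h3 := hmul _ _ hv' hP
    rw [hcomm, h3] at h2
    have h4 := hne P hP
    exact mul_right_cancel₀ h4 (by rw [h2]; ring)
  have hr' : ∀ (i : Fin n) (t : ℂ), t ≠ 0 →
      f (diagonal (Function.update (1 : Fin n → ℂ) i t)) = t ^ r := by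
    intro i t ht
    rw [← hr t ht, ← hconj (Equiv.swap i i₀) (Function.update (1 : Fin n → ℂ) i t) (by
      rw [hdet]; exact ht)]
    congr 2
    funext a
    simp only [Function.comp_apply, Function.update_apply]
    by_cases ha : a = i₀
    · subst ha; simp
    · by_cases hb : a = i
      · subst hb
        simp only [Equiv.swap_apply_left]
        rw [if_neg (Ne.symm ha), if_neg ha]
        simp
      · rw [Equiv.swap_apply_of_ne_of_ne hb ha, if_neg hb, if_neg ha]
  have hdiag : ∀ v : Fin n → ℂ, (∀ i, v i ≠ 0) → f (diagonal v) = (∏ i, v i) ^ r := by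
    intro v hv
    have key : ∀ s : Finset (Fin n), f (diagonal (fun i => if i ∈ s then v i else 1)) =
        (∏ i ∈ s, v i) ^ r := by
      intro s
      induction s using Finset.induction_on with
      | empty =>
        simp only [Finset.notMem_empty, if_false, Finset.prod_empty, one_pow]
        rw [show (diagonal (fun _ : Fin n => (1 : ℂ))) = 1 from diagonal_one, h1]
      | insert a s ha ih =>
        rw [Finset.prod_insert ha, mul_pow, ← ih, ← hr' a (v a) (hv a), ← hmul]
        · rw [diagonal_mul_diagonal]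
          congr 2
          funext i
          simp only [Function.update_apply, Pi.one_apply, Finset.mem_insert]
          by_cases hi : i = a
          · subst hi; simp [ha]
          · simp [hi]
        · rw [hdet]; exact hv a
        · rw [det_diagonal]
          apply Finset.prod_ne_zero_iff.2
          intro i _
          split_ifs
          · exact hv i
          · exact one_ne_zero
    have := key Finset.univ
    simpa using this
  refine ⟨r, fun g hg => ?_⟩
  apply Matrix.diagonal_transvection_induction_of_det_ne_zero (fun g => f g = g.det ^ r) g hg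
  · intro D hD
    rw [det_diagonal] at hD ⊢
    exact hdiag D fun i => (Finset.prod_ne_zero_iff.1 hD) i (Finset.mem_univ i)
  · intro t
    rw [htr, TransvectionStruct.det, one_pow]
  · intro A B hA hB h2 h3
    rw [hmul A B hA hB, h2, h3, det_mul, mul_pow]

end Pool.Agent.Lib.MP_4fcc12_ag
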