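import Mathlib.Algebra.MvPolynomial.PDeriv
import Mathlib.RingTheory.MvPolynomial.EulerIdentity
import Mathlib.RingTheory.MvPolynomial.Homogeneous
import Mathlib.LinearAlgebra.Matrix.NonsingularInverse
import Mathlib.Data.Complex.Basic
import Mathlib.Data.Finsupp.Weight
import Mathlib.Data.Finsupp.Antidiagonal
import Mathlib.Algebra.Order.Antidiag.Finsupp

/-!
# Forms, linear substitutions, gradients
-/

open MvPolynomial Matrix

namespace Pool.Agent.Lib.MP_4fcc12_ag

universe u v

variable {n : ℕ}

section basic

variable {R : Type u} [CommRing R] {S : Type v} [CommRing S]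

/-- `subst g f` is the linear substitution `f (g z)`. -/
noncomputable def subst (g : Matrix (Fin n) (Fin n) R) :
    MvPolynomial (Fin n) R →ₐ[R] MvPolynomial (Fin n) R :=
  aeval fun i => ∑ j, C (g i j) * X j

@[simp] lemma subst_X (g : Matrix (Fin n) (Fin n) R) (i : Fin n) :
    subst g (X i) = ∑ j, C (g i j) * X j := by
  simp [subst]

@[simp] lemma subst_C (g : Matrix (Fin n) (Fin n) R) (c : R) :
    subst g (C c : MvPolynomial (Fin n) R) = C c := by
  simp [subst, algebraMap_eq]

lemma subst_one (f : MvPolynomial (Fin n) R) : subst 1 f = f := by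
  have : subst (1 : Matrix (Fin n) (Fin n) R) = AlgHom.id R _ := by
    apply MvPolynomial.algHom_ext
    intro i
    simp [Matrix.one_apply]
  rw [this]
  rfl

lemma subst_mul (g h : Matrix (Fin n) (Fin n) R) (f : MvPolynomial (Fin n) R) :
    subst (g * h) f = subst h (subst g f) := by
  have : subst (g * h) = (subst h).comp (subst g) := by
    apply MvPolynomial.algHom_ext
    intro i
    simp only [subst_X, AlgHom.comp_apply, map_sum, map_mul, subst_C, Matrix.mul_apply,
      Finset.mul_sum, Finset.sum_mul]
    rw [Finset.sum_comm]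
    simp only [mul_assoc]
  rw [this]
  rfl

lemma eval_subst (g : Matrix (Fin n) (Fin n) R) (p : Fin n → R) (f : MvPolynomial (Fin n) R) :
    eval p (subst g f) = eval (g *ᵥ p) f := by
  have : (aeval p).comp (subst g) = aeval (g *ᵥ p) := by
    apply MvPolynomial.algHom_ext
    intro i
    simp [Matrix.mulVec, dotProduct]
  have h2 := congrArg (fun φ => φ f) this
  simpa [aeval_eq_eval] using h2

lemma map_subst (φ : R →+* S) (g : Matrix (Fin n) (Fin n) R) (f : MvPolynomial (Fin n) R) :
    MvPolynomial.map φ (subst g f) = subst (g.map φ) (MvPolynomial.map φ f) := by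
  induction f using MvPolynomial.induction_on with
  | C a => simp
  | add p q hp hq => simp [hp, hq]
  | mul_X p i hp => simp [hp]

lemma pderiv_subst (g : Matrix (Fin n) (Fin n) R) (i : Fin n) (f : MvPolynomial (Fin n) R) :
    pderiv i (subst g f) = ∑ j, C (g j i) * subst g (pderiv j f) := by
  induction f using MvPolynomial.induction_on with
  | C a => simp
  | add p q hp hq => simp [hp, hq, mul_add, Finset.sum_add_distrib]
  | mul_X p k hp =>
    have h1 : pderiv i (subst g (X k)) = C (g k i) := by
      rw [subst_X, map_sum, Finset.sum_eq_single i]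
      · simp
      · intro b _ hb
        simp [pderiv_X_of_ne hb]
      · simp
    rw [map_mul, pderiv_mul, hp, h1]
    have h2 : ∀ j, C (g j i) * subst g (pderiv j (p * X k)) =
        C (g j i) * subst g (pderiv j p) * subst g (X k) +
        C (g j i) * (subst g p * subst g (pderiv j (X k))) := by
      intro j
      rw [pderiv_mul, map_add, map_mul, map_mul]
      ring
    simp only [h2, Finset.sum_add_distrib, ← Finset.sum_mul]
    congr 1
    rw [Finset.sum_eq_single k]
    · simp [mul_comm]
    · intro b _ hb
      simp [pderiv_X_of_ne (Ne.symm hb)]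
    · simp

lemma isHomogeneous_subst (g : Matrix (Fin n) (Fin n) R) {f : MvPolynomial (Fin n) R} {k : ℕ}
    (hf : f.IsHomogeneous k) : (subst g f).IsHomogeneous k := by
  have h1 : ∀ i : Fin n, (∑ j, C (g i j) * X j : MvPolynomial (Fin n) R).IsHomogeneous 1 := by
    intro i
    apply IsHomogeneous.sum
    intro j _
    have := (isHomogeneous_C (Fin n) (g i j)).mul (isHomogeneous_X R j)
    simpa using this
  have := hf.aeval (fun i => ∑ j, C (g i j) * X j : Fin n → MvPolynomial (Fin n) R) h1
  simpa [subst] using this

/-- The gradient. -/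
noncomputable def grad (f : MvPolynomial (Fin n) R) : Fin n → MvPolynomial (Fin n) R :=
  fun i => pderiv i f

/-- The (right) action of pairs of matrices on tuples. -/
noncomputable def act (F : Fin n → MvPolynomial (Fin n) R) (g a : Matrix (Fin n) (Fin n) R) :
    Fin n → MvPolynomial (Fin n) R :=
  fun i => ∑ j, C (a i j) * subst g (F j)

lemma act_one (F : Fin n → MvPolynomial (Fin n) R) : act F 1 1 = F := by
  funext i
  simp [act, subst_one, Matrix.one_apply]

lemma act_act (F : Fin n → MvPolynomial (Fin n) R) (g a g' a' : Matrix (Fin n) (Fin n) R) :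
    act (act F g a) g' a' = act F (g * g') (a' * a) := by
  funext i
  simp only [act, map_sum, map_mul, subst_C, Finset.mul_sum, Matrix.mul_apply, Finset.sum_mul,
    subst_mul]
  rw [Finset.sum_comm]
  simp only [mul_assoc]

lemma map_act (φ : R →+* S) (F : Fin n → MvPolynomial (Fin n) R)
    (g a : Matrix (Fin n) (Fin n) R) (i : Fin n) :
    MvPolynomial.map φ (act F g a i) =
      act (fun i => MvPolynomial.map φ (F i)) (g.map φ) (a.map φ) i := by
  simp [act, map_subst]

lemma grad_subst (g : Matrix (Fin n) (Fin n) R) (f : MvPolynomial (Fin n) R) :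
    grad (subst g f) = act (grad f) g gᵀ := by
  funext i
  simp [grad, act, pderiv_subst]

lemma act_add (F F' : Fin n → MvPolynomial (Fin n) R) (g a : Matrix (Fin n) (Fin n) R) :
    act (F + F') g a = act F g a + act F' g a := by
  funext i
  simp [act, mul_add, Finset.sum_add_distrib]

lemma grad_add (f f' : MvPolynomial (Fin n) R) : grad (f + f') = grad f + grad f' := by
  funext i
  simp [grad]

lemma map_grad (φ : R →+* S) (f : MvPolynomial (Fin n) R) (i : Fin n) :
    MvPolynomial.map φ (grad f i) = grad (MvPolynomial.map φ f) i := by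
  simp [grad, pderiv_map]

lemma isHomogeneous_act {F : Fin n → MvPolynomial (Fin n) R} {k : ℕ}
    (hF : ∀ i, (F i).IsHomogeneous k) (g a : Matrix (Fin n) (Fin n) R) (i : Fin n) :
    (act F g a i).IsHomogeneous k := by
  apply IsHomogeneous.sum
  intro j _
  have := (isHomogeneous_C (Fin n) (a i j)).mul (isHomogeneous_subst g (hF j))
  simpa using this

lemma isHomogeneous_grad {f : MvPolynomial (Fin n) R} {k : ℕ}
    (hf : f.IsHomogeneous k) (i : Fin n) : (grad f i).IsHomogeneous (k - 1) :=
  hf.pderiv

end basic

/-! ### Coefficient vectors -/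

/-- The exponents of degree `k`. -/
abbrev Mon (n k : ℕ) : Type := {α : Fin n →₀ ℕ // α.degree = k}

instance (n k : ℕ) : Finite (Mon n k) := by
  have : {α : Fin n →₀ ℕ | α.degree = k}.Finite := by
    apply Set.Finite.subset (Finset.finite_toSet (Finset.finsuppAntidiag Finset.univ k))
    intro α hα
    have hα' : α.degree = k := hα
    rw [Finset.mem_coe, Finset.mem_finsuppAntidiag]
    refine ⟨?_, Finset.subset_univ _⟩
    rw [← hα', Finsupp.degree_eq_sum]
  exact this

noncomputable instance (n k : ℕ) : Fintype (Mon n k) := Fintype.ofFinite _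

noncomputable instance (n k : ℕ) : DecidableEq (Mon n k) := Classical.decEq _

section coords

variable {R : Type u} [CommRing R] {S : Type v} [CommRing S] {k : ℕ}

/-- The coefficient vector of a form of degree `k`. -/
noncomputable def cf (k : ℕ) (f : MvPolynomial (Fin n) R) : Mon n k → R := fun α => coeff α.1 f

/-- The form of degree `k` with given coefficients. -/
noncomputable def frm (c : Mon n k → R) : MvPolynomial (Fin n) R := ∑ α, monomial α.1 (c α)

lemma isHomogeneous_frm (c : Mon n k → R) : (frm c).IsHomogeneous k := by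
  apply IsHomogeneous.sum
  intro α _
  exact isHomogeneous_monomial _ α.2

@[simp] lemma cf_frm (c : Mon n k → R) : cf k (frm c) = c := by
  funext α
  simp only [cf, frm, coeff_sum, coeff_monomial]
  rw [Finset.sum_eq_single α]
  · simp
  · intro β _ hβ
    rw [if_neg]
    exact fun h => hβ (Subtype.ext h)
  · simp

lemma frm_cf {f : MvPolynomial (Fin n) R} (hf : f.IsHomogeneous k) : frm (cf k f) = f := by
  ext m
  by_cases hm : m.degree = k
  · have := congrFun (cf_frm (cf k f)) ⟨m, hm⟩
    exact this
  · rw [(isHomogeneous_frm (cf k f)).coeff_eq_zero hm, hf.coeff_eq_zero hm]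

lemma frm_injective : Function.Injective (frm : (Mon n k → R) → MvPolynomial (Fin n) R) :=
  fun c c' h => by rw [← cf_frm c, h, cf_frm]

lemma map_frm (φ : R →+* S) (c : Mon n k → R) : MvPolynomial.map φ (frm c) = frm (φ ∘ c) := by
  simp [frm, map_monomial]

lemma cf_map (φ : R →+* S) (f : MvPolynomial (Fin n) R) :
    cf k (MvPolynomial.map φ f) = φ ∘ cf k f := by
  funext α
  simp [cf, coeff_map]

lemma cf_add (f f' : MvPolynomial (Fin n) R) : cf k (f + f') = cf k f + cf k f' := by
  funext α
  simp [cf]

lemma frm_add (c c' : Mon n k → R) : frm (c + c') = frm c + frm c' := by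
  simp [frm, Finset.sum_add_distrib]

/-- The coefficient vector of a tuple of forms of degree `k`. -/
noncomputable def ct (k : ℕ) (F : Fin n → MvPolynomial (Fin n) R) : Fin n × Mon n k → R :=
  fun p => coeff p.2.1 (F p.1)

/-- The tuple of forms of degree `k` with given coefficients. -/
noncomputable def tup (c : Fin n × Mon n k → R) : Fin n → MvPolynomial (Fin n) R :=
  fun i => frm fun α => c (i, α)

@[simp] lemma ct_tup (c : Fin n × Mon n k → R) : ct k (tup c) = c := by
  funext ⟨i, α⟩
  exact congrFun (cf_frm fun α => c (i, α)) α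

lemma isHomogeneous_tup (c : Fin n × Mon n k → R) (i : Fin n) : (tup c i).IsHomogeneous k :=
  isHomogeneous_frm _

lemma tup_ct {F : Fin n → MvPolynomial (Fin n) R} (hF : ∀ i, (F i).IsHomogeneous k) :
    tup (ct k F) = F := by
  funext i
  exact frm_cf (hF i)

lemma ct_map (φ : R →+* S) (F : Fin n → MvPolynomial (Fin n) R) :
    ct k (fun i => MvPolynomial.map φ (F i)) = φ ∘ ct k F := by
  funext p
  simp [ct, coeff_map]

lemma ct_add (F F' : Fin n → MvPolynomial (Fin n) R) : ct k (F + F') = ct k F + ct k F' := by
  funext p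
  simp [ct]

lemma map_tup (φ : R →+* S) (c : Fin n × Mon n k → R) (i : Fin n) :
    MvPolynomial.map φ (tup c i) = tup (φ ∘ c) i := map_frm φ _

end coords

end Pool.Agent.Lib.MP_4fcc12_ag
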