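import Mathlib.Algebra.MvPolynomial.PDeriv
import Mathlib.RingTheory.MvPolynomial.Homogeneous
import Mathlib.Data.Nat.Factorial.BigOperators
import Mathlib.LinearAlgebra.Matrix.Determinant.Basic
import Mathlib.Algebra.MvPolynomial.CommRing
import Mathlib.Data.Complex.Basic
import Pool.Agent.Lib.MP_4fcc12_ag.Forms
import Mathlib.LinearAlgebra.Matrix.ToLin
import Mathlib.Algebra.MvPolynomial.Funext
import Mathlib.LinearAlgebra.Matrix.MvPolynomial
import Mathlib.Algebra.CharZero.Infinite
import Mathlib.LinearAlgebra.Eigenspace.Pi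
import Mathlib.LinearAlgebra.Eigenspace.Semisimple
import Mathlib.LinearAlgebra.Matrix.Basis
import Mathlib.LinearAlgebra.Matrix.NonsingularInverse

section
open MvPolynomial

namespace Pool.Agent.Lib.MP_4fcc12_ag

universe u v w

section apolar

variable {σ : Type w} [Fintype σ] {R : Type u} [CommRing R]

/-- product of factorials -/
noncomputable def fac (m : σ →₀ ℕ) : ℕ := ∏ i, (m i).factorial

/-- the apolar pairing -/
noncomputable def apol (q : MvPolynomial σ R) : MvPolynomial σ R →ₗ[R] R :=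
  ∑ m ∈ q.support, (coeff m q * (fac m : R)) • lcoeff R m

lemma apol_eq_sum (q p : MvPolynomial σ R) (s : Finset (σ →₀ ℕ)) (hs : q.support ⊆ s) :
    apol q p = ∑ m ∈ s, coeff m q * (fac m : R) * coeff m p := by
  rw [apol, LinearMap.sum_apply]
  simp only [LinearMap.smul_apply, lcoeff_apply, smul_eq_mul]
  apply Finset.sum_subset hs
  intro m _ hm
  rw [notMem_support_iff.1 hm]
  simp

lemma apol_add (q q' p : MvPolynomial σ R) : apol (q + q') p = apol q p + apol q' p := by
  classical
  rw [apol_eq_sum (q + q') p (q.support ∪ q'.support) (support_add),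
    apol_eq_sum q p (q.support ∪ q'.support) Finset.subset_union_left,
    apol_eq_sum q' p (q.support ∪ q'.support) Finset.subset_union_right, ← Finset.sum_add_distrib]
  apply Finset.sum_congr rfl
  intro m _
  rw [coeff_add]
  ring

lemma apol_monomial (m : σ →₀ ℕ) (c : R) (p : MvPolynomial σ R) :
    apol (monomial m c) p = c * (fac m : R) * coeff m p := by
  classical
  rw [apol_eq_sum _ p {m} support_monomial_subset]
  simp

lemma apol_C_mul (c : R) (q p : MvPolynomial σ R) : apol (C c * q) p = c * apol q p := by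
  have h : (C c * q).support ⊆ q.support := by
    intro m hm
    rw [mem_support_iff, coeff_C_mul] at hm
    rw [mem_support_iff]
    exact fun h => hm (by rw [h, mul_zero])
  rw [apol_eq_sum _ p _ h, apol_eq_sum q p _ subset_rfl, Finset.mul_sum]
  apply Finset.sum_congr rfl
  intro m _
  rw [coeff_C_mul]
  ring

lemma apol_C (c : R) (p : MvPolynomial σ R) : apol (C c) p = c * coeff 0 p := by
  have := apol_monomial (0 : σ →₀ ℕ) c p
  rw [← C_apply] at this
  rw [this]
  simp [fac]

lemma fac_add_single [DecidableEq σ] (m : σ →₀ ℕ) (i : σ) :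
    fac (m + Finsupp.single i 1) = fac m * (m i + 1) := by
  rw [fac, fac, ← Finset.prod_erase_mul _ _ (Finset.mem_univ i),
    ← Finset.prod_erase_mul (s := Finset.univ) (fun j => (m j).factorial) (Finset.mem_univ i)]
  have h1 : ∀ j ∈ Finset.univ.erase i, ((m + Finsupp.single i 1 : σ →₀ ℕ) j).factorial =
      (m j).factorial := by
    intro j hj
    have : j ≠ i := Finset.ne_of_mem_erase hj
    simp [this.symm]
  rw [Finset.prod_congr rfl h1]
  have h2 : ((m + Finsupp.single i 1 : σ →₀ ℕ) i) = m i + 1 := by simp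
  rw [h2, Nat.factorial_succ]
  ring

lemma apol_mul_X (q p : MvPolynomial σ R) (i : σ) : apol (q * X i) p = apol q (pderiv i p) := by
  classical
  induction q using MvPolynomial.induction_on' with
  | monomial m a =>
    rw [X, monomial_mul, apol_monomial, apol_monomial, coeff_pderiv, fac_add_single]
    push_cast
    ring
  | add p q hp hq =>
    rw [add_mul, apol_add, apol_add, hp, hq]

lemma apol_sum {ι : Type*} (s : Finset ι) (q : ι → MvPolynomial σ R) (p : MvPolynomial σ R) :
    apol (∑ i ∈ s, q i) p = ∑ i ∈ s, apol (q i) p := by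
  classical
  induction s using Finset.induction_on with
  | empty =>
    have : apol (0 : MvPolynomial σ R) p = 0 := by
      rw [← C_0, apol_C, zero_mul]
    simpa using this
  | insert a s ha ih => rw [Finset.sum_insert ha, Finset.sum_insert ha, apol_add, ih]

/-- the linear change of variables `X i ↦ ∑ j, L i j X j` -/
noncomputable def lin (L : Matrix σ σ R) : MvPolynomial σ R →ₐ[R] MvPolynomial σ R :=
  aeval fun i => ∑ j, C (L i j) * X j

lemma pderiv_lin (L : Matrix σ σ R) (i : σ) (f : MvPolynomial σ R) :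
    pderiv i (lin L f) = ∑ j, C (L j i) * lin L (pderiv j f) := by
  classical
  have hC : ∀ c : R, lin L (C c) = C c := fun c => by simp [lin, algebraMap_eq]
  have hX : ∀ k : σ, lin L (X k) = ∑ j, C (L k j) * X j := fun k => by simp [lin]
  induction f using MvPolynomial.induction_on with
  | C a => simp [hC]
  | add p q hp hq => simp [hp, hq, mul_add, Finset.sum_add_distrib]
  | mul_X p k hp =>
    have h1 : pderiv i (lin L (X k)) = C (L k i) := by
      rw [hX, map_sum, Finset.sum_eq_single i]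
      · simp
      · intro b _ hb
        simp [pderiv_X_of_ne hb]
      · simp
    rw [map_mul, pderiv_mul, hp, h1]
    have h2 : ∀ j, C (L j i) * lin L (pderiv j (p * X k)) =
        C (L j i) * lin L (pderiv j p) * lin L (X k) +
        C (L j i) * (lin L p * lin L (pderiv j (X k))) := by
      intro j
      rw [pderiv_mul, map_add, map_mul, map_mul]
      ring
    simp only [h2, Finset.sum_add_distrib, ← Finset.sum_mul]
    congr 1
    rw [Finset.sum_eq_single k]
    · simp [mul_comm]
    · intro b _ hb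
      simp [pderiv_X_of_ne (Ne.symm hb)]
    · simp

/-- adjunction -/
lemma apol_lin (L : Matrix σ σ R) (q p : MvPolynomial σ R) :
    apol (lin L.transpose q) p = apol q (lin L p) := by
  induction q using MvPolynomial.induction_on generalizing p with
  | C a =>
    have : coeff 0 (lin L p) = coeff 0 p := by
      have h1 : (constantCoeff : MvPolynomial σ R →+* R).comp (lin L).toRingHom =
          constantCoeff := by
        apply MvPolynomial.ringHom_ext
        · intro r
          simp [lin]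
        · intro i
          simp [lin]
      exact congrArg (fun φ => φ p) h1
    have hC : lin L.transpose (C a) = C a := by simp [lin, algebraMap_eq]
    rw [hC, apol_C, apol_C, this]
  | add q q' hq hq' => rw [map_add, apol_add, apol_add, hq, hq']
  | mul_X q i hq =>
    have h1 : lin L.transpose (q * X i) =
        ∑ j, C (L j i) * (lin L.transpose q * X j) := by
      rw [map_mul]
      have : lin L.transpose (X i) = ∑ j, C (L j i) * X j := by simp [lin]
      rw [this, Finset.mul_sum]
      apply Finset.sum_congr rfl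
      intro j _
      ring
    rw [h1, apol_sum, apol_mul_X, pderiv_lin, map_sum]
    apply Finset.sum_congr rfl
    intro j _
    rw [apol_C_mul, apol_mul_X, hq, ← smul_eq_C_mul, map_smul, smul_eq_mul]

lemma apol_map {S : Type v} [CommRing S] (φ : R →+* S) (q p : MvPolynomial σ R) :
    apol (MvPolynomial.map φ q) (MvPolynomial.map φ p) = φ (apol q p) := by
  rw [apol_eq_sum (MvPolynomial.map φ q) _ q.support (support_map_subset _ _),
    apol_eq_sum q p _ subset_rfl, map_sum]
  apply Finset.sum_congr rfl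
  intro m _
  simp [coeff_map]

end apolar

/-- positivity over the integers -/
lemma apol_self_pos {σ : Type w} [Fintype σ] (q : MvPolynomial σ ℤ) (hq : q ≠ 0) :
    0 < apol q q := by
  rw [apol_eq_sum q q _ subset_rfl]
  apply Finset.sum_pos
  · intro m hm
    have h1 : coeff m q ≠ 0 := mem_support_iff.1 hm
    have h2 : 0 < (fac m : ℤ) := by
      have : 0 < fac m := Finset.prod_pos fun i _ => Nat.factorial_pos _
      exact_mod_cast this
    have h3 : 0 < coeff m q * coeff m q := mul_self_pos.2 h1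
    nlinarith
  · exact support_nonempty.2 hq

end Pool.Agent.Lib.MP_4fcc12_ag
end

section
open MvPolynomial Matrix

set_option linter.unusedSectionVars false

namespace Pool.Agent.Lib.MP_4fcc12_ag

variable {n : ℕ}

/-- coordinates on pairs of matrices -/
abbrev Grp (n : ℕ) : Type := (Fin n × Fin n) ⊕ (Fin n × Fin n)

/-- the coordinate vector of a pair of matrices -/
def gpt {R : Type*} (g a : Matrix (Fin n) (Fin n) R) : Grp n → R :=
  Sum.elim (fun p => g p.1 p.2) (fun p => a p.1 p.2)

/-- generic first matrix -/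
noncomputable def gX (n : ℕ) (R : Type*) [CommRing R] : Matrix (Fin n) (Fin n) (MvPolynomial (Grp n) R) :=
  Matrix.of fun i j => X (Sum.inl (i, j))

/-- generic second matrix -/
noncomputable def aX (n : ℕ) (R : Type*) [CommRing R] : Matrix (Fin n) (Fin n) (MvPolynomial (Grp n) R) :=
  Matrix.of fun i j => X (Sum.inr (i, j))

/-- `det g ^ w₁ * det a ^ w₂` -/
noncomputable def dd (R : Type*) [CommRing R] (w₁ w₂ : ℕ) : MvPolynomial (Grp n) R :=
  (gX n R).det ^ w₁ * (aX n R).det ^ w₂

lemma map_gX {R S : Type*} [CommRing R] [CommRing S] (φ : R →+* S) :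
    (gX n R).map (MvPolynomial.map φ) = gX n S := by
  ext i j : 2
  simp [gX]

lemma map_aX {R S : Type*} [CommRing R] [CommRing S] (φ : R →+* S) :
    (aX n R).map (MvPolynomial.map φ) = aX n S := by
  ext i j : 2
  simp [aX]

lemma map_dd {R S : Type*} [CommRing R] [CommRing S] (φ : R →+* S) (w₁ w₂ : ℕ) :
    MvPolynomial.map φ (dd (n := n) R w₁ w₂) = dd S w₁ w₂ := by
  rw [dd, map_mul, map_pow, map_pow, RingHom.map_det, RingHom.map_det]
  simp only [RingHom.mapMatrix_apply, map_gX, map_aX]
  rfl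

lemma eval_dd {R : Type*} [CommRing R] (w₁ w₂ : ℕ) (g a : Matrix (Fin n) (Fin n) R) :
    eval (gpt g a) (dd R w₁ w₂) = g.det ^ w₁ * a.det ^ w₂ := by
  have h1 : (gX n R).map (eval (gpt g a)) = g := by
    ext i j
    simp [gX, gpt]
  have h2 : (aX n R).map (eval (gpt g a)) = a := by
    ext i j
    simp [aX, gpt]
  rw [dd, map_mul, map_pow, map_pow, RingHom.map_det, RingHom.map_det]
  simp only [RingHom.mapMatrix_apply, h1, h2]

lemma dd_ne_zero (R : Type*) [CommRing R] [Nontrivial R] (w₁ w₂ : ℕ) :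
    dd (n := n) R w₁ w₂ ≠ 0 := by
  intro h
  have := eval_dd w₁ w₂ (1 : Matrix (Fin n) (Fin n) R) 1
  rw [h] at this
  simp at this

/-- the normalization constant -/
noncomputable def nrm (n w₁ w₂ : ℕ) : ℤ := apol (dd (n := n) ℤ w₁ w₂) (dd ℤ w₁ w₂)

lemma nrm_pos (n w₁ w₂ : ℕ) : 0 < nrm n w₁ w₂ := apol_self_pos _ (dd_ne_zero _ _ _)

section Lam

variable {R : Type*} [CommRing R] [Algebra ℂ R] {S : Type*} [CommRing S] [Algebra ℂ S]

/-- the invariant functional -/
noncomputable def Lam (w₁ w₂ : ℕ) : MvPolynomial (Grp n) R →ₗ[R] R :=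
  (algebraMap ℂ R ((nrm n w₁ w₂ : ℂ)⁻¹)) • apol (dd R w₁ w₂)

lemma Lam_apply (w₁ w₂ : ℕ) (p : MvPolynomial (Grp n) R) :
    Lam w₁ w₂ p = algebraMap ℂ R ((nrm n w₁ w₂ : ℂ)⁻¹) * apol (dd R w₁ w₂) p := rfl

lemma Lam_dd (w₁ w₂ : ℕ) : Lam w₁ w₂ (dd (n := n) R w₁ w₂) = 1 := by
  rw [Lam_apply]
  have h1 := apol_map (Int.castRingHom R) (dd (n := n) ℤ w₁ w₂) (dd ℤ w₁ w₂)
  rw [map_dd] at h1
  rw [h1, ← nrm, eq_intCast]
  have h2 : ((nrm n w₁ w₂ : ℤ) : R) = algebraMap ℂ R (nrm n w₁ w₂ : ℂ) := by simp
  rw [h2, ← map_mul, inv_mul_cancel₀, map_one]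
  exact_mod_cast (nrm_pos n w₁ w₂).ne'

lemma Lam_map (φ : R →ₐ[ℂ] S) (w₁ w₂ : ℕ) (p : MvPolynomial (Grp n) R) :
    φ (Lam w₁ w₂ p) = Lam w₁ w₂ (MvPolynomial.map φ.toRingHom p) := by
  rw [Lam_apply, Lam_apply, map_mul, AlgHom.commutes, ← map_dd φ.toRingHom]
  congr 1
  exact (apol_map φ.toRingHom _ _).symm

/-- translation on the group coordinates: `(g, a) ↦ (h g, a h')` -/
noncomputable def trl (h h' : Matrix (Fin n) (Fin n) R) :
    MvPolynomial (Grp n) R →ₐ[R] MvPolynomial (Grp n) R :=
  aeval (gpt (h.map C * gX n R) (aX n R * h'.map C))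

/-- the matrix of the translation -/
def trlM (h h' : Matrix (Fin n) (Fin n) R) : Matrix (Grp n) (Grp n) R :=
  Matrix.fromBlocks
    (Matrix.of fun p q => if p.2 = q.2 then h p.1 q.1 else 0) 0 0
    (Matrix.of fun p q => if p.1 = q.1 then h' q.2 p.2 else 0)

lemma trl_eq_lin (h h' : Matrix (Fin n) (Fin n) R) : trl h h' = lin (trlM h h') := by
  apply MvPolynomial.algHom_ext
  rintro (⟨i, j⟩ | ⟨i, j⟩)
  · simp only [trl, gpt, aeval_X, lin, Sum.elim_inl, Matrix.mul_apply, Matrix.map_apply, gX,
      Matrix.of_apply, Fintype.sum_sum_type, trlM, Matrix.fromBlocks_apply₁₁,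
      Matrix.fromBlocks_apply₁₂, Matrix.zero_apply, map_zero, zero_mul, Finset.sum_const_zero,
      add_zero, Fintype.sum_prod_type]
    apply Finset.sum_congr rfl
    intro k _
    rw [Finset.sum_eq_single j]
    · simp
    · intro b _ hb
      simp [hb.symm]
    · simp
  · simp only [trl, gpt, aeval_X, lin, Sum.elim_inr, Matrix.mul_apply, Matrix.map_apply, aX,
      Matrix.of_apply, Fintype.sum_sum_type, trlM, Matrix.fromBlocks_apply₂₁,
      Matrix.fromBlocks_apply₂₂, Matrix.zero_apply, map_zero, zero_mul, Finset.sum_const_zero,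
      zero_add, Fintype.sum_prod_type]
    refine Eq.trans ?_ (Finset.sum_eq_single i ?_ ?_).symm
    · apply Finset.sum_congr rfl
      intro k _
      simp [mul_comm]
    · intro b _ hb
      simp [hb.symm]
    · simp

lemma trlM_transpose (h h' : Matrix (Fin n) (Fin n) R) :
    (trlM h h').transpose = trlM h.transpose h'.transpose := by
  ext (p | p) (q | q)
  · simp [trlM, eq_comm]
  · simp [trlM]
  · simp [trlM]
  · simp [trlM, eq_comm]

lemma trl_dd (h h' : Matrix (Fin n) (Fin n) R) (w₁ w₂ : ℕ) :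
    trl h h' (dd R w₁ w₂) = C (h.det ^ w₁ * h'.det ^ w₂) * dd R w₁ w₂ := by
  have h1 : (gX n R).map (trl h h') = h.map C * gX n R := by
    ext i j : 2
    simp [gX, trl, gpt]
  have h2 : (aX n R).map (trl h h') = aX n R * h'.map C := by
    ext i j : 2
    simp [aX, trl, gpt]
  rw [dd, map_mul, map_pow, map_pow, AlgHom.map_det, AlgHom.map_det]
  simp only [AlgHom.mapMatrix_apply, h1, h2, Matrix.det_mul]
  have h3 : (h.map (C : R →+* MvPolynomial (Grp n) R)).det = C h.det := by
    rw [RingHom.map_det]; rfl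
  have h4 : (h'.map (C : R →+* MvPolynomial (Grp n) R)).det = C h'.det := by
    rw [RingHom.map_det]; rfl
  rw [h3, h4]
  simp only [map_mul, map_pow]
  ring

lemma Lam_trl (h h' : Matrix (Fin n) (Fin n) R) (w₁ w₂ : ℕ) (p : MvPolynomial (Grp n) R) :
    Lam w₁ w₂ (trl h h' p) = h.det ^ w₁ * h'.det ^ w₂ * Lam w₁ w₂ p := by
  rw [Lam_apply, Lam_apply, trl_eq_lin, ← apol_lin, trlM_transpose, ← trl_eq_lin, trl_dd,
    apol_C_mul, Matrix.det_transpose, Matrix.det_transpose]
  ring

end Lam


/-! ### polynomial actions of pairs of matrices -/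

/-- A right action of pairs of matrices on an affine space, given by polynomials. -/
structure Actn (n : ℕ) (κ : Type) where
  pol : κ → MvPolynomial (Grp n ⊕ κ) ℂ

namespace Actn

variable {κ : Type} (A : Actn n κ)

/-- the action on `R`-points -/
noncomputable def app {R : Type*} [CommRing R] [Algebra ℂ R] (x : κ → R)
    (g a : Matrix (Fin n) (Fin n) R) : κ → R :=
  fun k => aeval (Sum.elim (gpt g a) x) (A.pol k)

lemma map_app {R S : Type*} [CommRing R] [Algebra ℂ R] [CommRing S] [Algebra ℂ S]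
    (φ : R →ₐ[ℂ] S) (x : κ → R) (g a : Matrix (Fin n) (Fin n) R) :
    φ ∘ A.app x g a = A.app (φ ∘ x) (g.map φ) (a.map φ) := by
  funext k
  have h1 : φ.comp (aeval (Sum.elim (gpt g a) x)) =
      aeval (Sum.elim (gpt (g.map φ) (a.map φ)) (φ ∘ x)) := by
    apply MvPolynomial.algHom_ext
    rintro ((p | p) | p) <;> simp [gpt]
  exact congrArg (fun ψ => ψ (A.pol k)) h1

/-- the axioms of an action -/
class IsAction : Prop where
  app_one : ∀ {R : Type} [CommRing R] [Algebra ℂ R] (x : κ → R), A.app x 1 1 = x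
  app_app : ∀ {R : Type} [CommRing R] [Algebra ℂ R] (x : κ → R)
    (g a g' a' : Matrix (Fin n) (Fin n) R), A.app (A.app x g a) g' a' = A.app x (g * g') (a' * a)

/-- semi-invariants -/
def Semi (w₁ w₂ : ℕ) (P : MvPolynomial κ ℂ) : Prop :=
  ∀ {R : Type} [CommRing R] [Algebra ℂ R] (x : κ → R) (g a : Matrix (Fin n) (Fin n) R),
    aeval (A.app x g a) P = g.det ^ w₁ * a.det ^ w₂ * aeval x P

lemma semi_of_complex [Finite κ] (w₁ w₂ : ℕ) (P : MvPolynomial κ ℂ)
    (h : ∀ (x : κ → ℂ) (g a : Matrix (Fin n) (Fin n) ℂ), g.det ≠ 0 → a.det ≠ 0 →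
      aeval (A.app x g a) P = g.det ^ w₁ * a.det ^ w₂ * aeval x P) : A.Semi w₁ w₂ P := by
  classical
  -- generic point
  let T := MvPolynomial (Grp n ⊕ κ) ℂ
  let gT : Matrix (Fin n) (Fin n) T := Matrix.of fun i j => X (Sum.inl (Sum.inl (i, j)))
  let aT : Matrix (Fin n) (Fin n) T := Matrix.of fun i j => X (Sum.inl (Sum.inr (i, j)))
  let xT : κ → T := fun k => X (Sum.inr k)
  have key : aeval (A.app xT gT aT) P = gT.det ^ w₁ * aT.det ^ w₂ * aeval xT P := by
    have hne : (gT.det * aT.det) ≠ 0 := by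
      intro h0
      have h1 := congrArg (eval (Sum.elim (gpt (1 : Matrix (Fin n) (Fin n) ℂ) 1) 0)) h0
      have hg : gT.map (eval (Sum.elim (gpt (1 : Matrix (Fin n) (Fin n) ℂ) 1) 0)) = 1 := by
        ext i j
        simp [gT, gpt]
      have ha : aT.map (eval (Sum.elim (gpt (1 : Matrix (Fin n) (Fin n) ℂ) 1) 0)) = 1 := by
        ext i j
        simp [aT, gpt]
      rw [map_mul, RingHom.map_det, RingHom.map_det] at h1
      simp only [RingHom.mapMatrix_apply, hg, ha] at h1
      simp at h1
    apply mul_left_cancel₀ hne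
    apply MvPolynomial.funext
    intro y
    let g : Matrix (Fin n) (Fin n) ℂ := Matrix.of fun i j => y (Sum.inl (Sum.inl (i, j)))
    let a : Matrix (Fin n) (Fin n) ℂ := Matrix.of fun i j => y (Sum.inl (Sum.inr (i, j)))
    let x : κ → ℂ := fun k => y (Sum.inr k)
    let ev : T →ₐ[ℂ] ℂ := aeval y
    have hev : ∀ p, eval y p = ev p := fun p => (RingHom.congr_fun (coe_aeval_eq_eval y) p).symm
    have hX : ∀ s, ev (X s) = y s := fun s => aeval_X _ _
    have hg : gT.map ev = g := by
      ext i j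
      exact hX _
    have ha : aT.map ev = a := by
      ext i j
      exact hX _
    have hx : ev ∘ xT = x := by
      funext k
      exact hX _
    have hgd : ev gT.det = g.det := by
      rw [AlgHom.map_det, AlgHom.mapMatrix_apply, hg]
    have had : ev aT.det = a.det := by
      rw [AlgHom.map_det, AlgHom.mapMatrix_apply, ha]
    have e1 : ev (aeval (A.app xT gT aT) P) = aeval (A.app x g a) P := by
      rw [← AlgHom.comp_apply, comp_aeval]
      have := A.map_app ev xT gT aT
      rw [hg, ha, hx] at this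
      rw [← this]
      rfl
    have e2 : ev (aeval xT P) = aeval x P := by
      rw [← AlgHom.comp_apply, comp_aeval]
      rw [← hx]
      rfl
    have e3 : ev (gT.det ^ w₁ * aT.det ^ w₂ * aeval xT P) =
        g.det ^ w₁ * a.det ^ w₂ * aeval x P := by
      rw [map_mul, map_mul, map_pow, map_pow, e2, hgd, had]
    have e4 : ev (gT.det * aT.det) = g.det * a.det := by rw [map_mul, hgd, had]
    rw [hev, hev, map_mul ev (gT.det * aT.det), map_mul ev (gT.det * aT.det), e1, e3, e4]
    by_cases h0 : g.det = 0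
    · simp [h0]
    by_cases h1 : a.det = 0
    · simp [h1]
    rw [h x g a h0 h1]
  intro R _ _ x g a
  let ev : T →ₐ[ℂ] R := aeval (Sum.elim (gpt g a) x)
  have hX : ∀ s, ev (X s) = Sum.elim (gpt g a) x s := fun s => aeval_X _ _
  have hg : gT.map ev = g := by
    ext i j
    exact hX _
  have ha : aT.map ev = a := by
    ext i j
    exact hX _
  have hx : ev ∘ xT = x := by
    funext k
    exact hX _
  have hgd : ev gT.det = g.det := by
    rw [AlgHom.map_det, AlgHom.mapMatrix_apply, hg]
  have had : ev aT.det = a.det := by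
    rw [AlgHom.map_det, AlgHom.mapMatrix_apply, ha]
  have e1 : ev (aeval (A.app xT gT aT) P) = aeval (A.app x g a) P := by
    rw [← AlgHom.comp_apply, comp_aeval]
    have := A.map_app ev xT gT aT
    rw [hg, ha, hx] at this
    rw [← this]
    rfl
  have e2 : ev (aeval xT P) = aeval x P := by
    rw [← AlgHom.comp_apply, comp_aeval]
    rw [← hx]
    rfl
  have := congrArg ev key
  rw [e1, map_mul, map_mul, map_pow, map_pow, e2, hgd, had] at this
  exact this

/-- the Reynolds operator (weights `w₁, w₂`, twisted by `det g ^ u₁ * det a ^ u₂`) -/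
noncomputable def rey (w₁ w₂ u₁ u₂ : ℕ) (P : MvPolynomial κ ℂ) : MvPolynomial κ ℂ :=
  Lam w₁ w₂ (dd (MvPolynomial κ ℂ) u₁ u₂ *
    aeval (A.app (fun k => C (X k)) (gX n (MvPolynomial κ ℂ)) (aX n (MvPolynomial κ ℂ))) P)

lemma aeval_rey {R : Type*} [CommRing R] [Algebra ℂ R] (w₁ w₂ u₁ u₂ : ℕ) (P : MvPolynomial κ ℂ)
    (x : κ → R) :
    aeval x (A.rey w₁ w₂ u₁ u₂ P) =
      Lam w₁ w₂ (dd R u₁ u₂ * aeval (A.app (fun k => C (x k)) (gX n R) (aX n R)) P) := by
  rw [rey, Lam_map, map_mul]
  have h1 : MvPolynomial.map (aeval x : MvPolynomial κ ℂ →ₐ[ℂ] R).toRingHom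
      (dd (n := n) (MvPolynomial κ ℂ) u₁ u₂) = dd R u₁ u₂ := map_dd _ _ _
  rw [h1]
  congr 2
  let φ : MvPolynomial (Grp n) (MvPolynomial κ ℂ) →ₐ[ℂ] MvPolynomial (Grp n) R :=
    MvPolynomial.mapAlgHom (aeval x : MvPolynomial κ ℂ →ₐ[ℂ] R)
  have h2 : ∀ p, MvPolynomial.map (aeval x : MvPolynomial κ ℂ →ₐ[ℂ] R).toRingHom p = φ p :=
    fun p => rfl
  rw [h2, ← AlgHom.comp_apply, comp_aeval]
  have h3 := A.map_app φ (fun k => C (X k)) (gX n (MvPolynomial κ ℂ)) (aX n (MvPolynomial κ ℂ))
  have hg : (gX n (MvPolynomial κ ℂ)).map φ = gX n R := map_gX _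
  have ha : (aX n (MvPolynomial κ ℂ)).map φ = aX n R := map_aX _
  have hx : φ ∘ (fun k => C (X k)) = fun k => C (x k) := by
    funext k
    simp [φ]
  rw [hg, ha, hx] at h3
  rw [← h3]
  rfl


variable [A.IsAction]

lemma app_one {R : Type} [CommRing R] [Algebra ℂ R] (x : κ → R) : A.app x 1 1 = x :=
  IsAction.app_one x

lemma app_app {R : Type} [CommRing R] [Algebra ℂ R] (x : κ → R)
    (g a g' a' : Matrix (Fin n) (Fin n) R) : A.app (A.app x g a) g' a' = A.app x (g * g') (a' * a) :=
  IsAction.app_app x g a g' a'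

omit [A.IsAction] in
lemma aeval_C_comp {R : Type*} [CommRing R] [Algebra ℂ R] {τ : Type*} (x : κ → R)
    (P : MvPolynomial κ ℂ) :
    aeval (fun k => (C (x k) : MvPolynomial τ R)) P = C (aeval x P) := by
  let φ : R →ₐ[ℂ] MvPolynomial τ R := (Algebra.ofId R (MvPolynomial τ R)).restrictScalars ℂ
  have : ∀ r, φ r = C r := fun r => rfl
  rw [← this, ← AlgHom.comp_apply, comp_aeval]
  rfl

omit [A.IsAction] in
/-- the base change of a point along `C` -/
lemma app_C {R : Type} [CommRing R] [Algebra ℂ R] {τ : Type} (x : κ → R)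
    (g a : Matrix (Fin n) (Fin n) R) :
    A.app (fun k => (C (x k) : MvPolynomial τ R)) (g.map C) (a.map C) = fun k => C (A.app x g a k) := by
  let φ : R →ₐ[ℂ] MvPolynomial τ R := (Algebra.ofId R (MvPolynomial τ R)).restrictScalars ℂ
  exact (A.map_app φ x g a).symm

/-- translating the argument of a semi-invariant polynomial -/
lemma trl_aeval {R : Type} [CommRing R] [Algebra ℂ R] (x : κ → R)
    (h h' : Matrix (Fin n) (Fin n) R) (P : MvPolynomial κ ℂ) :
    trl h h' (aeval (A.app (fun k => C (x k)) (gX n R) (aX n R)) P) =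
      aeval (A.app (fun k => C (A.app x h h' k)) (gX n R) (aX n R)) P := by
  let φ : MvPolynomial (Grp n) R →ₐ[ℂ] MvPolynomial (Grp n) R := (trl h h').restrictScalars ℂ
  have h1 : ∀ p, trl h h' p = φ p := fun p => rfl
  rw [h1, ← AlgHom.comp_apply, comp_aeval]
  have h2 := A.map_app φ (fun k => C (x k)) (gX n R) (aX n R)
  have h3 : (gX n R).map φ = h.map C * gX n R := by
    ext i j : 2
    simp [φ, gX, trl, gpt]
  have h4 : (aX n R).map φ = aX n R * h'.map C := by
    ext i j : 2
    simp [φ, aX, trl, gpt]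
  have h5 : φ ∘ (fun k => C (x k)) = fun k => C (x k) := by
    funext k
    simp [φ, trl]
  rw [h3, h4, h5, ← app_app, app_C] at h2
  rw [← h2]
  rfl

/-- the Reynolds operator produces semi-invariants -/
lemma semi_rey [Finite κ] (w₁ w₂ u₁ u₂ : ℕ) (P : MvPolynomial κ ℂ) (h₁ : u₁ ≤ w₁) (h₂ : u₂ ≤ w₂) :
    A.Semi (w₁ - u₁) (w₂ - u₂) (A.rey w₁ w₂ u₁ u₂ P) := by
  apply semi_of_complex
  intro x g a hg ha
  rw [aeval_rey, aeval_rey]
  have h1 := Lam_trl g a w₁ w₂
    (dd ℂ u₁ u₂ * aeval (A.app (fun k => C (x k)) (gX n ℂ) (aX n ℂ)) P)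
  rw [map_mul, trl_dd, trl_aeval, mul_assoc, ← smul_eq_C_mul, map_smul, smul_eq_mul] at h1
  have h2 : g.det ^ w₁ * a.det ^ w₂ =
      (g.det ^ u₁ * a.det ^ u₂) * (g.det ^ (w₁ - u₁) * a.det ^ (w₂ - u₂)) := by
    rw [← Nat.sub_add_cancel h₁, ← Nat.sub_add_cancel h₂]
    simp only [Nat.add_sub_cancel]
    ring
  rw [h2, mul_assoc (g.det ^ u₁ * a.det ^ u₂)] at h1
  exact mul_left_cancel₀ (mul_ne_zero (pow_ne_zero _ hg) (pow_ne_zero _ ha)) h1

/-- the Reynolds operator is a projection -/
lemma rey_of_semi {w₁ w₂ v₁ v₂ : ℕ} (u₁ u₂ : ℕ) {P : MvPolynomial κ ℂ} (hP : A.Semi v₁ v₂ P)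
    (h₁ : u₁ + v₁ = w₁) (h₂ : u₂ + v₂ = w₂) : A.rey w₁ w₂ u₁ u₂ P = P := by
  have h1 := hP (fun k => C (X k)) (gX n (MvPolynomial κ ℂ)) (aX n (MvPolynomial κ ℂ))
  rw [rey, h1]
  have h2 : dd (n := n) (MvPolynomial κ ℂ) u₁ u₂ * ((gX n (MvPolynomial κ ℂ)).det ^ v₁ *
      (aX n (MvPolynomial κ ℂ)).det ^ v₂ * aeval (fun k => C (X k)) P) =
      C P * dd (MvPolynomial κ ℂ) w₁ w₂ := by
    rw [aeval_C_comp, aeval_X_left_apply, dd, dd, ← h₁, ← h₂]
    ring
  rw [h2, ← smul_eq_C_mul, map_smul, Lam_dd, smul_eq_mul, mul_one]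

/-- linearity over semi-invariants -/
lemma rey_mul {w₁ w₂ v₁ v₂ : ℕ} (u₁ u₂ : ℕ) {P : MvPolynomial κ ℂ} (hP : A.Semi v₁ v₂ P)
    (Q : MvPolynomial κ ℂ) :
    A.rey w₁ w₂ u₁ u₂ (P * Q) = P * A.rey w₁ w₂ (u₁ + v₁) (u₂ + v₂) Q := by
  have h1 := hP (fun k => C (X k)) (gX n (MvPolynomial κ ℂ)) (aX n (MvPolynomial κ ℂ))
  rw [rey, rey, map_mul _ P Q, h1]
  have h2 : dd (n := n) (MvPolynomial κ ℂ) u₁ u₂ * ((gX n (MvPolynomial κ ℂ)).det ^ v₁ *
      (aX n (MvPolynomial κ ℂ)).det ^ v₂ * aeval (fun k => C (X k)) P *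
      aeval (A.app (fun k => C (X k)) (gX n (MvPolynomial κ ℂ)) (aX n (MvPolynomial κ ℂ))) Q) =
      C P * (dd (MvPolynomial κ ℂ) (u₁ + v₁) (u₂ + v₂) *
      aeval (A.app (fun k => C (X k)) (gX n (MvPolynomial κ ℂ)) (aX n (MvPolynomial κ ℂ))) Q) := by
    rw [aeval_C_comp, aeval_X_left_apply, dd, dd]
    ring
  rw [h2, ← smul_eq_C_mul, map_smul, smul_eq_mul]

omit [A.IsAction] in
lemma rey_add (w₁ w₂ u₁ u₂ : ℕ) (P Q : MvPolynomial κ ℂ) :
    A.rey w₁ w₂ u₁ u₂ (P + Q) = A.rey w₁ w₂ u₁ u₂ P + A.rey w₁ w₂ u₁ u₂ Q := by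
  rw [rey, map_add, mul_add, map_add]
  rfl

omit [A.IsAction] in
lemma rey_sum {ι : Type*} (w₁ w₂ u₁ u₂ : ℕ) (s : Finset ι) (P : ι → MvPolynomial κ ℂ) :
    A.rey w₁ w₂ u₁ u₂ (∑ i ∈ s, P i) = ∑ i ∈ s, A.rey w₁ w₂ u₁ u₂ (P i) := by
  rw [rey, map_sum, Finset.mul_sum, map_sum]
  rfl

end Actn

end Pool.Agent.Lib.MP_4fcc12_ag
end

section
open MvPolynomial Matrix

set_option linter.unusedSectionVars false

namespace Pool.Agent.Lib.MP_4fcc12_ag

variable {n : ℕ}

/-- a tuple of polynomials whose only common zero is the origin -/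
def Reg {F : Type*} [Field F] (T : Fin n → MvPolynomial (Fin n) F) : Prop :=
  ∀ p : Fin n → F, (∀ i, eval p (T i) = 0) → p = 0

/-- a polynomial whose partial derivatives only vanish simultaneously at the origin -/
def NonDeg {F : Type*} [Field F] (f : MvPolynomial (Fin n) F) : Prop := Reg (grad f)

section field

variable {F : Type*} [Field F]

lemma eval_act (T : Fin n → MvPolynomial (Fin n) F) (g a : Matrix (Fin n) (Fin n) F)
    (p : Fin n → F) (i : Fin n) :
    eval p (act T g a i) = (a *ᵥ fun j => eval (g *ᵥ p) (T j)) i := by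
  simp [act, eval_subst, Matrix.mulVec, dotProduct]

lemma Reg.act {T : Fin n → MvPolynomial (Fin n) F} (hT : Reg T) {g a : Matrix (Fin n) (Fin n) F}
    (hg : IsUnit g.det) (ha : IsUnit a.det) : Reg (act T g a) := by
  intro p hp
  have h1 : (a *ᵥ fun j => eval (g *ᵥ p) (T j)) = 0 := by
    funext i
    rw [← eval_act]
    exact hp i
  have h2 : (fun j => eval (g *ᵥ p) (T j)) = 0 := by
    have := congrArg (a⁻¹ *ᵥ ·) h1
    simpa [Matrix.mulVec_mulVec, Matrix.nonsing_inv_mul _ ha] using this
  have h3 := hT _ (fun i => congrFun h2 i)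
  have := congrArg (g⁻¹ *ᵥ ·) h3
  simpa [Matrix.mulVec_mulVec, Matrix.nonsing_inv_mul _ hg] using this

lemma NonDeg.subst {f : MvPolynomial (Fin n) F} (hf : NonDeg f) {g : Matrix (Fin n) (Fin n) F}
    (hg : IsUnit g.det) : NonDeg (subst g f) := by
  unfold NonDeg
  rw [grad_subst]
  exact Reg.act hf hg (by rwa [Matrix.det_transpose])

lemma eval_single {f : MvPolynomial (Fin n) F} {k : ℕ} (hf : f.IsHomogeneous k) (i : Fin n) :
    eval (Pi.single i 1) f = coeff (Finsupp.single i k) f := by
  classical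
  rw [eval_eq]
  by_cases hm : Finsupp.single i k ∈ f.support
  · rw [Finset.sum_eq_single (Finsupp.single i k)]
    · have : ∏ j ∈ (Finsupp.single i k).support, (Pi.single i (1 : F) : Fin n → F) j ^
          (Finsupp.single i k) j = 1 := by
        apply Finset.prod_eq_one
        intro j hj
        have hj' : j = i := by
          by_contra hne
          rw [Finsupp.mem_support_iff, Finsupp.single_apply, if_neg (Ne.symm hne)] at hj
          exact hj rfl
        subst hj'
        simp
      rw [this, mul_one]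
    · intro m hm' hne
      have hdeg : m.degree = k := by
        by_contra h
        exact (mem_support_iff.1 hm') (hf.coeff_eq_zero h)
      obtain ⟨j, hj, hj'⟩ : ∃ j ∈ m.support, j ≠ i := by
        by_contra hall
        push Not at hall
        apply hne
        have h1 : m = Finsupp.single i (m i) := by
          ext j
          by_cases hji : j = i
          · subst hji; simp
          · rw [Finsupp.single_apply, if_neg (Ne.symm hji)]
            by_contra h0
            exact hji (hall j (Finsupp.mem_support_iff.2 h0))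
        have h2 : m i = k := by
          rw [h1, Finsupp.degree_single] at hdeg
          exact hdeg
        rw [h1, h2]
      have : ∏ j ∈ m.support, (Pi.single i (1 : F) : Fin n → F) j ^ m j = 0 := by
        apply Finset.prod_eq_zero hj
        rw [Pi.single_eq_of_ne hj', zero_pow (Finsupp.mem_support_iff.1 hj)]
      rw [this, mul_zero]
    · intro h
      exact absurd hm h
  · rw [notMem_support_iff.1 hm]
    apply Finset.sum_eq_zero
    intro m hm'
    have hdeg : m.degree = k := by
      by_contra h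
      exact (mem_support_iff.1 hm') (hf.coeff_eq_zero h)
    obtain ⟨j, hj, hj'⟩ : ∃ j ∈ m.support, j ≠ i := by
      by_contra hall
      push Not at hall
      apply hm
      have h1 : m = Finsupp.single i (m i) := by
        ext j
        by_cases hji : j = i
        · subst hji; simp
        · rw [Finsupp.single_apply, if_neg (Ne.symm hji)]
          by_contra h0
          exact hji (hall j (Finsupp.mem_support_iff.2 h0))
      have h2 : m i = k := by
        rw [h1, Finsupp.degree_single] at hdeg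
        exact hdeg
      rw [← h2, ← h1]
      exact hm'
    have : ∏ j ∈ m.support, (Pi.single i (1 : F) : Fin n → F) j ^ m j = 0 := by
      apply Finset.prod_eq_zero hj
      rw [Pi.single_eq_of_ne hj', zero_pow (Finsupp.mem_support_iff.1 hj)]
    rw [this, mul_zero]

/-- nondegenerate forms contain a monomial `z_i ^ (d - 1) * z_j` for every `i` -/
lemma NonDeg.exists_coeff_ne_zero {f : MvPolynomial (Fin n) F} (hf : NonDeg f) {d : ℕ}
    (hd : f.IsHomogeneous d) (i : Fin n) :
    ∃ j, coeff (Finsupp.single i (d - 1) + Finsupp.single j 1) f ≠ 0 := by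
  by_contra hne
  push Not at hne
  have h1 := hf (Pi.single i 1) (fun j => by
    rw [eval_single (isHomogeneous_grad hd j) i, grad, coeff_pderiv, hne j, zero_mul])
  have h2 := congrFun h1 i
  simp at h2

end field

section diag

variable {R : Type*} [CommRing R]

/-- substitution by diagonal matrices scales coefficients -/
lemma coeff_subst_diagonal (D : Fin n → R) (f : MvPolynomial (Fin n) R) (m : Fin n →₀ ℕ) :
    coeff m (subst (diagonal D) f) = (∏ i, D i ^ m i) * coeff m f := by
  classical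
  have hX : ∀ i, subst (diagonal D) (X i : MvPolynomial (Fin n) R) = C (D i) * X i := by
    intro i
    rw [subst_X, Finset.sum_eq_single i]
    · simp
    · intro j _ hj
      simp [diagonal_apply, hj.symm]
    · simp
  induction f using MvPolynomial.induction_on' with
  | monomial u a =>
    have h1 : subst (diagonal D) (monomial u a) = monomial u (a * ∏ i, D i ^ u i) := by
      rw [monomial_eq, map_mul, subst_C, Finsupp.prod_fintype _ _ (by simp), map_prod]
      simp only [map_pow, hX, mul_pow, Finset.prod_mul_distrib]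
      rw [monomial_eq, Finsupp.prod_fintype _ _ (by simp)]
      simp only [map_mul, map_prod, map_pow]
      ring
    rw [h1, coeff_monomial, coeff_monomial]
    split_ifs with h
    · subst h
      ring
    · ring
  | add p q hp hq => rw [map_add, coeff_add, hp, hq, coeff_add, mul_add]

end diag

end Pool.Agent.Lib.MP_4fcc12_ag
end

section
/-!
# Module ALG, part 1: directional derivatives and self-adjoint endomorphisms of a form
-/
open MvPolynomial Matrix

set_option linter.unusedSectionVars false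

namespace Pool.Agent.Lib.MP_4fcc12_ag

variable {n : ℕ}

/-- the directional derivative -/
noncomputable def dird (u : Fin n → ℂ) (f : MvPolynomial (Fin n) ℂ) : MvPolynomial (Fin n) ℂ :=
  ∑ i, C (u i) * pderiv i f

lemma dird_add_left (u v : Fin n → ℂ) (f : MvPolynomial (Fin n) ℂ) :
    dird (u + v) f = dird u f + dird v f := by
  simp [dird, add_mul, Finset.sum_add_distrib]

lemma dird_sub_left (u v : Fin n → ℂ) (f : MvPolynomial (Fin n) ℂ) :
    dird (u - v) f = dird u f - dird v f := by
  simp [dird, sub_mul, Finset.sum_sub_distrib]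

lemma dird_smul_left (c : ℂ) (u : Fin n → ℂ) (f : MvPolynomial (Fin n) ℂ) :
    dird (c • u) f = C c * dird u f := by
  simp [dird, Finset.mul_sum, mul_assoc]

lemma dird_zero_left (f : MvPolynomial (Fin n) ℂ) : dird 0 f = 0 := by
  simp [dird]

lemma dird_add_right (u : Fin n → ℂ) (f g : MvPolynomial (Fin n) ℂ) :
    dird u (f + g) = dird u f + dird u g := by
  simp [dird, mul_add, Finset.sum_add_distrib]

lemma dird_zero_right (u : Fin n → ℂ) : dird u (0 : MvPolynomial (Fin n) ℂ) = 0 := by
  simp [dird]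

lemma dird_C_mul_right (u : Fin n → ℂ) (c : ℂ) (f : MvPolynomial (Fin n) ℂ) :
    dird u (C c * f) = C c * dird u f := by
  simp only [dird, pderiv_C_mul, Finset.mul_sum]
  exact Finset.sum_congr rfl fun i _ => by ring

lemma dird_sum_left {ι : Type*} (s : Finset ι) (u : ι → Fin n → ℂ) (f : MvPolynomial (Fin n) ℂ) :
    dird (∑ i ∈ s, u i) f = ∑ i ∈ s, dird (u i) f := by
  classical
  induction s using Finset.induction_on with
  | empty => simp [dird_zero_left]
  | insert a s ha ih => rw [Finset.sum_insert ha, Finset.sum_insert ha, dird_add_left, ih]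

lemma dird_sum_right {ι : Type*} (s : Finset ι) (u : Fin n → ℂ)
    (f : ι → MvPolynomial (Fin n) ℂ) :
    dird u (∑ i ∈ s, f i) = ∑ i ∈ s, dird u (f i) := by
  classical
  induction s using Finset.induction_on with
  | empty => simp [dird_zero_right]
  | insert a s ha ih => rw [Finset.sum_insert ha, Finset.sum_insert ha, dird_add_right, ih]

lemma dird_single (i : Fin n) (f : MvPolynomial (Fin n) ℂ) :
    dird (Pi.single i 1) f = pderiv i f := by
  rw [dird, Finset.sum_eq_single i]
  · simp
  · intro j _ hj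
    rw [Pi.single_eq_of_ne hj]
    simp
  · simp

lemma pderiv_comm' (i j : Fin n) (f : MvPolynomial (Fin n) ℂ) :
    pderiv i (pderiv j f) = pderiv j (pderiv i f) := by
  classical
  ext m
  rw [coeff_pderiv, coeff_pderiv, coeff_pderiv, coeff_pderiv]
  by_cases hij : i = j
  · subst hij
    rfl
  · have h1 : m + Finsupp.single i 1 + Finsupp.single j 1 =
        m + Finsupp.single j 1 + Finsupp.single i 1 := by
      abel
    rw [h1]
    have h2 : (m + Finsupp.single i 1 : Fin n →₀ ℕ) j = m j := by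
      simp [hij]
    have h3 : (m + Finsupp.single j 1 : Fin n →₀ ℕ) i = m i := by
      simp [Ne.symm hij]
    rw [h2, h3]
    ring

lemma dird_comm (u v : Fin n → ℂ) (f : MvPolynomial (Fin n) ℂ) :
    dird u (dird v f) = dird v (dird u f) := by
  simp only [dird, map_sum, pderiv_C_mul, Finset.mul_sum]
  rw [Finset.sum_comm]
  apply Finset.sum_congr rfl
  intro i _
  apply Finset.sum_congr rfl
  intro j _
  rw [pderiv_comm' j i]
  ring

lemma isHomogeneous_dird (u : Fin n → ℂ) {f : MvPolynomial (Fin n) ℂ} {k : ℕ}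
    (hf : f.IsHomogeneous k) : (dird u f).IsHomogeneous (k - 1) := by
  apply IsHomogeneous.sum
  intro i _
  have := (isHomogeneous_C (Fin n) (u i)).mul (hf.pderiv (i := i))
  simpa using this

lemma eval_dird_self (q : Fin n → ℂ) {f : MvPolynomial (Fin n) ℂ} {k : ℕ}
    (hf : f.IsHomogeneous k) : eval q (dird q f) = k * eval q f := by
  have h := congrArg (eval q) hf.sum_X_mul_pderiv
  simpa [dird] using h

/-- key nondegeneracy statement -/
lemma NonDeg.eq_zero {f : MvPolynomial (Fin n) ℂ} (hf : NonDeg f) {d : ℕ} (hd : 3 ≤ d)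
    (hom : f.IsHomogeneous d) {x : Fin n → ℂ}
    (hx : ∀ v, dird x (dird x (dird v f)) = 0) : x = 0 := by
  apply hf
  intro i
  have h1 := congrArg (eval x) (hx (Pi.single i 1))
  rw [dird_single, eval_dird_self x (isHomogeneous_dird x hom.pderiv), eval_dird_self x hom.pderiv,
    map_zero] at h1
  have h2 : ((d - 1 - 1 : ℕ) : ℂ) ≠ 0 := by
    have : d - 1 - 1 ≠ 0 := by omega
    exact_mod_cast this
  have h3 : ((d - 1 : ℕ) : ℂ) ≠ 0 := by
    have : d - 1 ≠ 0 := by omega
    exact_mod_cast this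
  have h4 := (mul_eq_zero.1 h1).resolve_left h2
  exact (mul_eq_zero.1 h4).resolve_left h3

/-- self-adjointness of an endomorphism with respect to a form -/
def SA (f : MvPolynomial (Fin n) ℂ) (N : Module.End ℂ (Fin n → ℂ)) : Prop :=
  ∀ u v, dird (N u) (dird v f) = dird u (dird (N v) f)

lemma SA.T12 {f : MvPolynomial (Fin n) ℂ} {N : Module.End ℂ (Fin n → ℂ)} (h : SA f N)
    (u v w : Fin n → ℂ) : dird (N u) (dird v (dird w f)) = dird u (dird (N v) (dird w f)) := by
  rw [dird_comm v w f, dird_comm (N u) w, h, dird_comm w u, dird_comm w (N v)]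

lemma SA.T13 {f : MvPolynomial (Fin n) ℂ} {N : Module.End ℂ (Fin n → ℂ)} (h : SA f N)
    (u v w : Fin n → ℂ) : dird (N u) (dird v (dird w f)) = dird u (dird v (dird (N w) f)) := by
  rw [dird_comm (N u) v, h, dird_comm v u]

lemma SA.comm {f : MvPolynomial (Fin n) ℂ} (hf : NonDeg f) {d : ℕ} (hd : 3 ≤ d)
    (hom : f.IsHomogeneous d) {N N' : Module.End ℂ (Fin n → ℂ)} (h : SA f N) (h' : SA f N') :
    N * N' = N' * N := by
  apply LinearMap.ext
  intro u
  rw [← sub_eq_zero]
  apply hf.eq_zero hd hom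
  intro w
  set v := (N * N') u - (N' * N) u
  rw [show dird v (dird v (dird w f)) = dird ((N * N') u) (dird v (dird w f)) -
    dird ((N' * N) u) (dird v (dird w f)) from dird_sub_left _ _ _, sub_eq_zero]
  rw [Module.End.mul_apply, Module.End.mul_apply, h.T12, h'.T13, ← h.T12, ← h'.T13]

lemma SA.nil {f : MvPolynomial (Fin n) ℂ} (hf : NonDeg f) {d : ℕ} (hd : 3 ≤ d)
    (hom : f.IsHomogeneous d) {N : Module.End ℂ (Fin n → ℂ)} (h : SA f N) (h2 : N * N = 0) :
    N = 0 := by
  apply LinearMap.ext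
  intro u
  rw [LinearMap.zero_apply]
  apply hf.eq_zero hd hom
  intro v
  rw [h.T12, ← Module.End.mul_apply, h2, LinearMap.zero_apply, dird_zero_left, dird_zero_right]

/-- the algebra of self-adjoint endomorphisms -/
def saAlg (f : MvPolynomial (Fin n) ℂ) (hf : NonDeg f) {d : ℕ} (hd : 3 ≤ d)
    (hom : f.IsHomogeneous d) : Subalgebra ℂ (Module.End ℂ (Fin n → ℂ)) where
  carrier := {N | SA f N}
  mul_mem' := by
    intro N N' h h' u v
    rw [Module.End.mul_apply, h, h', ← Module.End.mul_apply, ← SA.comm hf hd hom h h']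
  add_mem' := by
    intro N N' h h' u v
    rw [LinearMap.add_apply, LinearMap.add_apply, dird_add_left, dird_add_left, dird_add_right, h u v,
      h' u v]
  algebraMap_mem' := by
    intro r u v
    rw [Module.algebraMap_end_apply, Module.algebraMap_end_apply, dird_smul_left, dird_smul_left,
      dird_C_mul_right]

lemma mem_saAlg {f : MvPolynomial (Fin n) ℂ} {hf : NonDeg f} {d : ℕ} {hd : 3 ≤ d}
    {hom : f.IsHomogeneous d} {N : Module.End ℂ (Fin n → ℂ)} :
    N ∈ saAlg f hf hd hom ↔ SA f N := Iff.rfl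

lemma saAlg_isSemisimple (f : MvPolynomial (Fin n) ℂ) (hf : NonDeg f) {d : ℕ} (hd : 3 ≤ d)
    (hom : f.IsHomogeneous d) {N : Module.End ℂ (Fin n → ℂ)} (hN : N ∈ saAlg f hf hd hom) :
    N.IsSemisimple := by
  apply Module.End.isSemisimple_of_squarefree_aeval_eq_zero (p := minpoly ℂ N) _
    (minpoly.aeval ℂ N)
  intro x hx
  obtain ⟨y, hy⟩ := hx
  have h0 : minpoly ℂ N ≠ 0 := minpoly.ne_zero (Algebra.IsIntegral.isIntegral N)
  have hmem : Polynomial.aeval N (x * y) ∈ saAlg f hf hd hom :=
    Algebra.adjoin_le (Set.singleton_subset_iff.2 hN)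
      (Polynomial.aeval_mem_adjoin_singleton ℂ N (p := x * y))
  have hz : Polynomial.aeval N (x * y) = 0 := by
    apply SA.nil hf hd hom hmem
    rw [← map_mul]
    have : x * y * (x * y) = minpoly ℂ N * y := by
      rw [hy]
      ring
    rw [this, map_mul, minpoly.aeval, zero_mul]
  have hdvd : minpoly ℂ N ∣ x * y := minpoly.dvd ℂ N hz
  have hx0 : x ≠ 0 := by
    rintro rfl
    exact h0 (by rw [hy]; ring)
  have hy0 : y ≠ 0 := by
    rintro rfl
    exact h0 (by rw [hy]; ring)
  obtain ⟨z, hz'⟩ := hdvd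
  rw [hy] at hz'
  have : x * z = 1 := by
    have h2 : (x * y) * (x * z) = (x * y) * 1 := by
      calc (x * y) * (x * z) = x * x * y * z := by ring
        _ = x * y := hz'.symm
        _ = (x * y) * 1 := by ring
    exact mul_left_cancel₀ (mul_ne_zero hx0 hy0) h2
  exact IsUnit.of_mul_eq_one _ this

end Pool.Agent.Lib.MP_4fcc12_ag
end
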