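import Pool.Agent.Lib.MP_4fcc12_ag.AlgDD
import Mathlib.FieldTheory.IsAlgClosed.Basic
import Mathlib.RingTheory.Derivation.Basic
import Mathlib.Algebra.Algebra.Subalgebra.Basic

/-!
Statements of modules (work split). Each module proves one of the propositions below.
-/

open MvPolynomial Matrix

namespace Pool.Agent.Lib.MP_4fcc12_ag

/-- MODULE ALG: block form of a nondegenerate form. `B` ranges over matrices for which
`B * Hess` is symmetric. -/
def StatementALG : Prop :=
  ∀ (n d : ℕ), 3 ≤ d → ∀ f : MvPolynomial (Fin n) ℂ, f.IsHomogeneous d → NonDeg f →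
    ∃ (g : Matrix (Fin n) (Fin n) ℂ) (b : Fin n → Fin n), IsUnit g.det ∧
      (∀ i j, b i ≠ b j → pderiv i (pderiv j (subst g f)) = 0) ∧
      ∀ B : Matrix (Fin n) (Fin n) ℂ,
        (∀ i j, ∑ k, C (B i k) * pderiv k (pderiv j (subst g f)) =
          ∑ k, C (B j k) * pderiv k (pderiv i (subst g f))) →
        ∃ c : Fin n → ℂ, B = diagonal fun i => c (b i)

/-- MODULE FIELD: in characteristic zero, elements outside the base field are moved. -/
def StatementFIELD : Prop :=
  ∀ (F K : Type) [Field F] [Field K] [CharZero F] [Algebra F K] (b : K),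
    b ∉ (algebraMap F K).range →
    ∃ (Ω : Type) (_ : Field Ω) (σ₁ σ₂ : K →+* Ω),
      (∀ x : F, σ₁ (algebraMap F K x) = σ₂ (algebraMap F K x)) ∧ σ₁ b ≠ σ₂ b

/-- MODULE DER: derivations extend along extensions of fields of characteristic zero. -/
def StatementDER : Prop :=
  ∀ (A K : Type) [CommRing A] [Field K] [Algebra ℂ A] [Algebra ℂ K] [Algebra A K]
    [IsScalarTower ℂ A K], Function.Injective (algebraMap A K) →
    ∀ D : Derivation ℂ A K, ∃ D' : Derivation ℂ K K, ∀ a : A, D' (algebraMap A K a) = D a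

/-- MODULE NAK: a finite extension, bijective on maximal ideals with trivial residue
extensions and unramified, is an isomorphism. -/
def StatementNAK : Prop :=
  ∀ (S R : Type) [CommRing S] [CommRing R] [Algebra S R] [Module.Finite S R],
    (∀ 𝔪 : Ideal S, 𝔪.IsMaximal → ∃ 𝔫 : Ideal R, 𝔫.IsMaximal ∧
      (∀ 𝔫' : Ideal R, 𝔫'.IsMaximal → 𝔫'.comap (algebraMap S R) = 𝔪 → 𝔫' = 𝔫) ∧
      (∀ r : R, ∃ s : S, r - algebraMap S R s ∈ 𝔫) ∧
      𝔫 ≤ 𝔪.map (algebraMap S R) ⊔ 𝔫 ^ 2) →
    Function.Surjective (algebraMap S R)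

end Pool.Agent.Lib.MP_4fcc12_ag
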