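import Pool.Agent.Lib.MP_4fcc12_ag.AlgDD
import Pool.Agent.Lib.MP_4fcc12_ag.Spec2
import Mathlib.Analysis.Complex.Polynomial.Basic

/-!
# Module ALG, part 2: simultaneous eigenbasis and the block form of a nondegenerate form
-/

open MvPolynomial Matrix

set_option linter.unusedSectionVars false

namespace Pool.Agent.Lib.MP_4fcc12_ag

variable {n : ℕ}

/-- a commuting family of semisimple endomorphisms has a simultaneous eigenbasis -/
lemma exists_eigenbasis {ι : Type*} (N : ι → Module.End ℂ (Fin n → ℂ))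
    (hcomm : ∀ i j, Commute (N i) (N j)) (hss : ∀ i, (N i).IsSemisimple) :
    ∃ (e : Module.Basis (Fin n) ℂ (Fin n → ℂ)) (χ : Fin n → ι → ℂ),
      ∀ i k, N i (e k) = χ k i • e k := by
  have h1 : ⨆ χ : ι → ℂ, ⨅ i, (N i).maxGenEigenspace (χ i) = ⊤ :=
    Module.End.iSup_iInf_maxGenEigenspace_eq_top_of_iSup_maxGenEigenspace_eq_top_of_commute N
      (fun i j _ => hcomm i j) (fun i => Module.End.iSup_maxGenEigenspace_eq_top _)
  have h2 : ∀ (i : ι) (μ : ℂ), (N i).maxGenEigenspace μ = (N i).eigenspace μ := fun i μ =>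
    (hss i).isFinitelySemisimple.maxGenEigenspace_eq_eigenspace μ
  simp only [h2] at h1
  let s : Set (Fin n → ℂ) := ⋃ χ : ι → ℂ, ((⨅ i, (N i).eigenspace (χ i) : Submodule ℂ _) : Set _)
  have hs : ⊤ ≤ Submodule.span ℂ s := by
    rw [← h1]
    apply iSup_le
    intro χ v hv
    exact Submodule.subset_span (Set.mem_iUnion.2 ⟨χ, hv⟩)
  let b := Module.Basis.ofSpan hs
  have hb : Set.range b ⊆ s := Module.Basis.ofSpan_subset hs
  let e := b.reindex (b.indexEquiv (Pi.basisFun ℂ (Fin n)))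
  have he : ∀ k, ∃ χ : ι → ℂ, ∀ i, N i (e k) = χ i • e k := by
    intro k
    have hmem : e k ∈ s := by
      apply hb
      rw [Module.Basis.reindex_apply]
      exact Set.mem_range_self _
    obtain ⟨χ, hχ⟩ := Set.mem_iUnion.1 hmem
    refine ⟨χ, fun i => ?_⟩
    have := (Submodule.mem_iInf _).1 hχ i
    exact Module.End.mem_eigenspace_iff.1 this
  choose χ hχ using he
  exact ⟨e, χ, fun i k => hχ k i⟩

lemma pderiv_subst_eq_dird (g : Matrix (Fin n) (Fin n) ℂ) (i : Fin n)
    (f : MvPolynomial (Fin n) ℂ) :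
    pderiv i (subst g f) = subst g (dird (fun l => g l i) f) := by
  rw [pderiv_subst, dird, map_sum]
  apply Finset.sum_congr rfl
  intro j _
  rw [map_mul, subst_C]

lemma dird_subst (g : Matrix (Fin n) (Fin n) ℂ) (u : Fin n → ℂ)
    (f : MvPolynomial (Fin n) ℂ) :
    dird u (subst g f) = subst g (dird (g *ᵥ u) f) := by
  have h1 : g *ᵥ u = ∑ i, u i • (fun l => g l i) := by
    funext l
    rw [Finset.sum_apply]
    simp [Matrix.mulVec, dotProduct, mul_comm]
  rw [h1, dird_sum_left, dird, map_sum]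
  apply Finset.sum_congr rfl
  intro i _
  rw [dird_smul_left, map_mul, subst_C, pderiv_subst_eq_dird]

lemma subst_inj_of_det {g : Matrix (Fin n) (Fin n) ℂ} (hg : IsUnit g.det) :
    Function.Injective (subst g) := by
  intro f f' h
  have h2 := congrArg (subst g⁻¹) h
  rwa [← subst_mul, ← subst_mul, Matrix.mul_nonsing_inv _ hg, subst_one, subst_one] at h2

/-- self-adjointness from the symmetric matrix condition -/
lemma sa_of_matrix (h : MvPolynomial (Fin n) ℂ) (B : Matrix (Fin n) (Fin n) ℂ)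
    (hB : ∀ i j, ∑ k, C (B i k) * pderiv k (pderiv j h) =
          ∑ k, C (B j k) * pderiv k (pderiv i h)) (u v : Fin n → ℂ) :
    dird (Bᵀ *ᵥ u) (dird v h) = dird u (dird (Bᵀ *ᵥ v) h) := by
  have h1 : ∀ u : Fin n → ℂ, Bᵀ *ᵥ u = ∑ i, u i • (fun k => B i k) := by
    intro u
    funext l
    rw [Finset.sum_apply]
    simp [Matrix.mulVec, dotProduct, Matrix.transpose_apply, mul_comm]
  have h2 : ∀ u : Fin n → ℂ, u = ∑ i, u i • (Pi.single i (1 : ℂ) : Fin n → ℂ) := by
    intro u
    funext l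
    rw [Finset.sum_apply]
    simp [Pi.single_apply]
  have h3 : ∀ (w w' : Fin n → Fin n → ℂ) , 
      dird (∑ i, u i • w i) (dird (∑ j, v j • w' j) h) =
        ∑ i, ∑ j, C (u i) * C (v j) * dird (w i) (dird (w' j) h) := by
    intro w w'
    rw [dird_sum_left]
    apply Finset.sum_congr rfl
    intro i _
    rw [dird_smul_left, dird_sum_left, dird_sum_right, Finset.mul_sum]
    apply Finset.sum_congr rfl
    intro j _
    rw [dird_smul_left, dird_C_mul_right]
    ring
  have key : ∀ i j : Fin n, dird (fun k => B i k) (dird (Pi.single j 1) h) =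
      dird (Pi.single i 1) (dird (fun k => B j k) h) := by
    intro i j
    rw [dird_single, dird_comm, dird_single]
    exact hB i j
  calc dird (Bᵀ *ᵥ u) (dird v h)
      = dird (∑ i, u i • (fun k => B i k)) (dird (∑ j, v j • (Pi.single j (1 : ℂ) : Fin n → ℂ)) h) := by
        rw [h1 u, ← h2 v]
    _ = ∑ i, ∑ j, C (u i) * C (v j) * dird (fun k => B i k) (dird (Pi.single j 1) h) := h3 _ _
    _ = ∑ i, ∑ j, C (u i) * C (v j) * dird (Pi.single i 1) (dird (fun k => B j k) h) := by
        apply Finset.sum_congr rfl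
        intro i _
        apply Finset.sum_congr rfl
        intro j _
        rw [key]
    _ = dird (∑ i, u i • (Pi.single i (1 : ℂ) : Fin n → ℂ)) (dird (∑ j, v j • (fun k => B j k)) h) :=
        (h3 _ _).symm
    _ = dird u (dird (Bᵀ *ᵥ v) h) := by rw [h1 v, ← h2 u]

/-- MODULE ALG -/
theorem statementALG : StatementALG := by
  intro n d hd f hom hf
  obtain ⟨e, χ, he⟩ := exists_eigenbasis (n := n)
    (fun N : saAlg f hf hd hom => (N : Module.End ℂ (Fin n → ℂ)))
    (fun N N' => SA.comm hf hd hom N.2 N'.2) (fun N => saAlg_isSemisimple f hf hd hom N.2)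
  let g : Matrix (Fin n) (Fin n) ℂ := Matrix.of fun k i => e i k
  have hg : IsUnit g.det := by
    rw [← Matrix.isUnit_iff_isUnit_det, ← Matrix.linearIndependent_cols_iff_isUnit]
    exact e.linearIndependent
  let b : Fin n → Fin n := fun i => @Function.invFun _ _ ⟨i⟩ χ (χ i)
  have hb : ∀ i, χ (b i) = χ i := fun i => @Function.invFun_eq _ _ ⟨i⟩ χ (χ i) ⟨i, rfl⟩
  have hb' : ∀ i j, χ i = χ j → b i = b j := by
    intro i j hij
    show @Function.invFun _ _ ⟨i⟩ χ (χ i) = @Function.invFun _ _ ⟨j⟩ χ (χ j)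
    rw [hij]
  refine ⟨g, b, hg, ?_, ?_⟩
  · intro i j hij
    have hχ : χ i ≠ χ j := fun h => hij (hb' i j h)
    obtain ⟨N, hN⟩ := Function.ne_iff.1 hχ
    rw [pderiv_subst_eq_dird, pderiv_subst_eq_dird]
    have h1 : (fun l => g l i) = e i := rfl
    have h2 : (fun l => g l j) = e j := rfl
    rw [h1, h2]
    have h3 : dird (e i) (dird (e j) f) = 0 := by
      have h4 := N.2 (e i) (e j)
      rw [he N i, he N j, dird_smul_left, dird_smul_left, dird_C_mul_right, ← sub_eq_zero, ← sub_mul,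
        ← C_sub] at h4
      rcases mul_eq_zero.1 h4 with h5 | h5
      · exact absurd (C_injective _ _ (h5.trans C_0.symm)) (sub_ne_zero.2 hN)
      · exact h5
    rw [h3, map_zero]
  · intro B hB
    have hSA := sa_of_matrix (subst g f) B hB
    let N : Module.End ℂ (Fin n → ℂ) := Matrix.toLin' (g * Bᵀ * g⁻¹)
    have hN : N ∈ saAlg f hf hd hom := by
      intro u v
      have h1 := hSA (g⁻¹ *ᵥ u) (g⁻¹ *ᵥ v)
      rw [dird_subst, dird_subst, dird_subst, dird_subst] at h1
      have h2 := subst_inj_of_det hg h1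
      have h3 : ∀ w : Fin n → ℂ, N w = g *ᵥ (Bᵀ *ᵥ (g⁻¹ *ᵥ w)) := by
        intro w
        simp [N, Matrix.toLin'_apply, Matrix.mulVec_mulVec]
      have h4 : ∀ w : Fin n → ℂ, g *ᵥ (g⁻¹ *ᵥ w) = w := by
        intro w
        rw [Matrix.mulVec_mulVec, Matrix.mul_nonsing_inv _ hg, Matrix.one_mulVec]
      rw [h3, h3]
      rw [h4, h4] at h2
      exact h2
    refine ⟨fun j => χ j ⟨N, hN⟩, ?_⟩
    have h5 : ∀ i, g *ᵥ (Pi.single i 1) = e i := by
      intro i
      funext k
      simp [g]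
    have h6 : ∀ i, Bᵀ *ᵥ (Pi.single i 1) = χ i ⟨N, hN⟩ • (Pi.single i 1 : Fin n → ℂ) := by
      intro i
      have h7 := he ⟨N, hN⟩ i
      rw [← h5 i] at h7
      have h8 : (N : Module.End ℂ (Fin n → ℂ)) (g *ᵥ Pi.single i 1) =
          g *ᵥ (Bᵀ *ᵥ (Pi.single i 1)) := by
        simp only [N, Matrix.toLin'_apply, Matrix.mulVec_mulVec]
        rw [Matrix.mul_assoc, Matrix.nonsing_inv_mul _ hg, Matrix.mul_one]
      have h9 : g *ᵥ (Bᵀ *ᵥ (Pi.single i 1)) = χ i ⟨N, hN⟩ • g *ᵥ (Pi.single i 1) := by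
        rw [← h8]
        exact h7
      have h10 := congrArg (g⁻¹ *ᵥ ·) h9
      simp only [Matrix.mulVec_smul, Matrix.mulVec_mulVec, ← Matrix.mul_assoc] at h10
      rw [Matrix.nonsing_inv_mul _ hg, Matrix.one_mul, Matrix.one_mulVec] at h10
      exact h10
    ext i j
    have h11 := congrFun (h6 i) j
    simp only [hb]
    rw [Matrix.mulVec_single_one] at h11
    simp only [Matrix.col_apply, Matrix.transpose_apply, Pi.smul_apply, smul_eq_mul] at h11
    rw [h11, Matrix.diagonal_apply]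
    by_cases hij : i = j
    · subst hij
      simp
    · rw [if_neg hij, Pi.single_eq_of_ne (Ne.symm hij), mul_zero]

end Pool.Agent.Lib.MP_4fcc12_ag
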