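import Pool.Agent.Lib.MP_4fcc12_ag.AlgDD

open MvPolynomial Matrix

set_option linter.unusedSectionVars false

namespace Pool.Agent.Lib.MP_4fcc12_ag

variable {n : ℕ}

section generic

variable (κ : Type)

/-- generic first matrix over `ℂ[Grp n ⊕ κ]` -/
noncomputable def gT (n : ℕ) : Matrix (Fin n) (Fin n) (MvPolynomial (Grp n ⊕ κ) ℂ) :=
  Matrix.of fun i j => X (Sum.inl (Sum.inl (i, j)))

/-- generic second matrix over `ℂ[Grp n ⊕ κ]` -/
noncomputable def aT (n : ℕ) : Matrix (Fin n) (Fin n) (MvPolynomial (Grp n ⊕ κ) ℂ) :=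
  Matrix.of fun i j => X (Sum.inl (Sum.inr (i, j)))

/-- generic point over `ℂ[Grp n ⊕ κ]` -/
noncomputable def xT (n : ℕ) : κ → MvPolynomial (Grp n ⊕ κ) ℂ := fun k => X (Sum.inr k)

variable {κ} {R : Type*} [CommRing R] [Algebra ℂ R]

lemma gT_map (g a : Matrix (Fin n) (Fin n) R) (x : κ → R) :
    (gT κ n).map (aeval (Sum.elim (gpt g a) x) : MvPolynomial (Grp n ⊕ κ) ℂ →ₐ[ℂ] R) = g := by
  ext i j
  simp [gT, gpt]

lemma aT_map (g a : Matrix (Fin n) (Fin n) R) (x : κ → R) :
    (aT κ n).map (aeval (Sum.elim (gpt g a) x) : MvPolynomial (Grp n ⊕ κ) ℂ →ₐ[ℂ] R) = a := by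
  ext i j
  simp [aT, gpt]

lemma xT_map (g a : Matrix (Fin n) (Fin n) R) (x : κ → R) :
    (aeval (Sum.elim (gpt g a) x) : MvPolynomial (Grp n ⊕ κ) ℂ →ₐ[ℂ] R) ∘ (xT κ n) = x := by
  funext k
  simp [xT]

end generic

/-- the action on tuples of forms of degree `k` -/
noncomputable def actT (n k : ℕ) : Actn n (Fin n × Mon n k) where
  pol := ct k (act (tup (xT _ n)) (gT _ n) (aT _ n))

/-- the action on forms of degree `k` -/
noncomputable def actS (n k : ℕ) : Actn n (Mon n k) where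
  pol := cf k (subst (gT _ n) (frm (xT _ n)))

lemma actT_app {R : Type*} [CommRing R] [Algebra ℂ R] {k : ℕ} (x : Fin n × Mon n k → R)
    (g a : Matrix (Fin n) (Fin n) R) :
    (actT n k).app x g a = ct k (act (tup x) g a) := by
  let φ : MvPolynomial (Grp n ⊕ (Fin n × Mon n k)) ℂ →ₐ[ℂ] R := aeval (Sum.elim (gpt g a) x)
  have h1 : (actT n k).app x g a = φ.toRingHom ∘ (ct k (act (tup (xT _ n)) (gT _ n) (aT _ n))) := rfl
  rw [h1, ← ct_map]
  congr 1
  funext i
  rw [map_act]
  have h2 : (fun i => MvPolynomial.map φ.toRingHom (tup (xT (Fin n × Mon n k) n) i)) = tup x := by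
    funext i
    rw [map_tup]
    have : φ.toRingHom ∘ (xT (Fin n × Mon n k) n) = x := xT_map g a x
    rw [this]
  have h3 : (gT (Fin n × Mon n k) n).map φ.toRingHom = g := gT_map g a x
  have h4 : (aT (Fin n × Mon n k) n).map φ.toRingHom = a := aT_map g a x
  rw [h2, h3, h4]

lemma actS_app {R : Type*} [CommRing R] [Algebra ℂ R] {k : ℕ} (x : Mon n k → R)
    (g a : Matrix (Fin n) (Fin n) R) :
    (actS n k).app x g a = cf k (subst g (frm x)) := by
  let φ : MvPolynomial (Grp n ⊕ Mon n k) ℂ →ₐ[ℂ] R := aeval (Sum.elim (gpt g a) x)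
  have h1 : (actS n k).app x g a = φ.toRingHom ∘ (cf k (subst (gT _ n) (frm (xT _ n)))) := rfl
  rw [h1, ← cf_map, map_subst, map_frm]
  have h2 : φ.toRingHom ∘ (xT (Mon n k) n) = x := xT_map g a x
  have h3 : (gT (Mon n k) n).map φ.toRingHom = g := gT_map g a x
  rw [h2, h3]

instance (k : ℕ) : (actT n k).IsAction where
  app_one x := by rw [actT_app, act_one, ct_tup]
  app_app x g a g' a' := by
    rw [actT_app, actT_app, actT_app, tup_ct (isHomogeneous_act (isHomogeneous_tup x) g a), act_act]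

instance (k : ℕ) : (actS n k).IsAction where
  app_one x := by rw [actS_app, subst_one, cf_frm]
  app_app x g a g' a' := by
    rw [actS_app, actS_app, actS_app, frm_cf (isHomogeneous_subst g (isHomogeneous_frm x)),
      subst_mul]

/-- the gradient on coefficient vectors -/
noncomputable def gradC {R : Type*} [CommRing R] (d : ℕ) (x : Mon n d → R) :
    Fin n × Mon n (d - 1) → R := ct (d - 1) (grad (frm x))

lemma tup_gradC {R : Type*} [CommRing R] (d : ℕ) (x : Mon n d → R) :
    tup (gradC d x) = grad (frm x) :=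
  tup_ct fun i => isHomogeneous_grad (isHomogeneous_frm x) i

lemma gradC_map {R S : Type*} [CommRing R] [CommRing S] (φ : R →+* S) (d : ℕ) (x : Mon n d → R) :
    φ ∘ gradC d x = gradC d (φ ∘ x) := by
  rw [gradC, ← ct_map]
  congr 1
  funext i
  rw [map_grad, map_frm]

lemma gradC_add {R : Type*} [CommRing R] (d : ℕ) (x y : Mon n d → R) :
    gradC d (x + y) = gradC d x + gradC d y := by
  rw [gradC, frm_add, grad_add, ct_add]
  rfl

lemma gradC_act {R : Type*} [CommRing R] [Algebra ℂ R] (d : ℕ) (x : Mon n d → R)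
    (g a : Matrix (Fin n) (Fin n) R) :
    gradC d ((actS n d).app x g a) = (actT n (d - 1)).app (gradC d x) g gᵀ := by
  rw [actS_app, actT_app, tup_gradC, gradC, frm_cf (isHomogeneous_subst g (isHomogeneous_frm x)),
    grad_subst]

/-- pull back of polynomial functions along the gradient -/
noncomputable def gradPull (n d : ℕ) :
    MvPolynomial (Fin n × Mon n (d - 1)) ℂ →ₐ[ℂ] MvPolynomial (Mon n d) ℂ :=
  aeval (gradC d X)

lemma aeval_gradPull {R : Type*} [CommRing R] [Algebra ℂ R] (d : ℕ)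
    (P : MvPolynomial (Fin n × Mon n (d - 1)) ℂ) (x : Mon n d → R) :
    aeval x (gradPull n d P) = aeval (gradC d x) P := by
  rw [gradPull, ← AlgHom.comp_apply, comp_aeval]
  have h := gradC_map (aeval x : MvPolynomial (Mon n d) ℂ →ₐ[ℂ] R).toRingHom d X
  have h2 : (aeval x : MvPolynomial (Mon n d) ℂ →ₐ[ℂ] R).toRingHom ∘ X = x := by
    funext k
    simp
  rw [h2] at h
  rw [← h]
  rfl

lemma semi_gradPull {d w₁ w₂ : ℕ} {P : MvPolynomial (Fin n × Mon n (d - 1)) ℂ}
    (hP : (actT n (d - 1)).Semi w₁ w₂ P) : (actS n d).Semi (w₁ + w₂) 0 (gradPull n d P) := by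
  intro R _ _ x g a
  rw [aeval_gradPull, aeval_gradPull, gradC_act, hP, Matrix.det_transpose]
  ring

end Pool.Agent.Lib.MP_4fcc12_ag
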