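import Pool.Agent.Lib.MP_4fcc12_ag.Spec2
import Mathlib.RingTheory.Smooth.Field
import Mathlib.RingTheory.Smooth.Basic
import Mathlib.Algebra.TrivSqZeroExt.Basic
import Mathlib.RingTheory.Localization.FractionRing
import Mathlib.RingTheory.AlgebraicIndependent.Basic
import Mathlib.FieldTheory.Perfect
import Mathlib.Data.Complex.Basic

/-!
# Module DER: derivations extend along injections of a ring into a field of characteristic zero
-/

namespace Pool.Agent.Lib.MP_4fcc12_ag

/-- field extensions in characteristic zero are formally smooth -/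
lemma formallySmooth_of_charZero (F K : Type) [Field F] [Field K] [CharZero F] [Algebra F K] :
    Algebra.FormallySmooth F K := by
  obtain ⟨s, hs⟩ := exists_isTranscendenceBasis F K
  have h1 : Algebra.IsAlgebraic (IntermediateField.adjoin F (Set.range ((↑) : s → K))) K :=
    hs.isAlgebraic_field
  have : CharZero (IntermediateField.adjoin F (Set.range ((↑) : s → K))) :=
    charZero_of_injective_algebraMap
      (algebraMap F (IntermediateField.adjoin F (Set.range ((↑) : s → K)))).injective
  have : Algebra.IsSeparable (IntermediateField.adjoin F (Set.range ((↑) : s → K))) K :=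
    Algebra.IsAlgebraic.isSeparable_of_perfectField
  exact Algebra.FormallySmooth.of_algebraicIndependent_of_isSeparable hs.1

lemma formallySmooth_of_injective (A K : Type) [CommRing A] [Field K] [CharZero K] [Algebra A K]
    (hinj : Function.Injective (algebraMap A K)) : Algebra.FormallySmooth A K := by
  have h0 : FaithfulSMul A K := (faithfulSMul_iff_algebraMap_injective A K).2 hinj
  have : IsDomain A := IsDomain.of_faithfulSMul A K
  let : Algebra (FractionRing A) K := FractionRing.liftAlgebra (R := A) (K := K)
  have : IsScalarTower A (FractionRing A) K := FractionRing.isScalarTower_liftAlgebra A K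
  have : CharZero (FractionRing A) :=
    (algebraMap (FractionRing A) K).charZero
  have h1 : Algebra.FormallySmooth A (FractionRing A) :=
    Algebra.FormallySmooth.of_isLocalization (nonZeroDivisors A)
  have h2 : Algebra.FormallySmooth (FractionRing A) K := formallySmooth_of_charZero _ _
  exact Algebra.FormallySmooth.comp A (FractionRing A) K

/-- splitting of square-zero extensions -/
lemma exists_section (A K B : Type) [CommRing A] [Field K] [Algebra A K] [CommRing B]
    [Algebra A B] [Algebra.FormallySmooth A K] (g : B →ₐ[A] K) (hg : Function.Surjective g)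
    (hg' : IsNilpotent (RingHom.ker (g : B →+* K))) :
    ∃ s : K →ₐ[A] B, ∀ x, g (s x) = x :=
  ⟨Algebra.FormallySmooth.liftOfSurjective (AlgHom.id A K) g hg hg', fun x =>
    Algebra.FormallySmooth.liftOfSurjective_apply (AlgHom.id A K) g hg hg' x⟩

/-- the ring homomorphism to the dual numbers attached to a derivation -/
def derHom {A K : Type} [CommRing A] [Field K] [Algebra ℂ A] [Algebra ℂ K] [Algebra A K]
    [IsScalarTower ℂ A K] (D : Derivation ℂ A K) : A →+* TrivSqZeroExt K K where
  toFun a := TrivSqZeroExt.inl (algebraMap A K a) + TrivSqZeroExt.inr (D a)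
  map_one' := by simp
  map_zero' := by simp
  map_add' a b := by
    ext <;> simp
  map_mul' a b := by
    ext
    · simp
    · simp [Algebra.smul_def, mul_comm]

/-- MODULE DER -/
theorem statementDER : StatementDER := by
  intro A K _ _ _ _ _ _ hinj D
  have : CharZero K := charZero_of_injective_algebraMap (algebraMap ℂ K).injective
  have hs : Algebra.FormallySmooth A K := formallySmooth_of_injective A K hinj
  let : Algebra A (TrivSqZeroExt K K) := (derHom D).toAlgebra
  have hmap : ∀ a : A, algebraMap A (TrivSqZeroExt K K) a = derHom D a := fun a => rfl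
  let g : TrivSqZeroExt K K →ₐ[A] K :=
    { TrivSqZeroExt.fstHom K K K with
      commutes' := by
        intro a
        rw [hmap]
        simp [derHom] }
  have hgfst : ∀ x, g x = TrivSqZeroExt.fst x := fun x => rfl
  obtain ⟨s, hs⟩ := exists_section A K (TrivSqZeroExt K K) g
    (fun x => ⟨TrivSqZeroExt.inl x, by rw [hgfst]; simp⟩)
    ⟨2, by
      rw [pow_two, Ideal.zero_eq_bot, eq_bot_iff, Ideal.mul_le]
      intro x hx y hy
      rw [RingHom.mem_ker] at hx hy
      have hx' : TrivSqZeroExt.fst x = 0 := hx
      have hy' : TrivSqZeroExt.fst y = 0 := hy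
      rw [Ideal.mem_bot]
      ext <;> simp [hx', hy']⟩
  have hs1 : ∀ x, TrivSqZeroExt.fst (s x) = x := hs
  have hs2 : ∀ a : A, s (algebraMap A K a) = derHom D a := fun a => s.commutes a
  have hs3 : ∀ a : A, TrivSqZeroExt.snd (s (algebraMap A K a)) = D a := by
    intro a
    rw [hs2]
    simp [derHom]
  have hc : ∀ c : ℂ, TrivSqZeroExt.snd (s (algebraMap ℂ K c)) = 0 := by
    intro c
    rw [IsScalarTower.algebraMap_apply ℂ A K, hs3, Derivation.map_algebraMap]
  let L : K →ₗ[ℂ] K :=
    { toFun := fun x => TrivSqZeroExt.snd (s x)
      map_add' := fun x y => by simp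
      map_smul' := fun c x => by
        rw [Algebra.smul_def, map_mul, TrivSqZeroExt.snd_mul, hs1, hs1, hc]
        simp [Algebra.smul_def] }
  have hL : ∀ x, L x = TrivSqZeroExt.snd (s x) := fun x => rfl
  refine ⟨Derivation.mk' L ?_, ?_⟩
  · intro x y
    rw [hL, hL, hL, map_mul, TrivSqZeroExt.snd_mul, hs1, hs1]
    simp [mul_comm]
  · intro a
    exact hs3 a

end Pool.Agent.Lib.MP_4fcc12_ag
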