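import Pool.Agent.Lib.MP_4fcc12_ag.Concrete
import Pool.Agent.Lib.MP_4fcc12_ag.AlgDD
import Mathlib.FieldTheory.IsAlgClosed.Basic
import Mathlib.RingTheory.Valuation.ValuationSubring
import Mathlib.RingTheory.Noetherian.Basic
import Mathlib.RingTheory.Ideal.Maps

/-!
Statements of modules (work split, second round). Each module proves one of the propositions
below.
-/

open MvPolynomial Matrix

namespace Pool.Agent.Lib.MP_4fcc12_ag

/-- the ideal of polynomials vanishing on the orbit of `x₀` -/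
def orbIdeal {n : ℕ} {κ : Type} (A : Actn n κ) (x₀ : κ → ℂ) : Ideal (MvPolynomial κ ℂ) where
  carrier := {P | ∀ g a : Matrix (Fin n) (Fin n) ℂ, g.det ≠ 0 → a.det ≠ 0 →
    eval (A.app x₀ g a) P = 0}
  add_mem' := by
    intro P Q hP hQ g a hg ha
    rw [map_add, hP g a hg ha, hQ g a hg ha, add_zero]
  zero_mem' := by
    intro g a _ _
    exact map_zero _
  smul_mem' := by
    intro c P hP g a hg ha
    rw [smul_eq_mul, map_mul, hP g a hg ha, mul_zero]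

/-- the orbit of `x₀` is closed in the open set `Δ ≠ 0` -/
def ClosedOrb {n : ℕ} {κ : Type} (A : Actn n κ) (Δ : MvPolynomial κ ℂ) (x₀ : κ → ℂ) : Prop :=
  ∀ y : κ → ℂ, eval y Δ ≠ 0 → (∀ P ∈ orbIdeal A x₀, eval y P = 0) →
    ∃ g a : Matrix (Fin n) (Fin n) ℂ, g.det ≠ 0 ∧ a.det ≠ 0 ∧ A.app x₀ g a = y

/-- MODULE FR: functions on the group which are left invariant under the stabilizer of `x₀` come
from functions on the closed orbit. (`q i / (det g * det a) ^ M` is the function; the span of these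
functions is stable under right translation.) -/
def StatementFR : Prop :=
  ∀ (n : ℕ) (κ : Type) [Finite κ] (A : Actn n κ) [A.IsAction] (Δ : MvPolynomial κ ℂ) (r₁ r₂ : ℕ),
    A.Semi r₁ r₂ Δ → ∀ x₀ : κ → ℂ, eval x₀ Δ ≠ 0 → ClosedOrb A Δ x₀ →
    ∀ (ι : Type) [Fintype ι] (q : ι → MvPolynomial (Grp n) ℂ) (M : ℕ),
    (∀ i (s s' g a : Matrix (Fin n) (Fin n) ℂ), s.det ≠ 0 → s'.det ≠ 0 → g.det ≠ 0 → a.det ≠ 0 →
      A.app x₀ s s' = x₀ →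
      eval (gpt (s * g) (a * s')) (q i) = (s.det * s'.det) ^ M * eval (gpt g a) (q i)) →
    (∀ i (g' a' : Matrix (Fin n) (Fin n) ℂ), g'.det ≠ 0 → a'.det ≠ 0 → ∃ c : ι → ℂ,
      ∀ g a : Matrix (Fin n) (Fin n) ℂ, g.det ≠ 0 → a.det ≠ 0 →
        eval (gpt (g * g') (a' * a)) (q i) = ∑ j, c j * eval (gpt g a) (q j)) →
    ∃ (m : ℕ) (Q : ι → MvPolynomial κ ℂ), ∀ i (g a : Matrix (Fin n) (Fin n) ℂ),
      g.det ≠ 0 → a.det ≠ 0 →
      eval (A.app x₀ g a) (Q i) * (g.det * a.det) ^ M =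
        eval (gpt g a) (q i) * (eval (A.app x₀ g a) Δ) ^ m

/-- MODULE EK5: invariants with prescribed leading form along a closed orbit. -/
def StatementEK5 : Prop :=
  ∀ (n : ℕ) (κ : Type) [Finite κ] (A : Actn n κ) [A.IsAction] (Δ : MvPolynomial κ ℂ) (r₁ r₂ : ℕ),
    A.Semi r₁ r₂ Δ → ∀ x₀ : κ → ℂ, eval x₀ Δ ≠ 0 → ClosedOrb A Δ x₀ →
    ∀ (k : ℕ) (P₀ : MvPolynomial κ ℂ), P₀ ∈ orbIdeal A x₀ ^ k →
    (∀ s s' : Matrix (Fin n) (Fin n) ℂ, s.det ≠ 0 → s'.det ≠ 0 → A.app x₀ s s' = x₀ →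
      ∀ x : κ → ℂ, eval (A.app x s s') P₀ = eval x P₀) →
    ∃ (m : ℕ) (Q : MvPolynomial κ ℂ), A.Semi (m * r₁) (m * r₂) Q ∧
      ∀ y : κ → ℂ, (Polynomial.X ^ (k + 1) : Polynomial ℂ) ∣
        aeval (fun j => Polynomial.C (x₀ j) + Polynomial.X * Polynomial.C (y j)) Q -
          Polynomial.C (eval x₀ Δ ^ m) *
            aeval (fun j => Polynomial.C (x₀ j) + Polynomial.X * Polynomial.C (y j)) P₀

/-- MODULE VC: valuative criterion for the quotient (Reynolds operator over a valuation ring). -/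
def StatementVC : Prop :=
  ∀ (n : ℕ) (κ : Type) [Finite κ] (A : Actn n κ) [A.IsAction] (Δ : MvPolynomial κ ℂ) (r₁ r₂ : ℕ),
    A.Semi r₁ r₂ Δ → ∀ (K : Type) [Field K] [Algebra ℂ K] (O : ValuationSubring K),
    (∀ c : ℂ, algebraMap ℂ K c ∈ O) → ∀ x : κ → K, aeval x Δ ≠ 0 →
    (∀ (m : ℕ) (Q : MvPolynomial κ ℂ), A.Semi (m * r₁) (m * r₂) Q →
      aeval x Q / (aeval x Δ) ^ m ∈ O) →
    ∃ (L : Type) (_ : Field L) (_ : Algebra ℂ L) (_ : IsAlgClosed L) (ι : K →ₐ[ℂ] L)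
      (O' : ValuationSubring L) (g a : Matrix (Fin n) (Fin n) L),
      (∀ c : ℂ, algebraMap ℂ L c ∈ O') ∧ (∀ y : K, ι y ∈ O' ↔ y ∈ O) ∧ g.det ≠ 0 ∧ a.det ≠ 0 ∧
      (∀ k, A.app (ι ∘ x) g a k ∈ O') ∧ (aeval (A.app (ι ∘ x) g a) Δ)⁻¹ ∈ O'

/-- MODULE ORB: points of the closure of an orbit are reductions of points of the orbit over
valuation rings. -/
def StatementORB : Prop :=
  ∀ (n : ℕ) (κ : Type) [Finite κ] (A : Actn n κ) [A.IsAction] (x₀ y : κ → ℂ),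
    (∀ P ∈ orbIdeal A x₀, eval y P = 0) →
    ∃ (L : Type) (_ : Field L) (_ : Algebra ℂ L) (_ : IsAlgClosed L)
      (O : ValuationSubring L) (g a : Matrix (Fin n) (Fin n) L),
      (∀ c : ℂ, algebraMap ℂ L c ∈ O) ∧ g.det ≠ 0 ∧ a.det ≠ 0 ∧
      ∀ k, O.valuation (A.app (fun j => algebraMap ℂ L (x₀ j)) g a k - algebraMap ℂ L (y k)) < 1

/-- MODULE TAN: a tangent vector at `x₀` of the orbit closure is tangent to the orbit. -/
def StatementTAN : Prop :=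
  ∀ (n k : ℕ) (x₀ v : Fin n × Mon n k → ℂ),
    (∀ P ∈ orbIdeal (actT n k) x₀, ∑ j, v j * eval x₀ (pderiv j P) = 0) →
    ∃ ξ η : Matrix (Fin n) (Fin n) ℂ, ∀ i, tup v i =
      (∑ j, ∑ l, C (ξ j l) * X l * pderiv j (tup x₀ i)) + ∑ j, C (η i j) * tup x₀ j

/-- MODULE GF: the stabilizer of a nondegenerate form is finite (use `properP`). -/
def StatementGF : Prop :=
  ∀ (n d : ℕ), 3 ≤ d → ∀ f₀ : MvPolynomial (Fin n) ℂ, f₀.IsHomogeneous d → NonDeg f₀ →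
    {g : Matrix (Fin n) (Fin n) ℂ | subst g f₀ = f₀}.Finite

/-- MODULE HALL: matching. -/
def StatementHALL : Prop :=
  ∀ (k s d : ℕ), 0 < d → ∀ μ : Fin k → Fin s → ℕ, (∀ l, ∑ a, μ l a = d) →
    (∀ a, d ∣ ∑ l, μ l a) →
    ∃ σ : Fin k → Fin s, (∀ l, μ l (σ l) ≠ 0) ∧
      ∀ a, d * (Finset.univ.filter (fun l => σ l = a)).card = ∑ l, μ l a

/-- MODULE HILB: Hilbert's theorem on the finite generation of the ring of semi-invariants of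
forms. -/
def StatementHILB : Prop :=
  ∀ (n d : ℕ), 1 ≤ n → 1 ≤ d →
    ∃ (N : ℕ) (I : Fin N → MvPolynomial (Mon n d) ℂ) (w : Fin N → ℕ),
      (∀ j, (actS n d).Semi (w j) 0 (I j)) ∧
      ∀ (v : ℕ) (P : MvPolynomial (Mon n d) ℂ), (actS n d).Semi v 0 P →
        P ∈ Submodule.span ℂ {M | ∃ e : Fin N → ℕ, ∑ j, e j * w j = v ∧ M = ∏ j, I j ^ e j}

/-- MODULE KRULL. -/
def StatementKRULL : Prop :=
  ∀ (B : Type) [CommRing B] [IsNoetherianRing B] (R : Subring B) [IsNoetherianRing R],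
    (∀ (𝔞 : Ideal R) (φ : R), (φ : B) ∈ 𝔞.map R.subtype → φ ∈ 𝔞) →
    ∀ (𝔫 : Ideal R) [𝔫.IsMaximal] (𝔐 : Ideal B) [𝔐.IsMaximal], 𝔐.comap R.subtype = 𝔫 →
    (∀ 𝔐' : Ideal B, 𝔐'.IsMaximal → 𝔫.map R.subtype ≤ 𝔐' →
      ∃ θ : B ≃+* B, (∀ r : R, θ (r : B) = r) ∧ 𝔐'.comap (θ : B →+* B) = 𝔐) →
    ∃ k : ℕ, ∀ φ : R, (φ : B) ∈ 𝔐 ^ k → φ ∈ 𝔫 ^ 2

end Pool.Agent.Lib.MP_4fcc12_ag
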