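import Mathlib.RingTheory.Valuation.ValuationSubring
import Mathlib.LinearAlgebra.Matrix.NonsingularInverse
import Mathlib.LinearAlgebra.Matrix.Permutation
import Mathlib.Data.Matrix.Block
import Pool.Agent.Lib.MP_4fcc12_ag.AlgDD
import Mathlib.RingTheory.LocalRing.ResidueField.Basic
import Mathlib.FieldTheory.IsAlgClosed.Basic

section
open Matrix

set_option linter.unusedSectionVars false

namespace Pool.Agent.Lib.MP_4fcc12_ag

section

variable {K : Type*} [Field K] (O : ValuationSubring K)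

/-- matrices in `GL(O)`, seen over `K` -/
def IsGLO {ι : Type*} [Fintype ι] [DecidableEq ι] (P : Matrix ι ι K) : Prop :=
  ∃ P' : Matrix ι ι K, (∀ i j, P i j ∈ O) ∧ (∀ i j, P' i j ∈ O) ∧ P * P' = 1

variable {O} {ι : Type*} [Fintype ι] [DecidableEq ι]

lemma mul_mem_O {P Q : Matrix ι ι K} (hP : ∀ i j, P i j ∈ O) (hQ : ∀ i j, Q i j ∈ O) (i j : ι) :
    (P * Q) i j ∈ O := by
  rw [Matrix.mul_apply]
  exact sum_mem fun k _ => mul_mem (hP i k) (hQ k j)

lemma IsGLO.mem {P : Matrix ι ι K} (h : IsGLO O P) (i j : ι) : P i j ∈ O := h.choose_spec.1 i j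

lemma IsGLO.one : IsGLO O (1 : Matrix ι ι K) := by
  have h : ∀ i j, (1 : Matrix ι ι K) i j ∈ O := by
    intro i j
    rw [Matrix.one_apply]
    split_ifs
    · exact one_mem _
    · exact zero_mem _
  exact ⟨1, h, h, one_mul 1⟩

lemma IsGLO.mul {P Q : Matrix ι ι K} (hP : IsGLO O P) (hQ : IsGLO O Q) : IsGLO O (P * Q) := by
  obtain ⟨P', h1, h2, h3⟩ := hP
  obtain ⟨Q', h4, h5, h6⟩ := hQ
  refine ⟨Q' * P', mul_mem_O h1 h4, mul_mem_O h5 h2, ?_⟩
  rw [Matrix.mul_assoc, ← Matrix.mul_assoc Q, h6, Matrix.one_mul, h3]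

lemma IsGLO.inv {P : Matrix ι ι K} (hP : IsGLO O P) : IsGLO O P⁻¹ := by
  obtain ⟨P', h1, h2, h3⟩ := hP
  have h4 : P⁻¹ = P' := Matrix.inv_eq_right_inv h3
  rw [h4]
  exact ⟨P, h2, h1, mul_eq_one_comm.1 h3⟩

lemma IsGLO.isUnit_det {P : Matrix ι ι K} (hP : IsGLO O P) : IsUnit P.det := by
  obtain ⟨P', h1, h2, h3⟩ := hP
  exact Matrix.isUnit_det_of_right_inverse h3

lemma IsGLO.transpose {P : Matrix ι ι K} (hP : IsGLO O P) : IsGLO O Pᵀ := by
  obtain ⟨P', h1, h2, h3⟩ := hP
  refine ⟨P'ᵀ, fun i j => h1 j i, fun i j => h2 j i, ?_⟩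
  rw [← Matrix.transpose_mul, mul_eq_one_comm.1 h3, Matrix.transpose_one]

lemma IsGLO.submatrix {κ : Type*} [Fintype κ] [DecidableEq κ] {P : Matrix ι ι K}
    (hP : IsGLO O P) (e : κ ≃ ι) : IsGLO O (P.submatrix e e) := by
  obtain ⟨P', h1, h2, h3⟩ := hP
  refine ⟨P'.submatrix e e, fun i j => h1 _ _, fun i j => h2 _ _, ?_⟩
  rw [Matrix.submatrix_mul_equiv, h3, Matrix.submatrix_one_equiv]

lemma IsGLO.perm (σ : Equiv.Perm ι) : IsGLO O ((1 : Matrix ι ι K).submatrix id σ) := by
  have h : ∀ τ : Equiv.Perm ι, ∀ i j, ((1 : Matrix ι ι K).submatrix id τ) i j ∈ O := by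
    intro τ i j
    rw [Matrix.submatrix_apply, Matrix.one_apply]
    split_ifs
    · exact one_mem _
    · exact zero_mem _
  refine ⟨(1 : Matrix ι ι K).submatrix id σ.symm, h σ, h σ.symm, ?_⟩
  ext i j
  rw [Matrix.mul_apply, Finset.sum_eq_single (σ.symm i)]
  · simp [Matrix.one_apply]
  · intro b _ hb
    have : i ≠ σ b := fun h => hb (by rw [h, Equiv.symm_apply_apply])
    simp [Matrix.one_apply, this]
  · simp

lemma IsGLO.fromBlocks_lower {κ : Type*} [Fintype κ] [DecidableEq κ] (c : Matrix κ ι K)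
    (hc : ∀ i j, c i j ∈ O) : IsGLO O (Matrix.fromBlocks (1 : Matrix ι ι K) 0 c 1) := by
  have h : ∀ (c : Matrix κ ι K), (∀ i j, c i j ∈ O) →
      ∀ i j, (Matrix.fromBlocks (1 : Matrix ι ι K) 0 c (1 : Matrix κ κ K)) i j ∈ O := by
    intro c hc i j
    rcases i with i | i <;> rcases j with j | j
    · exact IsGLO.one.mem i j
    · exact zero_mem _
    · exact hc i j
    · exact IsGLO.one.mem i j
  refine ⟨Matrix.fromBlocks 1 0 (-c) 1, h c hc, h (-c) (fun i j => neg_mem (hc i j)), ?_⟩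
  simp [Matrix.fromBlocks_multiply]

lemma IsGLO.fromBlocks_upper {κ : Type*} [Fintype κ] [DecidableEq κ] (c : Matrix ι κ K)
    (hc : ∀ i j, c i j ∈ O) : IsGLO O (Matrix.fromBlocks (1 : Matrix ι ι K) c 0 1) := by
  have h : ∀ (c : Matrix ι κ K), (∀ i j, c i j ∈ O) →
      ∀ i j, (Matrix.fromBlocks (1 : Matrix ι ι K) c 0 (1 : Matrix κ κ K)) i j ∈ O := by
    intro c hc i j
    rcases i with i | i <;> rcases j with j | j
    · exact IsGLO.one.mem i j
    · exact hc i j
    · exact zero_mem _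
    · exact IsGLO.one.mem i j
  refine ⟨Matrix.fromBlocks 1 (-c) 0 1, h c hc, h (-c) (fun i j => neg_mem (hc i j)), ?_⟩
  simp [Matrix.fromBlocks_multiply]

lemma IsGLO.fromBlocks_diag {κ : Type*} [Fintype κ] [DecidableEq κ] {P : Matrix κ κ K}
    (hP : IsGLO O P) : IsGLO O (Matrix.fromBlocks (1 : Matrix ι ι K) 0 0 P) := by
  obtain ⟨P', h1, h2, h3⟩ := hP
  refine ⟨Matrix.fromBlocks 1 0 0 P', ?_, ?_, ?_⟩
  · intro i j
    rcases i with i | i <;> rcases j with j | j
    · exact IsGLO.one.mem i j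
    · exact zero_mem _
    · exact zero_mem _
    · exact h1 i j
  · intro i j
    rcases i with i | i <;> rcases j with j | j
    · exact IsGLO.one.mem i j
    · exact zero_mem _
    · exact zero_mem _
    · exact h2 i j
  · simp [Matrix.fromBlocks_multiply, h3]

theorem snf_aux (n : ℕ) : ∀ (ι : Type) [Fintype ι] [DecidableEq ι], Fintype.card ι = n →
    ∀ A : Matrix ι ι K, ∃ P Q : Matrix ι ι K, IsGLO O P ∧ IsGLO O Q ∧
      ∃ D : ι → K, P * A * Q = diagonal D := by
  induction n with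
  | zero =>
    intro ι _ _ h A
    have : IsEmpty ι := Fintype.card_eq_zero_iff.1 h
    exact ⟨1, 1, IsGLO.one, IsGLO.one, fun _ => 0, by ext i; exact this.elim i⟩
  | succ n ih =>
    intro ι _ _ h A
    by_cases hA : A = 0
    · exact ⟨1, 1, IsGLO.one, IsGLO.one, fun _ => 0, by subst hA; ext i j; simp [diagonal]⟩
    have hne : Nonempty (ι × ι) := by
      by_contra hemp
      apply hA
      ext i
      exact absurd ⟨(i, i)⟩ hemp
    obtain ⟨⟨i₀, j₀⟩, hmax⟩ := Finite.exists_max fun p : ι × ι => O.valuation (A p.1 p.2)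
    have hx : A i₀ j₀ ≠ 0 := by
      intro h0
      apply hA
      ext i j
      have := hmax (i, j)
      simp only [h0, map_zero, le_zero_iff, map_eq_zero] at this
      exact this
    set x := A i₀ j₀ with hxdef
    have hdiv : ∀ i j, x⁻¹ * A i j ∈ O := by
      intro i j
      rw [← ValuationSubring.valuation_le_one_iff, map_mul, map_inv₀]
      have h1 := hmax (i, j)
      have h2 : O.valuation x ≠ 0 := (map_ne_zero _).2 hx
      rw [mul_comm, ← div_eq_mul_inv]
      exact div_le_one_of_le₀ h1 zero_le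
    let σ : Equiv.Perm ι := Equiv.swap i₀ j₀
    let B : Matrix ι ι K := A * (1 : Matrix ι ι K).submatrix id σ
    have hB : ∀ i j, B i j = A i (σ j) := by
      intro i j
      simp only [B, Matrix.mul_apply, Matrix.submatrix_apply, id, Matrix.one_apply]
      simp
    let U := {a : ι // a = i₀}
    let V := {a : ι // ¬ a = i₀}
    let e : U ⊕ V ≃ ι := Equiv.sumCompl (fun a => a = i₀)
    let M : Matrix (U ⊕ V) (U ⊕ V) K := B.submatrix e e
    have hM : M = fromBlocks M.toBlocks₁₁ M.toBlocks₁₂ M.toBlocks₂₁ M.toBlocks₂₂ :=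
      (fromBlocks_toBlocks M).symm
    have hUnique : ∀ u : U, u = ⟨i₀, rfl⟩ := fun u => Subtype.ext u.2
    have ha : M.toBlocks₁₁ = x • (1 : Matrix U U K) := by
      ext u v
      have h1 : u = v := (hUnique u).trans (hUnique v).symm
      subst h1
      have h2 : M.toBlocks₁₁ u u = B i₀ i₀ := by
        rw [hUnique u]
        rfl
      rw [h2, hB]
      simp [σ, hxdef]
    let b := M.toBlocks₁₂
    let c := M.toBlocks₂₁
    have hb : ∀ i j, (x⁻¹ • b) i j ∈ O := fun i j => by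
      have : (x⁻¹ • b) i j = x⁻¹ * B (e (Sum.inl i)) (e (Sum.inr j)) := rfl
      rw [this, hB]
      exact hdiv _ _
    have hc : ∀ i j, (x⁻¹ • c) i j ∈ O := fun i j => by
      have : (x⁻¹ • c) i j = x⁻¹ * B (e (Sum.inr i)) (e (Sum.inl j)) := rfl
      rw [this, hB]
      exact hdiv _ _
    have hcard : Fintype.card V = n := by
      have h1 := Fintype.card_congr e
      rw [Fintype.card_sum, h] at h1
      have h2 : Fintype.card U = 1 := Fintype.card_eq_one_iff.2 ⟨⟨i₀, rfl⟩, hUnique⟩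
      omega
    obtain ⟨P₂, Q₂, hP₂, hQ₂, D₂, hD₂⟩ := ih V hcard (M.toBlocks₂₂ - x⁻¹ • (c * b))
    let P₁ : Matrix (U ⊕ V) (U ⊕ V) K := fromBlocks 1 0 (-(x⁻¹ • c)) 1
    let Q₁ : Matrix (U ⊕ V) (U ⊕ V) K := fromBlocks 1 (-(x⁻¹ • b)) 0 1
    have hP₁ : IsGLO O P₁ := IsGLO.fromBlocks_lower _ fun i j => neg_mem (hc i j)
    have hQ₁ : IsGLO O Q₁ := IsGLO.fromBlocks_upper _ fun i j => neg_mem (hb i j)
    have h1 : P₁ * M * Q₁ = fromBlocks (x • 1) 0 0 (M.toBlocks₂₂ - x⁻¹ • (c * b)) := by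
      rw [hM, ha]
      simp only [P₁, Q₁, fromBlocks_multiply]
      congr 1
      · simp
      · simp [smul_smul, hx, b]
      · simp [smul_smul, hx, c]
      · simp [smul_smul, hx, b, c]
        abel
    let P₃ : Matrix (U ⊕ V) (U ⊕ V) K := fromBlocks 1 0 0 P₂
    let Q₃ : Matrix (U ⊕ V) (U ⊕ V) K := fromBlocks 1 0 0 Q₂
    have h2 : P₃ * (P₁ * M * Q₁) * Q₃ = diagonal (Sum.elim (fun _ => x) D₂) := by
      rw [h1]
      simp only [P₃, Q₃, fromBlocks_multiply]
      rw [← fromBlocks_diagonal, ← hD₂]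
      congr 1
      · ext u v
        simp [Matrix.one_apply, diagonal_apply]
      · simp
      · simp
      · simp
    refine ⟨(P₃ * P₁).submatrix e.symm e.symm,
      (1 : Matrix ι ι K).submatrix id σ * (Q₁ * Q₃).submatrix e.symm e.symm,
      ((IsGLO.fromBlocks_diag hP₂).mul hP₁).submatrix e.symm,
      (IsGLO.perm σ).mul ((hQ₁.mul (IsGLO.fromBlocks_diag hQ₂)).submatrix e.symm),
      (Sum.elim (fun _ => x) D₂) ∘ e.symm, ?_⟩
    have h3 : B = M.submatrix e.symm e.symm := by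
      ext i j
      simp [M]
    have h4 : (P₃ * P₁).submatrix e.symm e.symm * A *
        ((1 : Matrix ι ι K).submatrix id σ * (Q₁ * Q₃).submatrix e.symm e.symm) =
        (P₃ * P₁).submatrix e.symm e.symm * B * (Q₁ * Q₃).submatrix e.symm e.symm := by
      simp only [B, Matrix.mul_assoc]
    rw [h4, h3, submatrix_mul_equiv, submatrix_mul_equiv]
    have h5 : P₃ * P₁ * M * (Q₁ * Q₃) = P₃ * (P₁ * M * Q₁) * Q₃ := by
      simp only [Matrix.mul_assoc]
    rw [h5, h2, submatrix_diagonal_equiv]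

/-- Smith normal form over a valuation ring -/
theorem snf {n : ℕ} (A : Matrix (Fin n) (Fin n) K) (hA : A.det ≠ 0) :
    ∃ (P Q : Matrix (Fin n) (Fin n) K) (D : Fin n → K), IsGLO O P ∧ IsGLO O Q ∧
      (∀ i, D i ≠ 0) ∧ A = P * diagonal D * Q := by
  obtain ⟨P, Q, hP, hQ, D, hD⟩ := snf_aux (O := O) n (Fin n) (Fintype.card_fin n) A
  refine ⟨P⁻¹, Q⁻¹, D, hP.inv, hQ.inv, ?_, ?_⟩
  · intro i hi
    have h1 : (P * A * Q).det = 0 := by
      rw [hD, det_diagonal]
      exact Finset.prod_eq_zero (Finset.mem_univ i) hi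
    rw [det_mul, det_mul] at h1
    have h2 := hP.isUnit_det.ne_zero
    have h3 := hQ.isUnit_det.ne_zero
    simp_all
  · rw [← hD]
    have h2 := hP.isUnit_det
    have h3 := hQ.isUnit_det
    rw [Matrix.mul_assoc P, Matrix.nonsing_inv_mul_cancel_left _ _ h2,
      Matrix.mul_nonsing_inv_cancel_right _ _ h3]

end

end Pool.Agent.Lib.MP_4fcc12_ag
end

section
open MvPolynomial Matrix IsLocalRing

set_option linter.unusedSectionVars false

namespace Pool.Agent.Lib.MP_4fcc12_ag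

variable {n : ℕ}

section valued

variable {K : Type*} [Field K] {O : ValuationSubring K}

/-- lift of a matrix with integral entries -/
def liftO (P : Matrix (Fin n) (Fin n) K) (hP : ∀ i j, P i j ∈ O) : Matrix (Fin n) (Fin n) O :=
  Matrix.of fun i j => ⟨P i j, hP i j⟩

lemma liftO_map (P : Matrix (Fin n) (Fin n) K) (hP : ∀ i j, P i j ∈ O) :
    (liftO P hP).map (algebraMap O K) = P := by
  ext i j
  rfl

lemma IsGLO.exists_lift {P : Matrix (Fin n) (Fin n) K} (hP : IsGLO O P) :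
    ∃ Q : Matrix (Fin n) (Fin n) O, IsUnit Q.det ∧ Q.map (algebraMap O K) = P := by
  obtain ⟨P', h1, h2, h3⟩ := hP
  refine ⟨liftO P h1, ?_, liftO_map P h1⟩
  have h4 : liftO P h1 * liftO P' h2 = 1 := by
    have hinj : Function.Injective (fun M : Matrix (Fin n) (Fin n) O => M.map (algebraMap O K)) := by
      intro M N h
      ext i j
      exact congrArg (fun X : Matrix (Fin n) (Fin n) K => X i j) h
    apply hinj
    show (liftO P h1 * liftO P' h2).map (algebraMap O K) = (1 : Matrix _ _ O).map (algebraMap O K)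
    rw [Matrix.map_mul, liftO_map, liftO_map, h3, Matrix.map_one _ (map_zero _) (map_one _)]
  exact Matrix.isUnit_det_of_right_inverse h4

lemma isGLO_of_lift {Q : Matrix (Fin n) (Fin n) O} (hQ : IsUnit Q.det) :
    IsGLO O (Q.map (algebraMap O K)) := by
  refine ⟨Q⁻¹.map (algebraMap O K), fun i j => (Q i j).2, fun i j => (Q⁻¹ i j).2, ?_⟩
  rw [← Matrix.map_mul, Matrix.mul_nonsing_inv _ hQ, Matrix.map_one _ (map_zero _) (map_one _)]

lemma isUnit_det_residue {Q : Matrix (Fin n) (Fin n) O} (hQ : IsUnit Q.det) :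
    IsUnit (Q.map (residue O)).det := by
  have := hQ.map (residue O)
  rwa [RingHom.map_det] at this

lemma isUnit_of_residue_ne_zero {x : O} (hx : residue O x ≠ 0) : IsUnit x := by
  by_contra h
  exact hx ((residue_eq_zero_iff x).2 ((mem_maximalIdeal x).2 h))

/-- units have valuation one -/
lemma valuation_eq_one_of_residue_ne_zero {x : O} (hx : residue O x ≠ 0) :
    O.valuation (x : K) = 1 :=
  (O.valuation_eq_one_iff x).1 (isUnit_of_residue_ne_zero hx)

lemma valuation_lt_one_iff_residue {x : O} : O.valuation (x : K) < 1 ↔ residue O x = 0 := by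
  rw [residue_eq_zero_iff, O.valuation_lt_one_iff]

/-- a square matrix over `O` with invertible reduction is in `GL(O)` -/
lemma isUnit_det_of_residue {Q : Matrix (Fin n) (Fin n) O} (hQ : (Q.map (residue O)).det ≠ 0) :
    IsUnit Q.det := by
  apply isUnit_of_residue_ne_zero
  rw [RingHom.map_det]
  exact hQ

/-- diagonal matrices of units are in `GL(O)` -/
lemma isGLO_diagonal {D : Fin n → K} (hD : ∀ i, O.valuation (D i) = 1) :
    IsGLO O (diagonal D) := by
  have h1 : ∀ i, D i ≠ 0 := fun i h => by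
    have := hD i
    rw [h, map_zero] at this
    exact zero_ne_one this
  refine ⟨diagonal fun i => (D i)⁻¹, ?_, ?_, ?_⟩
  · intro i j
    rw [diagonal_apply]
    split_ifs
    · exact (O.valuation_le_one_iff _).1 (hD i).le
    · exact O.zero_mem
  · intro i j
    rw [diagonal_apply]
    split_ifs
    · exact (O.valuation_le_one_iff _).1 (by rw [map_inv₀, hD i, inv_one])
    · exact O.zero_mem
  · rw [diagonal_mul_diagonal]
    have : (fun i => D i * (D i)⁻¹) = fun _ => 1 := by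
      funext i
      exact mul_inv_cancel₀ (h1 i)
    rw [this, diagonal_one]

/-- the elementary argument on values -/
lemma all_one_of_keys {Γ : Type*} [LinearOrderedCommGroupWithZero Γ] {d : ℕ} (hd : 3 ≤ d)
    {w : Fin n → Γ} (hw : ∀ i, w i ≠ 0) (key1 : ∀ i, ∃ j, w i ^ (d - 1) * w j ≤ 1)
    (key2 : ∀ i, ∃ j, 1 ≤ w i ^ (d - 1) * w j) : ∀ i, w i = 1 := by
  have hle : ∀ i, w i ≤ 1 := by
    by_contra hne
    push Not at hne
    obtain ⟨i₀, hi₀⟩ := hne
    obtain ⟨i, -, hmax⟩ := Finset.exists_max_image Finset.univ w ⟨i₀, Finset.mem_univ _⟩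
    have hi : 1 < w i := hi₀.trans_le (hmax i₀ (Finset.mem_univ _))
    obtain ⟨j, hj⟩ := key1 i
    obtain ⟨l, hl⟩ := key2 j
    have hpos : ∀ i, 0 < w i := fun i => zero_lt_iff.2 (hw i)
    -- w i ^ (d-1) * w j ≤ 1, 1 ≤ w j ^ (d-1) * w l, w l ≤ w i
    have h1 : (w i ^ (d - 1)) ^ (d - 1) * w j ^ (d - 1) ≤ 1 := by
      rw [← mul_pow]
      exact pow_le_one₀ zero_le hj
    have h2 : 1 ≤ w j ^ (d - 1) * w i := hl.trans (mul_le_mul_right (hmax l (Finset.mem_univ _)) _)
    have h3 : (w i ^ (d - 1)) ^ (d - 1) ≤ w i := by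
      calc (w i ^ (d - 1)) ^ (d - 1) = (w i ^ (d - 1)) ^ (d - 1) * 1 := (mul_one _).symm
        _ ≤ (w i ^ (d - 1)) ^ (d - 1) * (w j ^ (d - 1) * w i) := mul_le_mul_right h2 _
        _ = ((w i ^ (d - 1)) ^ (d - 1) * w j ^ (d - 1)) * w i := (mul_assoc _ _ _).symm
        _ ≤ 1 * w i := mul_le_mul_left h1 _
        _ = w i := one_mul _
    have h4 : w i < w i ^ ((d - 1) * (d - 1)) := by
      have h5 : 1 < (d - 1) * (d - 1) := by
        have : 2 ≤ d - 1 := by omega
        nlinarith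
      exact lt_self_pow₀ hi h5
    rw [pow_mul] at h4
    exact absurd h3 (not_le.2 h4)
  have hge : ∀ i, 1 ≤ w i := by
    intro i
    obtain ⟨j, hj⟩ := key2 i
    by_contra h
    push Not at h
    have h1 : w i ^ (d - 1) < 1 := pow_lt_one₀ zero_le h (by omega)
    have h2 : w i ^ (d - 1) * w j < 1 :=
      calc w i ^ (d - 1) * w j ≤ w i ^ (d - 1) * 1 := mul_le_mul_right (hle j) _
        _ = w i ^ (d - 1) := mul_one _
        _ < 1 := h1
    exact absurd hj (not_le.2 h2)
  exact fun i => le_antisymm (hle i) (hge i)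

theorem properP {d : ℕ} (hd : 3 ≤ d) {f₀ f₁ : MvPolynomial (Fin n) O}
    (h₀ : f₀.IsHomogeneous d) (h₁ : f₁.IsHomogeneous d)
    (nd₀ : NonDeg (MvPolynomial.map (residue O) f₀))
    (nd₁ : NonDeg (MvPolynomial.map (residue O) f₁))
    (g : Matrix (Fin n) (Fin n) K) (hg : g.det ≠ 0)
    (h : MvPolynomial.map (algebraMap O K) f₁ = subst g (MvPolynomial.map (algebraMap O K) f₀)) :
    IsGLO O g := by
  obtain ⟨P, Q, D, hP, hQ, hD, rfl⟩ := snf (O := O) g hg
  obtain ⟨P₀, hP₀, rfl⟩ := hP.exists_lift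
  obtain ⟨Q₀, hQ₀, hQQ⟩ := hQ.inv.exists_lift
  -- reduce to a diagonal matrix
  set f₂ := subst P₀ f₀ with hf₂
  set f₃ := subst Q₀ f₁ with hf₃
  have h2 : f₂.IsHomogeneous d := isHomogeneous_subst _ h₀
  have h3 : f₃.IsHomogeneous d := isHomogeneous_subst _ h₁
  have nd₂ : NonDeg (MvPolynomial.map (residue O) f₂) := by
    rw [hf₂, map_subst]
    exact nd₀.subst (isUnit_det_residue hP₀)
  have nd₃ : NonDeg (MvPolynomial.map (residue O) f₃) := by
    rw [hf₃, map_subst]
    exact nd₁.subst (isUnit_det_residue hQ₀)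
  have h4 : MvPolynomial.map (algebraMap O K) f₃ =
      subst (diagonal D) (MvPolynomial.map (algebraMap O K) f₂) := by
    rw [hf₃, map_subst, h, hf₂, map_subst, ← subst_mul, ← subst_mul, hQQ,
      Matrix.mul_nonsing_inv_cancel_right _ _ hQ.isUnit_det]
  have h5 : ∀ m, ((coeff m f₃ : O) : K) = (∏ i, D i ^ m i) * (coeff m f₂ : O) := by
    intro m
    have := congrArg (coeff m) h4
    rw [coeff_subst_diagonal, coeff_map, coeff_map] at this
    exact this
  let w : Fin n → O.ValueGroup := fun i => O.valuation (D i)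
  have hw0 : ∀ i, w i ≠ 0 := fun i => (map_ne_zero _).2 (hD i)
  have hprod : ∀ i j, ∏ l, D l ^ ((Finsupp.single i (d - 1) + Finsupp.single j 1 : Fin n →₀ ℕ) l) =
      D i ^ (d - 1) * D j := by
    intro i j
    simp only [Finsupp.add_apply, pow_add, Finset.prod_mul_distrib]
    congr 1
    · rw [Finset.prod_eq_single i]
      · simp
      · intro b _ hb
        simp [hb.symm]
      · simp
    · rw [Finset.prod_eq_single j]
      · simp
      · intro b _ hb
        simp [hb.symm]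
      · simp
  have key1 : ∀ i, ∃ j, w i ^ (d - 1) * w j ≤ 1 := by
    intro i
    obtain ⟨j, hj⟩ := nd₂.exists_coeff_ne_zero (h2.map _) i
    refine ⟨j, ?_⟩
    rw [coeff_map] at hj
    have h6 := valuation_eq_one_of_residue_ne_zero hj
    have h7 := congrArg O.valuation (h5 (Finsupp.single i (d - 1) + Finsupp.single j 1))
    rw [map_mul, h6, mul_one, hprod, map_mul, map_pow] at h7
    show O.valuation (D i) ^ (d - 1) * O.valuation (D j) ≤ 1
    rw [← h7]
    exact O.valuation_le_one _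
  have key2 : ∀ i, ∃ j, 1 ≤ w i ^ (d - 1) * w j := by
    intro i
    obtain ⟨j, hj⟩ := nd₃.exists_coeff_ne_zero (h3.map _) i
    refine ⟨j, ?_⟩
    rw [coeff_map] at hj
    have h6 := valuation_eq_one_of_residue_ne_zero hj
    have h7 := congrArg O.valuation (h5 (Finsupp.single i (d - 1) + Finsupp.single j 1))
    rw [map_mul, h6, hprod, map_mul, map_pow] at h7
    have h8 : O.valuation ((coeff (Finsupp.single i (d - 1) + Finsupp.single j 1) f₂ : O) : K) ≤ 1 :=
      O.valuation_le_one _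
    show 1 ≤ O.valuation (D i) ^ (d - 1) * O.valuation (D j)
    calc (1 : O.ValueGroup) = _ := h7
      _ ≤ O.valuation (D i) ^ (d - 1) * O.valuation (D j) * 1 := mul_le_mul_right h8 _
      _ = _ := mul_one _
  have hall : ∀ i, w i = 1 := all_one_of_keys hd hw0 key1 key2
  exact (hP.mul (isGLO_diagonal hall)).mul hQ

end valued

end Pool.Agent.Lib.MP_4fcc12_ag
end
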