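import Mathlib.RingTheory.Nullstellensatz
import Mathlib.RingTheory.KrullDimension.Polynomial
import Mathlib.RingTheory.KrullDimension.Field
import Mathlib.RingTheory.Ideal.KrullsHeightTheorem
import Mathlib.RingTheory.MvPolynomial.Homogeneous
import Pool.Agent.Lib.MP_4fcc12_ag.AlgDD
import Mathlib.LinearAlgebra.Basis.VectorSpace
import Mathlib.LinearAlgebra.Dual.Lemmas
import Pool.Agent.Lib.MP_4fcc12_ag.Val
import Mathlib.RingTheory.Valuation.LocalSubring
import Mathlib.RingTheory.Polynomial.Basic
import Mathlib.Algebra.Polynomial.Lifts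
import Mathlib.RingTheory.IntegralClosure.IntegrallyClosed
import Pool.Agent.Lib.MP_4fcc12_ag.Spec3
import Mathlib.Analysis.Complex.Polynomial.Basic
import Mathlib.Algebra.CharP.Algebra

section
open MvPolynomial

namespace Pool.Agent.Lib.MP_4fcc12_ag

/-- the ideal of a point -/
noncomputable def ptIdeal {K σ : Type*} [Field K] (p : σ → K) : Ideal (MvPolynomial σ K) :=
  RingHom.ker (eval p)

lemma ptIdeal_isMaximal {K σ : Type*} [Field K] (p : σ → K) : (ptIdeal p).IsMaximal :=
  RingHom.ker_isMaximal_of_surjective _ fun c => ⟨C c, by simp⟩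

lemma height_ptIdeal_eq {K σ : Type*} [Field K] (p q : σ → K) :
    (ptIdeal p).height = (ptIdeal q).height := by
  -- translation
  let e : MvPolynomial σ K ≃ₐ[K] MvPolynomial σ K :=
    AlgEquiv.ofAlgHom (aeval fun i => X i + C (q i - p i)) (aeval fun i => X i - C (q i - p i))
      (by apply MvPolynomial.algHom_ext; intro i; simp [algebraMap_eq])
      (by apply MvPolynomial.algHom_ext; intro i; simp [algebraMap_eq])
  have h1 : (ptIdeal q) = (ptIdeal p).comap (e.toRingEquiv : MvPolynomial σ K →+* MvPolynomial σ K) := by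
    rw [ptIdeal, ptIdeal, RingHom.comap_ker]
    congr 1
    apply MvPolynomial.ringHom_ext
    · intro r
      simp [e]
    · intro i
      simp [e]
  rw [h1]
  exact (RingEquiv.height_comap e.toRingEquiv (ptIdeal p)).symm

lemma height_ptIdeal {K σ : Type*} [Field K] [IsAlgClosed K] [Finite σ] (p : σ → K) :
    (ptIdeal p).height = Nat.card σ := by
  have h1 : ringKrullDim (MvPolynomial σ K) = Nat.card σ := by
    rw [MvPolynomial.ringKrullDim_of_isNoetherianRing, ringKrullDim_eq_zero_of_field, zero_add]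
  rw [← Ideal.sup_isMaximal_height_eq_ringKrullDim] at h1
  have h2 : (⨆ (I : Ideal (MvPolynomial σ K)) (_ : I.IsMaximal), I.height) = (ptIdeal p).height := by
    apply le_antisymm
    · refine iSup₂_le fun I hI => ?_
      obtain ⟨x, hx⟩ := MvPolynomial.isMaximal_iff_eq_vanishingIdeal_singleton.1 hI
      have h3 : I = ptIdeal x := by
        rw [hx]
        ext f
        rw [mem_vanishingIdeal_singleton_iff, ptIdeal, RingHom.mem_ker]
        rfl
      rw [h3]
      exact (height_ptIdeal_eq x p).le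
    · exact le_iSup₂_of_le (ptIdeal p) (ptIdeal_isMaximal p) le_rfl
  rw [h2] at h1
  exact_mod_cast h1

/-- fewer than `card σ` forms of positive degree have a common nontrivial zero -/
theorem exists_common_zero {K σ τ : Type*} [Field K] [IsAlgClosed K] [Finite σ] [Finite τ]
    (h : Nat.card τ < Nat.card σ) (F : τ → MvPolynomial σ K) (k : τ → ℕ) (hk : ∀ t, 0 < k t)
    (hF : ∀ t, (F t).IsHomogeneous (k t)) : ∃ p : σ → K, p ≠ 0 ∧ ∀ t, eval p (F t) = 0 := by
  by_contra hne
  push Not at hne
  have h0 : ∀ t, eval (0 : σ → K) (F t) = 0 := by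
    intro t
    have h1 : coeff 0 (F t) = 0 := (hF t).coeff_eq_zero (by simpa using (hk t).ne)
    rw [MvPolynomial.eval_zero, constantCoeff_eq, h1]
  let I := Ideal.span (Set.range F)
  have hI : zeroLocus K I = {0} := by
    rw [MvPolynomial.zeroLocus_span]
    ext p
    constructor
    · intro hp
      by_contra hp0
      obtain ⟨t, ht⟩ := hne p hp0
      exact ht (hp (F t) ⟨t, rfl⟩)
    · rintro rfl _ ⟨t, rfl⟩
      exact h0 t
  have hrad : I.radical = ptIdeal 0 := by
    rw [← MvPolynomial.vanishingIdeal_zeroLocus_eq_radical (K := K), hI]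
    ext f
    rw [mem_vanishingIdeal_singleton_iff, ptIdeal, RingHom.mem_ker]
    rfl
  have hmin : (ptIdeal (0 : σ → K)) ∈ I.minimalPrimes := by
    refine ⟨⟨(ptIdeal_isMaximal 0).isPrime, ?_⟩, ?_⟩
    · rw [← hrad]
      exact Ideal.le_radical
    · rintro P ⟨hP, hIP⟩ _
      rw [← hrad]
      exact hP.radical_le_iff.2 hIP
  have h2 := Ideal.height_le_card_of_mem_minimalPrimes_span (Set.finite_range F) hmin
  rw [height_ptIdeal] at h2
  have h3 : (Set.range F).ncard ≤ Nat.card τ := by
    rw [← Set.image_univ, ← Set.ncard_univ]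
    exact Set.ncard_image_le Set.finite_univ
  have h4 : Nat.card σ ≤ (Set.range F).ncard := by exact_mod_cast h2
  omega

end Pool.Agent.Lib.MP_4fcc12_ag
end

section
open MvPolynomial Matrix

set_option linter.unusedSectionVars false

namespace Pool.Agent.Lib.MP_4fcc12_ag

variable {n : ℕ}

/-- Nullstellensatz: a system of polynomial equations over an algebraically closed field which is
solvable in some nonzero algebra is solvable in the field. -/
lemma exists_point {k σ : Type*} [Field k] [IsAlgClosed k] [Finite σ] {R : Type*} [CommRing R]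
    [Nontrivial R] [Algebra k R] (I : Ideal (MvPolynomial σ k)) (x : σ → R)
    (hx : ∀ P ∈ I, aeval x P = 0) : ∃ y : σ → k, ∀ P ∈ I, eval y P = 0 := by
  have hI : I ≠ ⊤ := by
    intro h
    have h1 := hx 1 (h ▸ Submodule.mem_top)
    rw [map_one] at h1
    exact one_ne_zero h1
  obtain ⟨M, hM, hIM⟩ := Ideal.exists_le_maximal I hI
  obtain ⟨y, hy⟩ := MvPolynomial.isMaximal_iff_eq_vanishingIdeal_singleton.1 hM
  refine ⟨y, fun P hP => ?_⟩
  have h1 : P ∈ vanishingIdeal k {y} := hy ▸ hIM hP
  rw [mem_vanishingIdeal_singleton_iff] at h1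
  exact h1

/-- version with a family of equations and one inequation -/
lemma exists_point' {k σ : Type*} [Field k] [IsAlgClosed k] [Finite σ] {ι : Type*} {R : Type*}
    [Field R] [Algebra k R] (P : ι → MvPolynomial σ k) (Q : MvPolynomial σ k) (x : σ → R)
    (hx : ∀ i, aeval x (P i) = 0) (hQ : aeval x Q ≠ 0) :
    ∃ y : σ → k, (∀ i, eval y (P i) = 0) ∧ eval y Q ≠ 0 := by
  let x' : Option σ → R := fun o => o.elim (aeval x Q)⁻¹ x
  let emb : MvPolynomial σ k →ₐ[k] MvPolynomial (Option σ) k := rename some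
  let I : Ideal (MvPolynomial (Option σ) k) :=
    Ideal.span (Set.range (fun i => emb (P i)) ∪ {X none * emb Q - 1})
  have hemb : ∀ F : MvPolynomial σ k, aeval x' (emb F) = aeval x F := by
    intro F
    rw [aeval_rename]
    rfl
  obtain ⟨y, hy⟩ := exists_point I x' (by
    intro F hF
    have h1 : I ≤ RingHom.ker (aeval x' : MvPolynomial (Option σ) k →ₐ[k] R) := by
      rw [Ideal.span_le]
      rintro G (⟨i, rfl⟩ | hG)
      · show aeval x' (emb (P i)) = 0
        rw [hemb]
        exact hx i
      · rw [Set.mem_singleton_iff] at hG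
        rw [hG]
        show aeval x' (X none * emb Q - 1) = 0
        rw [map_sub, map_mul, aeval_X, hemb, map_one]
        show (aeval x Q)⁻¹ * aeval x Q - 1 = 0
        rw [inv_mul_cancel₀ hQ, sub_self]
    exact h1 hF)
  have hemb' : ∀ F : MvPolynomial σ k, eval y (emb F) = eval (fun i => y (some i)) F := by
    intro F
    rw [eval_rename]
    rfl
  refine ⟨fun i => y (some i), ?_, ?_⟩
  · intro i
    rw [← hemb']
    exact hy _ (Ideal.subset_span (Or.inl ⟨i, rfl⟩))
  · rw [← hemb']
    intro h0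
    have h1 := hy _ (Ideal.subset_span (Or.inr rfl))
    rw [map_sub, map_mul, h0, mul_zero, map_one, zero_sub] at h1
    exact one_ne_zero (neg_eq_zero.1 h1)

section field

variable {F : Type*} [Field F]

lemma Reg.map {k : Type*} [Field k] [IsAlgClosed k] [Algebra k F]
    {T : Fin n → MvPolynomial (Fin n) k} (hT : Reg T) :
    Reg fun i => MvPolynomial.map (algebraMap k F) (T i) := by
  intro p hp
  by_contra hp0
  obtain ⟨j, hj⟩ : ∃ j, p j ≠ 0 := by
    by_contra hall
    push Not at hall
    exact hp0 (funext hall)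
  obtain ⟨y, hy, hy'⟩ := exists_point' T (X j) p
    (fun i => by
      have := hp i
      rwa [eval_map, ← aeval_def] at this)
    (by rwa [aeval_X])
  have h1 := hT y hy
  rw [h1] at hy'
  simp at hy'

lemma NonDeg.map {k : Type*} [Field k] [IsAlgClosed k] [Algebra k F]
    {f : MvPolynomial (Fin n) k} (hf : NonDeg f) :
    NonDeg (MvPolynomial.map (algebraMap k F) f) := by
  have h := Reg.map (F := F) hf
  have h2 : (fun i => MvPolynomial.map (algebraMap k F) (grad f i)) =
      grad (MvPolynomial.map (algebraMap k F) f) := funext fun i => map_grad _ _ _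
  rw [h2] at h
  exact h

/-- the entries of a regular tuple of forms of positive degree are linearly independent -/
lemma Reg.eq_zero_of_sum [IsAlgClosed F] {T : Fin n → MvPolynomial (Fin n) F} (hT : Reg T) {k : ℕ}
    (hk : 0 < k) (hh : ∀ i, (T i).IsHomogeneous k) (c : Fin n → F)
    (hc : ∑ i, C (c i) * T i = 0) : c = 0 := by
  classical
  by_contra hc0
  obtain ⟨j, hj⟩ : ∃ j, c j ≠ 0 := by
    by_contra hall
    push Not at hall
    exact hc0 (funext hall)
  obtain ⟨p, hp0, hp⟩ := exists_common_zero (K := F) (σ := Fin n) (τ := {i : Fin n // i ≠ j})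
    (by
      rw [Nat.card_eq_fintype_card, Nat.card_eq_fintype_card]
      exact Fintype.card_subtype_lt (x := j) (by simp))
    (fun t => T t.1) (fun _ => k) (fun _ => hk) (fun t => hh t.1)
  apply hp0
  apply hT
  intro i
  by_cases hi : i = j
  · subst hi
    have h1 := congrArg (eval p) hc
    rw [map_sum, Finset.sum_eq_single i] at h1
    · rw [map_mul, eval_C, map_zero] at h1
      exact (mul_eq_zero.1 h1).resolve_left hj
    · intro l _ hl
      rw [map_mul, hp ⟨l, hl⟩, mul_zero]
    · simp
  · exact hp ⟨i, hi⟩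

end field

section hess

variable {R : Type*} [CommRing R]

lemma pderiv_comm (i j : Fin n) (f : MvPolynomial (Fin n) R) :
    pderiv i (pderiv j f) = pderiv j (pderiv i f) := by
  by_cases hij : i = j
  · rw [hij]
  ext m
  rw [coeff_pderiv, coeff_pderiv, coeff_pderiv, coeff_pderiv]
  have h1 : (m + Finsupp.single i 1 : Fin n →₀ ℕ) j = m j := by
    simp [Ne.symm hij]
  have h2 : (m + Finsupp.single j 1 : Fin n →₀ ℕ) i = m i := by
    simp [hij]
  rw [h1, h2, add_right_comm]
  ring

/-- the Hessian matrix -/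
noncomputable def hess (f : MvPolynomial (Fin n) R) :
    Matrix (Fin n) (Fin n) (MvPolynomial (Fin n) R) :=
  Matrix.of fun i j => pderiv i (pderiv j f)

lemma hess_transpose (f : MvPolynomial (Fin n) R) : (hess f)ᵀ = hess f := by
  refine Matrix.ext fun i j => ?_
  simp only [hess, Matrix.transpose_apply, Matrix.of_apply]
  exact pderiv_comm _ _ _

/-- `B * Hess f` is symmetric -/
def SymB (f : MvPolynomial (Fin n) R) (B : Matrix (Fin n) (Fin n) R) : Prop :=
  ∀ i j, ∑ k, C (B i k) * pderiv k (pderiv j f) = ∑ k, C (B j k) * pderiv k (pderiv i f)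

lemma symB_iff (f : MvPolynomial (Fin n) R) (B : Matrix (Fin n) (Fin n) R) :
    SymB f B ↔ B.map C * hess f = hess f * (B.map C)ᵀ := by
  have h1 : hess f * (B.map C)ᵀ = (B.map C * hess f)ᵀ := by
    rw [Matrix.transpose_mul, hess_transpose]
  rw [h1, ← Matrix.ext_iff]
  constructor
  · intro h i j
    exact h i j
  · intro h i j
    exact h i j

lemma hess_subst (k : Matrix (Fin n) (Fin n) R) (f : MvPolynomial (Fin n) R) :
    hess (subst k f) = (k.map C)ᵀ * (hess f).map (subst k) * k.map C := by
  refine Matrix.ext fun i j => ?_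
  simp only [hess, Matrix.of_apply, Matrix.mul_apply, Matrix.transpose_apply, Matrix.map_apply,
    pderiv_subst, map_sum, Finset.sum_mul]
  apply Finset.sum_congr rfl
  intro b _
  rw [pderiv_C_mul, pderiv_subst, Finset.mul_sum]
  apply Finset.sum_congr rfl
  intro a _
  ring

lemma conj_aux {T : Type*} [CommRing T] (K K' B H : Matrix (Fin n) (Fin n) T) (e1 : K * K' = 1)
    (h : B * (Kᵀ * H * K) = Kᵀ * H * K * Bᵀ) :
    (K'ᵀ * B * Kᵀ) * H = H * (K'ᵀ * B * Kᵀ)ᵀ := by
  have e2 : K'ᵀ * Kᵀ = 1 := by rw [← Matrix.transpose_mul, e1, Matrix.transpose_one]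
  have h3 : (K'ᵀ * B * Kᵀ)ᵀ = K * Bᵀ * K' := by
    rw [Matrix.transpose_mul, Matrix.transpose_mul, Matrix.transpose_transpose,
      Matrix.transpose_transpose, Matrix.mul_assoc]
  rw [h3]
  calc (K'ᵀ * B * Kᵀ) * H = K'ᵀ * (B * (Kᵀ * H * K)) * K' := by
        simp only [Matrix.mul_assoc, e1, Matrix.mul_one]
    _ = K'ᵀ * (Kᵀ * H * K * Bᵀ) * K' := by rw [h]
    _ = (K'ᵀ * Kᵀ) * (H * (K * (Bᵀ * K'))) := by simp only [Matrix.mul_assoc]
    _ = H * (K * Bᵀ * K') := by
        rw [e2, Matrix.one_mul]
        simp only [Matrix.mul_assoc]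

lemma subst_injective {k : Matrix (Fin n) (Fin n) R} (hk : IsUnit k.det) :
    Function.Injective (subst k : MvPolynomial (Fin n) R → MvPolynomial (Fin n) R) := by
  intro p q hpq
  have h3 := congrArg (subst k⁻¹) hpq
  rwa [← subst_mul, ← subst_mul, Matrix.mul_nonsing_inv _ hk, subst_one, subst_one] at h3

lemma SymB.of_subst {k : Matrix (Fin n) (Fin n) R} (hk : IsUnit k.det)
    {f : MvPolynomial (Fin n) R} {B : Matrix (Fin n) (Fin n) R} (h : SymB (subst k f) B) :
    SymB f (k⁻¹ᵀ * B * kᵀ) := by
  rw [symB_iff] at h ⊢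
  rw [hess_subst] at h
  have e1 : k.map (C : R →+* MvPolynomial (Fin n) R) *
      k⁻¹.map (C : R →+* MvPolynomial (Fin n) R) = 1 := by
    rw [← Matrix.map_mul, Matrix.mul_nonsing_inv _ hk, Matrix.map_one _ (map_zero _) (map_one _)]
  have h2 := conj_aux (k.map (C : R →+* MvPolynomial (Fin n) R))
    (k⁻¹.map (C : R →+* MvPolynomial (Fin n) R)) (B.map (C : R →+* MvPolynomial (Fin n) R))
    ((hess f).map (subst k)) e1 h
  have hBm : (k⁻¹ᵀ * B * kᵀ).map (C : R →+* MvPolynomial (Fin n) R) =
      (k⁻¹.map (C : R →+* MvPolynomial (Fin n) R))ᵀ * B.map (C : R →+* MvPolynomial (Fin n) R) *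
        (k.map (C : R →+* MvPolynomial (Fin n) R))ᵀ := by
    rw [Matrix.map_mul, Matrix.map_mul]
    rfl
  have hfix : ∀ M : Matrix (Fin n) (Fin n) R,
      (M.map (C : R →+* MvPolynomial (Fin n) R)).map (subst k) =
        M.map (C : R →+* MvPolynomial (Fin n) R) := by
    intro M
    refine Matrix.ext fun i j => ?_
    exact subst_C k (M i j)
  rw [← hBm] at h2
  clear hBm
  generalize k⁻¹ᵀ * B * kᵀ = M at h2 ⊢
  have hinj' : Function.Injective
      (fun M : Matrix (Fin n) (Fin n) (MvPolynomial (Fin n) R) => M.map (subst k)) := by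
    intro M N hMN
    refine Matrix.ext fun i j => ?_
    exact subst_injective hk
      (congrArg (fun X : Matrix (Fin n) (Fin n) (MvPolynomial (Fin n) R) => X i j) hMN)
  apply hinj'
  show (M.map (C : R →+* MvPolynomial (Fin n) R) * hess f).map (subst k) =
    (hess f * (M.map (C : R →+* MvPolynomial (Fin n) R))ᵀ).map (subst k)
  rw [Matrix.map_mul, Matrix.map_mul, hfix, ← Matrix.transpose_map, hfix]
  exact h2

end hess

/-- `f` is in block form with respect to the labelling `b`: the mixed second derivatives vanish,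
and every `B` with `B * Hess f` symmetric is a block scalar. -/
structure BlockForm {k : Type*} [Field k] (f : MvPolynomial (Fin n) k) (b : Fin n → Fin n) :
    Prop where
  mixed : ∀ i j, b i ≠ b j → pderiv i (pderiv j f) = 0
  alg : ∀ B, SymB f B → ∃ c : Fin n → k, B = diagonal fun i => c (b i)

lemma BlockForm.map {k F : Type*} [Field k] [Field F] [Algebra k F]
    {f : MvPolynomial (Fin n) k} {b : Fin n → Fin n} (h : BlockForm f b) :
    BlockForm (MvPolynomial.map (algebraMap k F) f) b := by
  classical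
  constructor
  · intro i j hij
    rw [pderiv_map, pderiv_map, h.mixed i j hij, map_zero]
  · intro B hB
    have key : ∀ ℓ : F →ₗ[k] k, SymB f (B.map ℓ) := by
      intro ℓ i j
      ext m
      have h1 := congrArg (fun p => ℓ (coeff m p)) (hB i j)
      simp only [pderiv_map, coeff_sum, coeff_C_mul, coeff_map, map_sum] at h1
      simp only [coeff_sum, coeff_C_mul, Matrix.map_apply]
      have h2 : ∀ (x : F) (c : k), ℓ (x * algebraMap k F c) = ℓ x * c := by
        intro x c
        rw [mul_comm, ← Algebra.smul_def, map_smul, smul_eq_mul, mul_comm]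
      simpa only [h2] using h1
    have h1 : ∀ i j, i ≠ j → B i j = 0 := by
      intro i j hij
      rw [← Module.forall_dual_apply_eq_zero_iff k]
      intro ℓ
      obtain ⟨c, hc⟩ := h.alg _ (key ℓ)
      have h2 := congrArg (fun M : Matrix (Fin n) (Fin n) k => M i j) hc
      simpa [diagonal_apply_ne _ hij] using h2
    have h2 : ∀ i j, b i = b j → B i i = B j j := by
      intro i j hij
      rw [← sub_eq_zero, ← Module.forall_dual_apply_eq_zero_iff k]
      intro ℓ
      obtain ⟨c, hc⟩ := h.alg _ (key ℓ)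
      have h2 := congrArg (fun M : Matrix (Fin n) (Fin n) k => M i i) hc
      have h3 := congrArg (fun M : Matrix (Fin n) (Fin n) k => M j j) hc
      simp only [Matrix.map_apply, diagonal_apply_eq] at h2 h3
      rw [map_sub, h2, h3, hij, sub_self]
    refine ⟨fun a => if h : ∃ i, b i = a then B h.choose h.choose else 0, ?_⟩
    refine Matrix.ext fun i j => ?_
    by_cases hij : i = j
    · subst hij
      have h3 : ∃ i', b i' = b i := ⟨i, rfl⟩
      rw [diagonal_apply_eq]
      show B i i = if h : ∃ i', b i' = b i then B h.choose h.choose else 0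
      rw [dif_pos h3]
      exact (h2 _ _ h3.choose_spec).symm
    · rw [diagonal_apply_ne _ hij]
      exact h1 i j hij

/-- block scalars satisfy the symmetry condition -/
lemma BlockForm.symB_diagonal {k : Type*} [Field k] {f : MvPolynomial (Fin n) k}
    {b : Fin n → Fin n} (h : BlockForm f b) {c : Fin n → k} (hc : ∀ i j, b i = b j → c i = c j) :
    SymB f (diagonal c) := by
  classical
  intro i j
  rw [Finset.sum_eq_single i, Finset.sum_eq_single j]
  · by_cases hij : b i = b j
    · rw [diagonal_apply_eq, diagonal_apply_eq, hc i j hij, pderiv_comm]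
    · rw [h.mixed i j hij, h.mixed j i (Ne.symm hij), mul_zero, mul_zero]
  · intro l _ hl
    rw [diagonal_apply_ne _ (Ne.symm hl), C_0, zero_mul]
  · simp
  · intro l _ hl
    rw [diagonal_apply_ne _ (Ne.symm hl), C_0, zero_mul]
  · simp

end Pool.Agent.Lib.MP_4fcc12_ag
end

section
open MvPolynomial Matrix IsLocalRing

set_option linter.unusedSectionVars false

namespace Pool.Agent.Lib.MP_4fcc12_ag

variable {n : ℕ}

section general

variable {R : Type*} [CommRing R] {k : ℕ}

lemma eval_frm (c : Mon n k → R) (p : Fin n → R) :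
    eval p (frm c) = ∑ β : Mon n k, c β * ∏ i, p i ^ (β.1 i) := by
  simp only [frm, map_sum, eval_monomial]
  apply Finset.sum_congr rfl
  intro β _
  rw [Finsupp.prod_fintype _ _ (by simp)]

lemma eval_of_isHomogeneous {F : MvPolynomial (Fin n) R} (hF : F.IsHomogeneous k)
    (p : Fin n → R) : eval p F = ∑ β : Mon n k, coeff β.1 F * ∏ i, p i ^ (β.1 i) := by
  conv_lhs => rw [← frm_cf hF]
  exact eval_frm _ _

end general

section valued

variable {K : Type*} [Field K] {O : ValuationSubring K}

lemma exists_lift_poly {d : ℕ} {f : MvPolynomial (Fin n) K} (hf : f.IsHomogeneous d)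
    (h : ∀ α, coeff α f ∈ O) :
    ∃ f₁ : MvPolynomial (Fin n) O, f₁.IsHomogeneous d ∧ MvPolynomial.map (algebraMap O K) f₁ = f := by
  refine ⟨frm fun α : Mon n d => ⟨coeff α.1 f, h _⟩, isHomogeneous_frm _, ?_⟩
  rw [map_frm]
  exact frm_cf hf

/-- the residue field of a valuation ring of an algebraically closed field is algebraically
closed -/
theorem isAlgClosed_residueField (O : ValuationSubring K) [IsAlgClosed K] :
    IsAlgClosed (ResidueField O) := by
  apply IsAlgClosed.of_exists_root
  intro p hp hirr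
  have hlift : p ∈ Polynomial.lifts (residue O) :=
    (Polynomial.mem_lifts _).2 (Polynomial.map_surjective _ residue_surjective p)
  obtain ⟨q, hq, hdeg, hmon⟩ := Polynomial.lifts_and_natDegree_eq_and_monic hlift hp
  have hd : (q.map (algebraMap O K)).degree ≠ 0 := by
    rw [hmon.degree_map]
    intro h0
    have h1 : q.natDegree = 0 := Polynomial.natDegree_eq_zero_iff_degree_le_zero.2 h0.le
    rw [hdeg] at h1
    exact absurd h1 (by
      have := hirr.natDegree_pos
      omega)
  obtain ⟨x, hx⟩ := IsAlgClosed.exists_root _ hd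
  have hx' : Polynomial.eval₂ (algebraMap O K) x q = 0 := by
    rw [Polynomial.IsRoot, Polynomial.eval_map] at hx
    exact hx
  have hint : IsIntegral O x := ⟨q, hmon, hx'⟩
  obtain ⟨y, hy⟩ := IsIntegrallyClosed.isIntegral_iff.1 hint
  refine ⟨residue O y, ?_⟩
  have h2 : Polynomial.eval y q = 0 := by
    have h3 : algebraMap O K (Polynomial.eval y q) = 0 := by
      rw [← Polynomial.eval₂_hom, hy]
      exact hx'
    exact (map_eq_zero_iff _ (IsFractionRing.injective O K)).1 h3
  rw [← hq, Polynomial.eval_map, Polynomial.eval₂_hom, h2, map_zero]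

lemma valuation_natCast_eq_one [CharZero (ResidueField O)] {m : ℕ} (hm : m ≠ 0) :
    O.valuation (m : K) = 1 := by
  have h1 : residue O (m : O) ≠ 0 := by
    rw [map_natCast]
    exact_mod_cast hm
  have := valuation_eq_one_of_residue_ne_zero h1
  simpa using this


/-- values of the entries of a product of powers -/
lemma valuation_prod_pow (s : Fin n → K) (α : Fin n →₀ ℕ) :
    O.valuation (∏ j, s j ^ α j) = ∏ j, O.valuation (s j) ^ α j := by
  rw [map_prod]
  simp only [map_pow]

lemma prod_pow_le {Γ : Type*} [LinearOrderedCommGroupWithZero Γ] {d : ℕ} (v : Fin n → Γ)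
    (α : Fin n →₀ ℕ) (hα : α.degree = d) {c : Γ} (h : ∀ j, α j ≠ 0 → v j ≤ c) :
    ∏ j, v j ^ α j ≤ c ^ d := by
  have h1 : c ^ d = ∏ j, c ^ α j := by
    rw [Finset.prod_pow_eq_pow_sum, ← hα, Finsupp.degree_eq_sum]
  rw [h1]
  apply Finset.prod_le_prod'
  intro j _
  by_cases hj : α j = 0
  · simp [hj]
  · exact pow_le_pow_left' (h j hj) _

lemma le_prod_pow {Γ : Type*} [LinearOrderedCommGroupWithZero Γ] {d : ℕ} (v : Fin n → Γ)
    (α : Fin n →₀ ℕ) (hα : α.degree = d) {c : Γ} (h : ∀ j, α j ≠ 0 → c ≤ v j) :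
    c ^ d ≤ ∏ j, v j ^ α j := by
  have h1 : c ^ d = ∏ j, c ^ α j := by
    rw [Finset.prod_pow_eq_pow_sum, ← hα, Finsupp.degree_eq_sum]
  rw [h1]
  apply Finset.prod_le_prod'
  intro j _
  by_cases hj : α j = 0
  · simp [hj]
  · exact pow_le_pow_left' (h j hj) _

/-- choice of roots of the values -/
lemma exists_roots [IsAlgClosed K] {d : ℕ} (hd : 0 < d) (D : Fin n → K) (hD : ∀ i, D i ≠ 0) :
    ∃ s : Fin n → K, (∀ i, s i ≠ 0) ∧ (∀ i, O.valuation (s i) ^ d = O.valuation (D i)) ∧
      ∀ i j, O.valuation (s i) = O.valuation (s j) → s i = s j := by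
  have h1 : ∀ γ : O.ValueGroup, ∃ y : K, O.valuation y ^ d = γ := by
    intro γ
    obtain ⟨x, hx⟩ := O.valuation_surjective γ
    obtain ⟨y, hy⟩ := IsAlgClosed.exists_pow_nat_eq x hd
    exact ⟨y, by rw [← map_pow, hy, hx]⟩
  choose σ hσ using h1
  refine ⟨fun i => σ (O.valuation (D i)), ?_, fun i => hσ _, ?_⟩
  · intro i h0
    have := hσ (O.valuation (D i))
    have h0' : σ (O.valuation (D i)) = 0 := h0
    rw [h0', map_zero, zero_pow hd.ne'] at this
    exact hD i ((map_eq_zero _).1 this.symm)
  · intro i j hij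
    have h2 : O.valuation (D i) = O.valuation (D j) := by
      rw [← hσ (O.valuation (D i)), ← hσ (O.valuation (D j)), hij]
    show σ _ = σ _
    rw [h2]


lemma lt_prod_pow {Γ : Type*} [LinearOrderedCommGroupWithZero Γ] {d : ℕ} (v : Fin n → Γ)
    (hv : ∀ i, v i ≠ 0) (α : Fin n →₀ ℕ) (hα : α.degree = d) {c : Γ}
    (h : ∀ j, α j ≠ 0 → c ≤ v j) (l : Fin n) (hl : α l ≠ 0) (hcl : c < v l) :
    c ^ d < ∏ j, v j ^ α j := by
  have h1 : c ^ d = ∏ j, c ^ α j := by
    rw [Finset.prod_pow_eq_pow_sum, ← hα, Finsupp.degree_eq_sum]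
  rw [h1, ← Finset.mul_prod_erase Finset.univ _ (Finset.mem_univ l),
    ← Finset.mul_prod_erase Finset.univ (fun j => v j ^ α j) (Finset.mem_univ l)]
  have h2 : c ^ α l < v l ^ α l := pow_lt_pow_left₀ hcl zero_le hl
  have h3 : ∏ j ∈ Finset.univ.erase l, c ^ α j ≤ ∏ j ∈ Finset.univ.erase l, v j ^ α j := by
    apply Finset.prod_le_prod'
    intro j _
    by_cases hj : α j = 0
    · simp [hj]
    · exact pow_le_pow_left' (h j hj) _
  have h4 : 0 < ∏ j ∈ Finset.univ.erase l, v j ^ α j :=
    zero_lt_iff.2 (Finset.prod_ne_zero_iff.2 fun j _ => pow_ne_zero _ (hv j))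
  calc c ^ α l * ∏ j ∈ Finset.univ.erase l, c ^ α j
      ≤ c ^ α l * ∏ j ∈ Finset.univ.erase l, v j ^ α j := mul_le_mul_right h3 _
    _ < v l ^ α l * ∏ j ∈ Finset.univ.erase l, v j ^ α j := mul_lt_mul_of_pos_right h2 h4

lemma sub_add_single_cancel {α : Fin n →₀ ℕ} {i : Fin n} (h : α i ≠ 0) :
    α - Finsupp.single i 1 + Finsupp.single i 1 = α :=
  tsub_add_cancel_of_le (Finsupp.single_le_iff.2 (Nat.one_le_iff_ne_zero.2 h))

/-- the diagonal step of semistable reduction -/
theorem semistable_diag {d : ℕ} (hd : 3 ≤ d) [IsAlgClosed K] [CharZero (ResidueField O)]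
    {f' : MvPolynomial (Fin n) K} (hf' : f'.IsHomogeneous d) (D : Fin n → K)
    (F' : Fin n → MvPolynomial (Fin n) O) (hF' : ∀ i, (F' i).IsHomogeneous (d - 1))
    (regF' : Reg fun i => MvPolynomial.map (residue O) (F' i))
    (hgrad : ∀ i, pderiv i f' = C (D i) * MvPolynomial.map (algebraMap O K) (F' i))
    (s : Fin n → K) (hs0 : ∀ i, s i ≠ 0) (hsD : ∀ i, O.valuation (s i) ^ d = O.valuation (D i))
    (hsc : ∀ i j, O.valuation (s i) = O.valuation (s j) → s i = s j) :
    ∃ f₁ : MvPolynomial (Fin n) O, f₁.IsHomogeneous d ∧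
      f' = subst (diagonal s) (MvPolynomial.map (algebraMap O K) f₁) ∧
      (∀ α i, α i ≠ 0 → O.valuation ((coeff α f₁ : O) : K) * ∏ j, O.valuation (s j) ^ α j ≤
        O.valuation (s i) ^ d) ∧
      NonDeg (MvPolynomial.map (residue O) f₁) := by
  classical
  set v : Fin n → O.ValueGroup := fun i => O.valuation (s i) with hv
  have hv0 : ∀ i, v i ≠ 0 := fun i => (map_ne_zero _).2 (hs0 i)
  have hrel : ∀ i β, coeff (β + Finsupp.single i 1) f' * ((β i : K) + 1) =
      D i * (coeff β (F' i) : O) := by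
    intro i β
    have := congrArg (coeff β) (hgrad i)
    rw [coeff_pderiv, coeff_C_mul, coeff_map] at this
    exact this
  have hnat : ∀ m : ℕ, O.valuation ((m : K) + 1) = 1 := by
    intro m
    have := valuation_natCast_eq_one (O := O) (m := m + 1) (by omega)
    simpa using this
  have hD0 : ∀ i, D i ≠ 0 := by
    intro i h0
    have := hsD i
    rw [h0, map_zero] at this
    exact pow_ne_zero d (hv0 i) this
  -- bound on the coefficients
  have ha : ∀ α i, α i ≠ 0 → O.valuation (coeff α f') ≤ v i ^ d := by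
    intro α i hi
    have h1 := congrArg O.valuation (hrel i (α - Finsupp.single i 1))
    rw [sub_add_single_cancel hi, map_mul, map_mul, hnat, mul_one, ← hsD] at h1
    rw [h1]
    calc _ ≤ O.valuation (s i) ^ d * 1 := mul_le_mul_right (O.valuation_le_one _) _
      _ = _ := mul_one _
  set f'' := subst (diagonal fun i => (s i)⁻¹) f' with hf''
  have hf''h : f''.IsHomogeneous d := isHomogeneous_subst _ hf'
  have hco : ∀ α, coeff α f'' = (∏ j, ((s j)⁻¹) ^ α j) * coeff α f' := by
    intro α
    rw [hf'', coeff_subst_diagonal]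
  have hco' : ∀ α, O.valuation (coeff α f'') * ∏ j, v j ^ α j = O.valuation (coeff α f') := by
    intro α
    rw [hco, map_mul, valuation_prod_pow]
    simp only [map_inv₀]
    rw [mul_comm, ← mul_assoc, ← Finset.prod_mul_distrib]
    have : ∏ j, (v j ^ α j * (O.valuation (s j))⁻¹ ^ α j) = 1 := by
      apply Finset.prod_eq_one
      intro j _
      rw [← mul_pow, mul_inv_cancel₀ (hv0 j), one_pow]
    rw [this, one_mul]
  have hbd : ∀ α i, α i ≠ 0 → O.valuation (coeff α f'') * ∏ j, v j ^ α j ≤ v i ^ d := by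
    intro α i hi
    rw [hco']
    exact ha α i hi
  have hint : ∀ α, coeff α f'' ∈ O := by
    intro α
    by_cases hα : α.degree = d
    · have hne : (Finset.univ.filter fun j => α j ≠ 0).Nonempty := by
        by_contra hemp
        rw [Finset.not_nonempty_iff_eq_empty, Finset.filter_eq_empty_iff] at hemp
        have : α = 0 := by
          ext j
          have := hemp (Finset.mem_univ j)
          push Not at this
          exact this
        rw [this] at hα
        simp at hα
        omega
      obtain ⟨i, hi, hmin⟩ := Finset.exists_min_image _ v hne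
      rw [Finset.mem_filter] at hi
      have h1 := le_prod_pow v α hα (c := v i) fun j hj =>
        hmin j (Finset.mem_filter.2 ⟨Finset.mem_univ _, hj⟩)
      have h2 := hbd α i hi.2
      have h3 : (0 : O.ValueGroup) < ∏ j, v j ^ α j :=
        zero_lt_iff.2 (Finset.prod_ne_zero_iff.2 fun j _ => pow_ne_zero _ (hv0 j))
      rw [← O.valuation_le_one_iff]
      have h4 : O.valuation (coeff α f'') * ∏ j, v j ^ α j ≤ 1 * ∏ j, v j ^ α j := by
        rw [one_mul]
        exact h2.trans h1
      exact le_of_mul_le_mul_right h4 h3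
    · rw [hf''h.coeff_eq_zero hα]
      exact O.zero_mem
  obtain ⟨f₁, hf₁, hmap⟩ := exists_lift_poly hf''h hint
  have hcf : ∀ α, ((coeff α f₁ : O) : K) = coeff α f'' := by
    intro α
    rw [← hmap, coeff_map]
    rfl
  refine ⟨f₁, hf₁, ?_, ?_, ?_⟩
  · rw [hmap, hf'', ← subst_mul, diagonal_mul_diagonal]
    have : (fun i => (s i)⁻¹ * s i) = fun _ => 1 := by
      funext i
      exact inv_mul_cancel₀ (hs0 i)
    rw [this, diagonal_one, subst_one]
  · intro α i hi
    rw [hcf]
    exact hbd α i hi
  -- nondegeneracy of the reduction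
  set κ := ResidueField O with hκ
  have : IsAlgClosed κ := isAlgClosed_residueField O
  have K1 : ∀ i β, residue O (coeff β (F' i)) ≠ 0 → ∀ l, β l ≠ 0 → v i ≤ v l := by
    intro i β hne l hl
    have h1 := congrArg O.valuation (hrel i β)
    rw [map_mul, map_mul, hnat, mul_one, valuation_eq_one_of_residue_ne_zero hne, mul_one,
      ← hsD] at h1
    have h2 := ha (β + Finsupp.single i 1) l (by
      rw [Finsupp.add_apply]
      omega)
    rw [h1] at h2
    exact le_of_pow_le_pow_left₀ (by omega) zero_le h2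
  have K2 : ∀ i β, β.degree = d - 1 → (∀ l, β l ≠ 0 → v l = v i) →
      ((coeff β (F' i) : O) : K) = (s i ^ d / D i) * ((coeff β (pderiv i f₁) : O) : K) := by
    intro i β hdeg hsup
    have h1 := hrel i β
    have h2 : coeff (β + Finsupp.single i 1) f' =
        s i ^ d * ((coeff (β + Finsupp.single i 1) f₁ : O) : K) := by
      rw [hcf, hco, ← mul_assoc]
      have h3 : ∏ j, (s j)⁻¹ ^ (β + Finsupp.single i 1 : Fin n →₀ ℕ) j = (s i)⁻¹ ^ d := by
        have h4 : (s i)⁻¹ ^ d = ∏ j, (s i)⁻¹ ^ (β + Finsupp.single i 1 : Fin n →₀ ℕ) j := by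
          rw [Finset.prod_pow_eq_pow_sum, ← Finsupp.degree_eq_sum, map_add, hdeg,
            Finsupp.degree_single]
          congr 1
          omega
        rw [h4]
        apply Finset.prod_congr rfl
        intro j _
        by_cases hj : β j = 0
        · by_cases hij : j = i
          · rw [hij]
          · rw [Finsupp.add_apply, hj, Finsupp.single_apply, if_neg (Ne.symm hij)]
            simp
        · rw [hsc j i (hsup j hj)]
      rw [h3, inv_pow, mul_inv_cancel₀ (pow_ne_zero _ (hs0 i)), one_mul]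
    rw [h2] at h1
    rw [coeff_pderiv]
    push_cast
    field_simp [hD0 i]
    rw [mul_comm, ← h1]
  have K3 : ∀ i β, β.degree = d - 1 → residue O (coeff β (pderiv i f₁)) ≠ 0 → ∀ l, β l ≠ 0 →
      v l = v i := by
    intro i β hdeg hne l hl
    have h1 := valuation_eq_one_of_residue_ne_zero hne
    rw [coeff_pderiv] at h1
    push_cast at h1
    rw [map_mul, hnat, mul_one, hcf] at h1
    set α := β + Finsupp.single i 1 with hα
    have hαd : α.degree = d := by
      rw [hα, map_add, hdeg, Finsupp.degree_single]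
      omega
    have hne' : (Finset.univ.filter fun j => α j ≠ 0).Nonempty :=
      ⟨i, Finset.mem_filter.2 ⟨Finset.mem_univ _, by
        rw [hα, Finsupp.add_apply, Finsupp.single_eq_same]
        omega⟩⟩
    obtain ⟨j₀, hj₀, hmin⟩ := Finset.exists_min_image _ v hne'
    rw [Finset.mem_filter] at hj₀
    have h2 := hbd α j₀ hj₀.2
    rw [h1, one_mul] at h2
    have h3 : ∀ m, α m ≠ 0 → v m = v j₀ := by
      intro m hm
      by_contra hcon
      have h4 : v j₀ < v m := lt_of_le_of_ne
        (hmin m (Finset.mem_filter.2 ⟨Finset.mem_univ _, hm⟩)) (Ne.symm hcon)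
      exact absurd h2 (not_le.2 (lt_prod_pow v hv0 α hαd (c := v j₀)
        (fun j hj => hmin j (Finset.mem_filter.2 ⟨Finset.mem_univ _, hj⟩)) m hm h4))
    rw [h3 l (by rw [hα, Finsupp.add_apply]; omega), h3 i (by
      rw [hα, Finsupp.add_apply, Finsupp.single_eq_same]
      omega)]
  intro p hp
  by_contra hp0
  obtain ⟨b, hb⟩ : ∃ b, p b ≠ 0 := by
    by_contra hall
    push Not at hall
    exact hp0 (funext hall)
  let L := {l : Fin n // v l < v b}
  let zz : Fin n → MvPolynomial (Option L) κ := fun l =>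
    if h : v l < v b then X (some ⟨l, h⟩) else if v l = v b then C (p l) * X none else 0
  have hzz : ∀ l, (zz l).IsHomogeneous 1 := by
    intro l
    by_cases h1 : v l < v b
    · simp only [zz, dif_pos h1]
      exact isHomogeneous_X _ _
    · by_cases h2 : v l = v b
      · simp only [zz, dif_neg h1, if_pos h2]
        simpa using (isHomogeneous_C (Option L) (p l)).mul (isHomogeneous_X κ none)
      · simp only [zz, dif_neg h1, if_neg h2]
        exact isHomogeneous_zero _ _ _
  let Fb : Fin n → MvPolynomial (Fin n) κ := fun i => MvPolynomial.map (residue O) (F' i)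
  have hFb : ∀ i, (Fb i).IsHomogeneous (d - 1) := fun i => (hF' i).map _
  obtain ⟨q, hq0, hq⟩ := exists_common_zero (K := κ) (σ := Option L) (τ := L)
    (by rw [Finite.card_option]; omega) (fun t => aeval zz (Fb t.1)) (fun _ => d - 1)
    (fun _ => by omega) (fun t => by
      have := (hFb t.1).aeval zz hzz
      simpa using this)
  set z : Fin n → κ := fun l => eval q (zz l) with hz
  have hev : ∀ f : MvPolynomial (Fin n) κ, eval q (aeval zz f) = eval z f := by
    intro f
    have : (aeval q : MvPolynomial (Option L) κ →ₐ[κ] κ).comp (aeval zz) = aeval z := by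
      apply MvPolynomial.algHom_ext
      intro i
      simp [hz]
    have h2 := congrArg (fun φ => φ f) this
    simpa [aeval_eq_eval] using h2
  have hz1 : ∀ l, (h : v l < v b) → z l = q (some ⟨l, h⟩) := by
    intro l h
    simp only [hz, zz, dif_pos h, eval_X]
  have hz2 : ∀ l, v l = v b → z l = p l * q none := by
    intro l h
    simp only [hz, zz, dif_neg (not_lt.2 h.ge), if_pos h, map_mul, eval_C, eval_X]
  have hz3 : ∀ l, v b < v l → z l = 0 := by
    intro l h
    simp only [hz, zz, dif_neg (not_lt.2 h.le), if_neg h.ne', map_zero]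
  have hzero : ∀ i, eval z (Fb i) = 0 := by
    intro i
    rcases lt_trichotomy (v i) (v b) with hlt | heq | hgt
    · rw [← hev]
      exact hq ⟨i, hlt⟩
    · -- the middle class
      have hu : O.valuation (s i ^ d / D i) = 1 := by
        rw [map_div₀, map_pow, ← hsD i, div_self (pow_ne_zero _ (hv0 i))]
      let u : O := ⟨s i ^ d / D i, (O.valuation_le_one_iff _).1 hu.le⟩
      have h1 : eval z (Fb i) = residue O u * q none ^ (d - 1) *
          eval p (MvPolynomial.map (residue O) (pderiv i f₁)) := by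
        rw [eval_of_isHomogeneous (hFb i), eval_of_isHomogeneous (hf₁.pderiv.map _),
          Finset.mul_sum]
        apply Finset.sum_congr rfl
        intro β _
        simp only [Fb, coeff_map]
        by_cases hB : ∀ l, β.1 l ≠ 0 → v l = v i
        · have h2 : coeff β.1 (F' i) = u * coeff β.1 (pderiv i f₁) :=
            Subtype.ext (K2 i β.1 β.2 hB)
          have h3 : ∏ l, z l ^ β.1 l = q none ^ (d - 1) * ∏ l, p l ^ β.1 l := by
            have h4 : q none ^ (d - 1) = ∏ l, q none ^ β.1 l := by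
              rw [Finset.prod_pow_eq_pow_sum, ← Finsupp.degree_eq_sum, β.2]
            rw [h4, ← Finset.prod_mul_distrib]
            apply Finset.prod_congr rfl
            intro l _
            by_cases hl : β.1 l = 0
            · simp [hl]
            · rw [hz2 l ((hB l hl).trans heq), mul_pow, mul_comm]
          rw [h2, h3, map_mul]
          ring
        · have h2 : residue O (coeff β.1 (pderiv i f₁)) = 0 := by
            by_contra hne
            exact hB (K3 i β.1 β.2 hne)
          rw [h2, zero_mul, mul_zero]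
          push Not at hB
          obtain ⟨l, hl, hne⟩ := hB
          rcases lt_or_gt_of_ne hne with h3 | h3
          · have h4 : residue O (coeff β.1 (F' i)) = 0 := by
              by_contra h5
              exact absurd (K1 i β.1 h5 l hl) (not_le.2 h3)
            rw [h4, zero_mul]
          · have h4 : ∏ l, z l ^ β.1 l = 0 := by
              apply Finset.prod_eq_zero (Finset.mem_univ l)
              rw [hz3 l (heq ▸ h3), zero_pow hl]
            rw [h4, mul_zero]
      rw [h1]
      have h5 : eval p (MvPolynomial.map (residue O) (pderiv i f₁)) = 0 := by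
        have := hp i
        rwa [← map_grad] at this
      rw [h5, mul_zero]
    · rw [eval_of_isHomogeneous (hFb i)]
      apply Finset.sum_eq_zero
      intro β _
      simp only [Fb, coeff_map]
      by_cases h1 : residue O (coeff β.1 (F' i)) = 0
      · rw [h1, zero_mul]
      · have h2 : ∃ l, β.1 l ≠ 0 := by
          by_contra hall
          push Not at hall
          have : β.1 = 0 := Finsupp.ext hall
          have h3 := β.2
          rw [this] at h3
          simp at h3
          omega
        obtain ⟨l, hl⟩ := h2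
        have h3 := K1 i β.1 h1 l hl
        have h4 : ∏ l, z l ^ β.1 l = 0 := by
          apply Finset.prod_eq_zero (Finset.mem_univ l)
          rw [hz3 l (hgt.trans_le h3), zero_pow hl]
        rw [h4, mul_zero]
  have hz0 := regF' z hzero
  apply hq0
  have hnone : q none = 0 := by
    have h1 := hz2 b rfl
    rw [hz0] at h1
    exact (mul_eq_zero.1 h1.symm).resolve_left hb
  funext o
  cases o with
  | none => exact hnone
  | some l =>
    have h1 := hz1 l.1 l.2
    rw [hz0] at h1
    exact h1.symm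


/-- semistable reduction for gradients -/
theorem semistable {d : ℕ} (hd : 3 ≤ d) [IsAlgClosed K] [CharZero (ResidueField O)]
    {f : MvPolynomial (Fin n) K} (hf : f.IsHomogeneous d) (A : Matrix (Fin n) (Fin n) K)
    (hA : A.det ≠ 0)
    (F : Fin n → MvPolynomial (Fin n) O) (hF : ∀ i, (F i).IsHomogeneous (d - 1))
    (regF : Reg fun i => MvPolynomial.map (residue O) (F i))
    (h : grad f = act (fun i => MvPolynomial.map (algebraMap O K) (F i)) 1 A) :
    ∃ (k : Matrix (Fin n) (Fin n) K) (s : Fin n → K) (f₁ : MvPolynomial (Fin n) O),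
      IsGLO O k ∧ (∀ i, s i ≠ 0) ∧ (∀ i j, O.valuation (s i) = O.valuation (s j) → s i = s j) ∧
      f₁.IsHomogeneous d ∧ NonDeg (MvPolynomial.map (residue O) f₁) ∧
      subst k f = subst (diagonal s) (MvPolynomial.map (algebraMap O K) f₁) ∧
      (∀ α i, α i ≠ 0 → O.valuation ((coeff α f₁ : O) : K) * ∏ j, O.valuation (s j) ^ α j ≤
        O.valuation (s i) ^ d) := by
  obtain ⟨P, Q, D, hP, hQ, hD, rfl⟩ := snf (O := O) A hA
  obtain ⟨Q₀, hQ₀, rfl⟩ := hQ.exists_lift
  obtain ⟨k₀, hk₀, hk₀'⟩ := hP.inv.transpose.exists_lift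
  set k := P⁻¹ᵀ with hk
  obtain ⟨s, hs0, hsD, hsc⟩ := exists_roots (O := O) (d := d) (by omega) D hD
  have hgrad : ∀ i, pderiv i (subst k f) =
      C (D i) * MvPolynomial.map (algebraMap O K) (act F k₀ Q₀ i) := by
    intro i
    have h1 := congrFun (grad_subst k f) i
    rw [h, act_act, one_mul] at h1
    rw [map_act, hk₀']
    rw [show pderiv i (subst k f) = grad (subst k f) i from rfl, h1]
    have h2 : kᵀ * (P * diagonal D * Q₀.map (algebraMap O K)) =
        diagonal D * Q₀.map (algebraMap O K) := by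
      rw [hk, Matrix.transpose_transpose, mul_assoc, ← mul_assoc,
        Matrix.nonsing_inv_mul _ hP.isUnit_det, one_mul]
    rw [h2]
    simp only [act, Matrix.diagonal_mul, map_mul, Finset.mul_sum, mul_assoc]
  have hreg : Reg fun i => MvPolynomial.map (residue O) (act F k₀ Q₀ i) := by
    have h1 := regF.act (isUnit_det_residue hk₀) (isUnit_det_residue hQ₀)
    have h2 : (fun i => MvPolynomial.map (residue O) (act F k₀ Q₀ i)) =
        act (fun i => MvPolynomial.map (residue O) (F i)) (k₀.map (residue O))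
          (Q₀.map (residue O)) := by
      funext i
      rw [map_act]
    rw [h2]
    exact h1
  obtain ⟨f₁, h1, h2, h3, h4⟩ := semistable_diag hd (isHomogeneous_subst k hf) D
    (act F k₀ Q₀) (isHomogeneous_act hF _ _) hreg hgrad s hs0 hsD hsc
  exact ⟨k, s, f₁, hP.inv.transpose, hs0, hsc, h1, h4, h2, h3⟩

end valued

end Pool.Agent.Lib.MP_4fcc12_ag
end

section
open MvPolynomial Matrix IsLocalRing

set_option linter.unusedSectionVars false

namespace Pool.Agent.Lib.MP_4fcc12_ag

variable {n : ℕ}

section bound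

variable {K : Type*} [Field K] {O : ValuationSubring K}

/-- all coefficients have value at most `c` -/
def Bd (O : ValuationSubring K) (c : O.ValueGroup) (P : MvPolynomial (Fin n) K) : Prop :=
  ∀ m, O.valuation (coeff m P) ≤ c

lemma Bd.add {c : O.ValueGroup} {P Q : MvPolynomial (Fin n) K} (hP : Bd O c P) (hQ : Bd O c Q) :
    Bd O c (P + Q) := by
  intro m
  rw [coeff_add]
  exact (O.valuation.map_add _ _).trans (max_le (hP m) (hQ m))

lemma Bd.zero {c : O.ValueGroup} : Bd O c (0 : MvPolynomial (Fin n) K) := by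
  intro m
  rw [coeff_zero, map_zero]
  exact zero_le

lemma Bd.sum {ι : Type*} {c : O.ValueGroup} (s : Finset ι) {P : ι → MvPolynomial (Fin n) K}
    (hP : ∀ i ∈ s, Bd O c (P i)) : Bd O c (∑ i ∈ s, P i) := by
  classical
  induction s using Finset.induction_on with
  | empty => simpa using Bd.zero
  | insert a s ha ih =>
    rw [Finset.sum_insert ha]
    exact (hP a (Finset.mem_insert_self _ _)).add
      (ih fun i hi => hP i (Finset.mem_insert_of_mem hi))

lemma Bd.mul {c c' : O.ValueGroup} {P Q : MvPolynomial (Fin n) K} (hP : Bd O c P)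
    (hQ : Bd O c' Q) : Bd O (c * c') (P * Q) := by
  classical
  intro m
  rw [coeff_mul]
  apply O.valuation.map_sum_le
  intro x _
  rw [map_mul]
  exact mul_le_mul' (hP _) (hQ _)

lemma Bd.C {c : K} : Bd O (O.valuation c) (C c : MvPolynomial (Fin n) K) := by
  classical
  intro m
  rw [coeff_C]
  split_ifs
  · exact le_rfl
  · rw [map_zero]
    exact zero_le

lemma Bd.pow {c : O.ValueGroup} {P : MvPolynomial (Fin n) K} (hP : Bd O c P) (e : ℕ) :
    Bd O (c ^ e) (P ^ e) := by
  induction e with
  | zero =>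
    rw [pow_zero, pow_zero]
    have := Bd.C (n := n) (O := O) (c := (1 : K))
    simpa using this
  | succ e ih =>
    rw [pow_succ, pow_succ]
    exact ih.mul hP

lemma Bd.X {i : Fin n} : Bd O 1 (MvPolynomial.X i : MvPolynomial (Fin n) K) := by
  classical
  intro m
  rw [coeff_X]
  split_ifs
  · rw [map_one]
  · rw [map_zero]
    exact zero_le

lemma Bd.prod {ι : Type*} (s : Finset ι) {c : ι → O.ValueGroup}
    {P : ι → MvPolynomial (Fin n) K} (hP : ∀ i ∈ s, Bd O (c i) (P i)) :
    Bd O (∏ i ∈ s, c i) (∏ i ∈ s, P i) := by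
  classical
  induction s using Finset.induction_on with
  | empty =>
    have := Bd.C (n := n) (O := O) (c := (1 : K))
    simpa using this
  | insert a s ha ih =>
    rw [Finset.prod_insert ha, Finset.prod_insert ha]
    exact (hP a (Finset.mem_insert_self _ _)).mul
      (ih fun i hi => hP i (Finset.mem_insert_of_mem hi))

/-- bound on the coefficients of a substitution -/
lemma bd_subst {e : ℕ} {G : MvPolynomial (Fin n) K} (hG : G.IsHomogeneous e)
    (hG1 : Bd O 1 G) {M : Matrix (Fin n) (Fin n) K} {μ : O.ValueGroup}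
    (hM : ∀ α, coeff α G ≠ 0 → ∀ l, α l ≠ 0 → ∀ j, O.valuation (M l j) ≤ μ) :
    Bd O (μ ^ e) (subst M G) := by
  classical
  conv => arg 3; rw [as_sum G, map_sum]
  apply Bd.sum
  intro α hα
  have hα' : coeff α G ≠ 0 := mem_support_iff.1 hα
  have hdeg : α.degree = e := by
    by_contra h
    exact hα' (hG.coeff_eq_zero h)
  rw [monomial_eq, map_mul, subst_C, Finsupp.prod_fintype _ _ (by simp), map_prod]
  have h1 : Bd O (∏ l, μ ^ α l) (∏ l, subst M (X l ^ α l)) := by
    apply Bd.prod
    intro l _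
    rw [map_pow]
    by_cases hl : α l = 0
    · rw [hl, pow_zero, pow_zero]
      have := Bd.C (n := n) (O := O) (c := (1 : K))
      simpa using this
    · apply Bd.pow
      rw [subst_X]
      apply Bd.sum
      intro j _
      have := (Bd.C (n := n) (O := O) (c := M l j)).mul (Bd.X (O := O) (K := K) (i := j))
      rw [mul_one] at this
      intro m
      exact (this m).trans (hM α hα' l hl j)
  have h2 : ∏ l, μ ^ α l = μ ^ e := by
    rw [Finset.prod_pow_eq_pow_sum, ← hdeg, Finsupp.degree_eq_sum]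
  rw [h2] at h1
  have h3 := (Bd.C (n := n) (O := O) (c := coeff α G)).mul h1
  intro m
  calc _ ≤ O.valuation (coeff α G) * μ ^ e := h3 m
    _ ≤ 1 * μ ^ e := mul_le_mul_left (hG1 α) _
    _ = μ ^ e := one_mul _

end bound

section descent

variable {K : Type*} [Field K] {O : ValuationSubring K}

lemma exists_row_ne_zero {F : Type*} [Field F] {M : Matrix (Fin n) (Fin n) F} (hM : M.det ≠ 0)
    (i : Fin n) : ∃ j, M i j ≠ 0 := by
  by_contra h
  push Not at h
  exact hM (Matrix.det_eq_zero_of_row_eq_zero i h)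

lemma exists_perm_ne_zero {F : Type*} [Field F] {M : Matrix (Fin n) (Fin n) F} (hM : M.det ≠ 0) :
    ∃ σ : Equiv.Perm (Fin n), ∀ j, M (σ j) j ≠ 0 := by
  by_contra h
  push Not at h
  apply hM
  rw [Matrix.det_apply]
  apply Finset.sum_eq_zero
  intro σ _
  obtain ⟨j, hj⟩ := h σ
  have h1 : ∏ i, M (σ i) i = 0 := Finset.prod_eq_zero (Finset.mem_univ j) hj
  rw [h1, smul_zero]

/-- the valuation estimate -/
theorem descent [IsAlgClosed K] [CharZero (ResidueField O)] {d : ℕ} (hd : 3 ≤ d)
    (f₀ : MvPolynomial (Fin n) O) (hf₀ : f₀.IsHomogeneous d)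
    (nd₀ : NonDeg (MvPolynomial.map (residue O) f₀))
    (k₀ : Matrix (Fin n) (Fin n) O) (hk₀ : IsUnit k₀.det)
    (v w : Fin n → O.ValueGroup) (hv0 : ∀ i, v i ≠ 0) (hw0 : ∀ i, w i ≠ 0)
    (hblk : ∀ i j, w i ≠ w j → pderiv i (pderiv j f₀) = 0)
    (hk : ∀ i j, residue O (k₀ i j) ≠ 0 → w i = v j)
    (hc : ∀ α i, α i ≠ 0 → O.valuation ((coeff α (subst k₀ f₀) : O) : K) *
      ∏ j, v j ^ α j ≤ v i ^ d) :
    ∀ i j, O.valuation (k₀ i j : K) * v j ≤ w i ∧ O.valuation (k₀ i j : K) * w i ≤ v j := by
  classical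
  have : IsAlgClosed (ResidueField O) := isAlgClosed_residueField O
  have hnat : ∀ m : ℕ, O.valuation ((m : K) + 1) = 1 := by
    intro m
    have := valuation_natCast_eq_one (O := O) (m := m + 1) (by omega)
    simpa using this
  set κ : Fin n → Fin n → O.ValueGroup := fun i j => O.valuation (k₀ i j : K) with hκ
  have hκ1 : ∀ i j, κ i j ≤ 1 := fun i j => O.valuation_le_one _
  by_contra hcon
  push Not at hcon
  obtain ⟨i₁, j₁, hij₁⟩ := hcon
  let S : Finset (Fin n × Fin n) := Finset.univ.filter fun p =>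
    ¬ (κ p.1 p.2 * v p.2 ≤ w p.1 ∧ κ p.1 p.2 * w p.1 ≤ v p.2)
  have hSne : S.Nonempty := ⟨(i₁, j₁), Finset.mem_filter.2 ⟨Finset.mem_univ _, fun h =>
    absurd h.2 (not_le.2 (hij₁ h.1))⟩⟩
  obtain ⟨⟨i₀, j₀⟩, hmem, hmax⟩ := Finset.exists_max_image S (fun p => κ p.1 p.2) hSne
  have hfail := (Finset.mem_filter.1 hmem).2
  simp only at hfail
  set c := κ i₀ j₀ with hcdef
  set γ := w i₀ with hγ
  have hpos : ∀ i, 0 < v i := fun i => zero_lt_iff.2 (hv0 i)
  have hpos' : ∀ i, 0 < w i := fun i => zero_lt_iff.2 (hw0 i)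
  have hne : v j₀ ≠ γ := by
    intro h
    apply hfail
    rw [h]
    refine ⟨?_, ?_⟩ <;>
    · calc c * γ ≤ 1 * γ := mul_le_mul_left (hκ1 _ _) _
        _ = γ := one_mul _
  have hc0 : c ≠ 0 := by
    intro h
    apply hfail
    rw [h, zero_mul, zero_mul]
    exact ⟨zero_le, zero_le⟩
  -- the entries of the column in the same class
  have hcol : ∀ i, w i = γ → κ i j₀ ≤ c := by
    intro i hi
    by_contra hlt
    push Not at hlt
    have h1 : (i, j₀) ∈ S := by
      refine Finset.mem_filter.2 ⟨Finset.mem_univ _, fun h => hfail ?_⟩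
      simp only [hi] at h
      exact ⟨(mul_le_mul_left hlt.le _).trans h.1, (mul_le_mul_left hlt.le _).trans h.2⟩
    exact absurd (hmax _ h1) (not_le.2 hlt)
  set π : Matrix (Fin n) (Fin n) O := diagonal fun j => if v j = γ then 1 else 0 with hπ
  set π' : Matrix (Fin n) (Fin n) (ResidueField O) :=
    diagonal fun i => if w i = γ then 1 else 0 with hπ'
  set P : Fin n → MvPolynomial (Fin n) O := fun i => subst (k₀ * π) (pderiv i f₀) with hP
  have htot : subst π (pderiv j₀ (subst k₀ f₀)) = ∑ i, C (k₀ i j₀) * P i := by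
    rw [pderiv_subst, map_sum]
    apply Finset.sum_congr rfl
    intro i _
    rw [map_mul, subst_C, ← subst_mul]
  -- first claim
  have claim1 : ∃ β, c ≤ O.valuation ((coeff β (∑ i ∈ Finset.univ.filter (fun i => w i = γ),
      C (k₀ i j₀) * P i) : O) : K) := by
    by_contra hall
    push Not at hall
    have hk0 : (k₀ i₀ j₀ : K) ≠ 0 := fun h => hc0 (by rw [hcdef, hκ]; simp [h])
    let l : Fin n → O := fun i => if h : w i = γ then
      ⟨(k₀ i j₀ : K) / (k₀ i₀ j₀ : K), by
        rw [← O.valuation_le_one_iff, map_div₀]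
        exact div_le_one_of_le₀ (hcol i h) zero_le⟩ else 0
    have hl : ∀ i, w i = γ → k₀ i₀ j₀ * l i = k₀ i j₀ := by
      intro i hi
      apply Subtype.ext
      simp only [l, dif_pos hi]
      exact mul_div_cancel₀ _ hk0
    have hl0 : l i₀ = 1 := by
      apply Subtype.ext
      simp only [l, dif_pos hγ.symm]
      exact div_self hk0
    set Q := ∑ i ∈ Finset.univ.filter (fun i => w i = γ), C (l i) * P i with hQ
    have h1 : C (k₀ i₀ j₀) * Q = ∑ i ∈ Finset.univ.filter (fun i => w i = γ),
        C (k₀ i j₀) * P i := by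
      rw [hQ, Finset.mul_sum]
      apply Finset.sum_congr rfl
      intro i hi
      rw [← mul_assoc, ← C_mul, hl i (Finset.mem_filter.1 hi).2]
    have h2 : MvPolynomial.map (residue O) Q = 0 := by
      ext β
      rw [coeff_map, coeff_zero, ← valuation_lt_one_iff_residue]
      have h3 := hall β
      rw [← h1, coeff_C_mul] at h3
      have h4 : c * O.valuation ((coeff β Q : O) : K) < c * 1 := by
        rw [mul_one]
        simpa [hcdef, hκ] using h3
      exact lt_of_mul_lt_mul_left h4 zero_le
    have h3 : (k₀.map (residue O)) * (π.map (residue O)) = π' * k₀.map (residue O) := by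
      refine Matrix.ext fun i j => ?_
      have h4 : π.map (residue O) = diagonal fun j => if v j = γ then 1 else 0 := by
        rw [hπ, Matrix.diagonal_map (map_zero _)]
        congr 1
        funext j
        split_ifs <;> simp
      rw [h4, hπ', Matrix.mul_diagonal, Matrix.diagonal_mul]
      by_cases h5 : residue O (k₀ i j) = 0
      · rw [Matrix.map_apply, h5, zero_mul, mul_zero]
      · rw [hk i j h5]
        ring
    have h4 : ∀ i, w i = γ → subst π' (pderiv i (MvPolynomial.map (residue O) f₀)) =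
        pderiv i (MvPolynomial.map (residue O) f₀) := by
      intro i hi
      ext β
      rw [hπ', coeff_subst_diagonal]
      by_cases h5 : coeff β (pderiv i (MvPolynomial.map (residue O) f₀)) = 0
      · rw [h5, mul_zero]
      · have h6 : ∏ x, (if w x = γ then (1 : ResidueField O) else 0) ^ β x = 1 := by
          apply Finset.prod_eq_one
          intro x _
          by_cases hx : β x = 0
          · rw [hx, pow_zero]
          · have h7 : w x = γ := by
              by_contra h8
              have h9 := hblk x i (fun h => h8 (h.trans hi))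
              have h10 := congrArg (coeff (β - Finsupp.single x 1))
                (congrArg (MvPolynomial.map (residue O)) h9)
              rw [← pderiv_map, ← pderiv_map, coeff_pderiv, sub_add_single_cancel hx, map_zero,
                coeff_zero] at h10
              rcases mul_eq_zero.1 h10 with h11 | h11
              · exact h5 h11
              · exact Nat.cast_add_one_ne_zero _ h11
            rw [if_pos h7, one_pow]
        rw [h6, one_mul]
    have h5 : MvPolynomial.map (residue O) Q = subst (k₀.map (residue O))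
        (∑ i ∈ Finset.univ.filter (fun i => w i = γ), C (residue O (l i)) *
          pderiv i (MvPolynomial.map (residue O) f₀)) := by
      rw [hQ, map_sum, map_sum]
      apply Finset.sum_congr rfl
      intro i hi
      rw [map_mul, map_C, map_mul, subst_C, hP]
      rw [map_subst, Matrix.map_mul, h3, subst_mul, ← pderiv_map, h4 i (Finset.mem_filter.1 hi).2]
    rw [h2] at h5
    have h6 := subst_injective (isUnit_det_residue hk₀) ((map_zero _).trans h5)
    have h7 : ∑ i, C (if w i = γ then residue O (l i) else 0) *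
        (grad (MvPolynomial.map (residue O) f₀) i) = 0 := by
      rw [← Finset.sum_filter_add_sum_filter_not Finset.univ (fun i => w i = γ)]
      rw [Finset.sum_congr rfl (g := fun i => C (residue O (l i)) *
          pderiv i (MvPolynomial.map (residue O) f₀)) (fun i hi => by
        rw [if_pos (Finset.mem_filter.1 hi).2]
        rfl)]
      rw [← h6, zero_add]
      apply Finset.sum_eq_zero
      intro i hi
      rw [if_neg (Finset.mem_filter.1 hi).2, C_0, zero_mul]
    have h8 := Reg.eq_zero_of_sum nd₀ (k := d - 1) (by omega)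
      (fun i => isHomogeneous_grad (hf₀.map _) i) _ h7
    have h9 := congrFun h8 i₀
    rw [if_pos rfl, hl0] at h9
    simp at h9
  obtain ⟨β, hβ⟩ := claim1
  have hγ0 : γ ≠ 0 := hw0 i₀
  have hcle : c ≤ 1 := hκ1 _ _
  have htotβ := congrArg (fun p : MvPolynomial (Fin n) O => ((coeff β p : O) : K)) htot
  rw [← Finset.sum_filter_add_sum_filter_not Finset.univ (fun i => w i = γ), coeff_add] at htotβ
  set T₁ := ((coeff β (∑ i ∈ Finset.univ.filter (fun i => w i = γ),
      C (k₀ i j₀) * P i) : O) : K) with hT₁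
  set T₂ := ((coeff β (∑ i ∈ Finset.univ.filter (fun i => ¬ w i = γ),
      C (k₀ i j₀) * P i) : O) : K) with hT₂
  have htotβ' : ((coeff β (subst π (pderiv j₀ (subst k₀ f₀))) : O) : K) = T₁ + T₂ := by
    rw [htotβ]
    push_cast
    rfl
  have hcases : c ≤ O.valuation ((coeff β (subst π (pderiv j₀ (subst k₀ f₀))) : O) : K) ∨
      c ≤ O.valuation T₂ := by
    have h1 : T₁ = ((coeff β (subst π (pderiv j₀ (subst k₀ f₀))) : O) : K) - T₂ := by
      rw [htotβ']
      ring
    have h2 := hβ
    rw [h1] at h2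
    exact le_max_iff.1 (h2.trans (O.valuation.map_sub _ _))
  rcases hcases with hA | hB
  · -- the coefficient of `f₁`
    rw [hπ, coeff_subst_diagonal] at hA
    have hsupp : ∀ l, β l ≠ 0 → v l = γ := by
      intro l hl
      by_contra h1
      have h2 : ∏ x, (if v x = γ then (1 : O) else 0) ^ β x = 0 := by
        apply Finset.prod_eq_zero (Finset.mem_univ l)
        rw [if_neg h1, zero_pow hl]
      rw [h2, zero_mul] at hA
      simp only [ZeroMemClass.coe_zero, map_zero] at hA
      exact hc0 (le_zero_iff.1 hA)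
    have h1 : ∏ x, (if v x = γ then (1 : O) else 0) ^ β x = 1 := by
      apply Finset.prod_eq_one
      intro x _
      by_cases hx : β x = 0
      · rw [hx, pow_zero]
      · rw [if_pos (hsupp x hx), one_pow]
    rw [h1, one_mul, coeff_pderiv] at hA
    have h2 : c ≤ O.valuation ((coeff (β + Finsupp.single j₀ 1) (subst k₀ f₀) : O) : K) := by
      push_cast at hA
      rw [map_mul, hnat, mul_one] at hA
      exact hA
    have hdeg : (β + Finsupp.single j₀ 1).degree = d := by
      by_contra h3
      rw [(isHomogeneous_subst k₀ hf₀).coeff_eq_zero h3] at h2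
      simp only [ZeroMemClass.coe_zero, map_zero] at h2
      exact hc0 (le_zero_iff.1 h2)
    have hdegβ : β.degree = d - 1 := by
      rw [map_add, Finsupp.degree_single] at hdeg
      omega
    have hβj : β j₀ = 0 := by
      by_contra h3
      exact hne (hsupp j₀ h3)
    have hprod : ∏ j, v j ^ (β + Finsupp.single j₀ 1 : Fin n →₀ ℕ) j = γ ^ (d - 1) * v j₀ := by
      simp only [Finsupp.add_apply, pow_add, Finset.prod_mul_distrib]
      congr 1
      · rw [← hdegβ, Finsupp.degree_eq_sum, ← Finset.prod_pow_eq_pow_sum]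
        apply Finset.prod_congr rfl
        intro x _
        by_cases hx : β x = 0
        · rw [hx, pow_zero, pow_zero]
        · rw [hsupp x hx]
      · rw [Finset.prod_eq_single j₀]
        · simp
        · intro b _ hb
          simp [hb.symm]
        · simp
    obtain ⟨l, hl⟩ : ∃ l, β l ≠ 0 := by
      by_contra hall
      push Not at hall
      have h3 : β = 0 := Finsupp.ext hall
      rw [h3] at hdegβ
      simp at hdegβ
      omega
    have h3 := hc (β + Finsupp.single j₀ 1) l (by rw [Finsupp.add_apply]; omega)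
    have h4 := hc (β + Finsupp.single j₀ 1) j₀ (by
      rw [Finsupp.add_apply, Finsupp.single_eq_same]
      omega)
    rw [hprod] at h3 h4
    rw [hsupp l hl] at h3
    have h5 : c * (γ ^ (d - 1) * v j₀) ≤ γ ^ d := (mul_le_mul_left h2 _).trans h3
    have h6 : c * (γ ^ (d - 1) * v j₀) ≤ v j₀ ^ d := (mul_le_mul_left h2 _).trans h4
    have hd1 : d = (d - 1) + 1 := by omega
    have h7 : c * v j₀ ≤ γ := by
      have h8 : γ ^ (d - 1) * (c * v j₀) ≤ γ ^ (d - 1) * γ := by
        calc γ ^ (d - 1) * (c * v j₀) = c * (γ ^ (d - 1) * v j₀) := by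
              rw [← mul_assoc, ← mul_assoc, mul_comm (γ ^ (d - 1)) c]
          _ ≤ γ ^ d := h5
          _ = γ ^ (d - 1) * γ := by rw [← pow_succ, ← hd1]
      exact le_of_mul_le_mul_left h8 (pow_pos (hpos' i₀) _)
    have h9 : c * γ ^ (d - 1) ≤ v j₀ ^ (d - 1) := by
      have h8 : (c * γ ^ (d - 1)) * v j₀ ≤ v j₀ ^ (d - 1) * v j₀ := by
        rw [← pow_succ, ← hd1, mul_assoc]
        exact h6
      exact le_of_mul_le_mul_right h8 (hpos j₀)
    have h10 : c * γ ≤ v j₀ := by
      rcases le_total γ (v j₀) with hle | hle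
      · calc c * γ ≤ 1 * γ := mul_le_mul_left hcle _
          _ = γ := one_mul _
          _ ≤ v j₀ := hle
      · have hd2 : d - 1 = (d - 2) + 1 := by omega
        have h11 : (c * γ) * γ ^ (d - 2) ≤ v j₀ * γ ^ (d - 2) := by
          calc (c * γ) * γ ^ (d - 2) = c * γ ^ (d - 1) := by
                rw [hd2, pow_succ, mul_assoc, mul_comm γ]
            _ ≤ v j₀ ^ (d - 1) := h9
            _ = v j₀ * v j₀ ^ (d - 2) := by
                rw [hd2, pow_succ, mul_comm]
            _ ≤ v j₀ * γ ^ (d - 2) := mul_le_mul_right (pow_le_pow_left' hle _) _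
        exact le_of_mul_le_mul_right h11 (pow_pos (hpos' i₀) _)
    exact hfail ⟨h7, h10⟩
  · -- the contribution of the other classes
    obtain ⟨i, hi, hci⟩ : ∃ i, w i ≠ γ ∧ c ≤ κ i j₀ * O.valuation ((coeff β (P i) : O) : K) := by
      by_contra hall
      push Not at hall
      have h1 : T₂ = ∑ i ∈ Finset.univ.filter (fun i => ¬ w i = γ),
          (k₀ i j₀ : K) * ((coeff β (P i) : O) : K) := by
        rw [hT₂, coeff_sum]
        push_cast
        apply Finset.sum_congr rfl
        intro i _
        rw [coeff_C_mul]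
        rfl
      have h2 : O.valuation T₂ < c := by
        rw [h1]
        apply O.valuation.map_sum_lt hc0
        intro i hi
        rw [map_mul]
        exact hall i (Finset.mem_filter.1 hi).2
      exact absurd hB (not_le.2 h2)
    obtain ⟨j₁, hj₁⟩ := exists_row_ne_zero (isUnit_det_residue hk₀).ne_zero i₀
    have hvj₁ : v j₁ = γ := (hk i₀ j₁ hj₁).symm
    let T : Finset (Fin n × Fin n) := Finset.univ.filter fun p => w p.1 = w i ∧ v p.2 = γ
    obtain ⟨⟨l, j'⟩, hlj, hlmax⟩ := Finset.exists_max_image T (fun p => κ p.1 p.2)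
      ⟨(i, j₁), Finset.mem_filter.2 ⟨Finset.mem_univ _, rfl, hvj₁⟩⟩
    obtain ⟨hl, hj'⟩ := (Finset.mem_filter.1 hlj).2
    simp only at hl hj'
    set μ := κ l j' with hμ
    have hbd : O.valuation ((coeff β (P i) : O) : K) ≤ μ ^ (d - 1) := by
      have h1 : Bd O (μ ^ (d - 1)) (subst ((k₀ * π).map (algebraMap O K))
          (MvPolynomial.map (algebraMap O K) (pderiv i f₀))) := by
        apply bd_subst (hf₀.pderiv.map _)
        · intro m
          rw [coeff_map]
          exact O.valuation_le_one _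
        · intro α hα l' hl' j
          rw [coeff_map] at hα
          have hα' : coeff α (pderiv i f₀) ≠ 0 := fun h => hα (by rw [h, map_zero])
          have h2 : w l' = w i := by
            by_contra h3
            have h4 := congrArg (coeff (α - Finsupp.single l' 1)) (hblk l' i h3)
            rw [coeff_pderiv, sub_add_single_cancel hl', coeff_zero] at h4
            rcases mul_eq_zero.1 h4 with h5 | h5
            · exact hα' h5
            · generalize (α - Finsupp.single l' 1 : Fin n →₀ ℕ) l' = m at h5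
              have h6 := hnat m
              have h7 := congrArg (fun x : O => (x : K)) h5
              push_cast at h7
              rw [h7, map_zero] at h6
              exact zero_ne_one h6
          rw [Matrix.map_apply, hπ, Matrix.mul_diagonal]
          by_cases h3 : v j = γ
          · rw [if_pos h3, mul_one]
            exact hlmax (l', j) (Finset.mem_filter.2 ⟨Finset.mem_univ _, h2, h3⟩)
          · rw [if_neg h3, mul_zero, map_zero, map_zero]
            exact zero_le
      have h2 := h1 β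
      rw [← map_subst, coeff_map] at h2
      exact h2
    have hμ1 : μ < 1 := by
      have h1 : residue O (k₀ l j') = 0 := by
        by_contra h2
        apply hi
        rw [← hl, hk l j' h2, hj']
      exact valuation_lt_one_iff_residue.2 h1
    have h1 : c ≤ κ i j₀ * μ ^ (d - 1) := hci.trans (mul_le_mul_right hbd _)
    have hμ0 : μ ≠ 0 := by
      intro h2
      rw [h2, zero_pow (by omega), mul_zero] at h1
      exact hc0 (le_zero_iff.1 h1)
    have hκ0 : κ i j₀ ≠ 0 := by
      intro h2
      rw [h2, zero_mul] at h1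
      exact hc0 (le_zero_iff.1 h1)
    have hμpow : μ ^ (d - 1) < μ := by
      have h2 : μ ^ (d - 1) < μ ^ 1 := pow_lt_pow_right_of_lt_one₀ (zero_lt_iff.2 hμ0) hμ1 (by omega)
      simpa using h2
    have h2 : c < κ i j₀ := by
      calc c ≤ κ i j₀ * μ ^ (d - 1) := h1
        _ < κ i j₀ * 1 := mul_lt_mul_of_pos_left (hμpow.trans hμ1) (zero_lt_iff.2 hκ0)
        _ = κ i j₀ := mul_one _
    have h3 : c < μ := by
      calc c ≤ κ i j₀ * μ ^ (d - 1) := h1
        _ ≤ 1 * μ ^ (d - 1) := mul_le_mul_left (hκ1 _ _) _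
        _ = μ ^ (d - 1) := one_mul _
        _ < μ := hμpow
    have h4 : κ i j₀ * v j₀ ≤ w i ∧ κ i j₀ * w i ≤ v j₀ := by
      by_contra h5
      have h6 := hmax (i, j₀) (Finset.mem_filter.2 ⟨Finset.mem_univ _, h5⟩)
      exact absurd h6 (not_le.2 h2)
    have h5 : κ l j' * v j' ≤ w l ∧ κ l j' * w l ≤ v j' := by
      by_contra h5
      have h6 := hmax (l, j') (Finset.mem_filter.2 ⟨Finset.mem_univ _, h5⟩)
      exact absurd h6 (not_le.2 h3)
    rw [hl, hj', ← hμ] at h5
    have h6 : c ≤ κ i j₀ * μ := h1.trans (mul_le_mul_right hμpow.le _)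
    apply hfail
    constructor
    · calc c * v j₀ ≤ (κ i j₀ * μ) * v j₀ := mul_le_mul_left h6 _
        _ = μ * (κ i j₀ * v j₀) := by rw [mul_comm (κ i j₀) μ, mul_assoc]
        _ ≤ μ * w i := mul_le_mul_right h4.1 _
        _ ≤ γ := h5.2
    · calc c * γ ≤ (κ i j₀ * μ) * γ := mul_le_mul_left h6 _
        _ = κ i j₀ * (μ * γ) := mul_assoc _ _ _
        _ ≤ κ i j₀ * w i := mul_le_mul_right h5.1 _
        _ ≤ v j₀ := h4.2

end descent

end Pool.Agent.Lib.MP_4fcc12_ag
end

section
open MvPolynomial Matrix IsLocalRing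

set_option linter.unusedSectionVars false

namespace Pool.Agent.Lib.MP_4fcc12_ag

variable {n : ℕ}

section

variable {K : Type*} [Field K] {O : ValuationSubring K}

lemma map_injective_O : Function.Injective
    (MvPolynomial.map (algebraMap O K) : MvPolynomial (Fin n) O → MvPolynomial (Fin n) K) :=
  MvPolynomial.map_injective _ (IsFractionRing.injective O K)

lemma isGLO_of_mem {P : Matrix (Fin n) (Fin n) K} (hP : ∀ i j, P i j ∈ O)
    (hdet : O.valuation P.det = 1) : IsGLO O P := by
  rw [← liftO_map P hP]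
  apply isGLO_of_lift
  refine (O.valuation_eq_one_iff _).2 ?_
  have h1 : (((liftO P hP).det : O) : K) = P.det := by
    have := RingHom.map_det (algebraMap O K) (liftO P hP)
    rw [RingHom.mapMatrix_apply, liftO_map] at this
    exact this
  rw [h1, hdet]

lemma IsGLO.valuation_det {P : Matrix (Fin n) (Fin n) K} (hP : IsGLO O P) :
    O.valuation P.det = 1 := by
  obtain ⟨Q, hQ, rfl⟩ := hP.exists_lift
  have h1 : ((Q.det : O) : K) = (Q.map (algebraMap O K)).det :=
    RingHom.map_det (algebraMap O K) Q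
  rw [← h1]
  exact (O.valuation_eq_one_iff _).1 hQ

lemma mem_of_act [IsAlgClosed K] {k : ℕ} (hk : 0 < k) (F F' : Fin n → MvPolynomial (Fin n) O)
    (hF' : ∀ i, (F' i).IsHomogeneous k)
    (regF' : Reg fun i => MvPolynomial.map (residue O) (F' i)) (a : Matrix (Fin n) (Fin n) K)
    (h : (fun i => MvPolynomial.map (algebraMap O K) (F i)) =
      act (fun i => MvPolynomial.map (algebraMap O K) (F' i)) 1 a) (i j : Fin n) : a i j ∈ O := by
  have : IsAlgClosed (ResidueField O) := isAlgClosed_residueField O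
  obtain ⟨j₀, -, hmax⟩ := Finset.exists_max_image Finset.univ (fun j => O.valuation (a i j))
    ⟨j, Finset.mem_univ _⟩
  by_contra hcon
  rw [← O.valuation_le_one_iff, not_le] at hcon
  have hj₀ : 1 < O.valuation (a i j₀) := hcon.trans_le (hmax j (Finset.mem_univ _))
  have ha0 : a i j₀ ≠ 0 := by
    intro h0
    rw [h0, map_zero] at hj₀
    exact absurd hj₀ (not_lt.2 zero_le)
  have hv0 : O.valuation (a i j₀) ≠ 0 := (map_ne_zero _).2 ha0
  let l : Fin n → O := fun j => ⟨a i j / a i j₀, by
    rw [← O.valuation_le_one_iff, map_div₀]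
    exact div_le_one_of_le₀ (hmax j (Finset.mem_univ _)) zero_le⟩
  have hl0 : l j₀ = 1 := Subtype.ext (div_self ha0)
  set Q := ∑ j, C (l j) * F' j with hQ
  have h1 : C (a i j₀) * MvPolynomial.map (algebraMap O K) Q =
      MvPolynomial.map (algebraMap O K) (F i) := by
    have h2 := congrFun h i
    simp only [act, subst_one] at h2
    rw [h2, hQ, map_sum, Finset.mul_sum]
    apply Finset.sum_congr rfl
    intro j _
    rw [map_mul, map_C, ← mul_assoc, ← C_mul]
    congr 2
    exact mul_div_cancel₀ _ ha0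
  have h2 : MvPolynomial.map (residue O) Q = 0 := by
    ext β
    rw [coeff_map, coeff_zero, ← valuation_lt_one_iff_residue]
    have h3 := congrArg (fun p => O.valuation (coeff β p)) h1
    simp only [coeff_C_mul, coeff_map, map_mul] at h3
    have h4 : O.valuation (a i j₀) * O.valuation ((coeff β Q : O) : K) ≤ 1 := by
      rw [show O.valuation ((coeff β Q : O) : K) = O.valuation (algebraMap O K (coeff β Q))
        from rfl, h3]
      exact O.valuation_le_one _
    by_contra h5
    push Not at h5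
    have h6 : O.valuation (a i j₀) * 1 ≤ O.valuation (a i j₀) *
      O.valuation ((coeff β Q : O) : K) := mul_le_mul_right h5 _
    rw [mul_one] at h6
    exact absurd (h6.trans h4) (not_le.2 hj₀)
  have h3 : ∑ j, C (residue O (l j)) * MvPolynomial.map (residue O) (F' j) = 0 := by
    rw [← h2, hQ, map_sum]
    apply Finset.sum_congr rfl
    intro j _
    rw [map_mul, map_C]
  have h4 := congrFun (Reg.eq_zero_of_sum regF' hk (fun i => (hF' i).map _) _ h3) j₀
  rw [hl0] at h4
  simp at h4

lemma isGLO_of_act [IsAlgClosed K] {k : ℕ} (hk : 0 < k) (F F' : Fin n → MvPolynomial (Fin n) O)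
    (hF : ∀ i, (F i).IsHomogeneous k) (hF' : ∀ i, (F' i).IsHomogeneous k)
    (regF : Reg fun i => MvPolynomial.map (residue O) (F i))
    (regF' : Reg fun i => MvPolynomial.map (residue O) (F' i)) (a : Matrix (Fin n) (Fin n) K)
    (ha : a.det ≠ 0)
    (h : (fun i => MvPolynomial.map (algebraMap O K) (F i)) =
      act (fun i => MvPolynomial.map (algebraMap O K) (F' i)) 1 a) : IsGLO O a := by
  refine ⟨a⁻¹, mem_of_act hk F F' hF' regF' a h, mem_of_act hk F' F hF regF a⁻¹ ?_, ?_⟩
  · rw [h, act_act, Matrix.nonsing_inv_mul _ (isUnit_iff_ne_zero.2 ha), one_mul, act_one]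
  · exact Matrix.mul_nonsing_inv _ (isUnit_iff_ne_zero.2 ha)

end

section stab

variable {R : Type*} [Field R] [CharZero R]

/-- coefficients of partial derivatives of a form with vanishing mixed derivatives -/
lemma label_eq_of_coeff_ne_zero {b : Fin n → Fin n} {f : MvPolynomial (Fin n) R}
    (hmix : ∀ i j, b i ≠ b j → pderiv i (pderiv j f) = 0) {i l : Fin n} {β : Fin n →₀ ℕ}
    (hβ : coeff β (pderiv i f) ≠ 0) (hl : β l ≠ 0) : b l = b i := by
  by_contra h
  have h4 := congrArg (coeff (β - Finsupp.single l 1)) (hmix l i h)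
  rw [coeff_pderiv, sub_add_single_cancel hl, coeff_zero] at h4
  rcases mul_eq_zero.1 h4 with h5 | h5
  · exact hβ h5
  · exact Nat.cast_add_one_ne_zero _ h5

lemma act_stab {b : Fin n → Fin n} {f : MvPolynomial (Fin n) R} {d : ℕ} (hf : f.IsHomogeneous d)
    (hmix : ∀ i j, b i ≠ b j → pderiv i (pderiv j f) = 0) (t : Fin n → R)
    (ht0 : ∀ i, t i ≠ 0) (ht : ∀ i j, b i = b j → t i = t j) :
    act (grad f) (diagonal t) (diagonal fun i => (t i)⁻¹ ^ (d - 1)) = grad f := by
  funext i
  simp only [act]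
  rw [Finset.sum_eq_single i]
  · rw [diagonal_apply_eq]
    ext β
    rw [coeff_C_mul, coeff_subst_diagonal]
    by_cases hβ : coeff β (grad f i) = 0
    · rw [hβ, mul_zero, mul_zero]
    · have hdeg : β.degree = d - 1 := by
        by_contra h
        exact hβ ((isHomogeneous_grad hf i).coeff_eq_zero h)
      have h1 : ∏ l, t l ^ β l = t i ^ (d - 1) := by
        rw [← hdeg, Finsupp.degree_eq_sum, ← Finset.prod_pow_eq_pow_sum]
        apply Finset.prod_congr rfl
        intro l _
        by_cases hl : β l = 0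
        · rw [hl, pow_zero, pow_zero]
        · rw [ht l i (label_eq_of_coeff_ne_zero hmix hβ hl)]
      rw [h1, ← mul_assoc, ← mul_pow, inv_mul_cancel₀ (ht0 i), one_pow, one_mul]
  · intro j _ hj
    rw [diagonal_apply_ne _ hj.symm, C_0, zero_mul]
  · simp

end stab

section main

lemma prod_pow_le_class {Γ : Type*} [LinearOrderedCommGroupWithZero Γ] {d : ℕ} (v : Fin n → Γ)
    (hv : ∀ i, v i ≠ 0) (α : Fin n →₀ ℕ) (hα : α.degree = d)
    (h : ∀ j, α j ≠ 0 → ∏ l, v l ^ α l ≤ v j ^ d) {i j : Fin n} (hi : α i ≠ 0) (hj : α j ≠ 0) :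
    v i = v j := by
  obtain ⟨j₀, hj₀, hmin⟩ := Finset.exists_min_image (Finset.univ.filter fun j => α j ≠ 0) v
    ⟨i, Finset.mem_filter.2 ⟨Finset.mem_univ _, hi⟩⟩
  rw [Finset.mem_filter] at hj₀
  have h2 := h j₀ hj₀.2
  have h3 : ∀ m, α m ≠ 0 → v m = v j₀ := by
    intro m hm
    by_contra hcon
    have h4 : v j₀ < v m := lt_of_le_of_ne
      (hmin m (Finset.mem_filter.2 ⟨Finset.mem_univ _, hm⟩)) (Ne.symm hcon)
    exact absurd h2 (not_le.2 (lt_prod_pow v hv α hα (c := v j₀)
      (fun j hj => hmin j (Finset.mem_filter.2 ⟨Finset.mem_univ _, hj⟩)) m hm h4))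
  rw [h3 i hi, h3 j hj]

variable {K : Type*} [Field K] {O : ValuationSubring K}

/-- The valuative statement (V). -/
theorem valuativeV [IsAlgClosed K] [CharZero K] [CharZero (ResidueField O)] {d : ℕ} (hd : 3 ≤ d)
    (f₀ : MvPolynomial (Fin n) O) (hf₀ : f₀.IsHomogeneous d)
    (nd₀ : NonDeg (MvPolynomial.map (residue O) f₀)) (b : Fin n → Fin n)
    (hb : BlockForm (MvPolynomial.map (residue O) f₀) b)
    (hmix : ∀ i j, b i ≠ b j → pderiv i (pderiv j f₀) = 0)
    (g a : Matrix (Fin n) (Fin n) K) (hg : g.det ≠ 0) (ha : a.det ≠ 0)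
    (F : Fin n → MvPolynomial (Fin n) O) (hF : ∀ i, (F i).IsHomogeneous (d - 1))
    (regF : Reg fun i => MvPolynomial.map (residue O) (F i))
    (h : (fun i => MvPolynomial.map (algebraMap O K) (F i)) =
      act (grad (MvPolynomial.map (algebraMap O K) f₀)) g a) :
    ∃ t : Fin n → K, (∀ i, t i ≠ 0) ∧ (∀ i j, b i = b j → t i = t j) ∧
      IsGLO O (diagonal t * g) ∧ IsGLO O (a * (diagonal fun i => (t i)⁻¹ ^ (d - 1))) := by
  classical
  set f₀K := MvPolynomial.map (algebraMap O K) f₀ with hf₀K
  have hau := isUnit_iff_ne_zero.2 ha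
  have hgu := isUnit_iff_ne_zero.2 hg
  have h1 : grad (subst g f₀K) =
      act (fun i => MvPolynomial.map (algebraMap O K) (F i)) 1 (gᵀ * a⁻¹) := by
    rw [h, act_act, grad_subst, mul_one, mul_assoc, Matrix.nonsing_inv_mul _ hau, mul_one]
  obtain ⟨k₁, s, f₁, hk₁, hs0, hsc, hf₁, nd₁, h2, h3⟩ := semistable (O := O) hd
    (isHomogeneous_subst g (hf₀.map (algebraMap O K))) (gᵀ * a⁻¹)
    (by
      rw [Matrix.det_mul, Matrix.det_transpose]
      exact mul_ne_zero hg (Matrix.isUnit_nonsing_inv_det _ hau).ne_zero) F hF regF h1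
  set k := g * k₁ * diagonal fun i => (s i)⁻¹ with hk
  have hss : (diagonal s) * (diagonal fun i => (s i)⁻¹) = 1 := by
    rw [diagonal_mul_diagonal]
    have : (fun i => s i * (s i)⁻¹) = fun _ => 1 := by
      funext i
      exact mul_inv_cancel₀ (hs0 i)
    rw [this, diagonal_one]
  have hss' : (diagonal fun i => (s i)⁻¹) * (diagonal s) = 1 := by
    rw [diagonal_mul_diagonal]
    have : (fun i => (s i)⁻¹ * s i) = fun _ => 1 := by
      funext i
      exact inv_mul_cancel₀ (hs0 i)
    rw [this, diagonal_one]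
  have h4 : MvPolynomial.map (algebraMap O K) f₁ = subst k f₀K := by
    rw [hk, subst_mul, subst_mul, h2, ← subst_mul, hss, subst_one]
  have hkdet : k.det ≠ 0 := by
    rw [hk, Matrix.det_mul, Matrix.det_mul, det_diagonal]
    exact mul_ne_zero (mul_ne_zero hg hk₁.isUnit_det.ne_zero)
      (Finset.prod_ne_zero_iff.2 fun i _ => inv_ne_zero (hs0 i))
  have hkO := properP hd hf₀ hf₁ nd₀ nd₁ k hkdet h4
  obtain ⟨k₀, hk₀, hk₀k⟩ := hkO.exists_lift
  have h5 : f₁ = subst k₀ f₀ := by
    apply map_injective_O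
    rw [h4, map_subst, hk₀k]
  set v : Fin n → O.ValueGroup := fun i => O.valuation (s i) with hv
  have hv0 : ∀ i, v i ≠ 0 := fun i => (map_ne_zero _).2 (hs0 i)
  set κ := ResidueField O with hκ
  -- the auxiliary diagonal matrix separating the classes
  let e : Fin n → κ := fun i => ((Finset.univ.filter fun l => v l < v i).card : κ)
  have he : ∀ i j, e i = e j → v i = v j := by
    have h6 : ∀ i j, v i < v j → e i ≠ e j := by
      intro i j hij h7
      have h8 : (Finset.univ.filter fun l => v l < v i).card <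
          (Finset.univ.filter fun l => v l < v j).card := by
        apply Finset.card_lt_card
        rw [Finset.ssubset_iff_of_subset]
        · exact ⟨i, Finset.mem_filter.2 ⟨Finset.mem_univ _, hij⟩, by simp⟩
        · intro l hl
          rw [Finset.mem_filter] at hl ⊢
          exact ⟨hl.1, hl.2.trans hij⟩
      have h9 := Nat.cast_injective (R := κ) h7
      omega
    intro i j hij
    rcases lt_trichotomy (v i) (v j) with h7 | h7 | h7
    · exact absurd hij (h6 i j h7)
    · exact h7
    · exact absurd hij.symm (h6 j i h7)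
  have he' : ∀ i j, v i = v j → e i = e j := by
    intro i j hij
    show ((Finset.univ.filter fun l => v l < v i).card : κ) = _
    rw [hij]
  have hmixed : ∀ i j, v i ≠ v j →
      pderiv i (pderiv j (MvPolynomial.map (residue O) f₁)) = 0 := by
    intro i j hij
    ext β
    rw [coeff_pderiv, coeff_pderiv, coeff_zero]
    set α := β + Finsupp.single i 1 + Finsupp.single j 1 with hα
    by_cases hc : coeff α (MvPolynomial.map (residue O) f₁) = 0
    · rw [hc, zero_mul, zero_mul]
    · exfalso
      have hαd : α.degree = d := by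
        by_contra h7
        exact hc ((hf₁.map _).coeff_eq_zero h7)
      rw [coeff_map] at hc
      have h8 := valuation_eq_one_of_residue_ne_zero hc
      apply hij
      apply prod_pow_le_class v hv0 α hαd
      · intro l hl
        have h9 := h3 α l hl
        rw [h8, one_mul] at h9
        exact h9
      · rw [hα, Finsupp.add_apply, Finsupp.add_apply, Finsupp.single_eq_same]
        omega
      · rw [hα, Finsupp.add_apply, Finsupp.single_eq_same]
        omega
  have hsym : SymB (MvPolynomial.map (residue O) f₁) (diagonal e) := by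
    intro i j
    rw [Finset.sum_eq_single i, Finset.sum_eq_single j]
    · by_cases hij : v i = v j
      · rw [diagonal_apply_eq, diagonal_apply_eq, he' i j hij, pderiv_comm]
      · rw [hmixed i j hij, hmixed j i (Ne.symm hij), mul_zero, mul_zero]
    · intro l _ hl
      rw [diagonal_apply_ne _ (Ne.symm hl), C_0, zero_mul]
    · simp
    · intro l _ hl
      rw [diagonal_apply_ne _ (Ne.symm hl), C_0, zero_mul]
    · simp
  have hkb := isUnit_det_residue hk₀
  rw [h5, map_subst] at hsym
  obtain ⟨c, hc⟩ := hb.alg _ (hsym.of_subst hkb)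
  set kb := k₀.map (residue O) with hkbdef
  have hrel : diagonal e * kbᵀ = kbᵀ * diagonal fun i => c (b i) := by
    rw [← hc, ← mul_assoc, ← mul_assoc, ← Matrix.transpose_mul, Matrix.nonsing_inv_mul _ hkb,
      Matrix.transpose_one, one_mul]
  have hrel' : ∀ i j, kb i j ≠ 0 → e j = c (b i) := by
    intro i j hij
    have h6 := congrArg (fun M : Matrix (Fin n) (Fin n) κ => M j i) hrel
    simp only [Matrix.diagonal_mul, Matrix.mul_diagonal, Matrix.transpose_apply] at h6
    rw [mul_comm] at h6
    exact mul_left_cancel₀ hij h6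
  obtain ⟨σ, hσ⟩ := exists_perm_ne_zero hkb.ne_zero
  have hσe : ∀ i, c (b i) = e (σ.symm i) := by
    intro i
    have := hσ (σ.symm i)
    rw [Equiv.apply_symm_apply] at this
    exact (hrel' _ _ this).symm
  let s' : Fin n → K := fun i => s (σ.symm i)
  have hs'0 : ∀ i, s' i ≠ 0 := fun i => hs0 _
  have hbs : ∀ i j, b i = b j → s' i = s' j := by
    intro i j hij
    apply hsc
    apply he
    rw [← hσe, ← hσe, hij]
  have hdesc := descent (O := O) hd f₀ hf₀ nd₀ k₀ hk₀ v (fun i => v (σ.symm i)) hv0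
    (fun i => hv0 _)
    (by
      intro i j hij
      apply hmix
      intro hbij
      exact hij (congrArg O.valuation (hbs i j hbij)))
    (by
      intro i j hij
      show v (σ.symm i) = v j
      apply he
      rw [← hσe]
      exact (hrel' i j hij).symm)
    (by
      rw [← h5]
      exact h3)
  let t : Fin n → K := fun i => (s' i)⁻¹
  have ht0 : ∀ i, t i ≠ 0 := fun i => inv_ne_zero (hs'0 i)
  have htb : ∀ i j, b i = b j → t i = t j := fun i j hij => congrArg (·⁻¹) (hbs i j hij)
  -- the first matrix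
  have hgk : diagonal t * g * k₁ = diagonal t * k * diagonal s := by
    rw [hk, mul_assoc, mul_assoc (diagonal t), mul_assoc (g * k₁), hss', mul_one]
  have hgk' : IsGLO O (diagonal t * g * k₁) := by
    rw [hgk]
    apply isGLO_of_mem
    · intro i j
      rw [Matrix.mul_diagonal, Matrix.diagonal_mul, ← O.valuation_le_one_iff, map_mul, map_mul]
      have h6 : O.valuation (t i) = (v (σ.symm i))⁻¹ := map_inv₀ _ _
      have h7 := (hdesc i j).1
      have h8 : k i j = ((k₀ i j : O) : K) := by
        rw [← hk₀k]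
        rfl
      rw [h6, h8, mul_assoc]
      calc (v (σ.symm i))⁻¹ * (O.valuation ((k₀ i j : O) : K) * O.valuation (s j))
          ≤ (v (σ.symm i))⁻¹ * v (σ.symm i) := mul_le_mul_right h7 _
        _ = 1 := inv_mul_cancel₀ (hv0 _)
    · rw [Matrix.det_mul, Matrix.det_mul, det_diagonal, det_diagonal, map_mul, map_mul,
        hkO.valuation_det, mul_one, ← map_mul]
      have h6 : (∏ i, t i) * ∏ i, s i = 1 := by
        have h7 : ∏ i, t i = ∏ i, (s i)⁻¹ :=
          Equiv.prod_comp σ.symm (fun i => (s i)⁻¹)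
        rw [h7, ← Finset.prod_mul_distrib]
        apply Finset.prod_eq_one
        intro i _
        exact inv_mul_cancel₀ (hs0 i)
      rw [h6, map_one]
  have hgO : IsGLO O (diagonal t * g) := by
    have h6 := hgk'.mul hk₁.inv
    rwa [Matrix.mul_nonsing_inv_cancel_right _ _ hk₁.isUnit_det] at h6
  refine ⟨t, ht0, htb, hgO, ?_⟩
  obtain ⟨g₀, hg₀, hg₀'⟩ := hgO.exists_lift
  have hmixK : ∀ i j, b i ≠ b j → pderiv i (pderiv j f₀K) = 0 := by
    intro i j hij
    rw [hf₀K, pderiv_map, pderiv_map, hmix i j hij, map_zero]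
  have hstab := act_stab (hf₀.map (algebraMap O K)) hmixK t ht0 htb
  apply isGLO_of_act (k := d - 1) (by omega) F (act (grad f₀) g₀ 1) hF
    (isHomogeneous_act (isHomogeneous_grad hf₀) _ _) regF
  · have h6 := Reg.act nd₀ (isUnit_det_residue hg₀) (a := 1) (by simp)
    have h7 : (fun i => MvPolynomial.map (residue O) (act (grad f₀) g₀ 1 i)) =
        act (grad (MvPolynomial.map (residue O) f₀)) (g₀.map (residue O)) 1 := by
      funext i
      rw [map_act, Matrix.map_one _ (map_zero _) (map_one _)]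
      congr 1
      funext j
      exact map_grad _ _ _
    rw [h7]
    exact h6
  · rw [Matrix.det_mul, det_diagonal]
    exact mul_ne_zero ha (Finset.prod_ne_zero_iff.2 fun i _ =>
      pow_ne_zero _ (inv_ne_zero (ht0 i)))
  · have h7 : (fun i => MvPolynomial.map (algebraMap O K) (act (grad f₀) g₀ 1 i)) =
        act (grad f₀K) (diagonal t * g) 1 := by
      funext i
      rw [map_act, Matrix.map_one _ (map_zero _) (map_one _), hg₀']
      congr 1
      funext j
      exact map_grad _ _ _
    rw [h7, act_act, mul_one, mul_one, h]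
    conv_lhs => rw [← hstab, act_act]

end main

end Pool.Agent.Lib.MP_4fcc12_ag
end

section
open MvPolynomial Matrix IsLocalRing

set_option linter.unusedSectionVars false

namespace Pool.Agent.Lib.MP_4fcc12_ag

variable {n : ℕ} {κ : Type}

/-- evaluating the universal orbit point -/
lemma app_gX (A : Actn n κ) (x₀ : κ → ℂ) {F : Type} [CommRing F] [Algebra ℂ F]
    (g a : Matrix (Fin n) (Fin n) F) (k : κ) :
    aeval (gpt g a) (A.app (fun j => (C (x₀ j) : MvPolynomial (Grp n) ℂ)) (gX n ℂ) (aX n ℂ) k) =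
      A.app (fun j => algebraMap ℂ F (x₀ j)) g a k := by
  let φ : MvPolynomial (Grp n) ℂ →ₐ[ℂ] F := aeval (gpt g a)
  have h := A.map_app φ (fun j => C (x₀ j)) (gX n ℂ) (aX n ℂ)
  have hX : ∀ s, φ (X s) = gpt g a s := fun s => aeval_X _ _
  have hg : (gX n ℂ).map φ = g := by
    refine Matrix.ext fun i j => ?_
    exact hX _
  have ha : (aX n ℂ).map φ = a := by
    refine Matrix.ext fun i j => ?_
    exact hX _
  have hx : (φ ∘ fun j => C (x₀ j)) = fun j => algebraMap ℂ F (x₀ j) := by
    funext j
    exact φ.commutes (x₀ j)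
  rw [hg, ha, hx] at h
  exact congrFun h k

lemma aeval_dd {F : Type} [CommRing F] [Algebra ℂ F] (w₁ w₂ : ℕ)
    (g a : Matrix (Fin n) (Fin n) F) :
    aeval (gpt g a) (dd (n := n) ℂ w₁ w₂) = g.det ^ w₁ * a.det ^ w₂ := by
  have h := map_dd (n := n) (algebraMap ℂ F) w₁ w₂
  rw [← eval_dd, ← h, eval_map, aeval_def]

/-- Nullstellensatz for orbits -/
lemma exists_orbit_point (A : Actn n κ) (x₀ y : κ → ℂ) {F : Type} [Field F] [Algebra ℂ F]
    (g a : Matrix (Fin n) (Fin n) F) (hg : g.det ≠ 0) (ha : a.det ≠ 0)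
    (h : A.app (fun j => algebraMap ℂ F (x₀ j)) g a = fun j => algebraMap ℂ F (y j)) :
    ∃ g a : Matrix (Fin n) (Fin n) ℂ, g.det ≠ 0 ∧ a.det ≠ 0 ∧ A.app x₀ g a = y := by
  obtain ⟨z, hz1, hz2⟩ := exists_point' (k := ℂ) (σ := Grp n) (ι := κ)
    (fun k => A.app (fun j => (C (x₀ j) : MvPolynomial (Grp n) ℂ)) (gX n ℂ) (aX n ℂ) k - C (y k))
    (dd ℂ 1 1) (gpt g a)
    (by
      intro k
      rw [map_sub, app_gX, h]
      exact sub_eq_zero.2 ((aeval (gpt g a) : MvPolynomial (Grp n) ℂ →ₐ[ℂ] F).commutes (y k)).symm)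
    (by
      rw [aeval_dd, pow_one, pow_one]
      exact mul_ne_zero hg ha)
  let g' : Matrix (Fin n) (Fin n) ℂ := Matrix.of fun i j => z (Sum.inl (i, j))
  let a' : Matrix (Fin n) (Fin n) ℂ := Matrix.of fun i j => z (Sum.inr (i, j))
  have hz : z = gpt g' a' := by
    funext s
    rcases s with s | s <;> rfl
  rw [hz] at hz1 hz2
  have h2 := eval_dd 1 1 g' a'
  rw [h2, pow_one, pow_one] at hz2
  refine ⟨g', a', left_ne_zero_of_mul hz2, right_ne_zero_of_mul hz2, ?_⟩
  funext k
  have h3 := hz1 k
  rw [← aeval_eq_eval, map_sub, app_gX] at h3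
  have h4 := sub_eq_zero.1 h3
  have h5 : A.app x₀ g' a' k = A.app (fun j => algebraMap ℂ ℂ (x₀ j)) g' a' k := rfl
  rw [h5, h4]
  simp

/-- constants in a valuation ring -/
def cO {L : Type} [Field L] [Algebra ℂ L] {O : ValuationSubring L}
    (hO : ∀ c : ℂ, algebraMap ℂ L c ∈ O) : ℂ →+* O :=
  (algebraMap ℂ L).codRestrict O.toSubring hO

lemma algebraMap_cO {L : Type} [Field L] [Algebra ℂ L] {O : ValuationSubring L}
    (hO : ∀ c : ℂ, algebraMap ℂ L c ∈ O) (c : ℂ) : algebraMap O L (cO hO c) = algebraMap ℂ L c :=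
  rfl

lemma charZero_residue {L : Type} [Field L] [Algebra ℂ L] {O : ValuationSubring L}
    (hO : ∀ c : ℂ, algebraMap ℂ L c ∈ O) : CharZero (ResidueField O) :=
  charZero_of_injective_ringHom ((residue O).comp (cO hO)).injective

/-- orbits of gradients of nondegenerate forms are closed -/
theorem closedOrb_grad (hORB : StatementORB) {d : ℕ} (hd : 3 ≤ d)
    (Δ : MvPolynomial (Fin n × Mon n (d - 1)) ℂ) (hΔ : ∀ y, eval y Δ ≠ 0 → Reg (tup y))
    {f₀ : MvPolynomial (Fin n) ℂ} (hf₀ : f₀.IsHomogeneous d) (nd₀ : NonDeg f₀)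
    {b : Fin n → Fin n} (hb : BlockForm f₀ b) :
    ClosedOrb (actT n (d - 1)) Δ (ct (d - 1) (grad f₀)) := by
  intro y hyΔ hy
  obtain ⟨L, _, _, _, O, g, a, hO, hg, ha, hval⟩ := hORB n _ (actT n (d - 1)) _ y hy
  have hcz : CharZero (ResidueField O) := charZero_residue hO
  have hczL : CharZero L := charZero_of_injective_algebraMap (algebraMap ℂ L).injective
  let _ : Algebra ℂ (ResidueField O) := ((residue O).comp (cO hO)).toAlgebra
  have halg : ∀ c : ℂ, algebraMap ℂ (ResidueField O) c = residue O (cO hO c) := fun c => rfl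
  set x₀ := ct (d - 1) (grad f₀) with hx₀
  -- integrality of the coordinates
  have hmem : ∀ k, (actT n (d - 1)).app (fun j => algebraMap ℂ L (x₀ j)) g a k ∈ O := by
    intro k
    have h1 : (actT n (d - 1)).app (fun j => algebraMap ℂ L (x₀ j)) g a k =
        ((actT n (d - 1)).app (fun j => algebraMap ℂ L (x₀ j)) g a k - algebraMap ℂ L (y k)) +
          algebraMap ℂ L (y k) := by ring
    rw [h1]
    exact add_mem ((O.valuation_le_one_iff _).1 (hval k).le) (hO _)
  let F : Fin n → MvPolynomial (Fin n) O := tup fun k => ⟨_, hmem k⟩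
  have hF : ∀ i, (F i).IsHomogeneous (d - 1) := isHomogeneous_tup _
  have hgradL : tup (fun j => algebraMap ℂ L (x₀ j)) =
      grad (MvPolynomial.map (algebraMap O L) (MvPolynomial.map (cO hO) f₀)) := by
    have h1 : (fun j => algebraMap ℂ L (x₀ j)) =
        ct (d - 1) (fun i => MvPolynomial.map (algebraMap ℂ L) (grad f₀ i)) :=
      (ct_map (algebraMap ℂ L) (grad f₀)).symm
    rw [h1, tup_ct (fun i => (isHomogeneous_grad hf₀ i).map _), MvPolynomial.map_map]
    funext i
    rw [map_grad]
    rfl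
  have hFL : (fun i => MvPolynomial.map (algebraMap O L) (F i)) =
      act (grad (MvPolynomial.map (algebraMap O L) (MvPolynomial.map (cO hO) f₀))) g a := by
    funext i
    rw [← hgradL]
    have h1 : MvPolynomial.map (algebraMap O L) (F i) =
        tup ((actT n (d - 1)).app (fun j => algebraMap ℂ L (x₀ j)) g a) i := map_tup _ _ i
    rw [h1, actT_app, tup_ct (isHomogeneous_act (isHomogeneous_tup _) g a)]
  have hFres : (fun i => MvPolynomial.map (residue O) (F i)) =
      fun i => MvPolynomial.map (algebraMap ℂ (ResidueField O)) (tup y i) := by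
    funext i
    rw [map_tup, map_tup]
    congr 1
    funext k
    show residue O ⟨_, hmem k⟩ = residue O (cO hO (y k))
    rw [← sub_eq_zero, ← map_sub, ← valuation_lt_one_iff_residue]
    exact hval k
  have hreg : Reg fun i => MvPolynomial.map (residue O) (F i) := by
    rw [hFres]
    exact Reg.map (hΔ y hyΔ)
  have hres₀ : MvPolynomial.map (residue O) (MvPolynomial.map (cO hO) f₀) =
      MvPolynomial.map (algebraMap ℂ (ResidueField O)) f₀ := by
    rw [MvPolynomial.map_map]
    rfl
  obtain ⟨t, ht0, htb, hg', ha'⟩ := valuativeV hd (MvPolynomial.map (cO hO) f₀) (hf₀.map _)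
    (by rw [hres₀]; exact nd₀.map) b (by rw [hres₀]; exact hb.map)
    (by
      intro i j hij
      rw [pderiv_map, pderiv_map, hb.mixed i j hij, map_zero]) g a hg ha F hF hreg hFL
  obtain ⟨g₀, hg₀, hg₀'⟩ := hg'.exists_lift
  obtain ⟨a₀, ha₀, ha₀'⟩ := ha'.exists_lift
  have hFO : F = act (grad (MvPolynomial.map (cO hO) f₀)) g₀ a₀ := by
    funext i
    apply map_injective_O (O := O)
    have h1 := congrFun hFL i
    rw [h1, map_act, hg₀', ha₀']
    have h2 : (fun i => MvPolynomial.map (algebraMap O L) (grad (MvPolynomial.map (cO hO) f₀) i)) =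
        grad (MvPolynomial.map (algebraMap O L) (MvPolynomial.map (cO hO) f₀)) :=
      funext fun i => map_grad _ _ _
    rw [h2]
    have h3 := act_stab (b := b) ((hf₀.map (cO hO)).map (algebraMap O L)) (by
      intro i j hij
      rw [pderiv_map, pderiv_map, pderiv_map, pderiv_map, hb.mixed i j hij, map_zero, map_zero])
      t ht0 htb
    conv_lhs => rw [← h3, act_act]
  have hfin : act (grad (MvPolynomial.map (algebraMap ℂ (ResidueField O)) f₀))
      (g₀.map (residue O)) (a₀.map (residue O)) =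
      tup (fun k => algebraMap ℂ (ResidueField O) (y k)) := by
    have h1 : (fun i => MvPolynomial.map (residue O) (F i)) =
        act (grad (MvPolynomial.map (algebraMap ℂ (ResidueField O)) f₀))
          (g₀.map (residue O)) (a₀.map (residue O)) := by
      funext i
      rw [hFO, map_act]
      congr 1
      funext j
      rw [map_grad, hres₀]
    rw [← h1, hFres]
    funext i
    rw [map_tup]
    rfl
  apply exists_orbit_point (actT n (d - 1)) x₀ y (g₀.map (residue O)) (a₀.map (residue O))
    (isUnit_det_residue hg₀).ne_zero (isUnit_det_residue ha₀).ne_zero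
  rw [actT_app]
  have h1 : tup (fun j => algebraMap ℂ (ResidueField O) (x₀ j)) =
      grad (MvPolynomial.map (algebraMap ℂ (ResidueField O)) f₀) := by
    have h1 : (fun j => algebraMap ℂ (ResidueField O) (x₀ j)) =
        ct (d - 1) (fun i => MvPolynomial.map (algebraMap ℂ (ResidueField O)) (grad f₀ i)) :=
      (ct_map (algebraMap ℂ (ResidueField O)) (grad f₀)).symm
    rw [h1, tup_ct (fun i => (isHomogeneous_grad hf₀ i).map _)]
    funext i
    rw [map_grad]
  rw [h1, hfin, ct_tup]

end Pool.Agent.Lib.MP_4fcc12_ag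
end

section
open MvPolynomial Matrix IsLocalRing

set_option linter.unusedSectionVars false

namespace Pool.Agent.Lib.MP_4fcc12_ag

variable {n : ℕ}

section W

variable {F : Type*} [Field F] [CharZero F]

/-- forms with the same gradient are equal -/
lemma eq_of_grad_eq {d : ℕ} (hd : 0 < d) {f f' : MvPolynomial (Fin n) F}
    (hf : f.IsHomogeneous d) (hf' : f'.IsHomogeneous d) (h : grad f = grad f') : f = f' := by
  ext α
  by_cases hα : α.degree = d
  · obtain ⟨i, hi⟩ : ∃ i, α i ≠ 0 := by
      by_contra hall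
      push Not at hall
      have h3 : α = 0 := Finsupp.ext hall
      rw [h3] at hα
      simp at hα
      omega
    have h1 := congrArg (coeff (α - Finsupp.single i 1)) (congrFun h i)
    rw [grad, grad, coeff_pderiv, coeff_pderiv, sub_add_single_cancel hi] at h1
    exact mul_right_cancel₀ (Nat.cast_add_one_ne_zero _) h1
  · rw [hf.coeff_eq_zero hα, hf'.coeff_eq_zero hα]

lemma subst_diag_pderiv {b : Fin n → Fin n} {f : MvPolynomial (Fin n) F} {d : ℕ}
    (hf : f.IsHomogeneous d) (hmix : ∀ i j, b i ≠ b j → pderiv i (pderiv j f) = 0) (t : Fin n → F)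
    (ht : ∀ i j, b i = b j → t i = t j) (i : Fin n) :
    subst (diagonal t) (pderiv i f) = C (t i ^ (d - 1)) * pderiv i f := by
  ext β
  rw [coeff_C_mul, coeff_subst_diagonal]
  by_cases hβ : coeff β (pderiv i f) = 0
  · rw [hβ, mul_zero, mul_zero]
  · have hdeg : β.degree = d - 1 := by
      by_contra h
      exact hβ ((isHomogeneous_grad hf i).coeff_eq_zero h)
    have h1 : ∏ l, t l ^ β l = t i ^ (d - 1) := by
      rw [← hdeg, Finsupp.degree_eq_sum, ← Finset.prod_pow_eq_pow_sum]
      apply Finset.prod_congr rfl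
      intro l _
      by_cases hl : β l = 0
      · rw [hl, pow_zero, pow_zero]
      · rw [ht l i (label_eq_of_coeff_ne_zero hmix hβ hl)]
    rw [h1]

lemma grad_subst_diag {b : Fin n → Fin n} {f : MvPolynomial (Fin n) F} {d : ℕ} (hd : 0 < d)
    (hf : f.IsHomogeneous d) (hmix : ∀ i j, b i ≠ b j → pderiv i (pderiv j f) = 0) (t : Fin n → F)
    (ht : ∀ i j, b i = b j → t i = t j) (i : Fin n) :
    grad (subst (diagonal t) f) i = C (t i ^ d) * grad f i := by
  rw [grad_subst]
  simp only [act]
  rw [Finset.sum_eq_single i]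
  · rw [Matrix.diagonal_transpose, diagonal_apply_eq, grad, subst_diag_pderiv hf hmix t ht,
      ← mul_assoc, ← C_mul, ← pow_succ']
    congr 3
    omega
  · intro j _ hj
    rw [Matrix.diagonal_transpose, diagonal_apply_ne _ hj.symm, C_0, zero_mul]
  · simp

/-- Lemma W: forms whose gradients are in the same orbit -/
theorem lemmaW [IsAlgClosed F] {d : ℕ} (hd : 3 ≤ d) {f₁ f₂ : MvPolynomial (Fin n) F}
    (hf₁ : f₁.IsHomogeneous d) (hf₂ : f₂.IsHomogeneous d) {b : Fin n → Fin n}
    (hb : BlockForm f₁ b) {g a : Matrix (Fin n) (Fin n) F} (hg : g.det ≠ 0) (ha : a.det ≠ 0)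
    (h : act (grad f₁) g a = grad f₂) :
    ∃ τ : Fin n → F, (∀ i, τ i ≠ 0) ∧ (∀ i j, b i = b j → τ i = τ j) ∧
      f₂ = subst (diagonal τ * g) f₁ ∧ a = gᵀ * diagonal fun i => τ i ^ d := by
  have hgu := isUnit_iff_ne_zero.2 hg
  have hau := isUnit_iff_ne_zero.2 ha
  set f₃ := subst g⁻¹ f₂ with hf₃
  have hf₃h : f₃.IsHomogeneous d := isHomogeneous_subst _ hf₂
  set B := g⁻¹ᵀ * a with hB
  have h1 : grad f₃ = act (grad f₁) 1 B := by
    rw [hf₃, grad_subst, ← h, act_act, Matrix.mul_nonsing_inv _ hgu]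
  have h1' : ∀ i, pderiv i f₃ = ∑ k, C (B i k) * pderiv k f₁ := by
    intro i
    have := congrFun h1 i
    simp only [act, subst_one] at this
    exact this
  have hsym : SymB f₁ B := by
    intro i j
    have h2 : ∀ i j, ∑ k, C (B i k) * pderiv k (pderiv j f₁) = pderiv j (pderiv i f₃) := by
      intro i j
      rw [h1', map_sum]
      apply Finset.sum_congr rfl
      intro k _
      rw [pderiv_C_mul, pderiv_comm]
    rw [h2, h2, pderiv_comm]
  obtain ⟨c, hc⟩ := hb.alg B hsym
  have hBdet : B.det ≠ 0 := by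
    rw [hB, Matrix.det_mul, Matrix.det_transpose]
    exact mul_ne_zero (Matrix.isUnit_nonsing_inv_det _ hgu).ne_zero ha
  have hc0 : ∀ i, c (b i) ≠ 0 := by
    rw [hc, det_diagonal] at hBdet
    intro i
    exact Finset.prod_ne_zero_iff.1 hBdet i (Finset.mem_univ i)
  have hroot : ∀ x : F, ∃ y, y ^ d = x := fun x => IsAlgClosed.exists_pow_nat_eq x (by omega)
  choose ρ hρ using hroot
  let τ : Fin n → F := fun i => ρ (c (b i))
  have hτ : ∀ i, τ i ^ d = c (b i) := fun i => hρ _
  have hτb : ∀ i j, b i = b j → τ i = τ j := by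
    intro i j hij
    show ρ (c (b i)) = ρ (c (b j))
    rw [hij]
  have hτ0 : ∀ i, τ i ≠ 0 := by
    intro i h0
    have := hτ i
    rw [h0, zero_pow (by omega)] at this
    exact hc0 i this.symm
  have h4 : f₃ = subst (diagonal τ) f₁ := by
    apply eq_of_grad_eq (by omega) hf₃h (isHomogeneous_subst _ hf₁)
    funext i
    rw [grad_subst_diag (by omega) hf₁ hb.mixed τ hτb, hτ]
    show pderiv i f₃ = _
    rw [h1', Finset.sum_eq_single i]
    · rw [hc, diagonal_apply_eq]
      rfl
    · intro j _ hj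
      rw [hc, diagonal_apply_ne _ hj.symm, C_0, zero_mul]
    · simp
  refine ⟨τ, hτ0, hτb, ?_, ?_⟩
  · rw [subst_mul, ← h4, hf₃, ← subst_mul, Matrix.nonsing_inv_mul _ hgu, subst_one]
  · have h5 : (fun i => τ i ^ d) = fun i => c (b i) := funext hτ
    rw [h5, ← hc, hB, ← mul_assoc, ← Matrix.transpose_mul, Matrix.nonsing_inv_mul _ hgu,
      Matrix.transpose_one, one_mul]

end W

section sep

variable {κ : Type}

lemma aeval_orbit (A : Actn n κ) (x₀ : κ → ℂ) (P : MvPolynomial κ ℂ)
    {F : Type} [CommRing F] [Algebra ℂ F] (g a : Matrix (Fin n) (Fin n) F) :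
    aeval (gpt g a) (aeval (A.app (fun j => (C (x₀ j) : MvPolynomial (Grp n) ℂ)) (gX n ℂ) (aX n ℂ))
      P) = aeval (A.app (fun j => algebraMap ℂ F (x₀ j)) g a) P := by
  rw [← AlgHom.comp_apply, comp_aeval]
  congr 1
  apply MvPolynomial.algHom_ext
  intro k
  rw [aeval_X, aeval_X, app_gX]

lemma mem_orbIdeal_iff (A : Actn n κ) (x₀ : κ → ℂ) (P : MvPolynomial κ ℂ) :
    P ∈ orbIdeal A x₀ ↔
      aeval (A.app (fun j => (C (x₀ j) : MvPolynomial (Grp n) ℂ)) (gX n ℂ) (aX n ℂ)) P = 0 := by
  constructor
  · intro h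
    apply mul_left_cancel₀ (dd_ne_zero (n := n) ℂ 1 1)
    rw [mul_zero]
    apply MvPolynomial.funext
    intro z
    let g : Matrix (Fin n) (Fin n) ℂ := Matrix.of fun i j => z (Sum.inl (i, j))
    let a : Matrix (Fin n) (Fin n) ℂ := Matrix.of fun i j => z (Sum.inr (i, j))
    have hz : z = gpt g a := by
      funext s
      rcases s with s | s <;> rfl
    rw [hz, map_mul, eval_dd, pow_one, pow_one, map_zero, ← aeval_eq_eval, aeval_orbit]
    by_cases hg : g.det = 0
    · rw [hg]
      ring
    by_cases ha : a.det = 0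
    · rw [ha]
      ring
    have h1 := h g a hg ha
    have h2 : aeval (A.app (fun j => algebraMap ℂ ℂ (x₀ j)) g a) P = eval (A.app x₀ g a) P := by
      rw [aeval_eq_eval]
      rfl
    rw [h2, h1, mul_zero]
  · intro h g a _ _
    have h1 := aeval_orbit A x₀ P g a
    rw [h, map_zero] at h1
    have h2 : aeval (A.app (fun j => algebraMap ℂ ℂ (x₀ j)) g a) P = eval (A.app x₀ g a) P := by
      rw [aeval_eq_eval]
      rfl
    rw [← h2, ← h1]

lemma exists_zero_of_not_mem_radical {σ : Type*} [Finite σ] {I : Ideal (MvPolynomial σ ℂ)}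
    {Q : MvPolynomial σ ℂ} (h : Q ∉ I.radical) :
    ∃ y : σ → ℂ, (∀ P ∈ I, eval y P = 0) ∧ eval y Q ≠ 0 := by
  rw [← MvPolynomial.vanishingIdeal_zeroLocus_eq_radical (K := ℂ)] at h
  rw [MvPolynomial.mem_vanishingIdeal_iff] at h
  push Not at h
  obtain ⟨y, hy, hQ⟩ := h
  exact ⟨y, fun P hP => hy P hP, hQ⟩

/-- disjoint closed orbits are separated by invariants -/
theorem orbit_separation [Finite κ] (A : Actn n κ) [A.IsAction] (Δ : MvPolynomial κ ℂ) (r₁ r₂ : ℕ)
    (hΔ : A.Semi r₁ r₂ Δ) (x₁ x₂ : κ → ℂ) (h2 : eval x₂ Δ ≠ 0)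
    (hc1 : ClosedOrb A Δ x₁) (hc2 : ClosedOrb A Δ x₂)
    (hinv : ∀ m Q, A.Semi (m * r₁) (m * r₂) Q →
      eval x₁ Q / (eval x₁ Δ) ^ m = eval x₂ Q / (eval x₂ Δ) ^ m) :
    ∃ g a : Matrix (Fin n) (Fin n) ℂ, g.det ≠ 0 ∧ a.det ≠ 0 ∧ A.app x₁ g a = x₂ := by
  by_contra hcon
  have hrad : Δ ∈ (orbIdeal A x₁ ⊔ orbIdeal A x₂).radical := by
    by_contra h
    obtain ⟨y, hy, hyΔ⟩ := exists_zero_of_not_mem_radical h
    obtain ⟨g, a, hg, ha, hga⟩ := hc1 y hyΔ fun P hP => hy P (Ideal.mem_sup_left hP)
    obtain ⟨g', a', hg', ha', hga'⟩ := hc2 y hyΔ fun P hP => hy P (Ideal.mem_sup_right hP)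
    have hgu := isUnit_iff_ne_zero.2 hg'
    have hau := isUnit_iff_ne_zero.2 ha'
    apply hcon
    refine ⟨g * g'⁻¹, a'⁻¹ * a, ?_, ?_, ?_⟩
    · rw [Matrix.det_mul]
      exact mul_ne_zero hg (Matrix.isUnit_nonsing_inv_det _ hgu).ne_zero
    · rw [Matrix.det_mul]
      exact mul_ne_zero (Matrix.isUnit_nonsing_inv_det _ hau).ne_zero ha
    · rw [← A.app_app, hga, ← hga', A.app_app, Matrix.mul_nonsing_inv _ hgu,
        Matrix.nonsing_inv_mul _ hau, A.app_one]
  obtain ⟨m, hm⟩ := hrad
  obtain ⟨P₁, hP₁, P₂, hP₂, hsum⟩ := Submodule.mem_sup.1 hm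
  have hΔm : A.Semi (m * r₁) (m * r₂) (Δ ^ m) := by
    intro R _ _ x g a
    rw [map_pow, map_pow, hΔ x g a, mul_pow, mul_pow, ← pow_mul, ← pow_mul, mul_comm r₁,
      mul_comm r₂]
  set Q₁ := A.rey (m * r₁) (m * r₂) 0 0 P₁ with hQ₁
  set Q₂ := A.rey (m * r₁) (m * r₂) 0 0 P₂ with hQ₂
  have hQs : Q₁ + Q₂ = Δ ^ m := by
    rw [hQ₁, hQ₂, ← A.rey_add, hsum]
    exact A.rey_of_semi 0 0 hΔm (zero_add _) (zero_add _)
  have hQ₁semi : A.Semi (m * r₁) (m * r₂) Q₁ :=
    A.semi_rey (m * r₁) (m * r₂) 0 0 P₁ (Nat.zero_le _) (Nat.zero_le _)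
  have hzero : ∀ (x : κ → ℂ) (P : MvPolynomial κ ℂ), P ∈ orbIdeal A x →
      eval x (A.rey (m * r₁) (m * r₂) 0 0 P) = 0 := by
    intro x P hP
    have h5 : eval x (A.rey (m * r₁) (m * r₂) 0 0 P) =
        aeval x (A.rey (m * r₁) (m * r₂) 0 0 P) := by rw [aeval_eq_eval]
    rw [h5, A.aeval_rey, (mem_orbIdeal_iff A x P).1 hP, mul_zero, map_zero]
  have h3 := hinv m Q₁ hQ₁semi
  rw [hzero x₁ P₁ hP₁, zero_div] at h3
  have h4 : eval x₂ Q₁ = eval x₂ Δ ^ m := by
    have h5 := congrArg (eval x₂) hQs
    rw [map_add, hzero x₂ P₂ hP₂, add_zero, map_pow] at h5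
    exact h5
  rw [h4, div_self (pow_ne_zero _ h2)] at h3
  exact zero_ne_one h3

end sep

end Pool.Agent.Lib.MP_4fcc12_ag
end

section
open MvPolynomial Matrix

set_option linter.unusedSectionVars false

namespace Pool.Agent.Lib.MP_4fcc12_ag

variable {n : ℕ} {κ : Type}

/-- scaling the argument of a form -/
lemma aeval_mul_of_isHomogeneous {S : Type*} [CommRing S] [Algebra ℂ S] {m : ℕ}
    {G : MvPolynomial κ ℂ} (hG : G.IsHomogeneous m) (c : S) (y : κ → S) :
    aeval (fun j => c * y j) G = c ^ m * aeval y G := by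
  conv_lhs => rw [as_sum G]
  conv_rhs => rw [as_sum G]
  rw [map_sum, map_sum, Finset.mul_sum]
  apply Finset.sum_congr rfl
  intro s hs
  have hdeg : s.degree = m := by
    by_contra h
    exact (mem_support_iff.1 hs) (hG.coeff_eq_zero h)
  rw [aeval_monomial, aeval_monomial]
  have h1 : (s.prod fun i k => (c * y i) ^ k) = c ^ m * s.prod fun i k => y i ^ k := by
    rw [Finsupp.prod, Finsupp.prod, ← hdeg]
    simp only [mul_pow, Finset.prod_mul_distrib, Finset.prod_pow_eq_pow_sum]
    rfl
  rw [h1]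
  ring

/-- translation to the point `x₀` -/
noncomputable def trans (x₀ : κ → ℂ) : MvPolynomial κ ℂ →ₐ[ℂ] MvPolynomial κ ℂ :=
  aeval fun j => C (x₀ j) + X j

lemma aeval_trans {S : Type*} [CommRing S] [Algebra ℂ S] (x₀ : κ → ℂ) (y : κ → S)
    (P : MvPolynomial κ ℂ) :
    aeval y (trans x₀ P) = aeval (fun j => algebraMap ℂ S (x₀ j) + y j) P := by
  rw [trans, ← AlgHom.comp_apply, comp_aeval]
  congr 1
  apply MvPolynomial.algHom_ext
  intro j
  rw [aeval_X, aeval_X, map_add, aeval_X, ← algebraMap_eq, AlgHom.commutes]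

/-- the homogeneous parts at `x₀` -/
noncomputable def hc (x₀ : κ → ℂ) (j : ℕ) (P : MvPolynomial κ ℂ) : MvPolynomial κ ℂ :=
  homogeneousComponent j (trans x₀ P)

lemma hc_isHomogeneous (x₀ : κ → ℂ) (j : ℕ) (P : MvPolynomial κ ℂ) :
    (hc x₀ j P).IsHomogeneous j := homogeneousComponent_isHomogeneous _ _

lemma aeval_line {S : Type*} [CommRing S] [Algebra ℂ S] (x₀ : κ → ℂ) (c : S) (y : κ → S)
    (P : MvPolynomial κ ℂ) :
    aeval (fun j => algebraMap ℂ S (x₀ j) + c * y j) P =
      ∑ j ∈ Finset.range ((trans x₀ P).totalDegree + 1), c ^ j * aeval y (hc x₀ j P) := by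
  have h1 : aeval (fun j => algebraMap ℂ S (x₀ j) + c * y j) P =
      aeval (fun j => c * y j) (trans x₀ P) := (aeval_trans x₀ _ P).symm
  rw [h1]
  conv_lhs => rw [← sum_homogeneousComponent (trans x₀ P)]
  rw [map_sum]
  apply Finset.sum_congr rfl
  intro j _
  rw [aeval_mul_of_isHomogeneous (homogeneousComponent_isHomogeneous _ _)]
  rfl

lemma hc_eq_zero_of_lt (x₀ : κ → ℂ) {j : ℕ} {P : MvPolynomial κ ℂ}
    (hj : (trans x₀ P).totalDegree < j) : hc x₀ j P = 0 := homogeneousComponent_eq_zero _ _ hj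

/-- expansion along the line through `x₀` -/
noncomputable def lineEv (x₀ y : κ → ℂ) : MvPolynomial κ ℂ →ₐ[ℂ] Polynomial ℂ :=
  aeval fun j => Polynomial.C (x₀ j) + Polynomial.X * Polynomial.C (y j)

lemma coeff_lineEv (x₀ y : κ → ℂ) (P : MvPolynomial κ ℂ) (k : ℕ) :
    (lineEv x₀ y P).coeff k = eval y (hc x₀ k P) := by
  have h1 : lineEv x₀ y P = ∑ j ∈ Finset.range ((trans x₀ P).totalDegree + 1),
      Polynomial.X ^ j * Polynomial.C (eval y (hc x₀ j P)) := by
    have h2 := aeval_line (S := Polynomial ℂ) x₀ Polynomial.X (fun j => Polynomial.C (y j)) P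
    have h3 : ∀ G : MvPolynomial κ ℂ, aeval (fun j => Polynomial.C (y j)) G =
        Polynomial.C (eval y G) := by
      intro G
      have h4 : (aeval (fun j => Polynomial.C (y j)) : MvPolynomial κ ℂ →ₐ[ℂ] Polynomial ℂ) =
          (Algebra.ofId ℂ (Polynomial ℂ)).comp (aeval y) := by
        apply MvPolynomial.algHom_ext
        intro j
        rw [aeval_X, AlgHom.comp_apply, aeval_X]
        rfl
      rw [h4, AlgHom.comp_apply, aeval_eq_eval]
      rfl
    simp only [h3] at h2
    exact h2
  rw [h1, Polynomial.finsetSum_coeff]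
  simp only [Polynomial.coeff_X_pow_mul', Polynomial.coeff_C]
  by_cases hk : k < (trans x₀ P).totalDegree + 1
  · rw [Finset.sum_eq_single k]
    · simp
    · intro j _ hj
      split_ifs with h5 h6
      · omega
      · rfl
      · rfl
    · intro h
      exact absurd (Finset.mem_range.2 hk) h
  · rw [hc_eq_zero_of_lt x₀ (by omega), map_zero]
    apply Finset.sum_eq_zero
    intro j hj
    rw [Finset.mem_range] at hj
    split_ifs with h5 h6
    · omega
    · rfl
    · rfl

/-- `P` vanishes at `x₀` to order at least `k` -/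
def OrdGE (x₀ : κ → ℂ) (k : ℕ) (P : MvPolynomial κ ℂ) : Prop := ∀ j < k, hc x₀ j P = 0

lemma ordGE_iff (x₀ : κ → ℂ) (k : ℕ) (P : MvPolynomial κ ℂ) :
    OrdGE x₀ k P ↔ ∀ y : κ → ℂ, Polynomial.X ^ k ∣ lineEv x₀ y P := by
  constructor
  · intro h y
    rw [Polynomial.X_pow_dvd_iff]
    intro j hj
    rw [coeff_lineEv, h j hj, map_zero]
  · intro h j hj
    apply MvPolynomial.funext
    intro y
    rw [map_zero, ← coeff_lineEv]
    exact Polynomial.X_pow_dvd_iff.1 (h y) j hj

/-- the leading term along curves -/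
lemma OrdGE.curve {x₀ : κ → ℂ} {k : ℕ} {P : MvPolynomial κ ℂ} (h : OrdGE x₀ k P)
    (y : κ → Polynomial ℂ) :
    Polynomial.X ^ (k + 1) ∣ aeval (fun j => Polynomial.C (x₀ j) + Polynomial.X * y j) P -
      Polynomial.X ^ k * Polynomial.C (eval (fun j => (y j).coeff 0) (hc x₀ k P)) := by
  have h2 := aeval_line (S := Polynomial ℂ) x₀ Polynomial.X y P
  have h3 : ∀ G : MvPolynomial κ ℂ, Polynomial.X ∣ aeval y G -
      Polynomial.C (eval (fun j => (y j).coeff 0) G) := by
    intro G
    rw [Polynomial.X_dvd_iff, Polynomial.coeff_sub, Polynomial.coeff_C_zero]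
    have h4 : (Polynomial.aeval (0 : ℂ)).comp (aeval y : MvPolynomial κ ℂ →ₐ[ℂ] Polynomial ℂ) =
        aeval fun j => (y j).coeff 0 := by
      apply MvPolynomial.algHom_ext
      intro j
      rw [AlgHom.comp_apply, aeval_X, aeval_X, Polynomial.coeff_zero_eq_aeval_zero]
    have h5 := congrArg (fun φ => φ G) h4
    rw [Polynomial.coeff_zero_eq_aeval_zero, sub_eq_zero]
    rw [aeval_eq_eval] at h5
    exact h5
  have h6 : aeval (fun j => Polynomial.C (x₀ j) + Polynomial.X * y j) P =
      ∑ j ∈ Finset.range ((trans x₀ P).totalDegree + 1),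
        Polynomial.X ^ j * aeval y (hc x₀ j P) := h2
  have h7 : ∀ j, j ≠ k → Polynomial.X ^ (k + 1) ∣ Polynomial.X ^ j * aeval y (hc x₀ j P) := by
    intro j hj
    rcases lt_or_gt_of_ne hj with h8 | h8
    · rw [h j h8, map_zero, mul_zero]
      exact dvd_zero _
    · exact (pow_dvd_pow _ h8).mul_right _
  rw [h6]
  by_cases hk : k < (trans x₀ P).totalDegree + 1
  · rw [← Finset.add_sum_erase _ _ (Finset.mem_range.2 hk), add_sub_right_comm, ← mul_sub]
    apply dvd_add
    · rw [pow_succ]
      exact mul_dvd_mul_left _ (h3 _)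
    · apply Finset.dvd_sum
      intro j hj
      exact h7 j (Finset.ne_of_mem_erase hj)
  · rw [hc_eq_zero_of_lt x₀ (by omega), map_zero, map_zero, mul_zero, sub_zero]
    apply Finset.dvd_sum
    intro j hj
    rw [Finset.mem_range] at hj
    exact h7 j (by omega)

end Pool.Agent.Lib.MP_4fcc12_ag
end
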