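import Pool.Agent.Lib.MP_4fcc12_ag.Spec2
import Mathlib.FieldTheory.Minpoly.IsConjRoot
import Mathlib.RingTheory.Flat.Basic
import Mathlib.RingTheory.Nilpotent.Lemmas
import Mathlib.RingTheory.TensorProduct.Maps
import Mathlib.RingTheory.LocalRing.ResidueField.Ideal
import Mathlib.FieldTheory.IsAlgClosed.AlgebraicClosure
import Mathlib.FieldTheory.Perfect
import Mathlib.RingTheory.Nakayama
import Mathlib.RingTheory.Noetherian.Basic
import Mathlib.RingTheory.Ideal.GoingUp
import Mathlib.RingTheory.Ideal.Quotient.Operations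
import Mathlib.RingTheory.Ideal.Maximal
import Mathlib.RingTheory.Ideal.Quotient.Index
import Pool.Agent.Lib.MP_4fcc12_ag.Spec3
import Pool.Agent.Lib.MP_4fcc12_ag.DerExt
import Mathlib.Algebra.DualNumber
import Mathlib.RingTheory.Localization.FractionRing
import Mathlib.RingTheory.Derivation.Basic
import Pool.Agent.Lib.MP_4fcc12_ag.Lead
import Mathlib.RingTheory.Nullstellensatz
import Mathlib.FieldTheory.IntermediateField.Adjoin.Basic
import Mathlib.Analysis.Complex.Polynomial.Basic

section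
/-!
# Module FIELD
-/
open scoped TensorProduct

namespace Pool.Agent.Lib.MP_4fcc12_ag

/-- the general principle -/
lemma exists_homs_of (F K : Type) [Field F] [Field K] [Algebra F K] (b : K)
    (A E : Type) [CommRing A] [Algebra F A] [CommRing E] [IsDomain E] [Algebra F E]
    (j : A →ₐ[F] K) (hj : Function.Injective j) (a : A) (ha : j a = b) (φ ψ : A →ₐ[F] E)
    (hne : φ a ≠ ψ a) :
    ∃ (Ω : Type) (_ : Field Ω) (σ₁ σ₂ : K →+* Ω),
      (∀ x : F, σ₁ (algebraMap F K x) = σ₂ (algebraMap F K x)) ∧ σ₁ b ≠ σ₂ b := by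
  have hinj : Function.Injective (Algebra.TensorProduct.map j j) :=
    TensorProduct.map_injective_of_flat_flat (R := F) j.toLinearMap j.toLinearMap hj hj
  have hnil : ¬ IsNilpotent (b ⊗ₜ[F] (1 : K) - (1 : K) ⊗ₜ[F] b) := by
    intro h
    have h1 : Algebra.TensorProduct.map j j (a ⊗ₜ[F] (1 : A) - (1 : A) ⊗ₜ[F] a) =
        b ⊗ₜ[F] (1 : K) - (1 : K) ⊗ₜ[F] b := by
      simp [ha]
    rw [← h1] at h
    have h2 : IsNilpotent (a ⊗ₜ[F] (1 : A) - (1 : A) ⊗ₜ[F] a) :=
      (IsNilpotent.map_iff hinj).1 h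
    have h3 := h2.map (Algebra.TensorProduct.lift φ ψ (fun _ _ => Commute.all _ _))
    have h4 : Algebra.TensorProduct.lift φ ψ (fun _ _ => Commute.all _ _)
        (a ⊗ₜ[F] (1 : A) - (1 : A) ⊗ₜ[F] a) = φ a - ψ a := by
      simp
    rw [h4] at h3
    exact hne (sub_eq_zero.1 (isNilpotent_iff_eq_zero.1 h3))
  rw [nilpotent_iff_mem_prime] at hnil
  push Not at hnil
  obtain ⟨P, hP, hb⟩ := hnil
  refine ⟨P.ResidueField, inferInstance,
    (algebraMap (K ⊗[F] K) P.ResidueField).comp Algebra.TensorProduct.includeLeftRingHom,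
    (algebraMap (K ⊗[F] K) P.ResidueField).comp
      (Algebra.TensorProduct.includeRight : K →ₐ[F] K ⊗[F] K).toRingHom, ?_, ?_⟩
  · intro x
    have h1 : (algebraMap F K x) ⊗ₜ[F] (1 : K) = (1 : K) ⊗ₜ[F] (algebraMap F K x) := by
      rw [Algebra.algebraMap_eq_smul_one, TensorProduct.smul_tmul]
    simp [h1]
  · intro h
    apply hb
    rw [← Ideal.algebraMap_residueField_eq_zero, map_sub, sub_eq_zero]
    simpa using h

/-- MODULE FIELD -/
theorem statementFIELD : StatementFIELD := by
  intro F K _ _ _ _ b hb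
  by_cases halg : IsIntegral F b
  · let L := AlgebraicClosure K
    have hb' : (algebraMap K L b) ∉ (⊥ : Subalgebra F L) := by
      rw [Algebra.mem_bot]
      rintro ⟨x, hx⟩
      rw [IsScalarTower.algebraMap_apply F K L] at hx
      exact hb ⟨x, (algebraMap K L).injective hx⟩
    have hint : IsIntegral F (algebraMap K L b) := halg.algebraMap
    have hsep : IsSeparable F (algebraMap K L b) :=
      (minpoly.irreducible hint).separable
    obtain ⟨y, hy, hconj⟩ := (notMem_iff_exists_ne_and_isConjRoot hsep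
      (IsAlgClosed.splits _)).1 hb'
    have hmin : minpoly F (algebraMap K L b) = minpoly F b :=
      minpoly.algebraMap_eq (algebraMap K L).injective b
    have hy' : y ∈ (minpoly F b).aroots L := by
      rw [Polynomial.mem_aroots]
      refine ⟨minpoly.ne_zero halg, ?_⟩
      rw [← hmin, hconj]
      exact minpoly.aeval F y
    refine exists_homs_of F K b (IntermediateField.adjoin F {b}) L
      (IntermediateField.adjoin F {b}).val (IntermediateField.adjoin F {b}).val.injective
      (IntermediateField.AdjoinSimple.gen F b) rfl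
      ((IsScalarTower.toAlgHom F K L).comp (IntermediateField.adjoin F {b}).val)
      ((IntermediateField.algHomAdjoinIntegralEquiv F halg).symm ⟨y, hy'⟩) ?_
    rw [IntermediateField.algHomAdjoinIntegralEquiv_symm_apply_gen]
    exact hy
  · have htr : Transcendental F b := fun h => halg h.isIntegral
    refine exists_homs_of F K b (Polynomial F) (Polynomial F) (Polynomial.aeval b)
      (transcendental_iff_injective.1 htr) Polynomial.X (Polynomial.aeval_X b)
      (AlgHom.id F _) (Polynomial.aeval (Polynomial.X + 1)) ?_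
    simp

end Pool.Agent.Lib.MP_4fcc12_ag
end

section
/-!
# Module NAK
-/
namespace Pool.Agent.Lib.MP_4fcc12_ag

lemma isNoetherianRing_quotient_map (S R : Type) [CommRing S] [CommRing R] [Algebra S R]
    [Module.Finite S R] (𝔪 : Ideal S) (hm : 𝔪.IsMaximal) :
    IsNoetherianRing (R ⧸ 𝔪.map (algebraMap S R)) := by
  let := Ideal.Quotient.field 𝔪
  have h1 : Module.Finite (S ⧸ 𝔪) (R ⧸ 𝔪.map (algebraMap S R)) :=
    Module.Finite.of_restrictScalars_finite S _ _
  exact IsNoetherianRing.of_finite (S ⧸ 𝔪) _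

lemma le_map_of_idem (S R : Type) [CommRing S] [CommRing R] [Algebra S R]
    [Module.Finite S R] (𝔪 : Ideal S) (hm : 𝔪.IsMaximal) (𝔫 : Ideal R)
    (huniq : ∀ 𝔫' : Ideal R, 𝔫'.IsMaximal → 𝔫'.comap (algebraMap S R) = 𝔪 → 𝔫' = 𝔫)
    (hunr : 𝔫 ≤ 𝔪.map (algebraMap S R) ⊔ 𝔫 ^ 2) : 𝔫 ≤ 𝔪.map (algebraMap S R) := by
  have := isNoetherianRing_quotient_map S R 𝔪 hm
  set π := Ideal.Quotient.mk (𝔪.map (algebraMap S R))
  have hN : 𝔫.map π = ⊥ := by
    apply Submodule.eq_bot_of_le_smul_of_le_jacobson_bot (𝔫.map π) (𝔫.map π)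
    · exact IsNoetherian.noetherian _
    · have h1 := Ideal.map_mono (f := π) hunr
      rw [Ideal.map_sup, Ideal.map_quotient_self, bot_sup_eq, Ideal.map_pow, pow_two] at h1
      exact h1
    · apply le_sInf
      rintro P ⟨-, hP⟩
      have h2 : (P.comap π).IsMaximal :=
        Ideal.comap_isMaximal_of_surjective π Ideal.Quotient.mk_surjective
      have h3 : 𝔪.map (algebraMap S R) ≤ P.comap π := by
        intro x hx
        rw [Ideal.mem_comap, (Ideal.Quotient.eq_zero_iff_mem).2 hx]
        exact P.zero_mem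
      have h4 : P.comap π = 𝔫 := by
        apply huniq _ h2
        symm
        apply hm.eq_of_le
        · exact Ideal.comap_ne_top _ h2.ne_top
        · exact Ideal.map_le_iff_le_comap.1 h3
      rw [← h4]
      exact Ideal.map_comap_le
  intro x hx
  rw [← Ideal.Quotient.eq_zero_iff_mem]
  have := Ideal.mem_map_of_mem π hx
  rw [hN] at this
  exact this

/-- MODULE NAK -/
theorem statementNAK : StatementNAK := by
  intro S R _ _ _ _ h
  let L : Submodule S R := LinearMap.range (Algebra.linearMap S R)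
  have key : ∀ 𝔪 : Ideal S, 𝔪.IsMaximal → ∃ r : S, r - 1 ∈ 𝔪 ∧ ∀ y ∈ (⊤ : Submodule S (R ⧸ L)),
      r • y = 0 := by
    intro 𝔪 hm
    apply Submodule.exists_sub_one_mem_and_smul_eq_zero_of_fg_of_le_smul
    · exact Module.Finite.fg_top
    · obtain ⟨𝔫, -, h2, h3, h4⟩ := h 𝔪 hm
      have h5 := le_map_of_idem S R 𝔪 hm 𝔫 h2 h4
      rintro y -
      obtain ⟨r, rfl⟩ := L.mkQ_surjective y
      obtain ⟨s, hs⟩ := h3 r
      have h6 : r - algebraMap S R s ∈ 𝔪 • (⊤ : Submodule S R) := by
        rw [Ideal.smul_top_eq_map]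
        exact h5 hs
      have h7 : L.mkQ r = L.mkQ (r - algebraMap S R s) := by
        rw [map_sub, eq_comm, sub_eq_self]
        exact (Submodule.Quotient.mk_eq_zero L).2 ⟨s, rfl⟩
      rw [h7]
      have h8 := Submodule.mem_map_of_mem (f := L.mkQ) h6
      rw [Submodule.map_smul''] at h8
      exact Submodule.smul_mono le_rfl le_top h8
  have hann : Module.annihilator S (R ⧸ L) = ⊤ := by
    by_contra hne
    obtain ⟨𝔪, hm, hle⟩ := Ideal.exists_le_maximal _ hne
    obtain ⟨r, hr, hr'⟩ := key 𝔪 hm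
    have : r ∈ 𝔪 := hle (Module.mem_annihilator.2 fun y => hr' y trivial)
    have h1 : (1 : S) ∈ 𝔪 := by
      have := 𝔪.sub_mem this hr
      simpa using this
    exact hm.ne_top ((Ideal.eq_top_iff_one _).2 h1)
  intro r
  have h1 : (1 : S) ∈ Module.annihilator S (R ⧸ L) := by rw [hann]; trivial
  have h2 := Module.mem_annihilator.1 h1 (L.mkQ r)
  rw [one_smul] at h2
  obtain ⟨s, hs⟩ := (Submodule.Quotient.mk_eq_zero L).1 h2
  exact ⟨s, hs⟩

end Pool.Agent.Lib.MP_4fcc12_ag
end

section
/-!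
Module TAN: a tangent vector at `x₀` of the orbit closure is tangent to the orbit.
-/
open MvPolynomial Matrix

namespace Pool.Agent.Lib.MP_4fcc12_ag

namespace Tan

open TrivSqZeroExt

section linear

variable {n k : ℕ} {R : Type*} [CommRing R]

lemma tup_smul (c : R) (x : Fin n × Mon n k → R) (i : Fin n) :
    tup (fun p => c * x p) i = C c * tup x i := by
  simp only [tup, frm, Finset.mul_sum, C_mul_monomial]

lemma tup_add (x y : Fin n × Mon n k → R) (i : Fin n) :
    tup (fun p => x p + y p) i = tup x i + tup y i := by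
  simp only [tup, frm, ← Finset.sum_add_distrib, map_add]

/-- the action on tuples is linear in the tuple -/
lemma actT_lin [Algebra ℂ R] (c : R) (x y : Fin n × Mon n k → R) (g a : Matrix (Fin n) (Fin n) R)
    (p : Fin n × Mon n k) :
    (actT n k).app (fun p => x p + c * y p) g a p =
      (actT n k).app x g a p + c * (actT n k).app y g a p := by
  simp only [actT_app, ct, act]
  rw [← coeff_C_mul, ← coeff_add, Finset.mul_sum, ← Finset.sum_add_distrib]
  congr 1
  apply Finset.sum_congr rfl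
  intro j _
  rw [tup_add, tup_smul, map_add, map_mul, subst_C]
  ring

end linear

section dual

variable {R : Type*} [CommRing R] [Algebra ℂ R]

/-- Taylor expansion of order one -/
lemma aeval_dual {κ : Type*} [Fintype κ] (x y : κ → R) (P : MvPolynomial κ ℂ) :
    aeval (fun j => (inl (x j) + inr (y j) : DualNumber R)) P =
      inl (aeval x P) + inr (∑ j, y j * aeval x (pderiv j P)) := by
  classical
  induction P using MvPolynomial.induction_on with
  | C c =>
    simp only [aeval_C, pderiv_C, map_zero, mul_zero, Finset.sum_const_zero, inr_zero, add_zero]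
    rfl
  | add p q hp hq =>
    rw [map_add, hp, hq]
    simp only [map_add, mul_add, Finset.sum_add_distrib, inl_add, inr_add]
    ring
  | mul_X p i hp =>
    rw [map_mul, hp, aeval_X]
    simp only [pderiv_mul, map_add, map_mul, aeval_X, pderiv_X, mul_add, Finset.sum_add_distrib]
    have h1 : ∑ j, y j * (aeval x p * aeval x ((Pi.single j 1 : κ → MvPolynomial κ ℂ) i)) =
        y i * aeval x p := by
      rw [Finset.sum_eq_single i]
      · simp
      · intro b _ hb
        rw [Pi.single_eq_of_ne (Ne.symm hb)]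
        simp
      · simp
    rw [h1]
    have h2 : ∑ j, y j * (aeval x (pderiv j p) * x i) = (∑ j, y j * aeval x (pderiv j p)) * x i := by
      rw [Finset.sum_mul]
      apply Finset.sum_congr rfl
      intro j _
      ring
    rw [h2]
    apply TrivSqZeroExt.ext
    · simp
    · simp [mul_comm, add_comm]

/-- the ring homomorphism attached to a derivation -/
noncomputable def derHomK {K : Type*} [Field K] [Algebra ℂ K] (D : Derivation ℂ K K) :
    K →ₐ[ℂ] DualNumber K where
  toFun x := inl x + inr (D x)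
  map_one' := by
    apply TrivSqZeroExt.ext <;> simp
  map_mul' x y := by
    apply TrivSqZeroExt.ext
    · simp
    · simp [mul_comm]
  map_zero' := by
    apply TrivSqZeroExt.ext <;> simp
  map_add' x y := by
    apply TrivSqZeroExt.ext <;> simp
  commutes' c := by
    apply TrivSqZeroExt.ext
    · simp [TrivSqZeroExt.algebraMap_eq_inl']
    · simp [TrivSqZeroExt.algebraMap_eq_inl']

end dual

/-- extension of a derivation, stated for a polynomial ring and a homomorphism to a field -/
lemma exists_der {A₀ K : Type} [CommRing A₀] [Algebra ℂ A₀] [Field K] [Algebra ℂ K]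
    (φ : A₀ →ₐ[ℂ] K) (D₀ : A₀ → K) (hadd : ∀ a b, D₀ (a + b) = D₀ a + D₀ b)
    (hC : ∀ c : ℂ, D₀ (algebraMap ℂ A₀ c) = 0)
    (hmul : ∀ a b, D₀ (a * b) = φ a * D₀ b + φ b * D₀ a) (hker : ∀ a, φ a = 0 → D₀ a = 0) :
    ∃ D : Derivation ℂ K K, ∀ a, D (φ a) = D₀ a := by
  let I : Ideal A₀ := RingHom.ker φ
  let ψ : (A₀ ⧸ I) →ₐ[ℂ] K := Ideal.kerLiftAlg φ
  have hψ : ∀ a, ψ (Ideal.Quotient.mk I a) = φ a := fun a => rfl
  have hinj : Function.Injective ψ := Ideal.kerLiftAlg_injective φ
  let _ : Algebra (A₀ ⧸ I) K := ψ.toRingHom.toAlgebra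
  have _ : IsScalarTower ℂ (A₀ ⧸ I) K := IsScalarTower.of_algebraMap_eq (fun c => (ψ.commutes c).symm)
  have hneg : ∀ a b, D₀ (a - b) = D₀ a - D₀ b := by
    intro a b
    have h1 := hadd (a - b) b
    rw [sub_add_cancel] at h1
    rw [h1, add_sub_cancel_right]
  have hwd : ∀ a b, φ a = φ b → D₀ a = D₀ b := by
    intro a b hab
    have h1 := hker (a - b) (by rw [map_sub, hab, sub_self])
    rw [hneg, sub_eq_zero] at h1
    exact h1
  let s : (A₀ ⧸ I) → A₀ := Function.surjInv (Ideal.Quotient.mk_surjective (I := I))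
  have hs : ∀ a : A₀, D₀ (s (Ideal.Quotient.mk I a)) = D₀ a := by
    intro a
    apply hwd
    rw [← hψ, ← hψ, Function.surjInv_eq Ideal.Quotient.mk_surjective]
  let L : (A₀ ⧸ I) →ₗ[ℂ] K :=
    { toFun := fun x => D₀ (s x)
      map_add' := by
        intro x y
        obtain ⟨a, rfl⟩ := Ideal.Quotient.mk_surjective x
        obtain ⟨b, rfl⟩ := Ideal.Quotient.mk_surjective y
        rw [← map_add, hs, hs, hs, hadd]
      map_smul' := by
        intro c x
        obtain ⟨a, rfl⟩ := Ideal.Quotient.mk_surjective x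
        have h1 : c • Ideal.Quotient.mk I a = Ideal.Quotient.mk I (algebraMap ℂ A₀ c * a) := by
          rw [← Algebra.smul_def]
          rfl
        rw [h1, hs, hs, hmul, hC, mul_zero, add_zero, φ.commutes, RingHom.id_apply,
          ← Algebra.smul_def] }
  have hL : ∀ a, L (Ideal.Quotient.mk I a) = D₀ a := hs
  let D : Derivation ℂ (A₀ ⧸ I) K := Derivation.mk' L (by
    intro x y
    obtain ⟨a, rfl⟩ := Ideal.Quotient.mk_surjective x
    obtain ⟨b, rfl⟩ := Ideal.Quotient.mk_surjective y
    rw [← map_mul, hL, hL, hL, hmul]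
    rfl)
  obtain ⟨D', hD'⟩ := statementDER (A₀ ⧸ I) K hinj D
  exact ⟨D', fun a => (hD' (Ideal.Quotient.mk I a)).trans (hL a)⟩

section lie

variable {n : ℕ} {K : Type*} [Field K]

/-- substitution of an infinitesimal matrix -/
lemma subst_dual (ξ : Matrix (Fin n) (Fin n) K) (f : MvPolynomial (Fin n) K) :
    subst (1 + ξ.map (inr : K → DualNumber K)) (MvPolynomial.map (inlHom K K) f) =
      MvPolynomial.map (inlHom K K) f + C (inr 1 : DualNumber K) *
        MvPolynomial.map (inlHom K K) (∑ j, ∑ l, C (ξ j l) * X l * pderiv j f) := by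
  classical
  have hε : (C (inr 1 : DualNumber K) : MvPolynomial (Fin n) (DualNumber K)) * C (inr 1) = 0 := by
    rw [← C_mul, inr_mul_inr, C_0]
  have hinr : ∀ z : K, (inr z : DualNumber K) = inr 1 * inl z := by
    intro z
    apply TrivSqZeroExt.ext <;> simp
  induction f using MvPolynomial.induction_on with
  | C c => simp
  | add p q hp hq =>
    rw [map_add, map_add, hp, hq]
    simp only [map_add, mul_add, Finset.sum_add_distrib]
    ring
  | mul_X p i hp =>
    have h1 : subst (1 + ξ.map (inr : K → DualNumber K)) (X i) =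
        X i + C (inr 1) * MvPolynomial.map (inlHom K K) (∑ l, C (ξ i l) * X l) := by
      rw [subst_X]
      simp only [Matrix.add_apply, Matrix.map_apply, C_add, add_mul, Finset.sum_add_distrib]
      congr 1
      · rw [Finset.sum_eq_single i]
        · simp
        · intro b _ hb
          rw [Matrix.one_apply_ne (Ne.symm hb), C_0, zero_mul]
        · simp
      · rw [map_sum, Finset.mul_sum]
        apply Finset.sum_congr rfl
        intro l _
        rw [map_mul, map_C, map_X, hinr, C_mul, mul_assoc]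
        rfl
    have h2 : (∑ j, ∑ l, C (ξ j l) * X l * pderiv j (p * X i) : MvPolynomial (Fin n) K) =
        (∑ j, ∑ l, C (ξ j l) * X l * pderiv j p) * X i + p * ∑ l, C (ξ i l) * X l := by
      simp only [pderiv_mul, mul_add, Finset.sum_add_distrib]
      congr 1
      · rw [Finset.sum_mul]
        apply Finset.sum_congr rfl
        intro j _
        rw [Finset.sum_mul]
        apply Finset.sum_congr rfl
        intro l _
        ring
      · rw [Finset.sum_eq_single i]
        · rw [Finset.mul_sum]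
          apply Finset.sum_congr rfl
          intro l _
          rw [pderiv_X_self]
          ring
        · intro b _ hb
          apply Finset.sum_eq_zero
          intro l _
          rw [pderiv_X_of_ne (Ne.symm hb)]
          ring
        · simp
    rw [map_mul, map_mul, hp, map_X, h1, h2, map_add, map_mul, map_mul, map_X]
    generalize MvPolynomial.map (inlHom K K) p = P
    generalize MvPolynomial.map (inlHom K K) (∑ l, C (ξ i l) * X l) = Q
    generalize MvPolynomial.map (inlHom K K) (∑ j, ∑ l, C (ξ j l) * X l * pderiv j p) = S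
    linear_combination (S * Q) * hε

/-- infinitesimal action on tuples -/
lemma act_dual (ξ η : Matrix (Fin n) (Fin n) K) (F : Fin n → MvPolynomial (Fin n) K) (i : Fin n) :
    act (fun i => MvPolynomial.map (inlHom K K) (F i)) (1 + ξ.map (inr : K → DualNumber K))
      (1 + η.map (inr : K → DualNumber K)) i =
      MvPolynomial.map (inlHom K K) (F i) + C (inr 1 : DualNumber K) *
        MvPolynomial.map (inlHom K K)
          ((∑ j, ∑ l, C (ξ j l) * X l * pderiv j (F i)) + ∑ j, C (η i j) * F j) := by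
  classical
  have hε : (C (inr 1 : DualNumber K) : MvPolynomial (Fin n) (DualNumber K)) * C (inr 1) = 0 := by
    rw [← C_mul, inr_mul_inr, C_0]
  have hinr : ∀ z : K, (inr z : DualNumber K) = inr 1 * inl z := by
    intro z
    apply TrivSqZeroExt.ext <;> simp
  simp only [act, subst_dual, Matrix.add_apply, Matrix.map_apply, C_add, add_mul,
    Finset.sum_add_distrib]
  have h1 : (∑ j, C ((1 : Matrix (Fin n) (Fin n) (DualNumber K)) i j) *
      (MvPolynomial.map (inlHom K K) (F j) + C (inr 1 : DualNumber K) *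
        MvPolynomial.map (inlHom K K) (∑ j', ∑ l, C (ξ j' l) * X l * pderiv j' (F j)))) =
      (MvPolynomial.map (inlHom K K) (F i) + C (inr 1 : DualNumber K) *
        MvPolynomial.map (inlHom K K) (∑ j', ∑ l, C (ξ j' l) * X l * pderiv j' (F i))) := by
    rw [Finset.sum_eq_single i]
    · rw [Matrix.one_apply_eq, C_1, one_mul]
    · intro b _ hb
      rw [Matrix.one_apply_ne (Ne.symm hb), C_0, zero_mul]
    · simp
  have h2 : (∑ j, C (inr (η i j) : DualNumber K) *
      (MvPolynomial.map (inlHom K K) (F j) + C (inr 1 : DualNumber K) *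
        MvPolynomial.map (inlHom K K) (∑ j', ∑ l, C (ξ j' l) * X l * pderiv j' (F j)))) =
      C (inr 1 : DualNumber K) * MvPolynomial.map (inlHom K K) (∑ j, C (η i j) * F j) := by
    rw [map_sum, Finset.mul_sum]
    apply Finset.sum_congr rfl
    intro j _
    rw [hinr, C_mul, map_mul, map_C]
    have h3 : (inlHom K K) (η i j) = (inl (η i j) : DualNumber K) := rfl
    rw [h3]
    generalize MvPolynomial.map (inlHom K K) (F j) = P
    generalize MvPolynomial.map (inlHom K K) (∑ j', ∑ l, C (ξ j' l) * X l * pderiv j' (F j)) = S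
    linear_combination (C (inl (η i j)) * S) * hε
  rw [h1, h2, map_add]
  ring

end lie

section main

variable {n k : ℕ}

lemma app_dual {R : Type*} [CommRing R] [Algebra ℂ R] (x y : Fin n × Mon n k → R)
    (g a : Matrix (Fin n) (Fin n) R) (p : Fin n × Mon n k) :
    (actT n k).app (fun p => (inl (x p) + inr (y p) : DualNumber R)) (g.map inl) (a.map inl) p =
      inl ((actT n k).app x g a p) + inr ((actT n k).app y g a p) := by
  have h1 : ∀ z : Fin n × Mon n k → R,
      (actT n k).app (fun p => (inl (z p) : DualNumber R)) (g.map inl) (a.map inl) p =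
        inl ((actT n k).app z g a p) := by
    intro z
    exact (congrFun ((actT n k).map_app (inlAlgHom ℂ R R) z g a) p).symm
  have h2 : (fun p => (inl (x p) + inr (y p) : DualNumber R)) =
      fun p => inl (x p) + inr 1 * inl (y p) := by
    funext p
    apply TrivSqZeroExt.ext <;> simp
  rw [h2, actT_lin, h1, h1]
  apply TrivSqZeroExt.ext <;> simp

/-- the generic point of the orbit -/
noncomputable def gen (x : Fin n × Mon n k → ℂ) : Fin n × Mon n k → MvPolynomial (Grp n) ℂ :=
  (actT n k).app (fun j => C (x j)) (gX n ℂ) (aX n ℂ)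

lemma gX_map_aeval {R : Type*} [CommRing R] [Algebra ℂ R] (g a : Matrix (Fin n) (Fin n) R) :
    (gX n ℂ).map (aeval (gpt g a) : MvPolynomial (Grp n) ℂ →ₐ[ℂ] R) = g := by
  ext i j
  simp [gX, gpt]

lemma aX_map_aeval {R : Type*} [CommRing R] [Algebra ℂ R] (g a : Matrix (Fin n) (Fin n) R) :
    (aX n ℂ).map (aeval (gpt g a) : MvPolynomial (Grp n) ℂ →ₐ[ℂ] R) = a := by
  ext i j
  simp [aX, gpt]

lemma aeval_gen (x : Fin n × Mon n k → ℂ) (g a : Matrix (Fin n) (Fin n) ℂ)
    (p : Fin n × Mon n k) : aeval (gpt g a) (gen x p) = (actT n k).app x g a p := by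
  have h1 := congrFun ((actT n k).map_app (aeval (gpt g a) : MvPolynomial (Grp n) ℂ →ₐ[ℂ] ℂ)
    (fun j => (C (x j) : MvPolynomial (Grp n) ℂ)) (gX n ℂ) (aX n ℂ)) p
  have h2 : ((aeval (gpt g a) : MvPolynomial (Grp n) ℂ →ₐ[ℂ] ℂ) ∘
      fun j => (C (x j) : MvPolynomial (Grp n) ℂ)) = x := by
    funext j
    exact aeval_C _ _
  rw [h2, gX_map_aeval, aX_map_aeval] at h1
  exact h1

lemma eq_zero_of_eval (E : MvPolynomial (Grp n) ℂ)
    (h : ∀ g a : Matrix (Fin n) (Fin n) ℂ, g.det ≠ 0 → a.det ≠ 0 → aeval (gpt g a) E = 0) :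
    E = 0 := by
  have hd : dd (n := n) ℂ 1 1 ≠ 0 := dd_ne_zero _ _ _
  have h1 : E * dd ℂ 1 1 = 0 := by
    apply MvPolynomial.funext
    intro y
    let g : Matrix (Fin n) (Fin n) ℂ := Matrix.of fun i j => y (Sum.inl (i, j))
    let a : Matrix (Fin n) (Fin n) ℂ := Matrix.of fun i j => y (Sum.inr (i, j))
    have hy : y = gpt g a := by
      funext p
      rcases p with p | p <;> rfl
    rw [hy, map_mul, eval_dd, map_zero, pow_one, pow_one]
    by_cases hg : g.det = 0
    · rw [hg]; ring
    by_cases ha : a.det = 0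
    · rw [ha]; ring
    have h2 := h g a hg ha
    have h3 : eval (gpt g a) E = 0 := h2
    rw [h3, zero_mul]
  exact (mul_eq_zero.1 h1).resolve_right hd

/-- the polynomials vanishing on the orbit vanish at the generic point -/
lemma aeval_gen_eq_zero_iff (x : Fin n × Mon n k → ℂ) (P : MvPolynomial (Fin n × Mon n k) ℂ) :
    aeval (gen x) P = 0 ↔ P ∈ orbIdeal (actT n k) x := by
  have key : ∀ g a : Matrix (Fin n) (Fin n) ℂ, aeval (gpt g a) (aeval (gen x) P) =
      eval ((actT n k).app x g a) P := by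
    intro g a
    have h1 : (aeval (gpt g a) : MvPolynomial (Grp n) ℂ →ₐ[ℂ] ℂ).comp (aeval (gen x)) =
        (aeval ((actT n k).app x g a) : MvPolynomial (Fin n × Mon n k) ℂ →ₐ[ℂ] ℂ) := by
      apply MvPolynomial.algHom_ext
      intro p
      rw [AlgHom.comp_apply, aeval_X, aeval_X, aeval_gen]
    exact congrArg (fun ψ => ψ P) h1
  constructor
  · intro h g a _ _
    rw [← key, h, map_zero]
  · intro h
    apply eq_zero_of_eval
    intro g a hg ha
    rw [key]
    exact h g a hg ha

/-- tangent vectors at `x₀` are transported along the orbit -/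
lemma tangent_gen (x₀ v : Fin n × Mon n k → ℂ)
    (hv : ∀ P ∈ orbIdeal (actT n k) x₀, ∑ j, v j * eval x₀ (pderiv j P) = 0)
    (P : MvPolynomial (Fin n × Mon n k) ℂ) (hP : P ∈ orbIdeal (actT n k) x₀) :
    ∑ j, gen v j * aeval (gen x₀) (pderiv j P) = 0 := by
  apply eq_zero_of_eval
  intro g a hg ha
  -- the translated polynomial
  let Q : MvPolynomial (Fin n × Mon n k) ℂ :=
    aeval ((actT n k).app (fun j => (X j : MvPolynomial (Fin n × Mon n k) ℂ)) (g.map C) (a.map C)) P
  have hQ : ∀ {R : Type} [CommRing R] [Algebra ℂ R] (y : Fin n × Mon n k → R),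
      aeval y Q = aeval ((actT n k).app y (g.map (algebraMap ℂ R)) (a.map (algebraMap ℂ R))) P := by
    intro R _ _ y
    rw [← AlgHom.comp_apply, comp_aeval]
    congr 2
    have h1 := (actT n k).map_app (aeval y : MvPolynomial (Fin n × Mon n k) ℂ →ₐ[ℂ] R)
      (fun j => (X j : MvPolynomial (Fin n × Mon n k) ℂ)) (g.map C) (a.map C)
    have h2 : ((aeval y : MvPolynomial (Fin n × Mon n k) ℂ →ₐ[ℂ] R) ∘
        fun j => (X j : MvPolynomial (Fin n × Mon n k) ℂ)) = y := by
      funext j
      exact aeval_X _ _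
    have h3 : ∀ M : Matrix (Fin n) (Fin n) ℂ, (M.map C).map
        (aeval y : MvPolynomial (Fin n × Mon n k) ℂ →ₐ[ℂ] R) = M.map (algebraMap ℂ R) := by
      intro M
      refine Matrix.ext fun i j => ?_
      exact aeval_C _ _
    rw [h2, h3, h3] at h1
    exact h1
  have hmap : ∀ M : Matrix (Fin n) (Fin n) ℂ, M.map (algebraMap ℂ ℂ) = M := by
    intro M
    refine Matrix.ext fun i j => ?_
    rfl
  have hQmem : Q ∈ orbIdeal (actT n k) x₀ := by
    intro g' a' hg' ha'
    have h1 := hQ ((actT n k).app x₀ g' a')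
    rw [hmap, hmap, Actn.IsAction.app_app] at h1
    have h2 := hP (g' * g) (a * a') (by rw [Matrix.det_mul]; exact mul_ne_zero hg' hg)
      (by rw [Matrix.det_mul]; exact mul_ne_zero ha ha')
    exact h1.trans h2
  have h1 := hv Q hQmem
  have h2 := aeval_dual x₀ v Q
  have h3 : (aeval x₀ Q : ℂ) = 0 := by
    rw [hQ x₀, hmap, hmap]
    exact hP g a hg ha
  have h4 : ∑ j, v j * (aeval x₀ (pderiv j Q) : ℂ) = 0 := h1
  rw [h3, h4, inl_zero, inr_zero, add_zero, hQ] at h2
  have h5 : ∀ M : Matrix (Fin n) (Fin n) ℂ,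
      M.map (algebraMap ℂ (DualNumber ℂ)) = M.map (inl : ℂ → DualNumber ℂ) := by
    intro M
    refine Matrix.ext fun i j => ?_
    rfl
  have h6 : (actT n k).app (fun j => (inl (x₀ j) + inr (v j) : DualNumber ℂ))
      (g.map (algebraMap ℂ (DualNumber ℂ))) (a.map (algebraMap ℂ (DualNumber ℂ))) =
      fun p => inl ((actT n k).app x₀ g a p) + inr ((actT n k).app v g a p) := by
    funext p
    rw [h5, h5]
    exact app_dual x₀ v g a p
  rw [h6, aeval_dual] at h2
  have h7 := congrArg TrivSqZeroExt.snd h2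
  simp only [TrivSqZeroExt.snd_add, TrivSqZeroExt.snd_inl, TrivSqZeroExt.snd_inr, zero_add,
    TrivSqZeroExt.snd_zero] at h7
  rw [map_sum, ← h7]
  apply Finset.sum_congr rfl
  intro j _
  rw [map_mul, aeval_gen]
  congr 1
  have h8 : (aeval (gpt g a) : MvPolynomial (Grp n) ℂ →ₐ[ℂ] ℂ).comp (aeval (gen x₀)) =
      (aeval ((actT n k).app x₀ g a) : MvPolynomial (Fin n × Mon n k) ℂ →ₐ[ℂ] ℂ) := by
    apply MvPolynomial.algHom_ext
    intro p
    rw [AlgHom.comp_apply, aeval_X, aeval_X, aeval_gen]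
  exact congrArg (fun ψ => ψ (pderiv j P)) h8

end main

end Tan

/-- MODULE TAN. -/
theorem statementTAN : StatementTAN := by
  classical
  intro n k x₀ v hv
  let T := MvPolynomial (Grp n) ℂ
  let K := FractionRing T
  let ι : T →ₐ[ℂ] K := IsScalarTower.toAlgHom ℂ T K
  have hι : Function.Injective ι := IsFractionRing.injective T K
  -- the derivation
  let φ : MvPolynomial (Fin n × Mon n k) ℂ →ₐ[ℂ] K := ι.comp (aeval (Tan.gen x₀))
  let D₀ : MvPolynomial (Fin n × Mon n k) ℂ → K := fun P =>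
    ι (∑ j, Tan.gen v j * aeval (Tan.gen x₀) (pderiv j P))
  obtain ⟨D, hD⟩ := Tan.exists_der φ D₀
    (by
      intro P Q
      simp only [D₀, map_add, mul_add, Finset.sum_add_distrib])
    (by
      intro c
      simp only [D₀, MvPolynomial.algebraMap_eq, pderiv_C, map_zero, mul_zero,
        Finset.sum_const_zero])
    (by
      intro P Q
      simp only [D₀, φ, AlgHom.comp_apply]
      rw [← map_mul, ← map_mul, ← map_add]
      congr 1
      rw [Finset.mul_sum, Finset.mul_sum, ← Finset.sum_add_distrib]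
      apply Finset.sum_congr rfl
      intro j _
      rw [pderiv_mul, map_add, map_mul, map_mul]
      ring)
    (by
      intro P hP
      have h1 : aeval (Tan.gen x₀) P = 0 := hι (by rw [map_zero]; exact hP)
      rw [Tan.aeval_gen_eq_zero_iff] at h1
      simp only [D₀]
      rw [Tan.tangent_gen x₀ v hv P h1, map_zero])
  have hDw : ∀ p, D (ι (Tan.gen x₀ p)) = ι (Tan.gen v p) := by
    intro p
    have h1 := hD (X p)
    have h2 : φ (X p) = ι (Tan.gen x₀ p) := by
      simp only [φ, AlgHom.comp_apply, aeval_X]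
    rw [h2] at h1
    rw [h1]
    simp only [D₀]
    congr 1
    rw [Finset.sum_eq_single p]
    · simp
    · intro b _ hb
      rw [pderiv_X_of_ne (Ne.symm hb), map_zero, mul_zero]
    · simp
  -- the generic matrices over `K`
  let g : Matrix (Fin n) (Fin n) K := (gX n ℂ).map ι
  let a : Matrix (Fin n) (Fin n) K := (aX n ℂ).map ι
  have hdet : ∀ M : Matrix (Fin n) (Fin n) T, M.det ≠ 0 → IsUnit (M.map ι).det := by
    intro M hM
    rw [isUnit_iff_ne_zero]
    intro h
    have h1 : ι M.det = (M.map ι).det := AlgHom.map_det ι M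
    rw [h, ← map_zero ι] at h1
    exact hM (hι h1)
  have hg : IsUnit g.det := hdet _ (by
    intro h
    have h1 := dd_ne_zero (n := n) ℂ 1 0
    rw [dd, h] at h1
    simp at h1)
  have ha : IsUnit a.det := hdet _ (by
    intro h
    have h1 := dd_ne_zero (n := n) ℂ 0 1
    rw [dd, h] at h1
    simp at h1)
  have hgen : ∀ (x : Fin n × Mon n k → ℂ) (p : Fin n × Mon n k),
      ι (Tan.gen x p) = (actT n k).app (fun j => algebraMap ℂ K (x j)) g a p := by
    intro x p
    have h1 := congrFun ((actT n k).map_app ι (fun j => (C (x j) : T)) (gX n ℂ) (aX n ℂ)) p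
    have h2 : (ι ∘ fun j => (C (x j) : T)) = fun j => algebraMap ℂ K (x j) := by
      funext j
      exact ι.commutes (x j)
    rw [h2] at h1
    exact h1
  -- both computations of the derivative
  let δ : K →ₐ[ℂ] DualNumber K := Tan.derHomK D
  let xK : Fin n × Mon n k → K := fun j => algebraMap ℂ K (x₀ j)
  let vK : Fin n × Mon n k → K := fun j => algebraMap ℂ K (v j)
  let xv : Fin n × Mon n k → DualNumber K := fun p =>
    TrivSqZeroExt.inl (xK p) + TrivSqZeroExt.inr (vK p)
  let xD : Fin n × Mon n k → DualNumber K := fun p => TrivSqZeroExt.inl (xK p)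
  have e1 : (actT n k).app xv (g.map TrivSqZeroExt.inl) (a.map TrivSqZeroExt.inl) =
      (actT n k).app xD (g.map δ) (a.map δ) := by
    funext p
    have h1 := Tan.app_dual xK vK g a p
    have h2 := congrFun ((actT n k).map_app δ xK g a) p
    have h3 : δ ∘ xK = xD := by
      funext j
      have h4 : δ (algebraMap ℂ K (x₀ j)) = algebraMap ℂ (DualNumber K) (x₀ j) := δ.commutes _
      exact h4
    rw [h3] at h2
    rw [← h2]
    show (actT n k).app (fun p => (TrivSqZeroExt.inl (xK p) + TrivSqZeroExt.inr (vK p) :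
      DualNumber K)) (g.map TrivSqZeroExt.inl) (a.map TrivSqZeroExt.inl) p = _
    rw [h1, ← hgen, ← hgen, ← hDw]
    show _ = δ ((actT n k).app xK g a p)
    rw [← hgen]
    rfl
  -- translate back
  let ξ : Matrix (Fin n) (Fin n) K := g.map D * g⁻¹
  let η : Matrix (Fin n) (Fin n) K := a⁻¹ * a.map D
  have hδ : ∀ M : Matrix (Fin n) (Fin n) K, M.map δ =
      M.map (TrivSqZeroExt.inlHom K K) + (M.map D).map (TrivSqZeroExt.inr : K → DualNumber K) := by
    intro M
    refine Matrix.ext fun i j => ?_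
    rfl
  have hinl : ∀ M : Matrix (Fin n) (Fin n) K, M.map (TrivSqZeroExt.inl : K → DualNumber K) =
      M.map (TrivSqZeroExt.inlHom K K) := fun M => rfl
  have hir : ∀ M N : Matrix (Fin n) (Fin n) K,
      M.map (TrivSqZeroExt.inr : K → DualNumber K) * N.map (TrivSqZeroExt.inlHom K K) =
        (M * N).map (TrivSqZeroExt.inr : K → DualNumber K) := by
    intro M N
    refine Matrix.ext fun i j => ?_
    simp only [Matrix.mul_apply, Matrix.map_apply, TrivSqZeroExt.inr_sum]
    apply Finset.sum_congr rfl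
    intro l _
    apply TrivSqZeroExt.ext <;> simp
  have hri : ∀ M N : Matrix (Fin n) (Fin n) K,
      M.map (TrivSqZeroExt.inlHom K K) * N.map (TrivSqZeroExt.inr : K → DualNumber K) =
        (M * N).map (TrivSqZeroExt.inr : K → DualNumber K) := by
    intro M N
    refine Matrix.ext fun i j => ?_
    simp only [Matrix.mul_apply, Matrix.map_apply, TrivSqZeroExt.inr_sum]
    apply Finset.sum_congr rfl
    intro l _
    apply TrivSqZeroExt.ext <;> simp
  have e2 : (actT n k).app ((actT n k).app xv (g.map TrivSqZeroExt.inl)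
      (a.map TrivSqZeroExt.inl)) (g⁻¹.map TrivSqZeroExt.inl) (a⁻¹.map TrivSqZeroExt.inl) =
      (actT n k).app ((actT n k).app xD (g.map δ) (a.map δ)) (g⁻¹.map TrivSqZeroExt.inl)
        (a⁻¹.map TrivSqZeroExt.inl) := by
    rw [e1]
  rw [Actn.IsAction.app_app, Actn.IsAction.app_app] at e2
  have e3 : g.map (TrivSqZeroExt.inl : K → DualNumber K) * g⁻¹.map TrivSqZeroExt.inl = 1 := by
    rw [hinl, hinl, ← Matrix.map_mul, Matrix.mul_nonsing_inv _ hg,
      Matrix.map_one _ (map_zero _) (map_one _)]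
  have e4 : a⁻¹.map (TrivSqZeroExt.inl : K → DualNumber K) * a.map TrivSqZeroExt.inl = 1 := by
    rw [hinl, hinl, ← Matrix.map_mul, Matrix.nonsing_inv_mul _ ha,
      Matrix.map_one _ (map_zero _) (map_one _)]
  have e5 : g.map δ * g⁻¹.map TrivSqZeroExt.inl =
      1 + ξ.map (TrivSqZeroExt.inr : K → DualNumber K) := by
    rw [hδ, hinl, add_mul, ← Matrix.map_mul, Matrix.mul_nonsing_inv _ hg,
      Matrix.map_one _ (map_zero _) (map_one _), hir]
  have e6 : a⁻¹.map TrivSqZeroExt.inl * a.map δ =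
      1 + η.map (TrivSqZeroExt.inr : K → DualNumber K) := by
    rw [hδ, hinl, mul_add, ← Matrix.map_mul, Matrix.nonsing_inv_mul _ ha,
      Matrix.map_one _ (map_zero _) (map_one _), hri]
  rw [e3, e4, e5, e6, Actn.IsAction.app_one, actT_app] at e2
  -- pass to polynomials
  have e7 : ∀ i, tup xv i = act (tup xD) (1 + ξ.map (TrivSqZeroExt.inr : K → DualNumber K))
      (1 + η.map (TrivSqZeroExt.inr : K → DualNumber K)) i := by
    intro i
    rw [e2, tup_ct (isHomogeneous_act (isHomogeneous_tup xD) _ _)]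
  have e8 : tup xD = fun i => MvPolynomial.map (TrivSqZeroExt.inlHom K K) (tup xK i) := by
    funext i
    rw [map_tup]
    rfl
  have e9 : ∀ i, tup vK i = (∑ j, ∑ l, C (ξ j l) * X l * pderiv j (tup xK i)) +
      ∑ j, C (η i j) * tup xK j := by
    intro i
    have h1 := e7 i
    rw [e8, Tan.act_dual] at h1
    ext m
    have h2 := congrArg (fun P => TrivSqZeroExt.snd (coeff m P)) h1
    simp only [coeff_add, coeff_C_mul, coeff_map, TrivSqZeroExt.snd_add] at h2
    have h3 : TrivSqZeroExt.snd (coeff m (tup xv i)) = coeff m (tup vK i) := by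
      simp only [tup, frm, coeff_sum, coeff_monomial, TrivSqZeroExt.snd_sum]
      apply Finset.sum_congr rfl
      intro α _
      split_ifs
      · simp [xv]
      · simp
    rw [h3] at h2
    rw [h2]
    simp
  -- apply a linear functional
  obtain ⟨ℓ, hℓ⟩ := LinearMap.exists_leftInverse_of_injective (Algebra.linearMap ℂ K)
    (LinearMap.ker_eq_bot.2 (algebraMap ℂ K).injective)
  have hℓ1 : ∀ c : ℂ, ℓ (algebraMap ℂ K c) = c := fun c => congrArg (fun f => f c) hℓ
  have hℓ2 : ∀ (z : K) (c : ℂ), ℓ (z * algebraMap ℂ K c) = ℓ z * c := by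
    intro z c
    rw [mul_comm, ← Algebra.smul_def, map_smul, smul_eq_mul, mul_comm]
  have hxK : ∀ i, tup xK i = MvPolynomial.map (algebraMap ℂ K) (tup x₀ i) := by
    intro i
    rw [map_tup]
    rfl
  have hvK : ∀ i, tup vK i = MvPolynomial.map (algebraMap ℂ K) (tup v i) := by
    intro i
    rw [map_tup]
    rfl
  refine ⟨ξ.map ℓ, η.map ℓ, fun i => ?_⟩
  ext m
  have h1 := congrArg (fun P => ℓ (coeff m P)) (e9 i)
  simp only [hxK, hvK, coeff_map, hℓ1] at h1
  rw [h1]
  simp only [coeff_add, coeff_sum, map_add, map_sum, pderiv_map, Matrix.map_apply]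
  congr 1
  · apply Finset.sum_congr rfl
    intro j _
    apply Finset.sum_congr rfl
    intro l _
    rw [mul_assoc, mul_assoc, coeff_C_mul, coeff_C_mul]
    have h2 : (X l : MvPolynomial (Fin n) K) * MvPolynomial.map (algebraMap ℂ K)
        (pderiv j (tup x₀ i)) = MvPolynomial.map (algebraMap ℂ K) (X l * pderiv j (tup x₀ i)) := by
      rw [map_mul, map_X]
    rw [h2, coeff_map, hℓ2]
  · apply Finset.sum_congr rfl
    intro j _
    rw [coeff_C_mul, coeff_C_mul, coeff_map, hℓ2]

end Pool.Agent.Lib.MP_4fcc12_ag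
end

section
/-!
Module FR: functions on the group which are invariant under the stabilizer come from functions on
the closed orbit.
-/
open MvPolynomial Matrix

namespace Pool.Agent.Lib.MP_4fcc12_ag

namespace FR

variable {n : ℕ} {κ : Type} (A : Actn n κ)

/-- the generic point of the orbit -/
noncomputable def genA (x₀ : κ → ℂ) : κ → MvPolynomial (Grp n) ℂ :=
  A.app (fun j => C (x₀ j)) (gX n ℂ) (aX n ℂ)

lemma aeval_genA {R : Type*} [CommRing R] [Algebra ℂ R] (x₀ : κ → ℂ)
    (g a : Matrix (Fin n) (Fin n) R) (p : κ) :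
    aeval (gpt g a) (genA A x₀ p) = A.app (fun j => algebraMap ℂ R (x₀ j)) g a p := by
  have h1 := congrFun (A.map_app (aeval (gpt g a) : MvPolynomial (Grp n) ℂ →ₐ[ℂ] R)
    (fun j => (C (x₀ j) : MvPolynomial (Grp n) ℂ)) (gX n ℂ) (aX n ℂ)) p
  have h2 : ((aeval (gpt g a) : MvPolynomial (Grp n) ℂ →ₐ[ℂ] R) ∘
      fun j => (C (x₀ j) : MvPolynomial (Grp n) ℂ)) = fun j => algebraMap ℂ R (x₀ j) := by
    funext j
    exact aeval_C _ _
  rw [h2, Tan.gX_map_aeval, Tan.aX_map_aeval] at h1
  exact h1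

lemma eval_genA_aeval (x₀ : κ → ℂ) (g a : Matrix (Fin n) (Fin n) ℂ) (P : MvPolynomial κ ℂ) :
    eval (gpt g a) (aeval (genA A x₀) P) = eval (A.app x₀ g a) P := by
  have h1 : (aeval (gpt g a) : MvPolynomial (Grp n) ℂ →ₐ[ℂ] ℂ).comp (aeval (genA A x₀)) =
      (aeval (A.app x₀ g a) : MvPolynomial κ ℂ →ₐ[ℂ] ℂ) := by
    apply MvPolynomial.algHom_ext
    intro p
    rw [AlgHom.comp_apply, aeval_X, aeval_X, aeval_genA]
    rfl
  exact congrArg (fun ψ => ψ P) h1

lemma eq_of_eval {E E' : MvPolynomial (Grp n) ℂ}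
    (h : ∀ g a : Matrix (Fin n) (Fin n) ℂ, g.det ≠ 0 → a.det ≠ 0 →
      eval (gpt g a) E = eval (gpt g a) E') : E = E' := by
  rw [← sub_eq_zero]
  apply Tan.eq_zero_of_eval
  intro g a hg ha
  have h1 := h g a hg ha
  show eval (gpt g a) (E - E') = 0
  rw [map_sub, h1, sub_self]

/-- the ideal of denominators -/
def den (x₀ : κ → ℂ) {ι : Type} (q : ι → MvPolynomial (Grp n) ℂ) (M : ℕ) :
    Ideal (MvPolynomial κ ℂ) where
  carrier := {c | ∀ i, ∃ Q : MvPolynomial κ ℂ,
    aeval (genA A x₀) c * q i = aeval (genA A x₀) Q * dd ℂ M M}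
  add_mem' := by
    intro c c' hc hc' i
    obtain ⟨Q, hQ⟩ := hc i
    obtain ⟨Q', hQ'⟩ := hc' i
    refine ⟨Q + Q', ?_⟩
    rw [map_add, map_add, add_mul, add_mul, hQ, hQ']
  zero_mem' := fun i => ⟨0, by simp⟩
  smul_mem' := by
    intro c c' hc' i
    obtain ⟨Q, hQ⟩ := hc' i
    refine ⟨c * Q, ?_⟩
    rw [smul_eq_mul, map_mul, map_mul, mul_assoc, hQ, mul_assoc]

/-- the field theoretic step: a denominator for one function -/
lemma exists_denominator [Finite κ] [A.IsAction] (x₀ : κ → ℂ) (q : MvPolynomial (Grp n) ℂ) (M : ℕ)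
    (hq : ∀ (s s' g a : Matrix (Fin n) (Fin n) ℂ), s.det ≠ 0 → s'.det ≠ 0 → g.det ≠ 0 →
      a.det ≠ 0 → A.app x₀ s s' = x₀ →
      eval (gpt (s * g) (a * s')) q = (s.det * s'.det) ^ M * eval (gpt g a) q) :
    ∃ c Q : MvPolynomial κ ℂ, aeval (genA A x₀) c ≠ 0 ∧
      aeval (genA A x₀) c * q = aeval (genA A x₀) Q * dd ℂ M M := by
  classical
  let T := MvPolynomial (Grp n) ℂ
  let K := FractionRing T
  let ι : T →ₐ[ℂ] K := IsScalarTower.toAlgHom ℂ T K
  have hι : Function.Injective ι := IsFractionRing.injective T K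
  have hdd : ι (dd ℂ M M) ≠ 0 := by
    intro h
    rw [← map_zero ι] at h
    exact dd_ne_zero ℂ M M (hι h)
  let W : κ → K := fun k => ι (genA A x₀ k)
  let F : IntermediateField ℂ K := IntermediateField.adjoin ℂ (Set.range W)
  let b : K := ι q / ι (dd ℂ M M)
  have haev : ∀ P : MvPolynomial κ ℂ, aeval W P = ι (aeval (genA A x₀) P) := by
    intro P
    rw [← AlgHom.comp_apply, comp_aeval]
  by_cases hb : b ∈ F
  · rw [IntermediateField.mem_adjoin_range_iff] at hb
    obtain ⟨Q, c, hQc⟩ := hb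
    rw [haev, haev] at hQc
    by_cases hc : aeval (genA A x₀) c = 0
    · -- then `q = 0`
      have h1 : ι q = 0 := by
        rw [hc, map_zero, div_zero] at hQc
        have h2 : ι q / ι (dd ℂ M M) = 0 := hQc
        rcases div_eq_zero_iff.1 h2 with h3 | h3
        · exact h3
        · exact absurd h3 hdd
      have h2 : q = 0 := hι (by rw [h1, map_zero])
      exact ⟨1, 0, by simp, by rw [h2]; simp⟩
    · refine ⟨c, Q, hc, ?_⟩
      apply hι
      rw [map_mul, map_mul]
      have h1 : ι q / ι (dd ℂ M M) = ι (aeval (genA A x₀) Q) / ι (aeval (genA A x₀) c) := hQc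
      have hc' : ι (aeval (genA A x₀) c) ≠ 0 := by
        intro h
        rw [← map_zero ι] at h
        exact hc (hι h)
      rw [div_eq_div_iff hdd hc'] at h1
      rw [mul_comm, h1]
  · exfalso
    have hb' : b ∉ (algebraMap F K).range := by
      rintro ⟨y, hy⟩
      apply hb
      rw [← hy]
      exact y.2
    obtain ⟨Ω, _, σ₁, σ₂, hσ, hne⟩ := statementFIELD F K b hb'
    have hσF : ∀ y ∈ F, σ₁ y = σ₂ y := fun y hy => hσ ⟨y, hy⟩
    let _ : Algebra ℂ Ω := (σ₁.comp (algebraMap ℂ K)).toAlgebra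
    let τ₁ : T →ₐ[ℂ] Ω := { σ₁.comp (ι : T →+* K) with
      commutes' := by
        intro c
        show σ₁ (ι (algebraMap ℂ T c)) = σ₁ (algebraMap ℂ K c)
        rw [ι.commutes] }
    let τ₂ : T →ₐ[ℂ] Ω := { σ₂.comp (ι : T →+* K) with
      commutes' := by
        intro c
        show σ₂ (ι (algebraMap ℂ T c)) = σ₁ (algebraMap ℂ K c)
        rw [ι.commutes]
        exact (hσF _ (F.algebraMap_mem c)).symm }
    have hτ₁ : ∀ y, τ₁ y = σ₁ (ι y) := fun y => rfl
    have hτ₂ : ∀ y, τ₂ y = σ₂ (ι y) := fun y => rfl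
    have hτ₁inj : Function.Injective τ₁ := σ₁.injective.comp hι
    have hτ₂inj : Function.Injective τ₂ := σ₂.injective.comp hι
    have hdg : (gX n ℂ).det ≠ 0 := by
      intro h
      have h1 := dd_ne_zero (n := n) ℂ 1 0
      rw [dd, h] at h1
      simp at h1
    have hda : (aX n ℂ).det ≠ 0 := by
      intro h
      have h1 := dd_ne_zero (n := n) ℂ 0 1
      rw [dd, h] at h1
      simp at h1
    have hdet : ∀ (τ : T →ₐ[ℂ] Ω), Function.Injective τ → ∀ N : Matrix (Fin n) (Fin n) T,
        N.det ≠ 0 → IsUnit (N.map τ).det := by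
      intro τ hτ N hN
      rw [isUnit_iff_ne_zero]
      intro h
      have h1 : τ N.det = (N.map τ).det := AlgHom.map_det τ N
      rw [h, ← map_zero τ] at h1
      exact hN (hτ h1)
    let g₁ := (gX n ℂ).map τ₁
    let a₁ := (aX n ℂ).map τ₁
    let g₂ := (gX n ℂ).map τ₂
    let a₂ := (aX n ℂ).map τ₂
    have hg₁ : IsUnit g₁.det := hdet τ₁ hτ₁inj _ hdg
    have ha₁ : IsUnit a₁.det := hdet τ₁ hτ₁inj _ hda
    have hg₂ : IsUnit g₂.det := hdet τ₂ hτ₂inj _ hdg
    have ha₂ : IsUnit a₂.det := hdet τ₂ hτ₂inj _ hda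
    let y₀ : κ → Ω := fun j => algebraMap ℂ Ω (x₀ j)
    have happ : ∀ τ : T →ₐ[ℂ] Ω, A.app y₀ ((gX n ℂ).map τ) ((aX n ℂ).map τ) =
        fun k => τ (genA A x₀ k) := by
      intro τ
      have h1 := A.map_app τ (fun j => (C (x₀ j) : T)) (gX n ℂ) (aX n ℂ)
      have h2 : (τ ∘ fun j => (C (x₀ j) : T)) = y₀ := by
        funext j
        exact τ.commutes (x₀ j)
      rw [h2] at h1
      exact h1.symm
    have heq : A.app y₀ g₁ a₁ = A.app y₀ g₂ a₂ := by
      rw [happ τ₁, happ τ₂]
      funext k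
      rw [hτ₁, hτ₂]
      exact hσF _ (IntermediateField.subset_adjoin ℂ _ ⟨k, rfl⟩)
    let s := g₁ * g₂⁻¹
    let s' := a₂⁻¹ * a₁
    have hstab : A.app y₀ s s' = y₀ := by
      have h1 := congrArg (fun z => A.app z g₂⁻¹ a₂⁻¹) heq
      simp only [A.app_app] at h1
      rw [Matrix.mul_nonsing_inv _ hg₂, Matrix.nonsing_inv_mul _ ha₂, A.app_one] at h1
      exact h1
    have hsg : s * g₂ = g₁ := by
      show g₁ * g₂⁻¹ * g₂ = g₁
      rw [Matrix.mul_assoc, Matrix.nonsing_inv_mul _ hg₂, Matrix.mul_one]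
    have has : a₂ * s' = a₁ := by
      show a₂ * (a₂⁻¹ * a₁) = a₁
      rw [← Matrix.mul_assoc, Matrix.mul_nonsing_inv _ ha₂, Matrix.one_mul]
    -- the invariance over `Ω`
    have key : aeval (gpt (s * g₂) (a₂ * s')) q = (s.det * s'.det) ^ M * aeval (gpt g₂ a₂) q := by
      by_contra hcon
      -- generic matrices
      let U := MvPolynomial (Grp n ⊕ Grp n) ℂ
      let S : Matrix (Fin n) (Fin n) U := Matrix.of fun i j => X (Sum.inl (Sum.inl (i, j)))
      let S' : Matrix (Fin n) (Fin n) U := Matrix.of fun i j => X (Sum.inl (Sum.inr (i, j)))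
      let G : Matrix (Fin n) (Fin n) U := Matrix.of fun i j => X (Sum.inr (Sum.inl (i, j)))
      let A' : Matrix (Fin n) (Fin n) U := Matrix.of fun i j => X (Sum.inr (Sum.inr (i, j)))
      let P : κ → U := fun k => A.app (fun j => (C (x₀ j) : U)) S S' k - C (x₀ k)
      let Φ : U := aeval (gpt (S * G) (A' * S')) q - (S.det * S'.det) ^ M * aeval (gpt G A') q
      let Q : U := Φ * (S.det * S'.det * G.det * A'.det)
      have hmap : ∀ {R : Type} [CommRing R] [Algebra ℂ R] (t t' h h' : Matrix (Fin n) (Fin n) R),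
          (∀ k, aeval (Sum.elim (gpt t t') (gpt h h')) (P k) =
            A.app (fun j => algebraMap ℂ R (x₀ j)) t t' k - algebraMap ℂ R (x₀ k)) ∧
          aeval (Sum.elim (gpt t t') (gpt h h')) Q =
            (aeval (gpt (t * h) (h' * t')) q - (t.det * t'.det) ^ M * aeval (gpt h h') q) *
              (t.det * t'.det * h.det * h'.det) := by
        intro R _ _ t t' h h'
        let ev : U →ₐ[ℂ] R := aeval (Sum.elim (gpt t t') (gpt h h'))
        have e1 : S.map ev = t := Matrix.ext fun i j => aeval_X _ _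
        have e2 : S'.map ev = t' := Matrix.ext fun i j => aeval_X _ _
        have e3 : G.map ev = h := Matrix.ext fun i j => aeval_X _ _
        have e4 : A'.map ev = h' := Matrix.ext fun i j => aeval_X _ _
        have hd : ∀ N : Matrix (Fin n) (Fin n) U, ev N.det = (N.map ev).det :=
          fun N => AlgHom.map_det ev N
        have hgp : ∀ N N' : Matrix (Fin n) (Fin n) U,
            ev (aeval (gpt N N') q) = aeval (gpt (N.map ev) (N'.map ev)) q := by
          intro N N'
          rw [← AlgHom.comp_apply, comp_aeval]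
          congr 2
          funext p
          rcases p with p | p <;> rfl
        constructor
        · intro k
          show ev (A.app (fun j => (C (x₀ j) : U)) S S' k - C (x₀ k)) = _
          rw [map_sub]
          have h1 := congrFun (A.map_app ev (fun j => (C (x₀ j) : U)) S S') k
          have h2 : (ev ∘ fun j => (C (x₀ j) : U)) = fun j => algebraMap ℂ R (x₀ j) := by
            funext j
            exact ev.commutes (x₀ j)
          rw [h2, e1, e2] at h1
          have h3 : ev (C (x₀ k)) = algebraMap ℂ R (x₀ k) := ev.commutes (x₀ k)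
          rw [h3, ← h1]
          rfl
        · show ev (Φ * (S.det * S'.det * G.det * A'.det)) = _
          rw [map_mul, map_mul, map_mul, map_mul, hd, hd, hd, hd, e1, e2, e3, e4]
          congr 1
          show ev (aeval (gpt (S * G) (A' * S')) q - (S.det * S'.det) ^ M * aeval (gpt G A') q) = _
          have e5 : (S * G).map ev = t * h := by
            rw [Matrix.map_mul, e1, e3]
          have e6 : (A' * S').map ev = h' * t' := by
            rw [Matrix.map_mul, e4, e2]
          rw [map_sub, map_mul, map_pow, map_mul, hd, hd, hgp, hgp, e1, e2, e3, e4, e5, e6]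
      obtain ⟨hm1, hm2⟩ := hmap s s' g₂ a₂
      obtain ⟨y, hy1, hy2⟩ := exists_point' P Q (Sum.elim (gpt s s') (gpt g₂ a₂))
        (by
          intro k
          rw [hm1 k]
          have h1 := congrFun hstab k
          rw [sub_eq_zero]
          exact h1)
        (by
          rw [hm2]
          refine mul_ne_zero (sub_ne_zero.2 hcon) ?_
          have hs : s.det ≠ 0 := by
            rw [Matrix.det_mul]
            exact mul_ne_zero hg₁.ne_zero (Matrix.isUnit_nonsing_inv_det _ hg₂).ne_zero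
          have hs' : s'.det ≠ 0 := by
            rw [Matrix.det_mul]
            exact mul_ne_zero (Matrix.isUnit_nonsing_inv_det _ ha₂).ne_zero ha₁.ne_zero
          exact mul_ne_zero (mul_ne_zero (mul_ne_zero hs hs') hg₂.ne_zero) ha₂.ne_zero)
      let t : Matrix (Fin n) (Fin n) ℂ := Matrix.of fun i j => y (Sum.inl (Sum.inl (i, j)))
      let t' : Matrix (Fin n) (Fin n) ℂ := Matrix.of fun i j => y (Sum.inl (Sum.inr (i, j)))
      let h : Matrix (Fin n) (Fin n) ℂ := Matrix.of fun i j => y (Sum.inr (Sum.inl (i, j)))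
      let h' : Matrix (Fin n) (Fin n) ℂ := Matrix.of fun i j => y (Sum.inr (Sum.inr (i, j)))
      have hy : y = Sum.elim (gpt t t') (gpt h h') := by
        funext p
        rcases p with (p | p) | (p | p) <;> rfl
      obtain ⟨hn1, hn2⟩ := hmap t t' h h'
      have h3 : A.app x₀ t t' = x₀ := by
        funext k
        have h4 := hy1 k
        have h5 : (aeval (Sum.elim (gpt t t') (gpt h h')) (P k) : ℂ) = 0 := by
          rw [← hy]
          exact h4
        rw [hn1 k, sub_eq_zero] at h5
        exact h5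
      have h6 : (aeval (Sum.elim (gpt t t') (gpt h h')) Q : ℂ) ≠ 0 := by
        rw [← hy]
        exact hy2
      rw [hn2] at h6
      obtain ⟨h7, h8⟩ := mul_ne_zero_iff.1 h6
      obtain ⟨h9, h10⟩ := mul_ne_zero_iff.1 h8
      obtain ⟨h11, h12⟩ := mul_ne_zero_iff.1 h9
      obtain ⟨h13, h14⟩ := mul_ne_zero_iff.1 h11
      exact h7 (sub_eq_zero.2 (hq t t' h h' h13 h14 h12 h10 h3))
    rw [hsg, has] at key
    -- conclusion
    have hτq : ∀ (τ : T →ₐ[ℂ] Ω), aeval (gpt ((gX n ℂ).map τ) ((aX n ℂ).map τ)) q = τ q := by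
      intro τ
      have h1 : (aeval (gpt ((gX n ℂ).map τ) ((aX n ℂ).map τ)) : T →ₐ[ℂ] Ω) = τ := by
        apply MvPolynomial.algHom_ext
        rintro (⟨i, j⟩ | ⟨i, j⟩)
        · rw [aeval_X]; rfl
        · rw [aeval_X]; rfl
      rw [h1]
    have hτdd : ∀ (τ : T →ₐ[ℂ] Ω), τ (dd ℂ M M) =
        (((gX n ℂ).map τ).det * ((aX n ℂ).map τ).det) ^ M := by
      intro τ
      rw [dd, map_mul, map_pow, map_pow, AlgHom.map_det, AlgHom.map_det, mul_pow]
      rfl
    apply hne
    show σ₁ (ι q / ι (dd ℂ M M)) = σ₂ (ι q / ι (dd ℂ M M))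
    rw [map_div₀, map_div₀, ← hτ₁, ← hτ₁, ← hτ₂, ← hτ₂]
    have e1 : τ₁ q = (s.det * s'.det) ^ M * τ₂ q := by
      rw [← hτq τ₁, ← hτq τ₂]
      exact key
    have e2 : τ₁ (dd ℂ M M) = (s.det * s'.det) ^ M * τ₂ (dd ℂ M M) := by
      rw [hτdd τ₁, hτdd τ₂, ← mul_pow]
      congr 1
      show g₁.det * a₁.det = s.det * s'.det * (g₂.det * a₂.det)
      have h1 : g₁.det = s.det * g₂.det := by rw [← Matrix.det_mul, hsg]
      have h2 : a₁.det = a₂.det * s'.det := by rw [← Matrix.det_mul, has]
      rw [h1, h2]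
      ring
    have hss : (s.det * s'.det) ^ M ≠ 0 := by
      apply pow_ne_zero
      have hs : s.det ≠ 0 := by
        rw [Matrix.det_mul]
        exact mul_ne_zero hg₁.ne_zero (Matrix.isUnit_nonsing_inv_det _ hg₂).ne_zero
      have hs' : s'.det ≠ 0 := by
        rw [Matrix.det_mul]
        exact mul_ne_zero (Matrix.isUnit_nonsing_inv_det _ ha₂).ne_zero ha₁.ne_zero
      exact mul_ne_zero hs hs'
    rw [e1, e2, mul_div_mul_left _ _ hss]

end FR

/-- MODULE FR. -/
theorem statementFR : StatementFR := by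
  classical
  intro n κ _ A _ Δ r₁ r₂ hΔ x₀ hx₀ hclosed ι _ q M hleft hright
  -- a common denominator
  have hden : ∀ i, ∃ c Q : MvPolynomial κ ℂ, aeval (FR.genA A x₀) c ≠ 0 ∧
      aeval (FR.genA A x₀) c * q i = aeval (FR.genA A x₀) Q * dd ℂ M M :=
    fun i => FR.exists_denominator A x₀ (q i) M (hleft i)
  choose c Q hc hQ using hden
  let c₀ : MvPolynomial κ ℂ := ∏ i, c i
  have hc₀ : aeval (FR.genA A x₀) c₀ ≠ 0 := by
    rw [map_prod]
    exact Finset.prod_ne_zero_iff.2 fun i _ => hc i
  have hc₀mem : c₀ ∈ FR.den A x₀ q M := by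
    intro i
    refine ⟨(∏ j ∈ Finset.univ.erase i, c j) * Q i, ?_⟩
    have h1 : c₀ = (∏ j ∈ Finset.univ.erase i, c j) * c i :=
      (Finset.prod_erase_mul _ _ (Finset.mem_univ i)).symm
    rw [h1, map_mul, map_mul, mul_assoc, hQ i, mul_assoc]
  -- a point of the orbit where `c₀` does not vanish
  obtain ⟨g₀, a₀, hg₀, ha₀, hne₀⟩ : ∃ g₀ a₀ : Matrix (Fin n) (Fin n) ℂ, g₀.det ≠ 0 ∧ a₀.det ≠ 0 ∧
      eval (A.app x₀ g₀ a₀) c₀ ≠ 0 := by
    by_contra hcon
    push Not at hcon
    apply hc₀
    apply Tan.eq_zero_of_eval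
    intro g a hg ha
    have h1 := hcon g a hg ha
    rw [← FR.eval_genA_aeval] at h1
    exact h1
  -- translation
  have htrans : ∀ (g' a' : Matrix (Fin n) (Fin n) ℂ), g'.det ≠ 0 → a'.det ≠ 0 →
      ∃ c' ∈ FR.den A x₀ q M, ∀ y : κ → ℂ, eval y c' = eval (A.app y g' a') c₀ := by
    intro g' a' hg' ha'
    let tr : MvPolynomial κ ℂ →ₐ[ℂ] MvPolynomial κ ℂ :=
      aeval (A.app (fun j => (X j : MvPolynomial κ ℂ)) (g'.map C) (a'.map C))
    have htr : ∀ (P : MvPolynomial κ ℂ) (y : κ → ℂ), eval y (tr P) = eval (A.app y g' a') P := by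
      intro P y
      have h1 : (aeval y : MvPolynomial κ ℂ →ₐ[ℂ] ℂ).comp tr =
          (aeval (A.app y g' a') : MvPolynomial κ ℂ →ₐ[ℂ] ℂ) := by
        apply MvPolynomial.algHom_ext
        intro p
        rw [AlgHom.comp_apply, aeval_X, aeval_X]
        have h2 := congrFun (A.map_app (aeval y : MvPolynomial κ ℂ →ₐ[ℂ] ℂ)
          (fun j => (X j : MvPolynomial κ ℂ)) (g'.map C) (a'.map C)) p
        have h3 : ((aeval y : MvPolynomial κ ℂ →ₐ[ℂ] ℂ) ∘
            fun j => (X j : MvPolynomial κ ℂ)) = y := by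
          funext j
          exact aeval_X _ _
        have h4 : ∀ N : Matrix (Fin n) (Fin n) ℂ, (N.map C).map
            (aeval y : MvPolynomial κ ℂ →ₐ[ℂ] ℂ) = N := by
          intro N
          refine Matrix.ext fun i j => ?_
          exact aeval_C _ _
        rw [h3, h4, h4] at h2
        exact h2
      exact congrArg (fun ψ => ψ P) h1
    refine ⟨tr c₀, ?_, htr c₀⟩
    intro i
    obtain ⟨d, hd⟩ := hright i g'⁻¹ a'⁻¹
      (Matrix.isUnit_nonsing_inv_det _ (isUnit_iff_ne_zero.2 hg')).ne_zero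
      (Matrix.isUnit_nonsing_inv_det _ (isUnit_iff_ne_zero.2 ha')).ne_zero
    choose R hR using hc₀mem
    refine ⟨tr (∑ j, C (d j * (g'.det * a'.det) ^ M) * R j), ?_⟩
    apply FR.eq_of_eval
    intro g a hg ha
    rw [map_mul, map_mul, FR.eval_genA_aeval, FR.eval_genA_aeval, htr, htr, A.app_app, eval_dd]
    have h1 : eval (gpt g a) (q i) = ∑ j, d j * eval (gpt (g * g') (a' * a)) (q j) := by
      rw [← hd (g * g') (a' * a) (by rw [Matrix.det_mul]; exact mul_ne_zero hg hg')
        (by rw [Matrix.det_mul]; exact mul_ne_zero ha' ha)]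
      rw [Matrix.mul_assoc, Matrix.mul_nonsing_inv _ (isUnit_iff_ne_zero.2 hg'), Matrix.mul_one,
        ← Matrix.mul_assoc, Matrix.nonsing_inv_mul _ (isUnit_iff_ne_zero.2 ha'), Matrix.one_mul]
    have h2 : ∀ j, eval (A.app x₀ (g * g') (a' * a)) c₀ * eval (gpt (g * g') (a' * a)) (q j) =
        eval (A.app x₀ (g * g') (a' * a)) (R j) * ((g * g').det ^ M * (a' * a).det ^ M) := by
      intro j
      have h3 := congrArg (eval (gpt (g * g') (a' * a))) (hR j)
      rw [map_mul, map_mul, FR.eval_genA_aeval, FR.eval_genA_aeval, eval_dd] at h3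
      exact h3
    rw [h1, Finset.mul_sum, map_sum, Finset.sum_mul]
    apply Finset.sum_congr rfl
    intro j _
    rw [map_mul, eval_C, mul_left_comm, h2, Matrix.det_mul, Matrix.det_mul]
    ring
  -- `Δ` belongs to the radical of the ideal of denominators
  have hrad : Δ ∈ (FR.den A x₀ q M).radical := by
    rw [← MvPolynomial.vanishingIdeal_zeroLocus_eq_radical (K := ℂ)]
    intro y hy
    by_contra hΔy
    have hΔy' : eval y Δ ≠ 0 := hΔy
    have hy' : ∀ P ∈ FR.den A x₀ q M, eval y P = 0 := hy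
    obtain ⟨g₁, a₁, hg₁, ha₁, happ⟩ := hclosed y hΔy' (by
      intro P hP
      apply hy'
      intro i
      refine ⟨0, ?_⟩
      have h1 : aeval (FR.genA A x₀) P = 0 := by
        apply Tan.eq_zero_of_eval
        intro g a hg ha
        have h2 := hP g a hg ha
        rw [← FR.eval_genA_aeval] at h2
        exact h2
      rw [h1, map_zero, zero_mul, zero_mul])
    obtain ⟨c', hc', hc'ev⟩ := htrans (g₁⁻¹ * g₀) (a₀ * a₁⁻¹)
      (by
        rw [Matrix.det_mul]
        exact mul_ne_zero (Matrix.isUnit_nonsing_inv_det _ (isUnit_iff_ne_zero.2 hg₁)).ne_zero hg₀)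
      (by
        rw [Matrix.det_mul]
        exact mul_ne_zero ha₀ (Matrix.isUnit_nonsing_inv_det _ (isUnit_iff_ne_zero.2 ha₁)).ne_zero)
    have h3 := hy' c' hc'
    rw [hc'ev, ← happ, A.app_app, ← Matrix.mul_assoc,
      Matrix.mul_nonsing_inv _ (isUnit_iff_ne_zero.2 hg₁), Matrix.one_mul, Matrix.mul_assoc,
      Matrix.nonsing_inv_mul _ (isUnit_iff_ne_zero.2 ha₁), Matrix.mul_one] at h3
    exact hne₀ h3
  obtain ⟨m, hm⟩ := hrad
  choose R hR using hm
  refine ⟨m, R, fun i g a hg ha => ?_⟩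
  have h1 := congrArg (eval (gpt g a)) (hR i)
  rw [map_mul, map_mul, FR.eval_genA_aeval, FR.eval_genA_aeval, eval_dd, map_pow] at h1
  rw [mul_pow, ← h1, mul_comm]

end Pool.Agent.Lib.MP_4fcc12_ag
end
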