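import Pool.Agent.Lib.MP_4fcc12_ag.Spec3
import Pool.Agent.Lib.MP_4fcc12_ag.Lead
import Mathlib.RingTheory.Localization.Away.Basic
import Mathlib.RingTheory.FiniteType

/-!
Third round: rings of invariants.
-/

open MvPolynomial Matrix

namespace Pool.Agent.Lib.MP_4fcc12_ag

section semi

variable {n : ℕ} {κ : Type} {A : Actn n κ}

lemma Actn.Semi.mul {w₁ w₂ v₁ v₂ : ℕ} {P Q : MvPolynomial κ ℂ} (hP : A.Semi w₁ w₂ P)
    (hQ : A.Semi v₁ v₂ Q) : A.Semi (w₁ + v₁) (w₂ + v₂) (P * Q) := by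
  intro R _ _ x g a
  rw [map_mul, map_mul, hP, hQ]
  ring

lemma Actn.Semi.add {w₁ w₂ : ℕ} {P Q : MvPolynomial κ ℂ} (hP : A.Semi w₁ w₂ P)
    (hQ : A.Semi w₁ w₂ Q) : A.Semi w₁ w₂ (P + Q) := by
  intro R _ _ x g a
  rw [map_add, map_add, hP, hQ]
  ring

lemma Actn.Semi.C (c : ℂ) : A.Semi 0 0 (MvPolynomial.C c) := by
  intro R _ _ x g a
  rw [aeval_C, aeval_C]
  ring

lemma Actn.Semi.pow {w₁ w₂ : ℕ} {P : MvPolynomial κ ℂ} (hP : A.Semi w₁ w₂ P) (m : ℕ) :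
    A.Semi (m * w₁) (m * w₂) (P ^ m) := by
  intro R _ _ x g a
  rw [map_pow, map_pow, hP]
  ring

lemma Actn.Semi.sub {w₁ w₂ : ℕ} {P Q : MvPolynomial κ ℂ} (hP : A.Semi w₁ w₂ P)
    (hQ : A.Semi w₁ w₂ Q) : A.Semi w₁ w₂ (P - Q) := by
  intro R _ _ x g a
  rw [map_sub, map_sub, hP, hQ]
  ring

/-- the algebra of invariants in `ℂ[κ][1/Δ]` -/
noncomputable def invAlg (A : Actn n κ) (Δ : MvPolynomial κ ℂ) (r₁ r₂ : ℕ)
    (hΔ : A.Semi r₁ r₂ Δ) : Subalgebra ℂ (Localization.Away Δ) where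
  carrier := {b | ∃ (m : ℕ) (P : MvPolynomial κ ℂ), A.Semi (m * r₁) (m * r₂) P ∧
    b * algebraMap (MvPolynomial κ ℂ) (Localization.Away Δ) (Δ ^ m) =
      algebraMap (MvPolynomial κ ℂ) (Localization.Away Δ) P}
  mul_mem' := by
    rintro b b' ⟨m, P, hP, hb⟩ ⟨m', P', hP', hb'⟩
    refine ⟨m + m', P * P', ?_, ?_⟩
    · rw [add_mul, add_mul]
      exact Actn.Semi.mul hP hP'
    · rw [pow_add, map_mul, map_mul, ← hb, ← hb']
      ring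
  add_mem' := by
    rintro b b' ⟨m, P, hP, hb⟩ ⟨m', P', hP', hb'⟩
    refine ⟨m + m', P * Δ ^ m' + Δ ^ m * P', ?_, ?_⟩
    · rw [add_mul, add_mul]
      exact Actn.Semi.add (Actn.Semi.mul hP (Actn.Semi.pow hΔ m'))
        (Actn.Semi.mul (Actn.Semi.pow hΔ m) hP')
    · rw [pow_add, map_add, map_mul, map_mul, map_mul, ← hb, ← hb']
      ring
  algebraMap_mem' := by
    intro c
    refine ⟨0, MvPolynomial.C c, ?_, ?_⟩
    · rw [zero_mul, zero_mul]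
      exact Actn.Semi.C c
    · rw [pow_zero, map_one, mul_one, ← MvPolynomial.algebraMap_eq]
      exact IsScalarTower.algebraMap_apply ℂ (MvPolynomial κ ℂ) (Localization.Away Δ) c

end semi

/-- The standing data: `Δ` is a resultant for `n` forms of degree `d - 1`. -/
structure RD (n d : ℕ) (Δ : MvPolynomial (Fin n × Mon n (d - 1)) ℂ) (r₁ r₂ : ℕ) : Prop where
  hn : 2 ≤ n
  hd : 3 ≤ d
  semi : (actT n (d - 1)).Semi r₁ r₂ Δ
  zero_iff : ∀ (K : Type) [Field K] [IsAlgClosed K] [Algebra ℂ K]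
    (x : Fin n × Mon n (d - 1) → K),
      aeval x Δ = 0 ↔ ∃ p : Fin n → K, p ≠ 0 ∧ ∀ i, eval p (tup x i) = 0

/-- MODULE RDF: elementary facts on the resultant. -/
def StatementRDF : Prop :=
  ∀ (n d : ℕ) (Δ : MvPolynomial (Fin n × Mon n (d - 1)) ℂ) (r₁ r₂ : ℕ), RD n d Δ r₁ r₂ →
    r₁ = (d - 1) * r₂ ∧ 1 ≤ r₂ ∧ gradPull n d Δ ≠ 0

/-- MODULE INT: valuative form of the integrality of invariants over the pull back of invariants
along the gradient (use `VC` and `semistable`). -/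
def StatementINT : Prop :=
  ∀ (n d : ℕ) (Δ : MvPolynomial (Fin n × Mon n (d - 1)) ℂ) (r₁ r₂ : ℕ), RD n d Δ r₁ r₂ →
    ∀ (K : Type) [Field K] [Algebra ℂ K] (O : ValuationSubring K),
    (∀ c : ℂ, algebraMap ℂ K c ∈ O) → ∀ x : Mon n d → K, aeval x (gradPull n d Δ) ≠ 0 →
    (∀ (m : ℕ) (Q : MvPolynomial (Fin n × Mon n (d - 1)) ℂ),
      (actT n (d - 1)).Semi (m * r₁) (m * r₂) Q →
      aeval x (gradPull n d Q) / (aeval x (gradPull n d Δ)) ^ m ∈ O) →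
    ∀ (m : ℕ) (P : MvPolynomial (Mon n d) ℂ), (actS n d).Semi (m * (r₁ + r₂)) 0 P →
      aeval x P / (aeval x (gradPull n d Δ)) ^ m ∈ O

/-- MODULE CTR: ideals of the ring of invariants are contracted (Reynolds operator). -/
def StatementCTR : Prop :=
  ∀ (n : ℕ) (κ : Type) [Finite κ] (A : Actn n κ) [A.IsAction] (Δ : MvPolynomial κ ℂ) (r₁ r₂ : ℕ)
    (hΔ : A.Semi r₁ r₂ Δ), Δ ≠ 0 →
    ∀ (𝔞 : Ideal (invAlg A Δ r₁ r₂ hΔ).toSubring) (φ : (invAlg A Δ r₁ r₂ hΔ).toSubring),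
      (φ : Localization.Away Δ) ∈ 𝔞.map (invAlg A Δ r₁ r₂ hΔ).toSubring.subtype → φ ∈ 𝔞

/-- MODULE FG: the ring of invariants is finitely generated (use `HILB`). -/
def StatementFG : Prop :=
  ∀ (n d : ℕ), 1 ≤ n → 1 ≤ d → ∀ (Δ : MvPolynomial (Mon n d) ℂ) (w : ℕ), 1 ≤ w → Δ ≠ 0 →
    ∀ hΔ : (actS n d).Semi w 0 Δ, Algebra.FiniteType ℂ (invAlg (actS n d) Δ w 0 hΔ)

/-- MODULE ORD: powers of the maximal ideal of a point of `ℂ[κ][1/Δ]`; translations. -/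
def StatementORD : Prop :=
  ∀ (κ : Type) [Finite κ] (Δ : MvPolynomial κ ℂ) (𝔐 : Ideal (Localization.Away Δ)),
    𝔐.IsMaximal → ∃ x₀ : κ → ℂ, eval x₀ Δ ≠ 0 ∧
      ∀ (k : ℕ) (P : MvPolynomial κ ℂ),
        algebraMap (MvPolynomial κ ℂ) (Localization.Away Δ) P ∈ 𝔐 ^ k ↔ OrdGE x₀ k P

/-- MODULE KEY: the main result, in terms of polynomials. -/
def StatementKEY : Prop :=
  ∀ (n d : ℕ) (Δ : MvPolynomial (Fin n × Mon n (d - 1)) ℂ) (r₁ r₂ : ℕ), RD n d Δ r₁ r₂ →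
    ∀ (m : ℕ) (P : MvPolynomial (Mon n d) ℂ), (actS n d).Semi (m * (r₁ + r₂)) 0 P →
    ∃ (m' : ℕ) (Q : MvPolynomial (Fin n × Mon n (d - 1)) ℂ),
      (actT n (d - 1)).Semi (m' * r₁) (m' * r₂) Q ∧
      gradPull n d Q * gradPull n d Δ ^ m = P * gradPull n d Δ ^ m'

/-- MODULE PT: the maximal ideal of a point. -/
def StatementPT : Prop :=
  ∀ (κ : Type) [Finite κ] (Δ : MvPolynomial κ ℂ) (x₀ : κ → ℂ), eval x₀ Δ ≠ 0 →
    ∃ 𝔐 : Ideal (Localization.Away Δ), 𝔐.IsMaximal ∧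
      ∀ P : MvPolynomial κ ℂ,
        algebraMap (MvPolynomial κ ℂ) (Localization.Away Δ) P ∈ 𝔐 ↔ eval x₀ P = 0

end Pool.Agent.Lib.MP_4fcc12_ag
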