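import Pool.Agent.Lib.MP_4fcc12_ag.Lead
import Mathlib.RingTheory.RootsOfUnity.Complex
import Mathlib.LinearAlgebra.LinearIndependent.Lemmas
import Mathlib.FieldTheory.Fixed
import Pool.Agent.Lib.MP_4fcc12_ag.Spec4
import Pool.Agent.Lib.MP_4fcc12_ag.Spec2
import Mathlib.RingTheory.Jacobson.Ring
import Mathlib.RingTheory.Localization.Submodule
import Mathlib.RingTheory.Nullstellensatz
import Mathlib.Analysis.Complex.Polynomial.Basic

section
open MvPolynomial Matrix

set_option linter.unusedSectionVars false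

namespace Pool.Agent.Lib.MP_4fcc12_ag

variable {n : ℕ} {κ : Type}

section lin

variable {R : Type*} [CommRing R]

lemma frm_smul {k : ℕ} (r : R) (x : Mon n k → R) : frm (fun j => r * x j) = C r * frm x := by
  simp only [frm, Finset.mul_sum, C_mul_monomial]

lemma cf_C_mul {k : ℕ} (r : R) (f : MvPolynomial (Fin n) R) :
    cf k (C r * f) = fun j => r * cf k f j := by
  funext j
  simp only [cf, coeff_C_mul]

lemma tup_add {k : ℕ} (x y : Fin n × Mon n k → R) : tup (x + y) = tup x + tup y := by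
  funext i
  simp only [tup, Pi.add_apply]
  exact frm_add _ _

lemma tup_smul {k : ℕ} (r : R) (x : Fin n × Mon n k → R) :
    tup (fun j => r * x j) = fun i => C r * tup x i := by
  funext i
  exact frm_smul _ _

lemma ct_C_mul {k : ℕ} (r : R) (F : Fin n → MvPolynomial (Fin n) R) :
    ct k (fun i => C r * F i) = fun j => r * ct k F j := by
  funext j
  simp only [ct, coeff_C_mul]

lemma act_C_mul (r : R) (F : Fin n → MvPolynomial (Fin n) R) (g a : Matrix (Fin n) (Fin n) R) :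
    act (fun i => C r * F i) g a = fun i => C r * act F g a i := by
  funext i
  simp only [act, map_mul, subst_C, Finset.mul_sum]
  apply Finset.sum_congr rfl
  intro j _
  ring

variable [Algebra ℂ R]

lemma actS_add {k : ℕ} (x y : Mon n k → R) (g a : Matrix (Fin n) (Fin n) R) :
    (actS n k).app (x + y) g a = (actS n k).app x g a + (actS n k).app y g a := by
  rw [actS_app, actS_app, actS_app, frm_add, map_add, cf_add]

lemma actS_smul {k : ℕ} (r : R) (x : Mon n k → R) (g a : Matrix (Fin n) (Fin n) R) :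
    (actS n k).app (fun j => r * x j) g a = fun j => r * (actS n k).app x g a j := by
  rw [actS_app, actS_app, frm_smul, map_mul, subst_C, cf_C_mul]

lemma actT_add {k : ℕ} (x y : Fin n × Mon n k → R) (g a : Matrix (Fin n) (Fin n) R) :
    (actT n k).app (x + y) g a = (actT n k).app x g a + (actT n k).app y g a := by
  rw [actT_app, actT_app, actT_app, tup_add, act_add, ct_add]

lemma actT_smul {k : ℕ} (r : R) (x : Fin n × Mon n k → R) (g a : Matrix (Fin n) (Fin n) R) :
    (actT n k).app (fun j => r * x j) g a = fun j => r * (actT n k).app x g a j := by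
  rw [actT_app, actT_app, tup_smul, act_C_mul, ct_C_mul]

end lin

section line

/-- the constant matrix -/
noncomputable def mC (g : Matrix (Fin n) (Fin n) ℂ) : Matrix (Fin n) (Fin n) (Polynomial ℂ) :=
  g.map Polynomial.C

lemma app_mC (A : Actn n κ) (x : κ → ℂ) (g a : Matrix (Fin n) (Fin n) ℂ) :
    A.app (fun j => (Polynomial.C (x j) : Polynomial ℂ)) (mC g) (mC a) =
      fun j => Polynomial.C (A.app x g a j) := by
  let φ : ℂ →ₐ[ℂ] Polynomial ℂ := Algebra.ofId ℂ (Polynomial ℂ)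
  exact (A.map_app φ x g a).symm

lemma actS_line {k : ℕ} (x₀ u : Mon n k → ℂ) (g a : Matrix (Fin n) (Fin n) ℂ) :
    (actS n k).app (fun j => (Polynomial.C (x₀ j) + Polynomial.X * Polynomial.C (u j) :
      Polynomial ℂ)) (mC g) (mC a) =
      fun j => Polynomial.C ((actS n k).app x₀ g a j) +
        Polynomial.X * Polynomial.C ((actS n k).app u g a j) := by
  have h1 : (fun j => (Polynomial.C (x₀ j) + Polynomial.X * Polynomial.C (u j) :
      Polynomial ℂ)) = (fun j => Polynomial.C (x₀ j)) +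
        fun j => Polynomial.X * Polynomial.C (u j) := rfl
  rw [h1, actS_add, actS_smul, app_mC, app_mC]
  rfl

lemma actT_line {k : ℕ} (x₀ u : Fin n × Mon n k → ℂ) (g a : Matrix (Fin n) (Fin n) ℂ) :
    (actT n k).app (fun j => (Polynomial.C (x₀ j) + Polynomial.X * Polynomial.C (u j) :
      Polynomial ℂ)) (mC g) (mC a) =
      fun j => Polynomial.C ((actT n k).app x₀ g a j) +
        Polynomial.X * Polynomial.C ((actT n k).app u g a j) := by
  have h1 : (fun j => (Polynomial.C (x₀ j) + Polynomial.X * Polynomial.C (u j) :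
      Polynomial ℂ)) = (fun j => Polynomial.C (x₀ j)) +
        fun j => Polynomial.X * Polynomial.C (u j) := rfl
  rw [h1, actT_add, actT_smul, app_mC, app_mC]
  rfl

lemma det_mC (g : Matrix (Fin n) (Fin n) ℂ) : (mC g).det = Polynomial.C g.det := by
  rw [mC, RingHom.map_det]
  rfl

/-- invariance of the leading form under the stabilizer -/
lemma leading_stab {k w : ℕ} {d : ℕ} {P : MvPolynomial (Mon n d) ℂ}
    (hP : (actS n d).Semi w 0 P) (c₀ : Mon n d → ℂ) {g : Matrix (Fin n) (Fin n) ℂ}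
    (hg : (actS n d).app c₀ g 1 = c₀) (hdet : g.det ^ w = 1) (u : Mon n d → ℂ) :
    eval ((actS n d).app u g 1) (hc c₀ k P) = eval u (hc c₀ k P) := by
  have h1 := hP (fun j => (Polynomial.C (c₀ j) + Polynomial.X * Polynomial.C (u j) :
      Polynomial ℂ)) (mC g) (mC 1)
  rw [actS_line, hg, det_mC, ← map_pow, hdet, map_one, pow_zero, one_mul, one_mul] at h1
  have h2 : lineEv c₀ ((actS n d).app u g 1) P = lineEv c₀ u P := by
    rw [lineEv, lineEv]
    exact h1
  rw [← coeff_lineEv, ← coeff_lineEv, h2]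

/-- the Lie derivative -/
noncomputable def lieS {R : Type*} [CommRing R] (ξ : Matrix (Fin n) (Fin n) R)
    (f : MvPolynomial (Fin n) R) : MvPolynomial (Fin n) R :=
  ∑ j, (∑ l, C (ξ j l) * X l) * pderiv j f

lemma lieS_add {R : Type*} [CommRing R] (ξ : Matrix (Fin n) (Fin n) R)
    (f g : MvPolynomial (Fin n) R) : lieS ξ (f + g) = lieS ξ f + lieS ξ g := by
  simp only [lieS, map_add, mul_add, Finset.sum_add_distrib]

lemma lieS_C_mul {R : Type*} [CommRing R] (ξ : Matrix (Fin n) (Fin n) R) (r : R)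
    (f : MvPolynomial (Fin n) R) : lieS ξ (C r * f) = C r * lieS ξ f := by
  simp only [lieS, pderiv_C_mul, Finset.mul_sum]
  apply Finset.sum_congr rfl
  intro j _
  ring

lemma lieS_C {R : Type*} [CommRing R] (ξ : Matrix (Fin n) (Fin n) R) (r : R) :
    lieS ξ (C r) = 0 := by
  simp [lieS]

lemma lieS_mul_X {R : Type*} [CommRing R] (ξ : Matrix (Fin n) (Fin n) R)
    (f : MvPolynomial (Fin n) R) (i : Fin n) :
    lieS ξ (f * X i) = lieS ξ f * X i + f * ∑ l, C (ξ i l) * X l := by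
  classical
  simp only [lieS, pderiv_mul, mul_add, Finset.sum_add_distrib, pderiv_X]
  congr 1
  · rw [Finset.sum_mul]
    apply Finset.sum_congr rfl
    intro j _
    ring
  · rw [Finset.sum_eq_single i]
    · rw [Pi.single_eq_same]
      ring
    · intro j _ hj
      rw [Pi.single_eq_of_ne hj.symm]
      ring
    · simp

lemma isHomogeneous_lieS {R : Type*} [CommRing R] (ξ : Matrix (Fin n) (Fin n) R)
    {f : MvPolynomial (Fin n) R} {d : ℕ} (hf : f.IsHomogeneous d) :
    (lieS ξ f).IsHomogeneous d := by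
  by_cases hd : d = 0
  · subst hd
    have h1 : f = C (coeff 0 f) := by
      exact totalDegree_eq_zero_iff_eq_C.1 ((totalDegree_zero_iff_isHomogeneous _).2 hf)
    rw [h1, lieS_C]
    exact isHomogeneous_zero _ _ _
  apply IsHomogeneous.sum
  intro j _
  have h1 : (∑ l, C (ξ j l) * X l : MvPolynomial (Fin n) R).IsHomogeneous 1 := by
    apply IsHomogeneous.sum
    intro l _
    exact isHomogeneous_C_mul_X _ _
  have := h1.mul (hf.pderiv (i := j))
  rwa [show 1 + (d - 1) = d by omega] at this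

lemma subst_expand {R : Type*} [CommRing R] (e : R) (ξ : Matrix (Fin n) (Fin n) R)
    (f : MvPolynomial (Fin n) R) :
    ∃ r, subst (1 + e • ξ) f = f + C e * lieS ξ f + C e ^ 2 * r := by
  induction f using MvPolynomial.induction_on with
  | C a => exact ⟨0, by rw [subst_C, lieS_C]; ring⟩
  | add p q hp hq =>
    obtain ⟨r, hr⟩ := hp
    obtain ⟨s, hs⟩ := hq
    exact ⟨r + s, by rw [map_add, hr, hs, lieS_add]; ring⟩
  | mul_X p i hp =>
    obtain ⟨r, hr⟩ := hp
    have h1 : subst (1 + e • ξ) (X i : MvPolynomial (Fin n) R) =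
        X i + C e * ∑ l, C (ξ i l) * X l := by
      rw [subst_X]
      simp only [Matrix.add_apply, Matrix.smul_apply, smul_eq_mul, map_add, map_mul, add_mul,
        Finset.sum_add_distrib, Finset.mul_sum]
      congr 1
      · rw [Finset.sum_eq_single i]
        · simp
        · intro j _ hj
          simp [Matrix.one_apply_ne hj.symm]
        · simp
      · apply Finset.sum_congr rfl
        intro l _
        ring
    refine ⟨lieS ξ p * (∑ l, C (ξ i l) * X l) + r * (X i + C e * ∑ l, C (ξ i l) * X l), ?_⟩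
    rw [map_mul, hr, h1, lieS_mul_X]
    ring

/-- invariance of the leading form under infinitesimal translations -/
lemma leading_lie {k w : ℕ} {d : ℕ} {P : MvPolynomial (Mon n d) ℂ}
    (hP : (actS n d).Semi w 0 P) (c₀ : Mon n d → ℂ) (hord : OrdGE c₀ k P)
    (ξ : Matrix (Fin n) (Fin n) ℂ) (u : Mon n d → ℂ) :
    eval (u + cf d (lieS ξ (frm c₀))) (hc c₀ k P) = eval u (hc c₀ k P) := by
  let E : Polynomial ℂ := Polynomial.X
  let g : Matrix (Fin n) (Fin n) (Polynomial ℂ) := 1 + E • mC ξ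
  let x : Mon n d → Polynomial ℂ := fun j => Polynomial.C (c₀ j) + E * Polynomial.C (u j)
  have h1 := hP x g 1
  rw [pow_zero, mul_one] at h1
  obtain ⟨r, hr⟩ := subst_expand E (mC ξ) (frm x)
  let y : Mon n d → Polynomial ℂ := fun j => Polynomial.C (u j) +
    (cf d (lieS (mC ξ) (frm x)) j + E * cf d r j)
  have happ : (actS n d).app x g 1 = fun j => Polynomial.C (c₀ j) + E * y j := by
    rw [actS_app, hr, cf_add, cf_add, cf_frm, cf_C_mul]
    have h2 : (C E ^ 2 * r : MvPolynomial (Fin n) (Polynomial ℂ)) = C (E ^ 2) * r := by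
      rw [map_pow]
    rw [h2, cf_C_mul]
    funext j
    simp only [Pi.add_apply, x, y]
    ring
  rw [happ] at h1
  have h3 := hord.curve y
  have h4 := hord.curve (fun j => Polynomial.C (u j))
  have hy : (fun j => (y j).coeff 0) = u + cf d (lieS ξ (frm c₀)) := by
    funext j
    simp only [y, Pi.add_apply, Polynomial.coeff_add, Polynomial.coeff_C_zero]
    have h5 : (E * cf d r j).coeff 0 = 0 := by
      simp [E]
    rw [h5, add_zero]
    congr 1
    have h6 : frm x = MvPolynomial.map Polynomial.C (frm c₀) +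
        C E * MvPolynomial.map Polynomial.C (frm u) := by
      rw [map_frm, map_frm, ← frm_smul, ← frm_add]
      rfl
    have h7 : lieS (mC ξ) (MvPolynomial.map Polynomial.C (frm c₀)) =
        MvPolynomial.map Polynomial.C (lieS ξ (frm c₀)) := by
      simp only [lieS, map_sum, map_mul, map_C, map_X, pderiv_map]
      rfl
    rw [h6, lieS_add, lieS_C_mul, h7, cf_add, cf_C_mul, cf_map]
    simp [E]
  rw [hy] at h3
  have hu : (fun j => ((fun j => Polynomial.C (u j)) j : Polynomial ℂ).coeff 0) = u := by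
    funext j
    simp
  rw [hu] at h4
  have hdet : Polynomial.X ∣ g.det ^ w - 1 := by
    rw [Polynomial.X_dvd_iff, Polynomial.coeff_zero_eq_eval_zero, Polynomial.eval_sub,
      Polynomial.eval_pow, Polynomial.eval_one]
    have h8 : Polynomial.eval 0 g.det = 1 := by
      have h9 : Polynomial.eval 0 g.det = (Polynomial.evalRingHom 0) g.det := rfl
      rw [h9, RingHom.map_det]
      have h10 : (Polynomial.evalRingHom (0 : ℂ)).mapMatrix g = 1 := by
        refine Matrix.ext fun i j => ?_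
        by_cases hij : i = j
        · subst hij
          simp [g, E, Matrix.add_apply]
        · simp [g, E, Matrix.add_apply, Matrix.one_apply_ne hij]
      rw [h10, det_one]
    rw [h8, one_pow, sub_self]
  obtain ⟨q, hq⟩ := hdet
  have hq' : g.det ^ w = 1 + Polynomial.X * q := by
    rw [← hq]
    ring
  rw [hq'] at h1
  -- compare coefficients of `X ^ k`
  obtain ⟨s, hs⟩ := h3
  obtain ⟨t, ht⟩ := h4
  have h5 : aeval (fun j => Polynomial.C (c₀ j) + E * y j) P =
      (1 + Polynomial.X * q) * aeval x P := h1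
  have hs' : aeval (fun j => Polynomial.C (c₀ j) + E * y j) P = Polynomial.X ^ k *
      Polynomial.C (eval (u + cf d (lieS ξ (frm c₀))) (hc c₀ k P)) +
        Polynomial.X ^ (k + 1) * s := by
    rw [← hs]
    ring
  have ht' : aeval x P = Polynomial.X ^ k * Polynomial.C (eval u (hc c₀ k P)) +
      Polynomial.X ^ (k + 1) * t := by
    rw [← ht]
    ring
  rw [hs', ht'] at h5
  have h6 := congrArg (fun p => Polynomial.coeff p k) h5
  have h7 : (1 + Polynomial.X * q) * (Polynomial.X ^ k * Polynomial.C (eval u (hc c₀ k P)) +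
      Polynomial.X ^ (k + 1) * t) = Polynomial.X ^ k * Polynomial.C (eval u (hc c₀ k P)) +
      Polynomial.X ^ (k + 1) * (t + q * Polynomial.C (eval u (hc c₀ k P)) +
        Polynomial.X * q * t) := by ring
  rw [h7] at h6
  have h8 : ∀ (c : ℂ) (p : Polynomial ℂ), (Polynomial.X ^ k * Polynomial.C c +
      Polynomial.X ^ (k + 1) * p).coeff k = c := by
    intro c p
    rw [Polynomial.coeff_add, Polynomial.coeff_X_pow_mul', Polynomial.coeff_X_pow_mul']
    simp
  simp only [h8] at h6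
  exact h6

end line

end Pool.Agent.Lib.MP_4fcc12_ag
end

section
open MvPolynomial Matrix

set_option linter.unusedSectionVars false

namespace Pool.Agent.Lib.MP_4fcc12_ag

variable {n : ℕ} {κ : Type}

section basic

/-- block degree of an exponent -/
def bdg (b : Fin n → Fin n) (α : Fin n →₀ ℕ) (a : Fin n) : ℕ :=
  ∑ i ∈ Finset.univ.filter (fun i => b i = a), α i

lemma bdg_add (b : Fin n → Fin n) (α β : Fin n →₀ ℕ) (a : Fin n) :
    bdg b (α + β) a = bdg b α a + bdg b β a := by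
  simp only [bdg, Finsupp.add_apply, Finset.sum_add_distrib]

lemma bdg_single (b : Fin n → Fin n) (i a : Fin n) (m : ℕ) :
    bdg b (Finsupp.single i m) a = if b i = a then m else 0 := by
  classical
  rw [bdg]
  split_ifs with h
  · rw [Finset.sum_eq_single i]
    · simp
    · intro j _ hj
      simp [hj.symm]
    · intro h2
      exact absurd (Finset.mem_filter.2 ⟨Finset.mem_univ i, h⟩) h2
  · apply Finset.sum_eq_zero
    intro j hj
    have : j ≠ i := by
      rintro rfl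
      exact h (Finset.mem_filter.1 hj).2
    simp [this.symm]

lemma sum_bdg (b : Fin n → Fin n) (α : Fin n →₀ ℕ) : ∑ a, bdg b α a = α.degree := by
  classical
  simp only [bdg]
  rw [Finsupp.degree_eq_sum]
  exact Finset.sum_fiberwise_of_maps_to (fun i _ => Finset.mem_univ (b i)) _

lemma bdg_of_supported (b : Fin n → Fin n) {β : Fin n →₀ ℕ} {c : Fin n}
    (h : ∀ l, β l ≠ 0 → b l = c) (a : Fin n) :
    bdg b β a = if c = a then β.degree else 0 := by
  classical
  rw [bdg]
  split_ifs with h1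
  · rw [Finsupp.degree_eq_sum, Finset.sum_filter]
    apply Finset.sum_congr rfl
    intro l _
    split_ifs with h2
    · rfl
    · by_contra h3
      exact h2 ((h l (Ne.symm h3)).trans h1)
  · apply Finset.sum_eq_zero
    intro l hl
    by_contra h2
    exact h1 ((h l h2).symm.trans (Finset.mem_filter.1 hl).2)

/-- products of powers of a block scalar -/
lemma prod_pow_bdg {M : Type*} [CommMonoid M] (b : Fin n → Fin n) (s : Fin n → M)
    (α : Fin n →₀ ℕ) : ∏ i, s (b i) ^ α i = ∏ a, s a ^ bdg b α a := by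
  classical
  rw [← Finset.prod_fiberwise_of_maps_to (fun i _ => Finset.mem_univ (b i))]
  apply Finset.prod_congr rfl
  intro a _
  rw [bdg, ← Finset.prod_pow_eq_pow_sum]
  apply Finset.prod_congr rfl
  intro i hi
  rw [(Finset.mem_filter.1 hi).2]

end basic

section proj

variable {d : ℕ} (b : Fin n → Fin n)

/-- projection on a block degree -/
noncomputable def prj (μ : Fin n → ℕ) : (Mon n d → ℂ) →ₗ[ℂ] (Mon n d → ℂ) where
  toFun v α := by classical exact if bdg b α.1 = μ then v α else 0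
  map_add' u v := by
    funext α
    by_cases h : bdg b α.1 = μ <;> simp [h]
  map_smul' c v := by
    funext α
    by_cases h : bdg b α.1 = μ <;> simp [h]

lemma prj_apply_pos {μ : Fin n → ℕ} (v : Mon n d → ℂ) {α : Mon n d} (h : bdg b α.1 = μ) :
    prj b μ v α = v α := by
  classical
  show (if bdg b α.1 = μ then v α else 0) = v α
  rw [if_pos h]

lemma prj_apply_neg {μ : Fin n → ℕ} (v : Mon n d → ℂ) {α : Mon n d} (h : bdg b α.1 ≠ μ) :
    prj b μ v α = 0 := by
  classical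
  show (if bdg b α.1 = μ then v α else 0) = 0
  rw [if_neg h]

/-- the tangent space of the orbit -/
noncomputable def lieMap (d : ℕ) (f : MvPolynomial (Fin n) ℂ) :
    Matrix (Fin n) (Fin n) ℂ →ₗ[ℂ] (Mon n d → ℂ) where
  toFun ξ := cf d (lieS ξ f)
  map_add' ξ η := by
    rw [← cf_add]
    congr 1
    simp only [lieS, Matrix.add_apply, map_add, add_mul, Finset.sum_add_distrib]
  map_smul' c ξ := by
    funext α
    have h1 : lieS (c • ξ) f = C c * lieS ξ f := by
      simp only [lieS, Matrix.smul_apply, smul_eq_mul, map_mul, Finset.mul_sum, Finset.sum_mul]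
      apply Finset.sum_congr rfl
      intro j _
      apply Finset.sum_congr rfl
      intro l _
      ring
    rw [h1, cf_C_mul]
    rfl

lemma lieMap_apply (f : MvPolynomial (Fin n) ℂ) (ξ : Matrix (Fin n) (Fin n) ℂ) :
    lieMap d f ξ = cf d (lieS ξ f) := rfl

lemma coeff_lieS (f : MvPolynomial (Fin n) ℂ) (ξ : Matrix (Fin n) (Fin n) ℂ)
    (α : Fin n →₀ ℕ) : coeff α (lieS ξ f) =
      ∑ j, ∑ l, ξ j l * coeff α (X l * pderiv j f) := by
  simp only [lieS, coeff_sum, Finset.sum_mul]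
  apply Finset.sum_congr rfl
  intro j _
  apply Finset.sum_congr rfl
  intro l _
  rw [mul_assoc, coeff_C_mul]

/-- the block degree of the monomials of `X l * ∂_j f₀` -/
lemma bdg_of_coeff_ne_zero {f : MvPolynomial (Fin n) ℂ} (hf : f.IsHomogeneous d)
    (hmix : ∀ i j, b i ≠ b j → pderiv i (pderiv j f) = 0) {α : Fin n →₀ ℕ} {j l : Fin n}
    (h : coeff α (X l * pderiv j f) ≠ 0) :
    bdg b α = fun a => (if b j = a then d - 1 else 0) + if b l = a then 1 else 0 := by
  classical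
  have h1 : X l * pderiv j f = pderiv j f * X l := mul_comm _ _
  rw [h1, coeff_mul_X'] at h
  split_ifs at h with h2
  · have h3 : α l ≠ 0 := Finsupp.mem_support_iff.1 h2
    funext a
    have h4 : α = (α - Finsupp.single l 1) + Finsupp.single l 1 := (sub_add_single_cancel h3).symm
    have hdeg : (α - Finsupp.single l 1).degree = d - 1 := by
      by_contra h5
      exact h (hf.pderiv.coeff_eq_zero h5)
    rw [h4, bdg_add, bdg_single,
      bdg_of_supported b (fun i hi => label_eq_of_coeff_ne_zero hmix h hi), hdeg]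
  · exact absurd rfl h

lemma prj_lieMap {f : MvPolynomial (Fin n) ℂ} (hf : f.IsHomogeneous d)
    (hmix : ∀ i j, b i ≠ b j → pderiv i (pderiv j f) = 0) (μ : Fin n → ℕ)
    (ξ : Matrix (Fin n) (Fin n) ℂ) : ∃ ξ', prj b μ (lieMap d f ξ) = lieMap d f ξ' := by
  classical
  refine ⟨Matrix.of fun j l => if (fun a => (if b j = a then d - 1 else 0) +
    if b l = a then 1 else 0) = μ then ξ j l else 0, ?_⟩
  funext α
  rw [lieMap_apply, lieMap_apply]
  simp only [cf]
  rw [coeff_lieS]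
  by_cases h : bdg b α.1 = μ
  · rw [prj_apply_pos b _ h]
    simp only [cf]
    rw [coeff_lieS]
    apply Finset.sum_congr rfl
    intro j _
    apply Finset.sum_congr rfl
    intro l _
    by_cases h1 : coeff α.1 (X l * pderiv j f) = 0
    · rw [h1, mul_zero, mul_zero]
    · rw [Matrix.of_apply, if_pos]
      rw [← bdg_of_coeff_ne_zero b hf hmix h1, h]
  · rw [prj_apply_neg b _ h]
    symm
    apply Finset.sum_eq_zero
    intro j _
    apply Finset.sum_eq_zero
    intro l _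
    by_cases h1 : coeff α.1 (X l * pderiv j f) = 0
    · rw [h1, mul_zero]
    · rw [Matrix.of_apply, if_neg, zero_mul]
      rw [← bdg_of_coeff_ne_zero b hf hmix h1]
      exact h

lemma exists_projection (N : Submodule ℂ (Mon n d → ℂ)) :
    ∃ π₀ : (Mon n d → ℂ) →ₗ[ℂ] (Mon n d → ℂ), (∀ v ∈ N, π₀ v = 0) ∧ ∀ v, π₀ v - v ∈ N := by
  obtain ⟨s, hs⟩ := N.mkQ.exists_rightInverse_of_surjective N.range_mkQ
  have hs' : ∀ x, N.mkQ (s x) = x := fun x => congrArg (fun f => f x) hs
  refine ⟨s.comp N.mkQ, ?_, ?_⟩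
  · intro v hv
    have h1 : N.mkQ v = 0 := (Submodule.Quotient.mk_eq_zero N).2 hv
    rw [LinearMap.comp_apply, h1, map_zero]
  · intro v
    rw [← Submodule.Quotient.mk_eq_zero N]
    show N.mkQ (s (N.mkQ v) - v) = 0
    rw [map_sub, hs', sub_self]

end proj

end Pool.Agent.Lib.MP_4fcc12_ag
end

section
open MvPolynomial Matrix

set_option linter.unusedSectionVars false

namespace Pool.Agent.Lib.MP_4fcc12_ag

variable {n : ℕ} {κ : Type}

section scale

lemma coeff_scale {σ R : Type*} [CommRing R] (t : σ → R) (P : MvPolynomial σ R) (m : σ →₀ ℕ) :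
    coeff m (aeval (fun j => C (t j) * X j) P) = (m.prod fun j e => t j ^ e) * coeff m P := by
  classical
  induction P using MvPolynomial.induction_on' with
  | monomial u a =>
    have h1 : aeval (fun j => C (t j) * X j) (monomial u a) =
        monomial u (a * u.prod fun j e => t j ^ e) := by
      rw [aeval_monomial, algebraMap_eq, monomial_eq (s := u)]
      simp only [mul_pow, Finsupp.prod, Finset.prod_mul_distrib, map_mul, map_prod, map_pow]
      ring
    rw [h1, coeff_monomial, coeff_monomial]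
    split_ifs with h
    · subst h
      ring
    · ring
  | add p q hp hq => rw [map_add, coeff_add, hp, hq, coeff_add, mul_add]

lemma exists_list {σ : Type*} : ∀ (k : ℕ) (m : σ →₀ ℕ), m.degree = k →
    ∃ L : Fin k → σ, m = ∑ l, Finsupp.single (L l) 1 := by
  classical
  intro k
  induction k with
  | zero =>
    intro m hm
    refine ⟨fun l => l.elim0, ?_⟩
    rw [Finset.univ_eq_empty, Finset.sum_empty]
    rwa [Finsupp.degree_eq_zero_iff] at hm
  | succ k ih =>
    intro m hm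
    obtain ⟨i, hi⟩ : ∃ i, m i ≠ 0 := by
      by_contra hall
      push Not at hall
      have h3 : m = 0 := Finsupp.ext hall
      rw [h3] at hm
      simp at hm
    have h1 : m - Finsupp.single i 1 + Finsupp.single i 1 = m :=
      tsub_add_cancel_of_le (Finsupp.single_le_iff.2 (Nat.one_le_iff_ne_zero.2 hi))
    have h2 : (m - Finsupp.single i 1).degree = k := by
      have h3 := congrArg Finsupp.degree h1
      rw [map_add, Finsupp.degree_single, hm] at h3
      omega
    obtain ⟨L, hL⟩ := ih _ h2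
    refine ⟨Fin.cons i L, ?_⟩
    rw [Fin.sum_univ_succ]
    simp only [Fin.cons_zero, Fin.cons_succ]
    rw [← hL, add_comm]
    exact h1.symm

lemma prod_of_list {σ R : Type*} [CommMonoid R] {k : ℕ} {m : σ →₀ ℕ} {L : Fin k → σ}
    (h : m = ∑ l, Finsupp.single (L l) 1) (x : σ → R) :
    (m.prod fun j e => x j ^ e) = ∏ l, x (L l) := by
  classical
  rw [h]
  have h1 : ∀ s : Finset (Fin k), ((∑ l ∈ s, Finsupp.single (L l) 1).prod fun j e => x j ^ e) =
      ∏ l ∈ s, x (L l) := by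
    intro s
    induction s using Finset.induction_on with
    | empty => simp
    | insert a s ha ih =>
      rw [Finset.sum_insert ha, Finset.prod_insert ha, Finsupp.prod_add_index' (by simp)
        (by intro a b c; rw [pow_add]), ih]
      simp
  exact h1 Finset.univ

end scale

section app

variable {d : ℕ} {b : Fin n → Fin n}

lemma label_eq_of_coeff_ne_zero' {f : MvPolynomial (Fin n) ℂ}
    (hmix : ∀ i j, b i ≠ b j → pderiv i (pderiv j f) = 0) {α : Fin n →₀ ℕ} (h : coeff α f ≠ 0)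
    {i j : Fin n} (hi : α i ≠ 0) (hj : α j ≠ 0) : b i = b j := by
  by_cases hij : i = j
  · rw [hij]
  have h1 : coeff (α - Finsupp.single j 1) (pderiv j f) ≠ 0 := by
    rw [coeff_pderiv, sub_add_single_cancel hj]
    exact mul_ne_zero h (Nat.cast_add_one_ne_zero _)
  refine label_eq_of_coeff_ne_zero (l := i) hmix h1 ?_
  rw [Finsupp.tsub_apply, Finsupp.single_eq_of_ne hij, tsub_zero]
  exact hi

lemma actS_diagonal (u : Mon n d → ℂ) (t : Fin n → ℂ) (a : Matrix (Fin n) (Fin n) ℂ)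
    (α : Mon n d) : (actS n d).app u (diagonal t) a α = (∏ i, t i ^ α.1 i) * u α := by
  rw [actS_app]
  show coeff α.1 (subst (diagonal t) (frm u)) = _
  rw [coeff_subst_diagonal]
  congr 1
  exact congrFun (cf_frm u) α

lemma actS_diagonal_stab {f : MvPolynomial (Fin n) ℂ}
    (hmix : ∀ i j, b i ≠ b j → pderiv i (pderiv j f) = 0) (hd : d ≠ 0) (s : Fin n → ℂ)
    (hs : ∀ a, s a ^ d = 1) (a : Matrix (Fin n) (Fin n) ℂ) :
    (actS n d).app (cf d f) (diagonal fun i => s (b i)) a = cf d f := by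
  classical
  funext α
  rw [actS_diagonal]
  by_cases h : cf d f α = 0
  · rw [h, mul_zero]
  · obtain ⟨j, hj⟩ : ∃ j, α.1 j ≠ 0 := by
      by_contra hall
      push Not at hall
      have h3 : α.1 = 0 := Finsupp.ext hall
      have h4 := α.2
      rw [h3] at h4
      simp at h4
      exact hd h4.symm
    have h1 : ∏ i, s (b i) ^ α.1 i = 1 := by
      have h2 : ∀ l, α.1 l ≠ 0 → b l = b j := fun l hl => label_eq_of_coeff_ne_zero' hmix h hl hj
      rw [prod_pow_bdg, Finset.prod_eq_single (b j)]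
      · rw [bdg_of_supported b h2, if_pos rfl, α.2, hs]
      · intro a _ ha
        rw [bdg_of_supported b h2, if_neg ha.symm, pow_zero]
      · simp
    rw [h1, one_mul]

/-- the monomials of the leading form have block degree divisible by `d` -/
lemma dvd_of_invariant {τ : MvPolynomial (Mon n d) ℂ} (hd : d ≠ 0)
    (hτ : ∀ (s : Fin n → ℂ), (∀ a, s a ^ d = 1) → ∀ u : Mon n d → ℂ,
      eval ((actS n d).app u (diagonal fun i => s (b i)) 1) τ = eval u τ)
    {m : Mon n d →₀ ℕ} (hm : coeff m τ ≠ 0) {k : ℕ} {L : Fin k → Mon n d}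
    (hL : m = ∑ l, Finsupp.single (L l) 1) (a : Fin n) : d ∣ ∑ l, bdg b (L l).1 a := by
  classical
  have hζ := Complex.isPrimitiveRoot_exp d hd
  set ζ := Complex.exp (2 * Real.pi * Complex.I / d) with hζdef
  let s : Fin n → ℂ := fun c => if c = a then ζ else 1
  have hs : ∀ c, s c ^ d = 1 := by
    intro c
    by_cases h : c = a
    · simp only [s, if_pos h]
      exact hζ.pow_eq_one
    · simp only [s, if_neg h, one_pow]
  let t : Mon n d → ℂ := fun α => ζ ^ bdg b α.1 a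
  have ht : ∀ α : Mon n d, ∏ i, s (b i) ^ α.1 i = t α := by
    intro α
    rw [prod_pow_bdg, Finset.prod_eq_single a]
    · simp only [s, t, if_pos rfl]
    · intro c _ hc
      simp only [s, if_neg hc, one_pow]
    · simp
  have h1 : aeval (fun j => C (t j) * X j) τ = τ := by
    apply MvPolynomial.funext
    intro u
    have h2 := hτ s hs u
    have h3 : (actS n d).app u (diagonal fun i => s (b i)) 1 = fun α => t α * u α := by
      funext α
      rw [actS_diagonal, ht]
    rw [h3] at h2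
    rw [← h2]
    have h4 : (aeval u).comp (aeval fun j => C (t j) * X j : MvPolynomial (Mon n d) ℂ →ₐ[ℂ] _) =
        aeval fun α => t α * u α := by
      apply MvPolynomial.algHom_ext
      intro j
      simp
    have h5 := congrArg (fun φ => φ τ) h4
    simpa [aeval_eq_eval] using h5
  have h2 := coeff_scale t τ m
  rw [h1, prod_of_list hL] at h2
  have h3 : ∏ l, t (L l) = 1 := by
    have h4 : (∏ l, t (L l)) * coeff m τ = 1 * coeff m τ := by rw [one_mul, ← h2]
    exact mul_right_cancel₀ hm h4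
  have h4 : ∏ l, t (L l) = ζ ^ ∑ l, bdg b (L l).1 a := by
    rw [← Finset.prod_pow_eq_pow_sum]
  rw [h4] at h3
  exact (hζ.pow_eq_one_iff_dvd _).1 h3

end app

section eps

variable {d : ℕ} (b : Fin n → Fin n)

/-- the partial Euler map -/
noncomputable def eps (d : ℕ) (a : Fin n) :
    (Fin n × Mon n (d - 1) → ℂ) →ₗ[ℂ] (Mon n d → ℂ) where
  toFun y := cf d (∑ i ∈ Finset.univ.filter (fun i => b i = a), X i * tup y i)
  map_add' y z := by
    rw [tup_add, ← cf_add]
    congr 1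
    simp only [Pi.add_apply, mul_add, Finset.sum_add_distrib]
  map_smul' c y := by
    have h1 : tup (c • y) = fun i => C c * tup y i := tup_smul c y
    have h2 : (∑ i ∈ Finset.univ.filter (fun i => b i = a), X i * (C c * tup y i)) =
        C c * ∑ i ∈ Finset.univ.filter (fun i => b i = a), X i * tup y i := by
      rw [Finset.mul_sum]
      apply Finset.sum_congr rfl
      intro i _
      ring
    rw [h1, h2, cf_C_mul]
    rfl

lemma eps_apply (a : Fin n) (y : Fin n × Mon n (d - 1) → ℂ) :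
    eps b d a y = cf d (∑ i ∈ Finset.univ.filter (fun i => b i = a), X i * tup y i) := rfl

/-- (P2) -/
lemma eps_gradC (a : Fin n) (u : Mon n d → ℂ) :
    eps b d a (gradC d u) = fun β => (bdg b β.1 a : ℂ) * u β := by
  classical
  funext β
  rw [eps_apply, tup_gradC]
  simp only [cf, coeff_sum]
  rw [bdg, Nat.cast_sum, Finset.sum_mul]
  apply Finset.sum_congr rfl
  intro i _
  rw [mul_comm, coeff_mul_X']
  have hu : coeff β.1 (frm u) = u β := congrFun (cf_frm u) β
  split_ifs with h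
  · have h3 : β.1 i ≠ 0 := Finsupp.mem_support_iff.1 h
    rw [grad, coeff_pderiv, sub_add_single_cancel h3, hu, Finsupp.tsub_apply,
      Finsupp.single_eq_same, mul_comm]
    congr 1
    have : β.1 i - 1 + 1 = β.1 i := by omega
    exact_mod_cast this
  · rw [Finsupp.notMem_support_iff.1 h]
    simp

/-- Euler for a block -/
lemma block_euler {f : MvPolynomial (Fin n) ℂ} (hf : f.IsHomogeneous d)
    (hmix : ∀ i j, b i ≠ b j → pderiv i (pderiv j f) = 0) (j a : Fin n) :
    ∑ i ∈ Finset.univ.filter (fun i => b i = a), X i * pderiv i (pderiv j f) =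
      if b j = a then ((d - 1 : ℕ) : MvPolynomial (Fin n) ℂ) * pderiv j f else 0 := by
  classical
  split_ifs with h
  · have h1 := (hf.pderiv (i := j)).sum_X_mul_pderiv
    have h2 : ∑ i ∈ Finset.univ.filter (fun i => b i = a), X i * pderiv i (pderiv j f) =
        ∑ i, X i * pderiv i (pderiv j f) := by
      rw [Finset.sum_filter]
      apply Finset.sum_congr rfl
      intro i _
      split_ifs with h3
      · rfl
      · rw [hmix i j (fun h4 => h3 (h4.trans h)), mul_zero]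
    rw [h2, h1]
    simp
  · apply Finset.sum_eq_zero
    intro i hi
    rw [hmix i j (fun h4 => h (h4.symm.trans (Finset.mem_filter.1 hi).2)), mul_zero]

lemma eps_lie_xi {f : MvPolynomial (Fin n) ℂ} (hf : f.IsHomogeneous d)
    (hmix : ∀ i j, b i ≠ b j → pderiv i (pderiv j f) = 0) (a : Fin n)
    (ξ ξ' : Matrix (Fin n) (Fin n) ℂ)
    (hξ' : ∀ j l, ξ' j l = if b j = a then ((d - 1 : ℕ) : ℂ) * ξ j l else 0) :
    ∑ i ∈ Finset.univ.filter (fun i => b i = a),
      X i * ∑ j, ∑ l, C (ξ j l) * X l * pderiv j (grad f i) = lieS ξ' f := by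
  classical
  have h2 : ∀ i, X i * ∑ j, ∑ l, C (ξ j l) * X l * pderiv j (grad f i) =
      ∑ j, (∑ l, C (ξ j l) * X l) * (X i * pderiv i (pderiv j f)) := by
    intro i
    rw [Finset.mul_sum]
    apply Finset.sum_congr rfl
    intro j _
    rw [Finset.mul_sum, Finset.sum_mul]
    apply Finset.sum_congr rfl
    intro l _
    rw [grad, pderiv_comm j i f]
    ring
  rw [Finset.sum_congr rfl fun i _ => h2 i, Finset.sum_comm, lieS]
  apply Finset.sum_congr rfl
  intro j _
  rw [← Finset.mul_sum, block_euler b hf hmix j a]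
  simp only [hξ']
  split_ifs with h3
  · have h4 : (((d - 1 : ℕ) : MvPolynomial (Fin n) ℂ)) = C ((d - 1 : ℕ) : ℂ) := by simp
    rw [h4, Finset.sum_mul, Finset.sum_mul]
    apply Finset.sum_congr rfl
    intro l _
    rw [C_mul]
    ring
  · simp

lemma eps_lie_eta {f : MvPolynomial (Fin n) ℂ} (a : Fin n)
    (η η' : Matrix (Fin n) (Fin n) ℂ) (hη' : ∀ j l, η' j l = if b l = a then η l j else 0) :
    ∑ i ∈ Finset.univ.filter (fun i => b i = a), X i * ∑ j, C (η i j) * grad f j = lieS η' f := by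
  classical
  simp only [Finset.mul_sum, lieS, Finset.sum_mul, hη']
  rw [Finset.sum_comm]
  apply Finset.sum_congr rfl
  intro j _
  rw [Finset.sum_filter]
  apply Finset.sum_congr rfl
  intro l _
  split_ifs with h3
  · rw [grad]
    ring
  · simp

lemma lieS_add_left (f : MvPolynomial (Fin n) ℂ) (ξ η : Matrix (Fin n) (Fin n) ℂ) :
    lieS (ξ + η) f = lieS ξ f + lieS η f := by
  simp only [lieS, Matrix.add_apply, map_add, add_mul, Finset.sum_add_distrib]

/-- (P1) -/
lemma eps_lie {f : MvPolynomial (Fin n) ℂ} (hf : f.IsHomogeneous d)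
    (hmix : ∀ i j, b i ≠ b j → pderiv i (pderiv j f) = 0) (a : Fin n)
    (ξ η : Matrix (Fin n) (Fin n) ℂ) (y : Fin n × Mon n (d - 1) → ℂ)
    (hy : ∀ i, tup y i = (∑ j, ∑ l, C (ξ j l) * X l * pderiv j (grad f i)) +
      ∑ j, C (η i j) * grad f j) : ∃ ζ, lieMap d f ζ = eps b d a y := by
  classical
  obtain ⟨ξ', hξ'⟩ : ∃ ξ' : Matrix (Fin n) (Fin n) ℂ, ∀ j l, ξ' j l =
    if b j = a then ((d - 1 : ℕ) : ℂ) * ξ j l else 0 := ⟨Matrix.of _, fun _ _ => rfl⟩
  obtain ⟨η', hη'⟩ : ∃ η' : Matrix (Fin n) (Fin n) ℂ, ∀ j l, η' j l =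
    if b l = a then η l j else 0 := ⟨Matrix.of _, fun _ _ => rfl⟩
  refine ⟨ξ' + η', ?_⟩
  rw [lieMap_apply, eps_apply, lieS_add_left]
  congr 1
  rw [← eps_lie_xi b hf hmix a ξ ξ' hξ', ← eps_lie_eta b a η η' hη', ← Finset.sum_add_distrib]
  apply Finset.sum_congr rfl
  intro i _
  rw [hy, mul_add]

/-- (P3): weights -/
lemma eps_torus (a : Fin n) (y z : Fin n × Mon n (d - 1) → ℂ) (c : (Fin n → ℕ) → ℂ)
    (h : ∀ i, b i = a → ∀ β : Mon n (d - 1),
      z (i, β) = c (bdg b (β.1 + Finsupp.single i 1)) * y (i, β)) (α : Mon n d) :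
    eps b d a z α = c (bdg b α.1) * eps b d a y α := by
  classical
  rw [eps_apply, eps_apply]
  simp only [cf, coeff_sum, Finset.mul_sum]
  apply Finset.sum_congr rfl
  intro i hi
  rw [mul_comm (X i), coeff_mul_X', mul_comm (X i), coeff_mul_X']
  split_ifs with h1
  · have h3 : α.1 i ≠ 0 := Finsupp.mem_support_iff.1 h1
    have h4 : α.1 - Finsupp.single i 1 + Finsupp.single i 1 = α.1 := sub_add_single_cancel h3
    have hdeg : (α.1 - Finsupp.single i 1).degree = d - 1 := by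
      have h5 := congrArg Finsupp.degree h4
      rw [map_add, Finsupp.degree_single, α.2] at h5
      omega
    have h5 := h i (Finset.mem_filter.1 hi).2 ⟨_, hdeg⟩
    have h6 : ∀ w : Fin n × Mon n (d - 1) → ℂ,
        coeff (α.1 - Finsupp.single i 1) (tup w i) = w (i, ⟨_, hdeg⟩) := by
      intro w
      exact congrFun (cf_frm (fun β => w (i, β))) ⟨_, hdeg⟩
    rw [h6, h6, h5]
    simp only [h4]
  · rw [mul_zero]

end eps

end Pool.Agent.Lib.MP_4fcc12_ag
end

section
open MvPolynomial Matrix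

set_option linter.unusedSectionVars false

namespace Pool.Agent.Lib.MP_4fcc12_ag

variable {n : ℕ} {κ : Type}

section torus

/-- characters of the torus -/
noncomputable def chr (M : Fin n → ℤ) : (Fin n → ℂˣ) →* ℂ where
  toFun s := ((∏ a, s a ^ M a : ℂˣ) : ℂ)
  map_one' := by simp
  map_mul' s t := by
    rw [← Units.val_mul]
    congr 1
    rw [← Finset.prod_mul_distrib]
    apply Finset.prod_congr rfl
    intro a _
    rw [Pi.mul_apply, mul_zpow]

lemma chr_apply (M : Fin n → ℤ) (s : Fin n → ℂˣ) :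
    chr M s = ((∏ a, s a ^ M a : ℂˣ) : ℂ) := rfl

lemma chr_zero (s : Fin n → ℂˣ) : chr 0 s = 1 := by
  rw [chr_apply]
  simp

lemma chr_add (M M' : Fin n → ℤ) (s : Fin n → ℂˣ) : chr (M + M') s = chr M s * chr M' s := by
  rw [chr_apply, chr_apply, chr_apply, ← Units.val_mul, ← Finset.prod_mul_distrib]
  congr 1
  apply Finset.prod_congr rfl
  intro a _
  rw [Pi.add_apply, zpow_add]

lemma chr_nsmul (M : Fin n → ℤ) (s : Fin n → ℂˣ) (k : ℕ) : chr (k • M) s = chr M s ^ k := by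
  induction k with
  | zero => rw [zero_smul, chr_zero, pow_zero]
  | succ k ih => rw [succ_nsmul, chr_add, ih, pow_succ]

lemma chr_sum {ι : Type*} (S : Finset ι) (M : ι → Fin n → ℤ) (s : Fin n → ℂˣ) :
    chr (∑ i ∈ S, M i) s = ∏ i ∈ S, chr (M i) s := by
  classical
  induction S using Finset.induction_on with
  | empty => rw [Finset.sum_empty, Finset.prod_empty, chr_zero]
  | insert a S ha ih => rw [Finset.sum_insert ha, Finset.prod_insert ha, chr_add, ih]

lemma chr_injective : Function.Injective (chr : (Fin n → ℤ) → (Fin n → ℂˣ) →* ℂ) := by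
  classical
  intro M M' h
  funext a
  have h2 : (2 : ℂ) ≠ 0 := two_ne_zero
  have h1 := congrArg (fun f : (Fin n → ℂˣ) →* ℂ => f (Pi.mulSingle a (Units.mk0 2 h2))) h
  simp only [chr_apply] at h1
  have h3 : ∀ M : Fin n → ℤ, ((∏ c, (Pi.mulSingle a (Units.mk0 (2 : ℂ) h2) : Fin n → ℂˣ) c ^ M c :
      ℂˣ) : ℂ) = (2 : ℂ) ^ M a := by
    intro M
    rw [Finset.prod_eq_single a]
    · rw [Pi.mulSingle_eq_same]
      simp
    · intro c _ hc
      rw [Pi.mulSingle_eq_of_ne hc, one_zpow]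
    · simp
  rw [h3, h3] at h1
  have h4 : ((2 : ℝ) ^ M a) = (2 : ℝ) ^ M' a := 
    Complex.ofReal_injective (by push_cast; exact h1)
  exact zpow_right_injective₀ (by norm_num) (by norm_num) h4

variable (wt : κ → Fin n → ℤ)

/-- the torus acting on polynomials -/
noncomputable def tor (s : Fin n → ℂˣ) : MvPolynomial κ ℂ →ₐ[ℂ] MvPolynomial κ ℂ :=
  aeval fun j => C (chr (wt j) s) * X j

/-- the weight of a monomial -/
noncomputable def wgt (m : κ →₀ ℕ) : Fin n → ℤ := m.sum fun j e => e • wt j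

lemma coeff_tor (s : Fin n → ℂˣ) (P : MvPolynomial κ ℂ) (m : κ →₀ ℕ) :
    coeff m (tor wt s P) = chr (wgt wt m) s * coeff m P := by
  rw [tor, coeff_scale]
  congr 1
  rw [wgt, Finsupp.sum, chr_sum, Finsupp.prod]
  apply Finset.prod_congr rfl
  intro j _
  rw [chr_nsmul]

/-- the weight zero part -/
noncomputable def wz (P : MvPolynomial κ ℂ) : MvPolynomial κ ℂ := by
  classical exact ∑ m ∈ P.support.filter (fun m => wgt wt m = 0), monomial m (coeff m P)

lemma wz_invariant (s : Fin n → ℂˣ) (P : MvPolynomial κ ℂ) : tor wt s (wz wt P) = wz wt P := by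
  classical
  rw [wz, map_sum]
  apply Finset.sum_congr rfl
  intro m hm
  ext m'
  rw [coeff_tor, coeff_monomial]
  split_ifs with h
  · subst h
    rw [(Finset.mem_filter.1 hm).2, chr_zero, one_mul]
  · rw [mul_zero]

lemma wz_functional (P : MvPolynomial κ ℂ) (lam : MvPolynomial κ ℂ →ₗ[ℂ] ℂ) (c : ℂ)
    (h : ∀ s, lam (tor wt s P) = c) : lam (wz wt P) = c := by
  classical
  have hexp : ∀ s, tor wt s P = ∑ m ∈ P.support, C (chr (wgt wt m) s) * monomial m (coeff m P) := by
    intro s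
    ext m'
    rw [coeff_tor, coeff_sum]
    simp only [coeff_C_mul, coeff_monomial]
    by_cases hm' : m' ∈ P.support
    · rw [Finset.sum_eq_single m']
      · rw [if_pos rfl]
      · intro m _ hm
        rw [if_neg hm, mul_zero]
      · intro h2
        exact absurd hm' h2
    · rw [notMem_support_iff.1 hm', mul_zero]
      symm
      apply Finset.sum_eq_zero
      intro m hm
      rw [if_neg, mul_zero]
      rintro rfl
      exact hm' hm
  let L : (Fin n → ℤ) → ℂ := fun M =>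
    ∑ m ∈ P.support.filter (fun m => wgt wt m = M), lam (monomial m (coeff m P))
  let S : Finset (Fin n → ℤ) := insert 0 (P.support.image (wgt wt))
  have hsum : ∀ s, ∑ M ∈ S, (L M - if M = 0 then c else 0) * chr M s = 0 := by
    intro s
    have h1 : ∑ M ∈ S, L M * chr M s = c := by
      rw [← h s, hexp, map_sum]
      simp only [L, Finset.sum_mul]
      have h2 : ∀ m ∈ P.support, wgt wt m ∈ S := fun m hm =>
        Finset.mem_insert_of_mem (Finset.mem_image_of_mem _ hm)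
      rw [← Finset.sum_fiberwise_of_maps_to h2]
      apply Finset.sum_congr rfl
      intro M _
      apply Finset.sum_congr rfl
      intro m hm
      rw [← smul_eq_C_mul, map_smul, smul_eq_mul, (Finset.mem_filter.1 hm).2, mul_comm]
    simp only [sub_mul, Finset.sum_sub_distrib, h1]
    rw [Finset.sum_eq_single 0]
    · rw [if_pos rfl, chr_zero, mul_one, sub_self]
    · intro M _ hM
      rw [if_neg hM, zero_mul]
    · intro h2
      exact absurd (Finset.mem_insert_self _ _) h2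
  have hli : LinearIndependent ℂ (fun M : Fin n → ℤ => (chr M : (Fin n → ℂˣ) → ℂ)) :=
    (linearIndependent_monoidHom (Fin n → ℂˣ) ℂ).comp chr chr_injective
  have h3 := linearIndependent_iff'.1 hli S (fun M => L M - if M = 0 then c else 0) (by
    funext s
    rw [Finset.sum_apply]
    simpa using hsum s) 0 (Finset.mem_insert_self _ _)
  rw [if_pos rfl, sub_eq_zero] at h3
  rw [wz, map_sum, ← h3]

lemma wz_mem (P : MvPolynomial κ ℂ) (I : Submodule ℂ (MvPolynomial κ ℂ))
    (h : ∀ s, tor wt s P ∈ I) : wz wt P ∈ I := by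
  by_contra hcon
  obtain ⟨f, hf, hI⟩ := Submodule.exists_le_ker_of_notMem hcon
  apply hf
  exact wz_functional wt P f 0 fun s => hI (h s)

end torus

section orb

variable (A : Actn n κ)

/-- translation of polynomials by a group element -/
noncomputable def trn (g a : Matrix (Fin n) (Fin n) ℂ) :
    MvPolynomial κ ℂ →ₐ[ℂ] MvPolynomial κ ℂ :=
  aeval (A.app (fun j => (X j : MvPolynomial κ ℂ)) (g.map C) (a.map C))

lemma aeval_trn {S : Type} [CommRing S] [Algebra ℂ S] (g a : Matrix (Fin n) (Fin n) ℂ)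
    (x : κ → S) (P : MvPolynomial κ ℂ) :
    aeval x (trn A g a P) = aeval (A.app x (g.map (algebraMap ℂ S)) (a.map (algebraMap ℂ S))) P := by
  let φ : MvPolynomial κ ℂ →ₐ[ℂ] S := aeval x
  have h := A.map_app φ (fun j => X j) (g.map C) (a.map C)
  have hX : ∀ s, φ (X s) = x s := fun s => aeval_X _ _
  have hx : (φ ∘ fun j => X j) = x := by
    funext j
    exact hX j
  have hg : ∀ M : Matrix (Fin n) (Fin n) ℂ, (M.map C).map φ = M.map (algebraMap ℂ S) := by
    intro M
    refine Matrix.ext fun i j => ?_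
    exact φ.commutes (M i j)
  rw [hx, hg, hg] at h
  rw [trn, ← AlgHom.comp_apply, comp_aeval, ← h]
  rfl

lemma eval_trn (g a : Matrix (Fin n) (Fin n) ℂ) (x : κ → ℂ) (P : MvPolynomial κ ℂ) :
    eval x (trn A g a P) = eval (A.app x g a) P := by
  have h := aeval_trn A g a x P
  rw [aeval_eq_eval, aeval_eq_eval] at h
  exact h

lemma trn_mem [A.IsAction] (x₀ : κ → ℂ) {g a : Matrix (Fin n) (Fin n) ℂ} (hg : g.det ≠ 0)
    (ha : a.det ≠ 0) {P : MvPolynomial κ ℂ} (hP : P ∈ orbIdeal A x₀) :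
    trn A g a P ∈ orbIdeal A x₀ := by
  intro g' a' hg' ha'
  rw [eval_trn, A.app_app]
  apply hP
  · rw [Matrix.det_mul]
    exact mul_ne_zero hg' hg
  · rw [Matrix.det_mul]
    exact mul_ne_zero ha ha'

lemma trn_mem_pow [A.IsAction] (x₀ : κ → ℂ) {g a : Matrix (Fin n) (Fin n) ℂ} (hg : g.det ≠ 0)
    (ha : a.det ≠ 0) (k : ℕ) {P : MvPolynomial κ ℂ} (hP : P ∈ orbIdeal A x₀ ^ k) :
    trn A g a P ∈ orbIdeal A x₀ ^ k := by
  have h1 : (orbIdeal A x₀ ^ k).map (trn A g a : MvPolynomial κ ℂ →+* MvPolynomial κ ℂ) ≤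
      orbIdeal A x₀ ^ k := by
    rw [Ideal.map_pow]
    apply Ideal.pow_right_mono
    rw [Ideal.map_le_iff_le_comap]
    intro Q hQ
    exact trn_mem A x₀ hg ha hQ
  exact h1 (Ideal.mem_map_of_mem _ hP)

end orb

end Pool.Agent.Lib.MP_4fcc12_ag
end

section
open MvPolynomial Matrix

set_option linter.unusedSectionVars false

namespace Pool.Agent.Lib.MP_4fcc12_ag

variable {n : ℕ} {κ : Type}

section one

lemma coeff_zero_lineEv (x₀ y : κ → ℂ) (P : MvPolynomial κ ℂ) :
    (lineEv x₀ y P).coeff 0 = eval x₀ P := by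
  have h : (Polynomial.aeval (0 : ℂ)).comp (lineEv x₀ y) = aeval x₀ := by
    apply MvPolynomial.algHom_ext
    intro j
    rw [AlgHom.comp_apply, aeval_X, lineEv, aeval_X]
    simp
  have h2 := congrArg (fun φ => φ P) h
  rw [Polynomial.coeff_zero_eq_aeval_zero]
  rw [aeval_eq_eval] at h2
  exact h2

lemma coeff_one_lineEv [Fintype κ] (x₀ y : κ → ℂ) (P : MvPolynomial κ ℂ) :
    (lineEv x₀ y P).coeff 1 = ∑ j, y j * eval x₀ (pderiv j P) := by
  classical
  induction P using MvPolynomial.induction_on with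
  | C a =>
    have h1 : lineEv x₀ y (C a) = Polynomial.C a := by
      rw [lineEv, aeval_C]
      rfl
    rw [h1, Polynomial.coeff_C]
    simp
  | add p q hp hq =>
    rw [map_add, Polynomial.coeff_add, hp, hq, ← Finset.sum_add_distrib]
    apply Finset.sum_congr rfl
    intro j _
    rw [map_add, map_add, mul_add]
  | mul_X p i hp =>
    have h1 : lineEv x₀ y (X i) = Polynomial.C (x₀ i) + Polynomial.X * Polynomial.C (y i) := by
      rw [lineEv, aeval_X]
    rw [map_mul, Polynomial.mul_coeff_one, hp, coeff_zero_lineEv, h1]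
    have h2 : (Polynomial.C (x₀ i) + Polynomial.X * Polynomial.C (y i)).coeff 0 = x₀ i := by
      simp
    have h3 : (Polynomial.C (x₀ i) + Polynomial.X * Polynomial.C (y i)).coeff 1 = y i := by
      rw [Polynomial.coeff_add, Polynomial.coeff_X_mul, Polynomial.coeff_C, Polynomial.coeff_C]
      simp
    rw [h2, h3]
    have h4 : ∀ j, y j * eval x₀ (pderiv j (p * X i)) =
        (y j * eval x₀ (pderiv j p)) * x₀ i + if j = i then eval x₀ p * y i else 0 := by
      intro j
      rw [pderiv_mul, map_add, map_mul, map_mul, eval_X, pderiv_X]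
      by_cases hj : j = i
      · subst hj
        rw [Pi.single_eq_same, if_pos rfl, map_one]
        ring
      · rw [Pi.single_eq_of_ne (Ne.symm hj), if_neg hj, map_zero]
        ring
    rw [Finset.sum_congr rfl fun j _ => h4 j, Finset.sum_add_distrib, Finset.sum_mul,
      Finset.sum_ite_eq' Finset.univ i, if_pos (Finset.mem_univ i), add_comm]

end one

section dual

/-- dual form of the tangent statement -/
lemma tangent_dual (hTAN : StatementTAN) {k : ℕ} (x₀ : Fin n × Mon n k → ℂ)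
    (ν : (Fin n × Mon n k → ℂ) →ₗ[ℂ] ℂ)
    (hν : ∀ (v : Fin n × Mon n k → ℂ) (ξ η : Matrix (Fin n) (Fin n) ℂ),
      (∀ i, tup v i = (∑ j, ∑ l, C (ξ j l) * X l * pderiv j (tup x₀ i)) +
        ∑ j, C (η i j) * tup x₀ j) → ν v = 0) :
    ∃ P ∈ orbIdeal (actT n k) x₀, ∀ y, ∑ j, y j * eval x₀ (pderiv j P) = ν y := by
  classical
  let ν' : Fin n × Mon n k → ℂ := fun j => ν (Pi.single j 1)
  let D : MvPolynomial (Fin n × Mon n k) ℂ →ₗ[ℂ] (Fin n × Mon n k → ℂ) :=
    { toFun := fun P j => eval x₀ (pderiv j P)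
      map_add' := by
        intro P Q
        funext j
        simp
      map_smul' := by
        intro c P
        funext j
        simp }
  let W : Submodule ℂ (Fin n × Mon n k → ℂ) :=
    ((orbIdeal (actT n k) x₀).restrictScalars ℂ).map D
  have hexp : ∀ (f : (Fin n × Mon n k → ℂ) →ₗ[ℂ] ℂ) (y : Fin n × Mon n k → ℂ),
      f y = ∑ j, y j * f (Pi.single j 1) := by
    intro f y
    rw [LinearMap.pi_apply_eq_sum_univ f y]
    apply Finset.sum_congr rfl
    intro j _
    rw [smul_eq_mul]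
    congr 2
    funext j'
    rw [Pi.single_apply]
    simp only [eq_comm]
  have hmem : ν' ∈ W := by
    by_contra hcon
    obtain ⟨f, hf, hW⟩ := Submodule.exists_le_ker_of_notMem hcon
    let v : Fin n × Mon n k → ℂ := fun j => f (Pi.single j 1)
    have h1 : ∀ P ∈ orbIdeal (actT n k) x₀, ∑ j, v j * eval x₀ (pderiv j P) = 0 := by
      intro P hP
      have h2 : f (D P) = 0 := hW ⟨P, hP, rfl⟩
      rw [hexp] at h2
      rw [← h2]
      apply Finset.sum_congr rfl
      intro j _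
      rw [mul_comm]
      rfl
    obtain ⟨ξ, η, h3⟩ := hTAN n k x₀ v h1
    have h4 := hν v ξ η h3
    apply hf
    rw [hexp, ← h4, hexp ν v]
    apply Finset.sum_congr rfl
    intro j _
    rw [mul_comm]
  obtain ⟨P, hP, hPν⟩ := hmem
  refine ⟨P, hP, fun y => ?_⟩
  rw [hexp ν y]
  apply Finset.sum_congr rfl
  intro j _
  congr 1
  exact congrFun hPν j

end dual

end Pool.Agent.Lib.MP_4fcc12_ag
end

section
open MvPolynomial Matrix

set_option linter.unusedSectionVars false

namespace Pool.Agent.Lib.MP_4fcc12_ag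

variable {n : ℕ} {κ : Type}

section prod

lemma coeff_prod_X {k : ℕ} (p : Fin k → Polynomial ℂ) (h : ∀ l, (p l).coeff 0 = 0) :
    (∀ j < k, (∏ l, p l).coeff j = 0) ∧ (∏ l, p l).coeff k = ∏ l, (p l).coeff 1 := by
  have h1 : ∀ l, ∃ q, p l = Polynomial.X * q := fun l => Polynomial.X_dvd_iff.2 (h l)
  choose q hq using h1
  have h2 : ∏ l, p l = Polynomial.X ^ k * ∏ l, q l := by
    rw [Finset.prod_congr rfl fun l _ => hq l, Finset.prod_mul_distrib, Finset.prod_const,
      Finset.card_univ, Fintype.card_fin]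
  have h3 : ∀ l, (p l).coeff 1 = (q l).coeff 0 := by
    intro l
    rw [hq l, Polynomial.coeff_X_mul]
  constructor
  · intro j hj
    rw [h2, Polynomial.coeff_X_pow_mul', if_neg (by omega)]
  · rw [h2, Polynomial.coeff_X_pow_mul', if_pos le_rfl, Nat.sub_self, Finset.prod_congr rfl
      fun l _ => h3 l]
    have h4 : ∀ r : Polynomial ℂ, r.coeff 0 = Polynomial.constantCoeff r := fun r => rfl
    simp only [h4, map_prod]

end prod

section weights

variable {d : ℕ} (b : Fin n → Fin n)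

/-- the weights of the coordinates on tuples -/
def wtT (d : ℕ) : Fin n × Mon n (d - 1) → Fin n → ℤ :=
  fun p a => (bdg b p.2.1 a : ℤ) - if b p.1 = a then ((d - 1 : ℕ) : ℤ) else 0

/-- the block scalar matrix of `s` -/
noncomputable def tmat (s : Fin n → ℂˣ) : Matrix (Fin n) (Fin n) ℂ :=
  diagonal fun i => (s (b i) : ℂ)

noncomputable def tmat' (d : ℕ) (s : Fin n → ℂˣ) : Matrix (Fin n) (Fin n) ℂ :=
  diagonal fun i => ((s (b i) : ℂ))⁻¹ ^ (d - 1)

lemma det_tmat (s : Fin n → ℂˣ) : (tmat b s).det ≠ 0 := by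
  rw [tmat, det_diagonal]
  exact Finset.prod_ne_zero_iff.2 fun i _ => (s (b i)).ne_zero

lemma det_tmat' (s : Fin n → ℂˣ) : (tmat' b d s).det ≠ 0 := by
  rw [tmat', det_diagonal]
  exact Finset.prod_ne_zero_iff.2 fun i _ => pow_ne_zero _ (inv_ne_zero (s (b i)).ne_zero)

lemma chr_sub_single (s : Fin n → ℂˣ) (μ : Fin n → ℕ) (c : Fin n) (e : ℕ) :
    chr (fun a => (μ a : ℤ) - if c = a then (e : ℤ) else 0) s =
      ((s c : ℂ))⁻¹ ^ e * ∏ a, (s a : ℂ) ^ μ a := by
  classical
  rw [chr_apply]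
  have h1 : (∏ a, s a ^ ((μ a : ℤ) - if c = a then (e : ℤ) else 0)) =
      (s c)⁻¹ ^ e * ∏ a, s a ^ μ a := by
    simp only [zpow_sub, Finset.prod_mul_distrib]
    rw [mul_comm]
    congr 1
    rw [Finset.prod_eq_single c]
    · rw [if_pos rfl, zpow_natCast, inv_pow]
    · intro a _ ha
      rw [if_neg (Ne.symm ha), zpow_zero, inv_one]
    · simp
  rw [h1, Units.val_mul, Units.val_pow_eq_pow_val, Units.val_inv_eq_inv_val, Units.coe_prod]
  simp only [Units.val_pow_eq_pow_val]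

lemma actT_torus {R : Type} [CommRing R] [Algebra ℂ R] (s : Fin n → ℂˣ)
    (y : Fin n × Mon n (d - 1) → R) (p : Fin n × Mon n (d - 1)) :
    (actT n (d - 1)).app y ((tmat b s).map (algebraMap ℂ R)) ((tmat' b d s).map (algebraMap ℂ R)) p =
      algebraMap ℂ R (chr (wtT b d p) s) * y p := by
  classical
  obtain ⟨i, β⟩ := p
  rw [actT_app]
  have h1 : (tmat b s).map (algebraMap ℂ R) = diagonal fun i => algebraMap ℂ R (s (b i) : ℂ) := by
    rw [tmat, Matrix.diagonal_map (map_zero _)]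
  have h2 : (tmat' b d s).map (algebraMap ℂ R) =
      diagonal fun i => algebraMap ℂ R (((s (b i) : ℂ))⁻¹ ^ (d - 1)) := by
    rw [tmat', Matrix.diagonal_map (map_zero _)]
  rw [h1, h2]
  show coeff β.1 (act (tup y) _ _ i) = _
  simp only [act]
  rw [Finset.sum_eq_single i]
  · rw [diagonal_apply_eq, coeff_C_mul, coeff_subst_diagonal]
    have h3 : coeff β.1 (tup y i) = y (i, β) := congrFun (cf_frm fun β => y (i, β)) β
    have h4 : wtT b d (i, β) =
        fun a => (bdg b β.1 a : ℤ) - if b i = a then ((d - 1 : ℕ) : ℤ) else 0 := rfl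
    rw [h3, h4, chr_sub_single]
    simp only [map_mul, map_pow, map_prod]
    rw [prod_pow_bdg b (fun a => algebraMap ℂ R (s a : ℂ)) β.1]
    ring
  · intro j _ hj
    rw [diagonal_apply_ne _ hj.symm, C_0, zero_mul]
  · simp

lemma tor_eq_trn (s : Fin n → ℂˣ) :
    tor (wtT b d) s = trn (actT n (d - 1)) (tmat b s) (tmat' b d s) := by
  apply MvPolynomial.algHom_ext
  intro p
  rw [tor, aeval_X, trn, aeval_X]
  have h := actT_torus b s (fun j => (X j : MvPolynomial (Fin n × Mon n (d - 1)) ℂ)) p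
  exact h.symm

lemma stab_torus {f₀ : MvPolynomial (Fin n) ℂ} (hf₀ : f₀.IsHomogeneous d)
    (hmix : ∀ i j, b i ≠ b j → pderiv i (pderiv j f₀) = 0) (s : Fin n → ℂˣ) :
    (actT n (d - 1)).app (ct (d - 1) (grad f₀)) (tmat b s) (tmat' b d s) =
      ct (d - 1) (grad f₀) := by
  rw [actT_app, tup_ct (isHomogeneous_grad hf₀)]
  congr 1
  exact act_stab hf₀ hmix (fun i => (s (b i) : ℂ)) (fun i => (s (b i)).ne_zero)
    (fun i j hij => by rw [hij])

lemma map_algebraMap_eq_mC (s : Matrix (Fin n) (Fin n) ℂ) :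
    s.map (algebraMap ℂ (Polynomial ℂ)) = mC s := by
  refine Matrix.ext fun i j => ?_
  rfl

/-- translation and lines -/
lemma lineEv_trn (s s' : Matrix (Fin n) (Fin n) ℂ) {k : ℕ} (x₀ y : Fin n × Mon n k → ℂ)
    (P : MvPolynomial (Fin n × Mon n k) ℂ) :
    lineEv x₀ y (trn (actT n k) s s' P) =
      lineEv ((actT n k).app x₀ s s') ((actT n k).app y s s') P := by
  have h := actT_line x₀ y s s'
  rw [← map_algebraMap_eq_mC, ← map_algebraMap_eq_mC] at h
  rw [lineEv, aeval_trn, lineEv, h]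

end weights

section lift

variable {d : ℕ} {b : Fin n → Fin n}

/-- lifting a product of linear forms -/
lemma exists_lift_product (hTAN : StatementTAN) (hHALL : StatementHALL) (hd : 3 ≤ d)
    {f₀ : MvPolynomial (Fin n) ℂ} (hf₀ : f₀.IsHomogeneous d)
    (hmix : ∀ i j, b i ≠ b j → pderiv i (pderiv j f₀) = 0)
    (ℓ : Mon n d → (Mon n d → ℂ) →ₗ[ℂ] ℂ) (h1 : ∀ α ξ, ℓ α (lieMap d f₀ ξ) = 0)
    (h2 : ∀ (α : Mon n d) (u v : Mon n d → ℂ) (c : ℂ),
      (∀ β : Mon n d, bdg b β.1 = bdg b α.1 → v β = c * u β) → ℓ α v = c * ℓ α u)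
    {k : ℕ} (L : Fin k → Mon n d) (hL : ∀ a, d ∣ ∑ l, bdg b (L l).1 a) :
    ∃ P ∈ orbIdeal (actT n (d - 1)) (ct (d - 1) (grad f₀)) ^ k,
      (∀ s, tor (wtT b d) s P = P) ∧
      ∀ u, (∀ j < k, (lineEv (ct (d - 1) (grad f₀)) (gradC d u) P).coeff j = 0) ∧
        (lineEv (ct (d - 1) (grad f₀)) (gradC d u) P).coeff k = ∏ l, ℓ (L l) u := by
  classical
  set x₀ := ct (d - 1) (grad f₀) with hx₀
  have htx₀ : tup x₀ = grad f₀ := tup_ct (isHomogeneous_grad hf₀)
  obtain ⟨σ, hσ, hσ'⟩ := hHALL k n d (by omega) (fun l a => bdg b (L l).1 a)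
    (fun l => by rw [sum_bdg]; exact (L l).2) hL
  let ν : Fin k → (Fin n × Mon n (d - 1) → ℂ) →ₗ[ℂ] ℂ := fun l =>
    ((bdg b (L l).1 (σ l) : ℂ)⁻¹) • (ℓ (L l)).comp (eps b d (σ l))
  have hν : ∀ l y, ν l y = (bdg b (L l).1 (σ l) : ℂ)⁻¹ * ℓ (L l) (eps b d (σ l) y) :=
    fun l y => rfl
  have hdual : ∀ l, ∃ P ∈ orbIdeal (actT n (d - 1)) x₀,
      ∀ y, ∑ j, y j * eval x₀ (pderiv j P) = ν l y := by
    intro l
    apply tangent_dual hTAN
    intro v ξ η hv
    rw [htx₀] at hv
    obtain ⟨ζ, hζ⟩ := eps_lie b hf₀ hmix (σ l) ξ η v hv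
    rw [hν, ← hζ, h1, mul_zero]
  choose P hP hPν using hdual
  have hP0 : ∀ l y, (lineEv x₀ y (P l)).coeff 0 = 0 := by
    intro l y
    rw [coeff_zero_lineEv]
    have h3 := hP l 1 1 (by simp) (by simp)
    rwa [(actT n (d - 1)).app_one] at h3
  have hP1 : ∀ l y, (lineEv x₀ y (P l)).coeff 1 = ν l y := by
    intro l y
    rw [coeff_one_lineEv, hPν]
  have hprod : ∀ y, (∀ j < k, (lineEv x₀ y (∏ l, P l)).coeff j = 0) ∧
      (lineEv x₀ y (∏ l, P l)).coeff k = ∏ l, ν l y := by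
    intro y
    rw [map_prod]
    have h3 := coeff_prod_X (fun l => lineEv x₀ y (P l)) (fun l => hP0 l y)
    refine ⟨h3.1, h3.2.trans ?_⟩
    exact Finset.prod_congr rfl fun l _ => hP1 l y
  have hmem : (∏ l, P l) ∈ orbIdeal (actT n (d - 1)) x₀ ^ k := by
    have h3 := Ideal.prod_mem_prod (s := Finset.univ) (I := fun _ : Fin k =>
      orbIdeal (actT n (d - 1)) x₀) (x := P) (fun l _ => hP l)
    rwa [Finset.prod_const, Finset.card_univ, Fintype.card_fin] at h3
  -- the weight of the linear forms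
  have hνt : ∀ (s : Fin n → ℂˣ) l y, ν l ((actT n (d - 1)).app y (tmat b s) (tmat' b d s)) =
      chr (fun a => (bdg b (L l).1 a : ℤ) - if σ l = a then (d : ℤ) else 0) s * ν l y := by
    intro s l y
    rw [hν, hν]
    have h3 : ∀ α : Mon n d,
        eps b d (σ l) ((actT n (d - 1)).app y (tmat b s) (tmat' b d s)) α =
        chr (fun a => (bdg b α.1 a : ℤ) - if σ l = a then (d : ℤ) else 0) s *
          eps b d (σ l) y α := by
      intro α
      apply eps_torus b (σ l) y _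
        (fun μ => chr (fun a => (μ a : ℤ) - if σ l = a then (d : ℤ) else 0) s)
      intro i hi β
      have h4 := actT_torus b s y (i, β)
      have h5 : ∀ M : Matrix (Fin n) (Fin n) ℂ, M.map (algebraMap ℂ ℂ) = M := by
        intro M
        refine Matrix.ext fun i j => ?_
        rfl
      rw [h5, h5] at h4
      have h6 : wtT b d (i, β) = fun c => ((bdg b (β.1 + Finsupp.single i 1) c : ℕ) : ℤ) -
          if σ l = c then (d : ℤ) else 0 := by
        funext c
        have h7 : wtT b d (i, β) c =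
          (bdg b β.1 c : ℤ) - if b i = c then ((d - 1 : ℕ) : ℤ) else 0 := rfl
        rw [h7, bdg_add, bdg_single, hi]
        push_cast
        split_ifs
        · have : ((d - 1 : ℕ) : ℤ) = d - 1 := by omega
          rw [this]
          ring
        · ring
      rw [h4, h6]
      rfl
    rw [h2 (L l) (eps b d (σ l) y) _
      (chr (fun a => (bdg b (L l).1 a : ℤ) - if σ l = a then (d : ℤ) else 0) s) (by
        intro β hβ
        rw [h3, hβ])]
    ring
  have hsumw : ∑ l, (fun a => (bdg b (L l).1 a : ℤ) - if σ l = a then (d : ℤ) else 0) =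
      (0 : Fin n → ℤ) := by
    funext a
    rw [Finset.sum_apply, Finset.sum_sub_distrib, Pi.zero_apply, sub_eq_zero]
    have h3 := hσ' a
    have h4 : (∑ l, (bdg b (L l).1 a : ℤ)) = ((∑ l, bdg b (L l).1 a : ℕ) : ℤ) := by push_cast; rfl
    rw [h4, ← h3, Finset.card_filter]
    push_cast
    rw [Finset.mul_sum]
    apply Finset.sum_congr rfl
    intro l _
    split_ifs <;> simp
  have hνprod : ∀ (s : Fin n → ℂˣ) y,
      ∏ l, ν l ((actT n (d - 1)).app y (tmat b s) (tmat' b d s)) = ∏ l, ν l y := by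
    intro s y
    rw [Finset.prod_congr rfl fun l _ => hνt s l y, Finset.prod_mul_distrib, ← chr_sum, hsumw,
      chr_zero, one_mul]
  -- the functionals
  let lam : (Fin n × Mon n (d - 1) → ℂ) → ℕ →
      MvPolynomial (Fin n × Mon n (d - 1)) ℂ →ₗ[ℂ] ℂ :=
    fun y j => (Polynomial.lcoeff ℂ j).comp (lineEv x₀ y).toLinearMap
  have hlam : ∀ y j Q, lam y j Q = (lineEv x₀ y Q).coeff j := fun y j Q => rfl
  refine ⟨wz (wtT b d) (∏ l, P l), ?_, fun s => wz_invariant _ s _, ?_⟩
  · apply wz_mem (wtT b d) _ ((orbIdeal (actT n (d - 1)) x₀ ^ k).restrictScalars ℂ)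
    intro s
    rw [tor_eq_trn]
    exact trn_mem_pow _ x₀ (det_tmat b s) (det_tmat' b s) k hmem
  · intro u
    constructor
    · intro j hj
      rw [← hlam]
      apply wz_functional
      intro s
      rw [hlam, tor_eq_trn, lineEv_trn, hx₀, stab_torus b hf₀ hmix, ← hx₀]
      exact (hprod _).1 j hj
    · rw [← hlam]
      apply wz_functional
      intro s
      rw [hlam, tor_eq_trn, lineEv_trn, hx₀, stab_torus b hf₀ hmix, ← hx₀, (hprod _).2, hνprod]
      apply Finset.prod_congr rfl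
      intro l _
      rw [hν, eps_gradC, h2 (L l) u _ (bdg b (L l).1 (σ l) : ℂ) (by
        intro β hβ
        rw [hβ]), ← mul_assoc, inv_mul_cancel₀, one_mul]
      exact_mod_cast hσ l

end lift

end Pool.Agent.Lib.MP_4fcc12_ag
end

section
open MvPolynomial Matrix

set_option linter.unusedSectionVars false

namespace Pool.Agent.Lib.MP_4fcc12_ag

variable {n : ℕ} {κ : Type}

section stab

variable {d : ℕ} {b : Fin n → Fin n}

lemma det_ne_zero_of_stab {F : Type*} [Field F] {f₀ : MvPolynomial (Fin n) F}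
    (hd : 2 ≤ d) (hf₀ : f₀.IsHomogeneous d) (nd₀ : NonDeg f₀) {γ : Matrix (Fin n) (Fin n) F}
    (hγ : subst γ f₀ = f₀) : γ.det ≠ 0 := by
  intro h
  obtain ⟨p, hp0, hp⟩ := Matrix.exists_mulVec_eq_zero_iff.2 h
  apply hp0
  apply nd₀
  intro i
  have h1 := congrArg (fun f => eval p (grad f i)) hγ
  rw [grad_subst, eval_act, hp] at h1
  rw [← h1]
  have h2 : (fun j => eval (0 : Fin n → F) (grad f₀ j)) = 0 := by
    funext j
    have h3 : coeff 0 (grad f₀ j) = 0 :=
      (isHomogeneous_grad hf₀ j).coeff_eq_zero (by simp; omega)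
    rw [MvPolynomial.eval_zero, constantCoeff_eq, h3]
    rfl
  rw [h2, Matrix.mulVec_zero]
  rfl

lemma tmat'_eq (s : Fin n → ℂˣ) : tmat' b d s = (tmat b s⁻¹) ^ (d - 1) := by
  rw [tmat', tmat, Matrix.diagonal_pow]
  congr 1
  funext i
  simp

lemma tmat_inv (s : Fin n → ℂˣ) : tmat b s * tmat b s⁻¹ = 1 := by
  rw [tmat, tmat, diagonal_mul_diagonal, ← diagonal_one]
  congr 1
  funext i
  simp

lemma tmat_inv' (s : Fin n → ℂˣ) : tmat b s⁻¹ * tmat b s = 1 := by
  rw [tmat, tmat, diagonal_mul_diagonal, ← diagonal_one]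
  congr 1
  funext i
  simp

/-- the block torus is normalized by the stabilizer -/
lemma conj_tmat {f₀ : MvPolynomial (Fin n) ℂ} (hd : 2 ≤ d) (hf₀ : f₀.IsHomogeneous d)
    (nd₀ : NonDeg f₀) (hb : BlockForm f₀ b) {γ : Matrix (Fin n) (Fin n) ℂ}
    (hγ : subst γ f₀ = f₀) (s : Fin n → ℂˣ) :
    ∃ s₁ : Fin n → ℂˣ, tmat b s * γ = γ * tmat b s₁ ∧
      γᵀ * tmat' b d s = tmat' b d s₁ * γᵀ := by
  classical
  have hdet := det_ne_zero_of_stab hd hf₀ nd₀ hγ
  have hγu := isUnit_iff_ne_zero.2 hdet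
  have hγi : subst γ⁻¹ f₀ = f₀ := by
    conv_lhs => rw [← hγ]
    rw [← subst_mul, Matrix.mul_nonsing_inv _ hγu, subst_one]
  have hγiu : IsUnit (γ⁻¹).det := Matrix.isUnit_nonsing_inv_det _ hγu
  have hsym : SymB f₀ (tmat b s) := hb.symB_diagonal (c := fun i => (s (b i) : ℂ))
    (fun i j hij => by rw [hij])
  have hsym' : SymB (subst γ⁻¹ f₀) (tmat b s) := by rwa [hγi]
  obtain ⟨c, hc⟩ := hb.alg _ (hsym'.of_subst hγiu)
  rw [Matrix.nonsing_inv_nonsing_inv _ hγu] at hc
  have hc' : γ⁻¹ * tmat b s * γ = diagonal fun i => c (b i) := by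
    have h1 := congrArg Matrix.transpose hc
    rw [Matrix.transpose_mul, Matrix.transpose_mul, Matrix.transpose_transpose,
      Matrix.transpose_transpose, Matrix.diagonal_transpose] at h1
    rw [← h1, tmat, Matrix.diagonal_transpose, mul_assoc]
  have hrel : tmat b s * γ = γ * diagonal fun i => c (b i) := by
    rw [← hc', ← mul_assoc, ← mul_assoc, Matrix.mul_nonsing_inv _ hγu, one_mul]
  have hdetc : ∀ i, c (b i) ≠ 0 := by
    have h1 := congrArg Matrix.det hrel
    rw [Matrix.det_mul, Matrix.det_mul, det_diagonal] at h1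
    have h2 : (γ.det * ∏ i, c (b i)) ≠ 0 := by
      rw [← h1]
      exact mul_ne_zero (det_tmat b s) hdet
    intro i
    exact Finset.prod_ne_zero_iff.1 (right_ne_zero_of_mul h2) i (Finset.mem_univ i)
  let s₁ : Fin n → ℂˣ := fun a => if h : c a = 0 then 1 else Units.mk0 (c a) h
  have hs₁ : (diagonal fun i => c (b i)) = tmat b s₁ := by
    rw [tmat]
    congr 1
    funext i
    simp only [s₁, dif_neg (hdetc i), Units.val_mk0]
  rw [hs₁] at hrel
  refine ⟨s₁, hrel, ?_⟩
  have h1 : tmat b s⁻¹ * γ = γ * tmat b s₁⁻¹ := by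
    have h2 : γ * tmat b s₁⁻¹ = tmat b s⁻¹ * (tmat b s * γ) * tmat b s₁⁻¹ := by
      rw [← mul_assoc, tmat_inv', one_mul]
    rw [h2, hrel, mul_assoc (tmat b s⁻¹), mul_assoc γ, tmat_inv, mul_one]
  have h3 : SemiconjBy γ (tmat b s₁⁻¹) (tmat b s⁻¹) := h1.symm
  have h4 := h3.pow_right (d - 1)
  rw [← tmat'_eq, ← tmat'_eq] at h4
  have h5 : γ * tmat' b d s₁ = tmat' b d s * γ := h4
  have h6 := congrArg Matrix.transpose h5
  rw [Matrix.transpose_mul, Matrix.transpose_mul] at h6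
  have h7 : ∀ s : Fin n → ℂˣ, (tmat' b d s)ᵀ = tmat' b d s := fun s => by
    rw [tmat', Matrix.diagonal_transpose]
  rw [h7, h7] at h6
  exact h6.symm

end stab

section P0

variable {d : ℕ} {b : Fin n → Fin n}

/-- averaging over the finite stabilizer -/
lemma avg_invariant (hd : 3 ≤ d)
    {f₀ : MvPolynomial (Fin n) ℂ} (hf₀ : f₀.IsHomogeneous d) (nd₀ : NonDeg f₀)
    (hb : BlockForm f₀ b) (Γ : Finset (Matrix (Fin n) (Fin n) ℂ))
    (hΓmem : ∀ γ, γ ∈ Γ ↔ subst γ f₀ = f₀) (P' : MvPolynomial (Fin n × Mon n (d - 1)) ℂ)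
    (hP'tor : ∀ s, tor (wtT b d) s P' = P') {s s' : Matrix (Fin n) (Fin n) ℂ}
    (hs : s.det ≠ 0) (hs' : s'.det ≠ 0)
    (hss : (actT n (d - 1)).app (ct (d - 1) (grad f₀)) s s' = ct (d - 1) (grad f₀))
    (x : Fin n × Mon n (d - 1) → ℂ) :
    ∑ γ ∈ Γ, eval ((actT n (d - 1)).app ((actT n (d - 1)).app x s s') γ γᵀ) P' =
      ∑ γ ∈ Γ, eval ((actT n (d - 1)).app x γ γᵀ) P' := by
  classical
  have hΓdet : ∀ γ ∈ Γ, γ.det ≠ 0 := fun γ hγ =>
    det_ne_zero_of_stab (by omega) hf₀ nd₀ ((hΓmem γ).1 hγ)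
  have hact : act (grad f₀) s s' = grad f₀ := by
    have h3 := congrArg tup hss
    rw [actT_app, tup_ct (isHomogeneous_grad hf₀),
      tup_ct (isHomogeneous_act (isHomogeneous_grad hf₀) _ _)] at h3
    exact h3
  obtain ⟨θ, hθ0, hθb, hθ1, hθ2⟩ := lemmaW hd hf₀ hf₀ hb hs hs' hact
  obtain ⟨s₀, hs₀⟩ : ∃ s₀ : Fin n → ℂˣ, ∀ i, (s₀ (b i) : ℂ) = (θ i)⁻¹ := by
    refine ⟨fun a => if h : ∃ i, b i = a then (Units.mk0 (θ h.choose) (hθ0 _))⁻¹ else 1, ?_⟩
    intro i
    have h3 : ∃ i', b i' = b i := ⟨i, rfl⟩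
    show ((if h : ∃ i', b i' = b i then (Units.mk0 (θ h.choose) (hθ0 _))⁻¹ else 1 : ℂˣ) : ℂ) = _
    rw [dif_pos h3, Units.val_inv_eq_inv_val, Units.val_mk0, hθb _ _ h3.choose_spec]
  obtain ⟨γ₀, hγ₀⟩ : ∃ γ₀, γ₀ = diagonal θ * s := ⟨_, rfl⟩
  have hγ₀mem : γ₀ ∈ Γ := (hΓmem γ₀).2 (by rw [hγ₀]; exact hθ1.symm)
  have htm : tmat b s₀ * diagonal θ = 1 := by
    rw [tmat, diagonal_mul_diagonal, ← diagonal_one]
    congr 1
    funext i
    rw [hs₀, inv_mul_cancel₀ (hθ0 i)]
  have hs1 : s = tmat b s₀ * γ₀ := by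
    rw [hγ₀, ← mul_assoc, htm, one_mul]
  have hs2 : s' = γ₀ᵀ * tmat' b d s₀ := by
    rw [hθ2, hγ₀, Matrix.transpose_mul, Matrix.diagonal_transpose, mul_assoc, tmat',
      diagonal_mul_diagonal]
    congr 2
    funext i
    rw [hs₀, inv_inv, ← pow_succ']
    congr 1
    omega
  have h4 := isUnit_iff_ne_zero.2 (hΓdet γ₀ hγ₀mem)
  -- reindex
  have hre : ∑ γ ∈ Γ, eval ((actT n (d - 1)).app ((actT n (d - 1)).app x s s') γ γᵀ) P' =
      ∑ γ ∈ Γ, eval ((actT n (d - 1)).app
        ((actT n (d - 1)).app x (tmat b s₀) (tmat' b d s₀)) γ γᵀ) P' := by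
    apply Finset.sum_bij (fun γ _ => γ₀ * γ)
    · intro γ hγ
      rw [hΓmem] at hγ hγ₀mem ⊢
      rw [subst_mul, hγ₀mem, hγ]
    · intro γ₁ _ γ₂ _ h
      have h3 : γ₀⁻¹ * (γ₀ * γ₁) = γ₀⁻¹ * (γ₀ * γ₂) := by rw [h]
      rwa [← mul_assoc, ← mul_assoc, Matrix.nonsing_inv_mul _ h4, one_mul, one_mul] at h3
    · intro γ hγ
      refine ⟨γ₀⁻¹ * γ, ?_, ?_⟩
      · rw [hΓmem] at hγ hγ₀mem ⊢
        have h5 : subst γ₀⁻¹ f₀ = f₀ := by
          conv_lhs => rw [← hγ₀mem]
          rw [← subst_mul, Matrix.mul_nonsing_inv _ h4, subst_one]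
        rw [subst_mul, h5, hγ]
      · rw [← mul_assoc, Matrix.mul_nonsing_inv _ h4, one_mul]
    · intro γ _
      have h5 : (actT n (d - 1)).app ((actT n (d - 1)).app x s s') γ γᵀ =
          (actT n (d - 1)).app ((actT n (d - 1)).app x (tmat b s₀) (tmat' b d s₀)) (γ₀ * γ)
            (γ₀ * γ)ᵀ := by
        rw [Actn.app_app, Actn.app_app, hs1, hs2, Matrix.transpose_mul, mul_assoc, mul_assoc]
      rw [h5]
  rw [hre]
  apply Finset.sum_congr rfl
  intro γ hγ
  obtain ⟨s₁, h3, h6⟩ := conj_tmat (by omega) hf₀ nd₀ hb ((hΓmem γ).1 hγ) s₀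
  have h5 : (actT n (d - 1)).app ((actT n (d - 1)).app x (tmat b s₀) (tmat' b d s₀)) γ γᵀ =
      (actT n (d - 1)).app ((actT n (d - 1)).app x γ γᵀ) (tmat b s₁) (tmat' b d s₁) := by
    rw [Actn.app_app, Actn.app_app, h3, h6]
  rw [h5, ← eval_trn, ← tor_eq_trn, hP'tor]

lemma lineEv_C_mul {κ : Type} (x y : κ → ℂ) (c : ℂ) (P : MvPolynomial κ ℂ) (j : ℕ) :
    (lineEv x y (C c * P)).coeff j = c * (lineEv x y P).coeff j := by
  have h4 : lineEv x y (C c) = Polynomial.C c := by
    rw [lineEv, aeval_C]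
    rfl
  rw [map_mul, h4, Polynomial.coeff_C_mul]

lemma lineEv_sum {κ ι : Type} (x y : κ → ℂ) (Γ : Finset ι) (P : ι → MvPolynomial κ ℂ) (j : ℕ) :
    (lineEv x y (∑ γ ∈ Γ, P γ)).coeff j = ∑ γ ∈ Γ, (lineEv x y (P γ)).coeff j := by
  rw [map_sum, Polynomial.finsetSum_coeff]

lemma avg_line {f₀ : MvPolynomial (Fin n) ℂ} (hf₀ : f₀.IsHomogeneous d)
    (Γ : Finset (Matrix (Fin n) (Fin n) ℂ)) (hΓS : ∀ γ ∈ Γ, subst γ f₀ = f₀)
    (P' : MvPolynomial (Fin n × Mon n (d - 1)) ℂ) (c : ℂ) (u : Mon n d → ℂ) (j : ℕ) :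
    (lineEv (ct (d - 1) (grad f₀)) (gradC d u)
        (C c * ∑ γ ∈ Γ, trn (actT n (d - 1)) γ γᵀ P')).coeff j =
      c * ∑ γ ∈ Γ, (lineEv (ct (d - 1) (grad f₀)) (gradC d ((actS n d).app u γ 1)) P').coeff j := by
  have hx₀c : ct (d - 1) (grad f₀) = gradC d (cf d f₀) := by rw [gradC, frm_cf hf₀]
  have hΓx : ∀ γ ∈ Γ, (actT n (d - 1)).app (ct (d - 1) (grad f₀)) γ γᵀ =
      ct (d - 1) (grad f₀) := by
    intro γ hγ
    rw [hx₀c, ← gradC_act d _ γ 1, actS_app, frm_cf hf₀, hΓS γ hγ]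
  rw [lineEv_C_mul, lineEv_sum]
  refine congrArg (c * ·) (Finset.sum_congr rfl fun γ hγ => ?_)
  rw [lineEv_trn, hΓx γ hγ, ← gradC_act d u γ 1]

/-- invariant lifts of invariant leading forms -/
theorem exists_P0 (hTAN : StatementTAN) (hHALL : StatementHALL) (hGF : StatementGF) (hd : 3 ≤ d)
    {f₀ : MvPolynomial (Fin n) ℂ} (hf₀ : f₀.IsHomogeneous d) (nd₀ : NonDeg f₀)
    (hb : BlockForm f₀ b) {k : ℕ} {τ : MvPolynomial (Mon n d) ℂ} (hτh : τ.IsHomogeneous k)
    (hτN : ∀ ξ u, eval (u + cf d (lieS ξ f₀)) τ = eval u τ)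
    (hτG : ∀ g, (actS n d).app (cf d f₀) g 1 = cf d f₀ →
      ∀ u, eval ((actS n d).app u g 1) τ = eval u τ) :
    ∃ P₀ ∈ orbIdeal (actT n (d - 1)) (ct (d - 1) (grad f₀)) ^ k,
      (∀ s s' : Matrix (Fin n) (Fin n) ℂ, s.det ≠ 0 → s'.det ≠ 0 →
        (actT n (d - 1)).app (ct (d - 1) (grad f₀)) s s' = ct (d - 1) (grad f₀) →
        ∀ x, eval ((actT n (d - 1)).app x s s') P₀ = eval x P₀) ∧
      ∀ u, (∀ j < k, (lineEv (ct (d - 1) (grad f₀)) (gradC d u) P₀).coeff j = 0) ∧
        (lineEv (ct (d - 1) (grad f₀)) (gradC d u) P₀).coeff k = eval u τ := by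
  classical
  set x₀ := ct (d - 1) (grad f₀) with hx₀
  set A := actT n (d - 1) with hA
  have hmix := hb.mixed
  -- linear forms
  obtain ⟨π₀, hπ₀, hπ₀'⟩ := exists_projection (LinearMap.range (lieMap d f₀))
  let ℓ : Mon n d → (Mon n d → ℂ) →ₗ[ℂ] ℂ := fun α =>
    (LinearMap.proj α).comp (π₀.comp (prj b (bdg b α.1)))
  have hℓ : ∀ α u, ℓ α u = π₀ (prj b (bdg b α.1) u) α := fun α u => rfl
  have h1 : ∀ α ξ, ℓ α (lieMap d f₀ ξ) = 0 := by
    intro α ξ
    obtain ⟨ξ', hξ'⟩ := prj_lieMap b hf₀ hmix (bdg b α.1) ξ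
    rw [hℓ, hξ', hπ₀ _ ⟨ξ', rfl⟩]
    rfl
  have h2 : ∀ (α : Mon n d) (u v : Mon n d → ℂ) (c : ℂ),
      (∀ β : Mon n d, bdg b β.1 = bdg b α.1 → v β = c * u β) → ℓ α v = c * ℓ α u := by
    intro α u v c h
    have h3 : prj b (bdg b α.1) v = c • prj b (bdg b α.1) u := by
      funext β
      by_cases hβ : bdg b β.1 = bdg b α.1
      · rw [prj_apply_pos b _ hβ, Pi.smul_apply, prj_apply_pos b _ hβ, h β hβ, smul_eq_mul]
      · rw [prj_apply_neg b _ hβ, Pi.smul_apply, prj_apply_neg b _ hβ, smul_zero]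
    rw [hℓ, h3, map_smul, Pi.smul_apply, smul_eq_mul, hℓ]
  have hτℓ : ∀ u, eval (fun α => ℓ α u) τ = eval u τ := by
    intro u
    have h3 : (fun α => ℓ α u) - u ∈ LinearMap.range (lieMap d f₀) := by
      have h4 : (fun α => ℓ α u) - u = ∑ μ ∈ Finset.univ.image (fun α : Mon n d => bdg b α.1),
          prj b μ (π₀ (prj b μ u) - prj b μ u) := by
        funext α
        rw [Finset.sum_apply, Finset.sum_eq_single (bdg b α.1)]
        · rw [prj_apply_pos b _ rfl, Pi.sub_apply, Pi.sub_apply, prj_apply_pos b _ rfl, hℓ]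
        · intro μ _ hμ
          rw [prj_apply_neg b _ (Ne.symm hμ)]
        · intro h5
          exact absurd (Finset.mem_image_of_mem _ (Finset.mem_univ α)) h5
      rw [h4]
      apply Submodule.sum_mem
      intro μ _
      obtain ⟨ξ, hξ⟩ := hπ₀' (prj b μ u)
      rw [← hξ]
      obtain ⟨ξ', hξ'⟩ := prj_lieMap b hf₀ hmix μ ξ
      rw [hξ']
      exact ⟨ξ', rfl⟩
    obtain ⟨ξ, hξ⟩ := h3
    have h5 : (fun α => ℓ α u) = u + cf d (lieS ξ f₀) := by
      rw [← lieMap_apply, hξ]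
      simp
    rw [h5, hτN]
  -- monomials
  have hmon : ∀ m ∈ τ.support, ∃ (L : Fin k → Mon n d), m = ∑ l, Finsupp.single (L l) 1 := by
    intro m hm
    apply exists_list
    by_contra h
    exact (mem_support_iff.1 hm) (hτh.coeff_eq_zero h)
  have hτs : ∀ (s : Fin n → ℂ), (∀ a, s a ^ d = 1) → ∀ u : Mon n d → ℂ,
      eval ((actS n d).app u (diagonal fun i => s (b i)) 1) τ = eval u τ := by
    intro s hs u
    exact hτG _ (actS_diagonal_stab hmix (by omega) s hs 1) u
  have hex : ∀ m, ∃ P, m ∈ τ.support → P ∈ orbIdeal A x₀ ^ k ∧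
      (∀ s, tor (wtT b d) s P = P) ∧
      ∀ u, (∀ j < k, (lineEv x₀ (gradC d u) P).coeff j = 0) ∧
        (lineEv x₀ (gradC d u) P).coeff k = m.prod fun α e => ℓ α u ^ e := by
    intro m
    by_cases hm : m ∈ τ.support
    · obtain ⟨L, hL⟩ := hmon m hm
      obtain ⟨P, hP1, hP2, hP3⟩ := exists_lift_product hTAN hHALL hd hf₀ hmix ℓ h1 h2 L
        (fun a => dvd_of_invariant (by omega) hτs (mem_support_iff.1 hm) hL a)
      refine ⟨P, fun _ => ⟨hP1, hP2, fun u => ⟨(hP3 u).1, ?_⟩⟩⟩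
      rw [(hP3 u).2, prod_of_list hL (fun α => ℓ α u)]
    · exact ⟨0, fun h => absurd h hm⟩
  choose P hP using hex
  set P' := ∑ m ∈ τ.support, C (coeff m τ) * P m with hP'
  have hP'mem : P' ∈ orbIdeal A x₀ ^ k := by
    apply Ideal.sum_mem
    intro m hm
    exact Ideal.mul_mem_left _ _ (hP m hm).1
  have hP'tor : ∀ s, tor (wtT b d) s P' = P' := by
    intro s
    rw [hP', map_sum]
    apply Finset.sum_congr rfl
    intro m hm
    rw [map_mul, (hP m hm).2.1 s]
    congr 1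
    rw [tor, aeval_C]
    rfl
  have hP'line : ∀ u, (∀ j < k, (lineEv x₀ (gradC d u) P').coeff j = 0) ∧
      (lineEv x₀ (gradC d u) P').coeff k = eval u τ := by
    intro u
    have h3 : ∀ j, (lineEv x₀ (gradC d u) P').coeff j =
        ∑ m ∈ τ.support, coeff m τ * (lineEv x₀ (gradC d u) (P m)).coeff j := by
      intro j
      rw [hP', map_sum, Polynomial.finsetSum_coeff]
      apply Finset.sum_congr rfl
      intro m _
      have h4 : lineEv x₀ (gradC d u) (C (coeff m τ)) = Polynomial.C (coeff m τ) := by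
        rw [lineEv, aeval_C]
        rfl
      rw [map_mul, h4, Polynomial.coeff_C_mul]
    constructor
    · intro j hj
      rw [h3]
      apply Finset.sum_eq_zero
      intro m hm
      rw [((hP m hm).2.2 u).1 j hj, mul_zero]
    · rw [h3, ← hτℓ u, eval_eq]
      apply Finset.sum_congr rfl
      intro m hm
      rw [((hP m hm).2.2 u).2]
      rfl
  -- the finite stabilizer
  have hfin := hGF n d hd f₀ hf₀ nd₀
  set Γ := hfin.toFinset with hΓ
  have hΓmem : ∀ γ, γ ∈ Γ ↔ subst γ f₀ = f₀ := by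
    intro γ
    rw [hΓ, Set.Finite.mem_toFinset]
    exact Iff.rfl
  have hΓdet : ∀ γ ∈ Γ, γ.det ≠ 0 := fun γ hγ =>
    det_ne_zero_of_stab (by omega) hf₀ nd₀ ((hΓmem γ).1 hγ)
  have hone : (1 : Matrix (Fin n) (Fin n) ℂ) ∈ Γ := (hΓmem 1).2 (subst_one _)
  have hcard : (Γ.card : ℂ) ≠ 0 := by
    exact_mod_cast (Finset.card_pos.2 ⟨1, hone⟩).ne'
  have hΓS : ∀ γ ∈ Γ, ∀ a, (actS n d).app (cf d f₀) γ a = cf d f₀ := by
    intro γ hγ a
    rw [actS_app, frm_cf hf₀, (hΓmem γ).1 hγ]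
  refine ⟨C ((Γ.card : ℂ)⁻¹) * ∑ γ ∈ Γ, trn A γ γᵀ P', ?_, ?_, ?_⟩
  · apply Ideal.mul_mem_left
    apply Ideal.sum_mem
    intro γ hγ
    exact trn_mem_pow A x₀ (hΓdet γ hγ) (by rw [Matrix.det_transpose]; exact hΓdet γ hγ) k hP'mem
  · intro s s' hs hs' hss x
    have heval : ∀ y, eval y (C ((Γ.card : ℂ)⁻¹) * ∑ γ ∈ Γ, trn A γ γᵀ P') =
        (Γ.card : ℂ)⁻¹ * ∑ γ ∈ Γ, eval (A.app y γ γᵀ) P' := by
      intro y
      rw [map_mul, eval_C, map_sum]
      refine congrArg ((Γ.card : ℂ)⁻¹ * ·) (Finset.sum_congr rfl fun γ _ => ?_)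
      rw [eval_trn]
    rw [heval, heval, avg_invariant hd hf₀ nd₀ hb Γ hΓmem P' hP'tor hs hs' hss x]
  · intro u
    constructor
    · intro j hj
      rw [avg_line hf₀ Γ (fun γ hγ => (hΓmem γ).1 hγ)]
      have h4 : ∑ γ ∈ Γ, (lineEv x₀ (gradC d ((actS n d).app u γ 1)) P').coeff j = 0 := by
        apply Finset.sum_eq_zero
        intro γ _
        exact (hP'line _).1 j hj
      rw [h4, mul_zero]
    · rw [avg_line hf₀ Γ (fun γ hγ => (hΓmem γ).1 hγ)]
      have h4 : ∀ γ ∈ Γ, (lineEv x₀ (gradC d ((actS n d).app u γ 1)) P').coeff k = eval u τ := by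
        intro γ hγ
        rw [(hP'line _).2, hτG γ (hΓS γ hγ 1)]
      rw [Finset.sum_congr rfl h4, Finset.sum_const, nsmul_eq_mul, ← mul_assoc,
        inv_mul_cancel₀ hcard, one_mul]

end P0

end Pool.Agent.Lib.MP_4fcc12_ag
end

section
open MvPolynomial Matrix

set_option linter.unusedSectionVars false

namespace Pool.Agent.Lib.MP_4fcc12_ag

variable {n d : ℕ}

lemma gradC_smul {R : Type*} [CommRing R] (r : R) (x : Mon n d → R) :
    gradC d (fun j => r * x j) = fun j => r * gradC d x j := by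
  rw [gradC, frm_smul, gradC, ← ct_C_mul]
  congr 1
  funext i
  rw [grad, pderiv_C_mul]
  rfl

lemma lineEv_gradPull (c₀ u : Mon n d → ℂ) (Q : MvPolynomial (Fin n × Mon n (d - 1)) ℂ) :
    lineEv c₀ u (gradPull n d Q) = lineEv (gradC d c₀) (gradC d u) Q := by
  rw [lineEv, aeval_gradPull, lineEv]
  congr 2
  have h1 : (fun j => Polynomial.C (c₀ j) + Polynomial.X * Polynomial.C (u j)) =
      (Polynomial.C ∘ c₀) + fun j => Polynomial.X * (Polynomial.C ∘ u) j := rfl
  rw [h1, gradC_add, gradC_smul, ← gradC_map, ← gradC_map]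
  rfl

section rd

variable {Δ : MvPolynomial (Fin n × Mon n (d - 1)) ℂ} {r₁ r₂ : ℕ}

lemma RD.reg_iff (h : RD n d Δ r₁ r₂) {K : Type} [Field K] [IsAlgClosed K] [Algebra ℂ K]
    (x : Fin n × Mon n (d - 1) → K) : aeval x Δ ≠ 0 ↔ Reg (tup x) := by
  rw [Ne, h.zero_iff K x]
  push Not
  constructor
  · intro h1 p hp
    by_contra hp0
    obtain ⟨i, hi⟩ := h1 p hp0
    exact hi (hp i)
  · intro h1 p hp0
    by_contra h2
    push Not at h2
    exact hp0 (h1 p h2)

lemma RD.nonDeg_iff (h : RD n d Δ r₁ r₂) {K : Type} [Field K] [IsAlgClosed K] [Algebra ℂ K]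
    (x : Mon n d → K) : aeval x (gradPull n d Δ) ≠ 0 ↔ NonDeg (frm x) := by
  rw [aeval_gradPull, h.reg_iff, tup_gradC]
  exact Iff.rfl

end rd

variable {Δ : MvPolynomial (Fin n × Mon n (d - 1)) ℂ} {r₁ r₂ : ℕ} {b : Fin n → Fin n}

theorem ek_step (hEK5 : StatementEK5) (hTAN : StatementTAN) (hHALL : StatementHALL)
    (hGF : StatementGF) (hORB : StatementORB) (h : RD n d Δ r₁ r₂)
    {f₀ : MvPolynomial (Fin n) ℂ} (hf₀ : f₀.IsHomogeneous d) (nd₀ : NonDeg f₀)
    (hb : BlockForm f₀ b) {m₀ k : ℕ} {P : MvPolynomial (Mon n d) ℂ}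
    (hP : (actS n d).Semi (m₀ * (r₁ + r₂)) 0 P) (hord : OrdGE (cf d f₀) k P) :
    ∃ (m : ℕ) (Q : MvPolynomial (Fin n × Mon n (d - 1)) ℂ),
      (actT n (d - 1)).Semi (m * r₁) (m * r₂) Q ∧
      OrdGE (cf d f₀) (k + 1)
        (P * gradPull n d Δ ^ m - gradPull n d Q * gradPull n d Δ ^ m₀) := by
  have hx₀ : gradC d (cf d f₀) = ct (d - 1) (grad f₀) := by rw [gradC, frm_cf hf₀]
  have hδ : eval (cf d f₀) (gradPull n d Δ) ≠ 0 := by
    have h1 := (h.nonDeg_iff (K := ℂ) (cf d f₀)).2 (by rwa [frm_cf hf₀])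
    rwa [aeval_eq_eval] at h1
  have hδ' : eval (ct (d - 1) (grad f₀)) Δ = eval (cf d f₀) (gradPull n d Δ) := by
    have h1 := aeval_gradPull d Δ (cf d f₀)
    rw [aeval_eq_eval, aeval_eq_eval, hx₀] at h1
    exact h1.symm
  obtain ⟨δ, hδdef⟩ : ∃ δ, δ = eval (cf d f₀) (gradPull n d Δ) := ⟨_, rfl⟩
  rw [← hδdef] at hδ hδ'
  obtain ⟨τ, hτdef⟩ : ∃ τ, τ = hc (cf d f₀) k P := ⟨_, rfl⟩
  have hτh : τ.IsHomogeneous k := by rw [hτdef]; exact hc_isHomogeneous _ _ _
  have hτN : ∀ ξ u, eval (u + cf d (lieS ξ f₀)) τ = eval u τ := by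
    intro ξ u
    have h1 := leading_lie hP (cf d f₀) hord ξ u
    rwa [frm_cf hf₀, ← hτdef] at h1
  have hDsemi : (actS n d).Semi (r₁ + r₂) 0 (gradPull n d Δ) := semi_gradPull h.semi
  have hτG : ∀ g, (actS n d).app (cf d f₀) g 1 = cf d f₀ →
      ∀ u, eval ((actS n d).app u g 1) τ = eval u τ := by
    intro g hg u
    rw [hτdef]
    apply leading_stab hP (cf d f₀) hg
    have h1 := hDsemi (cf d f₀) g 1
    rw [hg, aeval_eq_eval, ← hδdef] at h1
    have h2 : g.det ^ (r₁ + r₂) = 1 := by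
      have h3 : g.det ^ (r₁ + r₂) * δ = 1 * δ := by
        rw [one_mul]
        conv_rhs => rw [h1]
        ring
      exact mul_right_cancel₀ hδ h3
    rw [mul_comm, pow_mul, h2, one_pow]
  obtain ⟨P₀, hP₀mem, hP₀inv, hP₀line⟩ :=
    exists_P0 hTAN hHALL hGF h.hd hf₀ nd₀ hb hτh hτN hτG
  have hclosed : ClosedOrb (actT n (d - 1)) Δ (ct (d - 1) (grad f₀)) := by
    apply closedOrb_grad hORB h.hd Δ _ hf₀ nd₀ hb
    intro y hy
    have h1 := (h.reg_iff (K := ℂ) y).1 (by rwa [aeval_eq_eval])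
    exact h1
  obtain ⟨m, Q, hQ, hQl⟩ := hEK5 n _ (actT n (d - 1)) Δ r₁ r₂ h.semi _ (by rw [hδ']; exact hδ)
    hclosed k P₀ hP₀mem hP₀inv
  refine ⟨m, C ((δ ^ m₀)⁻¹) * Q, ?_, ?_⟩
  · have h1 : (actT n (d - 1)).Semi (0 + m * r₁) (0 + m * r₂) (C ((δ ^ m₀)⁻¹) * Q) :=
      Actn.Semi.mul (Actn.Semi.C ((δ ^ m₀)⁻¹)) hQ
    rwa [zero_add, zero_add] at h1
  · rw [ordGE_iff]
    intro u
    have e1 : Polynomial.X ^ k ∣ lineEv (cf d f₀) u P := (ordGE_iff _ _ _).1 hord u
    have hD0 : (lineEv (cf d f₀) u (gradPull n d Δ)).coeff 0 = δ := by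
      rw [coeff_zero_lineEv, hδdef]
    -- the line expansions modulo `X ^ (k + 1)`
    have e2 : Polynomial.X ^ (k + 1) ∣ lineEv (cf d f₀) u P -
        Polynomial.X ^ k * Polynomial.C (eval u τ) := by
      rw [Polynomial.X_pow_dvd_iff]
      intro j hj
      rw [Polynomial.coeff_sub, Polynomial.coeff_X_pow_mul', Polynomial.coeff_C]
      rcases Nat.lt_succ_iff_lt_or_eq.1 hj with h1 | h1
      · rw [Polynomial.X_pow_dvd_iff.1 e1 j h1, if_neg (by omega), sub_zero]
      · subst h1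
        rw [coeff_lineEv, ← hτdef]
        simp
    have e3 : Polynomial.X ^ (k + 1) ∣ lineEv (ct (d - 1) (grad f₀)) (gradC d u) P₀ -
        Polynomial.X ^ k * Polynomial.C (eval u τ) := by
      rw [Polynomial.X_pow_dvd_iff]
      intro j hj
      rw [Polynomial.coeff_sub, Polynomial.coeff_X_pow_mul', Polynomial.coeff_C]
      rcases Nat.lt_succ_iff_lt_or_eq.1 hj with h1 | h1
      · rw [(hP₀line u).1 j h1, if_neg (by omega), sub_zero]
      · subst h1
        rw [(hP₀line u).2]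
        simp
    have e4 : ∀ N : ℕ, Polynomial.X ∣ lineEv (cf d f₀) u (gradPull n d Δ ^ N) -
        Polynomial.C (δ ^ N) := by
      intro N
      rw [Polynomial.X_dvd_iff, Polynomial.coeff_sub, Polynomial.coeff_C_zero, map_pow,
        Polynomial.coeff_zero_eq_eval_zero, Polynomial.eval_pow,
        ← Polynomial.coeff_zero_eq_eval_zero, hD0, sub_self]
    have e5 := hQl (gradC d u)
    rw [hδ'] at e5
    change Polynomial.X ^ (k + 1) ∣ lineEv (ct (d - 1) (grad f₀)) (gradC d u) Q -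
      Polynomial.C (δ ^ m) * lineEv (ct (d - 1) (grad f₀)) (gradC d u) P₀ at e5
    have e6 : lineEv (cf d f₀) u (P * gradPull n d Δ ^ m -
        gradPull n d (C ((δ ^ m₀)⁻¹) * Q) * gradPull n d Δ ^ m₀) =
        lineEv (cf d f₀) u P * lineEv (cf d f₀) u (gradPull n d Δ ^ m) -
        Polynomial.C ((δ ^ m₀)⁻¹) * lineEv (ct (d - 1) (grad f₀)) (gradC d u) Q *
          lineEv (cf d f₀) u (gradPull n d Δ ^ m₀) := by
      rw [map_sub, map_mul, map_mul, lineEv_gradPull, hx₀, map_mul]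
      congr 3
      rw [lineEv, aeval_C]
      rfl
    rw [e6]
    obtain ⟨p2, hp2⟩ := e2
    obtain ⟨p3, hp3⟩ := e3
    obtain ⟨p4, hp4⟩ := e4 m
    obtain ⟨p4', hp4'⟩ := e4 m₀
    obtain ⟨p5, hp5⟩ := e5
    rw [sub_eq_iff_eq_add] at hp2 hp3 hp4 hp4' hp5
    rw [hp2, hp5, hp3, hp4, hp4']
    have hCinv : Polynomial.C ((δ ^ m₀)⁻¹) * Polynomial.C (δ ^ m₀) = 1 := by
      rw [← Polynomial.C_mul, inv_mul_cancel₀ (pow_ne_zero _ hδ), Polynomial.C_1]
    refine ⟨p2 * (Polynomial.X * p4 + Polynomial.C (δ ^ m)) +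
      Polynomial.C (eval u τ) * p4 -
      Polynomial.C ((δ ^ m₀)⁻¹) * (p5 + Polynomial.C (δ ^ m) * p3) *
        (Polynomial.X * p4' + Polynomial.C (δ ^ m₀)) -
      Polynomial.C ((δ ^ m₀)⁻¹) * (Polynomial.C (δ ^ m) * Polynomial.C (eval u τ)) * p4', ?_⟩
    linear_combination (-(Polynomial.X ^ k * Polynomial.C (eval u τ) * Polynomial.C (δ ^ m))) *
      hCinv

end Pool.Agent.Lib.MP_4fcc12_ag
end

section
open MvPolynomial Matrix

set_option linter.unusedSectionVars false

namespace Pool.Agent.Lib.MP_4fcc12_ag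

variable {n d : ℕ} {Δ : MvPolynomial (Fin n × Mon n (d - 1)) ℂ} {r₁ r₂ : ℕ}

lemma exists_block (hALG : StatementALG) (hd : 3 ≤ d) {f : MvPolynomial (Fin n) ℂ}
    (hf : f.IsHomogeneous d) (nd : NonDeg f) :
    ∃ (g : Matrix (Fin n) (Fin n) ℂ) (b : Fin n → Fin n), g.det ≠ 0 ∧
      BlockForm (subst g f) b := by
  obtain ⟨g, b, hg, h1, h2⟩ := hALG n d hd f hf nd
  refine ⟨g, b, hg.ne_zero, ⟨h1, ?_⟩⟩
  intro B hB
  exact h2 B hB

/-- values of semi-invariants of forms along orbits -/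
lemma eval_app_semi {w : ℕ} {P : MvPolynomial (Mon n d) ℂ} (hP : (actS n d).Semi w 0 P)
    (x : Mon n d → ℂ) (g a : Matrix (Fin n) (Fin n) ℂ) :
    eval ((actS n d).app x g a) P = g.det ^ w * eval x P := by
  have h1 := hP x g a
  rw [aeval_eq_eval, aeval_eq_eval, pow_zero, mul_one] at h1
  exact h1

/-- orbits of nondegenerate forms are separated by the pull backs of invariants of tuples -/
theorem sep (hALG : StatementALG) (hORB : StatementORB) (h : RD n d Δ r₁ r₂)
    (x₀ x' : Mon n d → ℂ)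
    (h0 : eval x₀ (gradPull n d Δ) ≠ 0) (h' : eval x' (gradPull n d Δ) ≠ 0)
    (hinv : ∀ m Q, (actT n (d - 1)).Semi (m * r₁) (m * r₂) Q →
      eval x₀ (gradPull n d Q) / (eval x₀ (gradPull n d Δ)) ^ m =
        eval x' (gradPull n d Q) / (eval x' (gradPull n d Δ)) ^ m) :
    ∃ g : Matrix (Fin n) (Fin n) ℂ, g.det ≠ 0 ∧ (actS n d).app x₀ g 1 = x' := by
  have hDsemi : (actS n d).Semi (r₁ + r₂) 0 (gradPull n d Δ) := semi_gradPull h.semi
  have nd0 : NonDeg (frm x₀) := (h.nonDeg_iff (K := ℂ) x₀).1 (by rwa [aeval_eq_eval])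
  have nd' : NonDeg (frm x') := (h.nonDeg_iff (K := ℂ) x').1 (by rwa [aeval_eq_eval])
  obtain ⟨g₀, b₀, hg₀, hb₀⟩ := exists_block hALG h.hd (isHomogeneous_frm x₀) nd0
  obtain ⟨g', b', hg', hb'⟩ := exists_block hALG h.hd (isHomogeneous_frm x') nd'
  have hh0 : (subst g₀ (frm x₀)).IsHomogeneous d := isHomogeneous_subst _ (isHomogeneous_frm x₀)
  have hh' : (subst g' (frm x')).IsHomogeneous d := isHomogeneous_subst _ (isHomogeneous_frm x')
  have nd0' : NonDeg (subst g₀ (frm x₀)) := nd0.subst (isUnit_iff_ne_zero.2 hg₀)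
  have nd'' : NonDeg (subst g' (frm x')) := nd'.subst (isUnit_iff_ne_zero.2 hg')
  have hy0 : (actS n d).app x₀ g₀ 1 = cf d (subst g₀ (frm x₀)) := actS_app _ _ _
  have hy' : (actS n d).app x' g' 1 = cf d (subst g' (frm x')) := actS_app _ _ _
  have hgr0 : gradC d ((actS n d).app x₀ g₀ 1) = ct (d - 1) (grad (subst g₀ (frm x₀))) := by
    rw [hy0, gradC, frm_cf hh0]
  have hgr' : gradC d ((actS n d).app x' g' 1) = ct (d - 1) (grad (subst g' (frm x'))) := by
    rw [hy', gradC, frm_cf hh']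
  have hΔreg : ∀ y, eval y Δ ≠ 0 → Reg (tup y) := fun y hy =>
    (h.reg_iff (K := ℂ) y).1 (by rwa [aeval_eq_eval])
  have hc0 := closedOrb_grad hORB h.hd Δ hΔreg hh0 nd0' hb₀
  have hc' := closedOrb_grad hORB h.hd Δ hΔreg hh' nd'' hb'
  have hevQ : ∀ (x : Mon n d → ℂ) (Q : MvPolynomial (Fin n × Mon n (d - 1)) ℂ),
      eval (gradC d x) Q = eval x (gradPull n d Q) := by
    intro x Q
    have h1 := aeval_gradPull d Q x
    rw [aeval_eq_eval, aeval_eq_eval] at h1
    exact h1.symm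
  have hval : ∀ (x : Mon n d → ℂ) (g : Matrix (Fin n) (Fin n) ℂ), g.det ≠ 0 →
      ∀ m Q, (actT n (d - 1)).Semi (m * r₁) (m * r₂) Q →
      eval (gradC d ((actS n d).app x g 1)) Q / (eval (gradC d ((actS n d).app x g 1)) Δ) ^ m =
      eval x (gradPull n d Q) / (eval x (gradPull n d Δ)) ^ m := by
    intro x g hg m Q hQ
    have h2 : (actS n d).Semi (m * r₁ + m * r₂) 0 (gradPull n d Q) := semi_gradPull hQ
    rw [hevQ, hevQ, eval_app_semi h2, eval_app_semi hDsemi, mul_pow, ← pow_mul,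
      show (r₁ + r₂) * m = m * r₁ + m * r₂ by ring]
    rw [mul_div_mul_left _ _ (pow_ne_zero _ hg)]
  have h2 : eval (gradC d ((actS n d).app x' g' 1)) Δ ≠ 0 := by
    rw [hevQ, eval_app_semi hDsemi]
    exact mul_ne_zero (pow_ne_zero _ hg') h'
  obtain ⟨g, a, hg, ha, hga⟩ := orbit_separation (actT n (d - 1)) Δ r₁ r₂ h.semi
    (gradC d ((actS n d).app x₀ g₀ 1)) (gradC d ((actS n d).app x' g' 1)) h2
    (by rw [hgr0]; exact hc0) (by rw [hgr']; exact hc')
    (by
      intro m Q hQ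
      rw [hval x₀ g₀ hg₀ m Q hQ, hval x' g' hg' m Q hQ, hinv m Q hQ])
  have hact : act (grad (subst g₀ (frm x₀))) g a = grad (subst g' (frm x')) := by
    rw [hgr0, hgr'] at hga
    have h3 := congrArg tup hga
    rw [actT_app, tup_ct (isHomogeneous_grad hh0), tup_ct (isHomogeneous_grad hh'),
      tup_ct (isHomogeneous_act (isHomogeneous_grad hh0) _ _)] at h3
    exact h3
  obtain ⟨τ, hτ0, -, hτ1, -⟩ := lemmaW h.hd hh0 hh' hb₀ hg ha hact
  have hg'u := isUnit_iff_ne_zero.2 hg'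
  refine ⟨g₀ * (diagonal τ * g) * g'⁻¹, ?_, ?_⟩
  · rw [Matrix.det_mul, Matrix.det_mul, Matrix.det_mul, det_diagonal]
    exact mul_ne_zero (mul_ne_zero hg₀ (mul_ne_zero (Finset.prod_ne_zero_iff.2 fun i _ => hτ0 i) hg))
      (Matrix.isUnit_nonsing_inv_det _ hg'u).ne_zero
  · rw [actS_app, subst_mul, subst_mul, ← hτ1, ← subst_mul, Matrix.mul_nonsing_inv _ hg'u,
      subst_one, cf_frm]

end Pool.Agent.Lib.MP_4fcc12_ag
end

section
open MvPolynomial Matrix

set_option linter.unusedSectionVars false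

namespace Pool.Agent.Lib.MP_4fcc12_ag

section loc

variable {κ : Type} {Δ : MvPolynomial κ ℂ}

lemma isUnit_powB (Δ : MvPolynomial κ ℂ) (m : ℕ) :
    IsUnit (algebraMap (MvPolynomial κ ℂ) (Localization.Away Δ) (Δ ^ m)) := by
  rw [map_pow]
  exact (IsLocalization.Away.algebraMap_isUnit Δ).pow m

lemma exists_divB (Δ : MvPolynomial κ ℂ) (P : MvPolynomial κ ℂ) (m : ℕ) :
    ∃ b : Localization.Away Δ, b * algebraMap (MvPolynomial κ ℂ) (Localization.Away Δ) (Δ ^ m) =
      algebraMap (MvPolynomial κ ℂ) (Localization.Away Δ) P := by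
  obtain ⟨u, hu⟩ := isUnit_powB Δ m
  refine ⟨algebraMap (MvPolynomial κ ℂ) (Localization.Away Δ) P * (u⁻¹ : (Localization.Away Δ)ˣ),
    ?_⟩
  rw [← hu, mul_assoc, Units.inv_mul, mul_one]

lemma injB (hΔ : Δ ≠ 0) :
    Function.Injective (algebraMap (MvPolynomial κ ℂ) (Localization.Away Δ)) :=
  IsLocalization.injective _ (powers_le_nonZeroDivisors_of_noZeroDivisors hΔ)

/-- the maximal ideal `𝔐` is the ideal of the point `x₀` -/
def PtOf (𝔐 : Ideal (Localization.Away Δ)) (x₀ : κ → ℂ) : Prop :=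
  ∀ P : MvPolynomial κ ℂ, algebraMap (MvPolynomial κ ℂ) (Localization.Away Δ) P ∈ 𝔐 ↔
    eval x₀ P = 0

lemma PtOf.mem_iff {𝔐 : Ideal (Localization.Away Δ)} {x₀ : κ → ℂ} (h : PtOf 𝔐 x₀)
    {φ : Localization.Away Δ} {m : ℕ} {P : MvPolynomial κ ℂ}
    (hφ : φ * algebraMap (MvPolynomial κ ℂ) (Localization.Away Δ) (Δ ^ m) =
      algebraMap (MvPolynomial κ ℂ) (Localization.Away Δ) P) : φ ∈ 𝔐 ↔ eval x₀ P = 0 := by
  rw [← h P, ← hφ, Ideal.mul_unit_mem_iff_mem _ (isUnit_powB Δ m)]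

lemma PtOf.eq {𝔐 : Ideal (Localization.Away Δ)} {x₀ x₁ : κ → ℂ} (h : PtOf 𝔐 x₀)
    (h' : PtOf 𝔐 x₁) : x₀ = x₁ := by
  funext i
  have h1 : eval x₀ (X i - C (x₀ i)) = 0 := by simp
  rw [← h, h'] at h1
  have h2 : x₁ i - x₀ i = 0 := by simpa using h1
  exact (sub_eq_zero.1 h2).symm

end loc

variable {n d : ℕ} {Δ : MvPolynomial (Fin n × Mon n (d - 1)) ℂ} {r₁ r₂ : ℕ}

lemma RD.semiD (h : RD n d Δ r₁ r₂) : (actS n d).Semi (r₁ + r₂) 0 (gradPull n d Δ) :=
  semi_gradPull h.semi

/-- the ring of invariants -/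
noncomputable abbrev RR (h : RD n d Δ r₁ r₂) :
    Subalgebra ℂ (Localization.Away (gradPull n d Δ)) :=
  invAlg (actS n d) (gradPull n d Δ) (r₁ + r₂) 0 h.semiD

lemma RD.ctr (hCTR : StatementCTR) (h : RD n d Δ r₁ r₂) (hD : gradPull n d Δ ≠ 0)
    (𝔞 : Ideal (RR h)) (φ : RR h)
    (hφ : (φ : Localization.Away (gradPull n d Δ)) ∈
      𝔞.map (algebraMap (RR h) (Localization.Away (gradPull n d Δ)))) : φ ∈ 𝔞 :=
  hCTR n _ (actS n d) (gradPull n d Δ) (r₁ + r₂) 0 h.semiD hD 𝔞 φ hφ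

/-- the subring of pull backs of invariants -/
noncomputable def SS (h : RD n d Δ r₁ r₂) : Subalgebra ℂ (RR h) where
  carrier := {φ | ∃ (m : ℕ) (Q : MvPolynomial (Fin n × Mon n (d - 1)) ℂ),
    (actT n (d - 1)).Semi (m * r₁) (m * r₂) Q ∧
    (φ : Localization.Away (gradPull n d Δ)) * algebraMap (MvPolynomial (Mon n d) ℂ)
      (Localization.Away (gradPull n d Δ)) (gradPull n d Δ ^ m) =
      algebraMap (MvPolynomial (Mon n d) ℂ) (Localization.Away (gradPull n d Δ))
        (gradPull n d Q)}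
  mul_mem' := by
    rintro b b' ⟨m, P, hP, hb⟩ ⟨m', P', hP', hb'⟩
    refine ⟨m + m', P * P', ?_, ?_⟩
    · rw [add_mul, add_mul]
      exact Actn.Semi.mul hP hP'
    · rw [pow_add, map_mul, map_mul, map_mul, ← hb, ← hb', MulMemClass.coe_mul]
      ring
  add_mem' := by
    rintro b b' ⟨m, P, hP, hb⟩ ⟨m', P', hP', hb'⟩
    refine ⟨m + m', P * Δ ^ m' + Δ ^ m * P', ?_, ?_⟩
    · rw [add_mul, add_mul]
      exact Actn.Semi.add (Actn.Semi.mul hP (Actn.Semi.pow h.semi m'))
        (Actn.Semi.mul (Actn.Semi.pow h.semi m) hP')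
    · rw [pow_add, map_add, map_add, map_mul, map_mul, map_mul, map_mul, map_mul, ← hb, ← hb',
        AddMemClass.coe_add, map_pow (gradPull n d), map_pow (gradPull n d)]
      ring
  algebraMap_mem' := by
    intro c
    refine ⟨0, MvPolynomial.C c, ?_, ?_⟩
    · rw [zero_mul, zero_mul]
      exact Actn.Semi.C c
    · rw [pow_zero, map_one, mul_one]
      have h1 : gradPull n d (MvPolynomial.C c) = MvPolynomial.C c := by
        rw [gradPull, aeval_C]
        rfl
      rw [h1, ← MvPolynomial.algebraMap_eq]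
      exact IsScalarTower.algebraMap_apply ℂ (MvPolynomial (Mon n d) ℂ)
        (Localization.Away (gradPull n d Δ)) c

/-- a point for every maximal ideal of the ring of invariants -/
lemma exists_pt (hCTR : StatementCTR) (hORD : StatementORD) (h : RD n d Δ r₁ r₂)
    (hD : gradPull n d Δ ≠ 0) (𝔫 : Ideal (RR h)) (h𝔫 : 𝔫.IsMaximal) :
    ∃ (𝔐 : Ideal (Localization.Away (gradPull n d Δ))) (x : Mon n d → ℂ), 𝔐.IsMaximal ∧
      eval x (gradPull n d Δ) ≠ 0 ∧ PtOf 𝔐 x ∧
      𝔐.comap (algebraMap (RR h) (Localization.Away (gradPull n d Δ))) = 𝔫 := by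
  have h1 : 𝔫.map (algebraMap (RR h) (Localization.Away (gradPull n d Δ))) ≠ ⊤ := by
    intro h2
    apply h𝔫.ne_top
    rw [Ideal.eq_top_iff_one]
    apply h.ctr hCTR hD
    rw [h2]
    trivial
  obtain ⟨𝔐, h𝔐, hle⟩ := Ideal.exists_le_maximal _ h1
  obtain ⟨x, hx, hpow⟩ := hORD _ (gradPull n d Δ) 𝔐 h𝔐
  refine ⟨𝔐, x, h𝔐, hx, ?_, ?_⟩
  · intro P
    have h2 := hpow 1 P
    rw [pow_one] at h2
    rw [h2, ordGE_iff]
    constructor
    · intro h3
      have h4 := Polynomial.X_pow_dvd_iff.1 (h3 0) 0 Nat.one_pos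
      rwa [coeff_zero_lineEv] at h4
    · intro h3 y
      rw [pow_one, Polynomial.X_dvd_iff, coeff_zero_lineEv, h3]
  · symm
    apply h𝔫.eq_of_le
    · intro h2
      apply h𝔐.ne_top
      rw [Ideal.eq_top_iff_one]
      have h3 : (1 : RR h) ∈ 𝔐.comap (algebraMap (RR h) (Localization.Away (gradPull n d Δ))) := by
        rw [h2]
        trivial
      rwa [Ideal.mem_comap, map_one] at h3
    · exact Ideal.map_le_iff_le_comap.1 hle

end Pool.Agent.Lib.MP_4fcc12_ag
end

section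
open MvPolynomial

set_option linter.unusedSectionVars false

namespace Pool.Agent.Lib.MP_4fcc12_ag

theorem statementCTR : StatementCTR := by
  intro n κ _ A _ Δ r₁ r₂ hΔ hΔ0 𝔞 φ hφ
  -- the predicate
  let T : Localization.Away Δ → Prop := fun y => ∃ (N : ℕ) (Y : MvPolynomial κ ℂ),
    y * algebraMap (MvPolynomial κ ℂ) (Localization.Away Δ) (Δ ^ N) =
      algebraMap (MvPolynomial κ ℂ) (Localization.Away Δ) Y ∧
    ∀ k : ℕ, ∃ a ∈ 𝔞, (a : Localization.Away Δ) *
      algebraMap (MvPolynomial κ ℂ) (Localization.Away Δ) (Δ ^ (N + k)) =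
      algebraMap (MvPolynomial κ ℂ) (Localization.Away Δ)
        (A.rey ((N + k) * r₁) ((N + k) * r₂) 0 0 (Y * Δ ^ k))
  have hadd : ∀ y₁ y₂, T y₁ → T y₂ → T (y₁ + y₂) := by
    rintro y₁ y₂ ⟨N₁, Y₁, h1, h1'⟩ ⟨N₂, Y₂, h2, h2'⟩
    refine ⟨N₁ + N₂, Y₁ * Δ ^ N₂ + Y₂ * Δ ^ N₁, ?_, ?_⟩
    · rw [pow_add, map_mul, map_add, map_mul, map_mul, ← h1, ← h2]
      ring
    · intro k
      obtain ⟨a₁, ha₁, h3⟩ := h1' (N₂ + k)
      obtain ⟨a₂, ha₂, h4⟩ := h2' (N₁ + k)
      refine ⟨a₁ + a₂, Ideal.add_mem _ ha₁ ha₂, ?_⟩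
      have e1 : (Y₁ * Δ ^ N₂ + Y₂ * Δ ^ N₁) * Δ ^ k =
          Y₁ * Δ ^ (N₂ + k) + Y₂ * Δ ^ (N₁ + k) := by ring
      rw [e1, Actn.rey_add, map_add, AddMemClass.coe_add, add_mul]
      congr 1
      · rw [show N₁ + N₂ + k = N₁ + (N₂ + k) by ring]
        exact h3
      · rw [show N₁ + N₂ + k = N₂ + (N₁ + k) by ring]
        exact h4
  have hbase : ∀ (b : Localization.Away Δ), ∀ a ∈ 𝔞, T (b * (a : Localization.Away Δ)) := by
    intro b a ha
    obtain ⟨m, P, hP, haP⟩ := a.2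
    obtain ⟨⟨C', ⟨_, l, rfl⟩⟩, hb⟩ := IsLocalization.surj (Submonoid.powers Δ) b
    have hb' : b * algebraMap (MvPolynomial κ ℂ) (Localization.Away Δ) (Δ ^ l) =
      algebraMap (MvPolynomial κ ℂ) (Localization.Away Δ) C' := hb
    refine ⟨m + l, P * C', ?_, ?_⟩
    · rw [pow_add, map_mul, map_mul, ← haP, ← hb']
      ring
    · intro k
      have hw₁ : 0 + m * r₁ ≤ (m + l + k) * r₁ := by
        rw [zero_add]
        exact Nat.mul_le_mul_right _ (by omega)
      have hw₂ : 0 + m * r₂ ≤ (m + l + k) * r₂ := by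
        rw [zero_add]
        exact Nat.mul_le_mul_right _ (by omega)
      have hs : A.Semi ((m + l + k) * r₁ - (0 + m * r₁)) ((m + l + k) * r₂ - (0 + m * r₂))
          (A.rey ((m + l + k) * r₁) ((m + l + k) * r₂) (0 + m * r₁) (0 + m * r₂)
            (C' * Δ ^ k)) := A.semi_rey _ _ _ _ _ hw₁ hw₂
      have hw₁' : (m + l + k) * r₁ - (0 + m * r₁) = (l + k) * r₁ := by
        rw [zero_add, ← Nat.sub_mul]
        congr 1
        omega
      have hw₂' : (m + l + k) * r₂ - (0 + m * r₂) = (l + k) * r₂ := by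
        rw [zero_add, ← Nat.sub_mul]
        congr 1
        omega
      rw [hw₁', hw₂'] at hs
      obtain ⟨c, hc⟩ := exists_divB Δ (A.rey ((m + l + k) * r₁) ((m + l + k) * r₂) (0 + m * r₁)
        (0 + m * r₂) (C' * Δ ^ k)) (l + k)
      have hcR : c ∈ (invAlg A Δ r₁ r₂ hΔ).toSubring := ⟨l + k, _, hs, hc⟩
      refine ⟨⟨c, hcR⟩ * a, Ideal.mul_mem_left _ _ ha, ?_⟩
      rw [mul_assoc P, A.rey_mul 0 0 hP, map_mul, ← haP, ← hc, MulMemClass.coe_mul,
        show m + l + k = m + (l + k) by ring, pow_add, map_mul]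
      ring
  have hT : ∀ y ∈ 𝔞.map (invAlg A Δ r₁ r₂ hΔ).toSubring.subtype, ∀ b, T (b * y) := by
    intro y hy
    refine Submodule.span_induction (p := fun y _ => ∀ b, T (b * y)) ?_ ?_ ?_ ?_ hy
    · rintro _ ⟨a, ha, rfl⟩ b
      exact hbase b a ha
    · intro b
      have h1 := hbase b 0 (Ideal.zero_mem _)
      rwa [ZeroMemClass.coe_zero] at h1
    · intro y₁ y₂ _ _ h1 h2 b
      rw [mul_add]
      exact hadd _ _ (h1 b) (h2 b)
    · intro c y _ h1 b
      rw [smul_eq_mul, ← mul_assoc]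
      exact h1 (b * c)
  obtain ⟨N, Y, hY, hk⟩ := hT _ hφ 1
  rw [one_mul] at hY
  obtain ⟨e, P, hP, hφP⟩ := φ.2
  obtain ⟨a, ha, haY⟩ := hk e
  have hinj : Y * Δ ^ e = P * Δ ^ N := by
    apply injB hΔ0
    rw [map_mul, map_mul, ← hY, ← hφP]
    ring
  have hsemi : A.Semi ((N + e) * r₁) ((N + e) * r₂) (Y * Δ ^ e) := by
    rw [hinj, add_mul, add_mul, add_comm (N * r₁), add_comm (N * r₂)]
    exact Actn.Semi.mul hP (Actn.Semi.pow hΔ N)
  rw [A.rey_of_semi 0 0 hsemi (zero_add _) (zero_add _)] at haY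
  have h1 : (a : Localization.Away Δ) = φ := by
    apply (isUnit_powB Δ (N + e)).mul_right_cancel
    rw [haY, map_mul, ← hY, pow_add, map_mul]
    ring
  have h2 : a = φ := Subtype.ext h1
  rw [← h2]
  exact ha

end Pool.Agent.Lib.MP_4fcc12_ag
end

section
open MvPolynomial Matrix IsLocalRing

set_option linter.unusedSectionVars false

namespace Pool.Agent.Lib.MP_4fcc12_ag

theorem statementINT (hVC : StatementVC) : StatementINT := by
  intro n d Δ r₁ r₂ h K _ _ O₀ hO₀ x hx hS m P hP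
  have hgp : ∀ Q : MvPolynomial (Fin n × Mon n (d - 1)) ℂ,
      aeval (gradC d x) Q = aeval x (gradPull n d Q) := fun Q => (aeval_gradPull d Q x).symm
  obtain ⟨L, _, _, _, ι, O, g, a, hO, hιO, hg, ha, hint, hunit⟩ :=
    hVC n _ (actT n (d - 1)) Δ r₁ r₂ h.semi K O₀ hO₀ (gradC d x) (by rw [hgp]; exact hx)
      (by
        intro m Q hQ
        rw [hgp, hgp]
        exact hS m Q hQ)
  have hcz : CharZero (ResidueField O) := charZero_residue hO
  have hac : IsAlgClosed (ResidueField O) := isAlgClosed_residueField O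
  let iO : Algebra ℂ O := (cO hO).toAlgebra
  let iR : Algebra ℂ (ResidueField O) := ((residue O).comp (cO hO)).toAlgebra
  let resA : O →ₐ[ℂ] ResidueField O := { residue O with commutes' := fun c => rfl }
  let incA : O →ₐ[ℂ] L := { algebraMap O L with commutes' := fun c => rfl }
  have hres : ∀ {κ : Type} (y : κ → O) (R : MvPolynomial κ ℂ),
      residue O (aeval y R) = aeval (residue O ∘ y) R := by
    intro κ y R
    have h1 : resA (aeval y R) = aeval (resA ∘ y) R := by
      rw [← AlgHom.comp_apply, comp_aeval]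
      rfl
    exact h1
  have hinc : ∀ {κ : Type} (y : κ → O) (R : MvPolynomial κ ℂ),
      algebraMap O L (aeval y R) = aeval (algebraMap O L ∘ y) R := by
    intro κ y R
    have h1 : incA (aeval y R) = aeval (incA ∘ y) R := by
      rw [← AlgHom.comp_apply, comp_aeval]
      rfl
    exact h1
  have hιv : ∀ R : MvPolynomial (Mon n d) ℂ, aeval (ι ∘ x) R = ι (aeval x R) := by
    intro R
    rw [← AlgHom.comp_apply, comp_aeval]
    rfl
  obtain ⟨xL, hxL⟩ : ∃ xL : Mon n d → L, xL = ι ∘ x := ⟨_, rfl⟩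
  have hgrL : ι ∘ gradC d x = gradC d xL := by
    rw [hxL]
    exact gradC_map ι.toRingHom d x
  rw [hgrL] at hint hunit
  -- the integral tuple
  let yO : Fin n × Mon n (d - 1) → O := fun k => ⟨_, hint k⟩
  have hyL : algebraMap O L ∘ yO = (actT n (d - 1)).app (gradC d xL) g a := rfl
  have hyΔ : residue O (aeval yO Δ) ≠ 0 := by
    intro h0
    have h1 := (valuation_lt_one_iff_residue (O := O)).2 h0
    have h2 : ((aeval yO Δ : O) : L) = aeval ((actT n (d - 1)).app (gradC d xL) g a) Δ :=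
      hinc yO Δ
    rw [h2] at h1
    have h3 := (O.valuation_le_one_iff _).2 hunit
    rw [map_inv₀] at h3
    have h4 : O.valuation (aeval ((actT n (d - 1)).app (gradC d xL) g a) Δ) ≠ 0 := by
      rw [Ne, Valuation.zero_iff]
      intro h5
      have h6 := h.semi (gradC d xL) g a
      rw [h5] at h6
      have h7 : aeval (gradC d xL) Δ ≠ 0 := by
        rw [aeval_gradPull d Δ xL |>.symm, hxL, hιv]
        exact (map_ne_zero_iff _ ι.injective).2 hx
      exact (mul_ne_zero (mul_ne_zero (pow_ne_zero _ hg) (pow_ne_zero _ ha)) h7) h6.symm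
    exact absurd ((inv_le_one₀ (zero_lt_iff.2 h4)).1 h3) (not_le.2 h1)
  let F : Fin n → MvPolynomial (Fin n) O := tup yO
  have hF : ∀ i, (F i).IsHomogeneous (d - 1) := isHomogeneous_tup _
  have regF : Reg fun i => MvPolynomial.map (residue O) (F i) := by
    have h1 : (fun i => MvPolynomial.map (residue O) (F i)) = tup (residue O ∘ yO) := by
      funext i
      exact map_tup _ _ _
    rw [h1, ← h.reg_iff, ← hres]
    exact hyΔ
  have hFL : (fun i => MvPolynomial.map (algebraMap O L) (F i)) = act (grad (frm xL)) g a := by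
    funext i
    have h1 : MvPolynomial.map (algebraMap O L) (F i) = tup (algebraMap O L ∘ yO) i :=
      map_tup _ _ _
    rw [h1, hyL, actT_app, tup_ct (isHomogeneous_act (isHomogeneous_tup _) g a), tup_gradC]
  have hau := isUnit_iff_ne_zero.2 ha
  have hgrad : grad (subst g (frm xL)) =
      act (fun i => MvPolynomial.map (algebraMap O L) (F i)) 1 (gᵀ * a⁻¹) := by
    rw [hFL, act_act, mul_one, mul_assoc, Matrix.nonsing_inv_mul _ hau, mul_one, grad_subst]
  obtain ⟨k, s, f₁, hk, hs0, -, hf₁, nd₁, hf₁eq, -⟩ := semistable h.hd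
    (isHomogeneous_subst g (isHomogeneous_frm xL)) (gᵀ * a⁻¹)
    (by
      rw [Matrix.det_mul, Matrix.det_transpose]
      exact mul_ne_zero hg (Matrix.isUnit_nonsing_inv_det _ hau).ne_zero) F hF regF hgrad
  -- the integral form
  obtain ⟨t, ht⟩ : ∃ t : Matrix (Fin n) (Fin n) L, t = g * k * diagonal fun i => (s i)⁻¹ :=
    ⟨_, rfl⟩
  have htdet : t.det ≠ 0 := by
    rw [ht, Matrix.det_mul, Matrix.det_mul, det_diagonal]
    exact mul_ne_zero (mul_ne_zero hg hk.isUnit_det.ne_zero)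
      (Finset.prod_ne_zero_iff.2 fun i _ => inv_ne_zero (hs0 i))
  have hf₁t : MvPolynomial.map (algebraMap O L) f₁ = subst t (frm xL) := by
    rw [ht, subst_mul, subst_mul, hf₁eq, ← subst_mul, diagonal_mul_diagonal]
    have h1 : (diagonal fun i => s i * (s i)⁻¹) = (1 : Matrix (Fin n) (Fin n) L) := by
      rw [← diagonal_one]
      congr 1
      funext i
      exact mul_inv_cancel₀ (hs0 i)
    rw [h1, subst_one]
  let zO : Mon n d → O := cf d f₁
  have hzL : algebraMap O L ∘ zO = (actS n d).app xL t 1 := by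
    rw [actS_app, ← hf₁t]
    exact (cf_map _ _).symm
  have hzD : residue O (aeval zO (gradPull n d Δ)) ≠ 0 := by
    rw [hres, h.nonDeg_iff]
    have h1 : frm (residue O ∘ zO) = MvPolynomial.map (residue O) f₁ := by
      rw [← map_frm]
      congr 1
      exact frm_cf hf₁
    rw [h1]
    exact nd₁
  -- values
  have hvalP : aeval ((actS n d).app xL t 1) P = t.det ^ (m * (r₁ + r₂)) * ι (aeval x P) := by
    have h1 := hP xL t 1
    rw [pow_zero, mul_one] at h1
    rw [h1, hxL, hιv]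
  have hvalD : aeval ((actS n d).app xL t 1) (gradPull n d Δ) =
      t.det ^ (r₁ + r₂) * ι (aeval x (gradPull n d Δ)) := by
    have h0 : (actS n d).Semi (r₁ + r₂) 0 (gradPull n d Δ) := semi_gradPull h.semi
    have h1 := h0 xL t 1
    rw [pow_zero, mul_one] at h1
    rw [h1, hxL, hιv]
  have hfin : ι (aeval x P / aeval x (gradPull n d Δ) ^ m) =
      algebraMap O L (aeval zO P) * (algebraMap O L (aeval zO (gradPull n d Δ)))⁻¹ ^ m := by
    rw [hinc, hinc, hzL, hvalP, hvalD, map_div₀, map_pow, inv_pow, mul_pow, ← pow_mul,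
      mul_comm (r₁ + r₂) m, ← div_eq_mul_inv, mul_div_mul_left _ _ (pow_ne_zero _ htdet)]
  rw [← hιO, hfin]
  apply mul_mem
  · exact (aeval zO P).2
  · apply pow_mem
    have h1 : IsUnit (aeval zO (gradPull n d Δ)) := isUnit_of_residue_ne_zero hzD
    obtain ⟨u, hu⟩ := h1
    have h2 : (algebraMap O L (aeval zO (gradPull n d Δ)))⁻¹ = algebraMap O L ((u⁻¹ : Oˣ) : O) := by
      rw [← hu]
      apply inv_eq_of_mul_eq_one_right
      rw [← map_mul, Units.mul_inv, map_one]
    rw [h2]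
    exact ((u⁻¹ : Oˣ) : O).2

end Pool.Agent.Lib.MP_4fcc12_ag
end

section
open MvPolynomial

set_option linter.unusedSectionVars false

namespace Pool.Agent.Lib.MP_4fcc12_ag

variable {κ : Type}

theorem statementPT : StatementPT := by
  intro κ _ Δ x₀ hx₀
  let ev : Localization.Away Δ →+* ℂ :=
    IsLocalization.Away.lift Δ (g := eval x₀) (isUnit_iff_ne_zero.2 hx₀)
  have hev : ∀ P, ev (algebraMap (MvPolynomial κ ℂ) (Localization.Away Δ) P) = eval x₀ P :=
    fun P => IsLocalization.Away.lift_eq _ _ P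
  have hsurj : Function.Surjective ev := by
    intro c
    exact ⟨algebraMap (MvPolynomial κ ℂ) (Localization.Away Δ) (C c), by rw [hev, eval_C]⟩
  refine ⟨RingHom.ker ev, RingHom.ker_isMaximal_of_surjective ev hsurj, ?_⟩
  intro P
  rw [RingHom.mem_ker, hev]

lemma lineEv_mem_pow {x₀ : κ → ℂ} {M : Ideal (MvPolynomial κ ℂ)}
    (hM : ∀ P, P ∈ M ↔ eval x₀ P = 0) {k : ℕ} {P : MvPolynomial κ ℂ} (hP : P ∈ M ^ k) :
    OrdGE x₀ k P := by
  rw [ordGE_iff]
  intro y
  have h1 : M ≤ (Ideal.span {(Polynomial.X : Polynomial ℂ)}).comap (lineEv x₀ y) := by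
    intro Q hQ
    rw [Ideal.mem_comap, Ideal.mem_span_singleton, Polynomial.X_dvd_iff, coeff_zero_lineEv]
    exact (hM Q).1 hQ
  have h2 : lineEv x₀ y P ∈ (Ideal.span {(Polynomial.X : Polynomial ℂ)}) ^ k :=
    Ideal.le_comap_pow (lineEv x₀ y) k (Ideal.pow_right_mono h1 k hP)
  rwa [Ideal.span_singleton_pow, Ideal.mem_span_singleton] at h2

lemma mem_pow_of_ordGE {x₀ : κ → ℂ} {M : Ideal (MvPolynomial κ ℂ)}
    (hM : ∀ P, P ∈ M ↔ eval x₀ P = 0) {k : ℕ} {P : MvPolynomial κ ℂ} (hP : OrdGE x₀ k P) :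
    P ∈ M ^ k := by
  -- inverse translation
  have h1 : aeval (fun j => X j - C (x₀ j)) (trans x₀ P) = P := by
    have h2 := aeval_trans x₀ (fun j => (X j - C (x₀ j) : MvPolynomial κ ℂ)) P
    rw [h2]
    have h3 : (fun j => algebraMap ℂ (MvPolynomial κ ℂ) (x₀ j) + (X j - C (x₀ j))) =
        (X : κ → MvPolynomial κ ℂ) := by
      funext j
      rw [algebraMap_eq]
      ring
    rw [h3, aeval_X_left_apply]
  rw [← h1, aeval_def, eval₂_eq]
  apply Ideal.sum_mem
  intro m hm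
  apply Ideal.mul_mem_left
  have hdeg : k ≤ m.degree := by
    by_contra hlt
    push Not at hlt
    have h2 := congrArg (coeff m) (hP m.degree hlt)
    rw [hc, coeff_homogeneousComponent, if_pos rfl, coeff_zero] at h2
    exact (mem_support_iff.1 hm) h2
  have h3 : ∏ i ∈ m.support, (X i - C (x₀ i) : MvPolynomial κ ℂ) ^ m i ∈ M ^ m.degree := by
    rw [Finsupp.degree_apply, ← Finset.prod_pow_eq_pow_sum]
    apply Ideal.prod_mem_prod
    intro i _
    apply Ideal.pow_mem_pow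
    rw [hM]
    simp
  exact Ideal.pow_le_pow_right hdeg h3

theorem statementORD : StatementORD := by
  intro κ _ Δ 𝔐 h𝔐
  have h1 := (IsLocalization.isMaximal_iff_isMaximal_disjoint (R := MvPolynomial κ ℂ)
    (Localization.Away Δ) (y := Δ) 𝔐).1 h𝔐
  change (𝔐.comap (algebraMap (MvPolynomial κ ℂ) (Localization.Away Δ))).IsMaximal ∧
    Δ ∉ 𝔐.comap (algebraMap (MvPolynomial κ ℂ) (Localization.Away Δ)) at h1
  obtain ⟨hmax, hΔ⟩ := h1
  obtain ⟨x₀, hx₀⟩ := MvPolynomial.isMaximal_iff_eq_vanishingIdeal_singleton.1 hmax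
  have hM : ∀ P, P ∈ 𝔐.comap (algebraMap (MvPolynomial κ ℂ) (Localization.Away Δ)) ↔
      eval x₀ P = 0 := by
    intro P
    rw [hx₀, mem_vanishingIdeal_singleton_iff]
    rfl
  refine ⟨x₀, ?_, ?_⟩
  · intro h2
    exact hΔ ((hM Δ).2 h2)
  · intro k P
    have h2 : 𝔐 ^ k = ((𝔐.comap (algebraMap (MvPolynomial κ ℂ) (Localization.Away Δ))) ^ k).map
        (algebraMap (MvPolynomial κ ℂ) (Localization.Away Δ)) := by
      rw [Ideal.map_pow, IsLocalization.map_under (Submonoid.powers Δ)]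
    rw [h2, IsLocalization.algebraMap_mem_map_algebraMap_iff (Submonoid.powers Δ)]
    constructor
    · rintro ⟨_, ⟨N, rfl⟩, h3⟩
      have h4 := lineEv_mem_pow hM h3
      rw [ordGE_iff] at h4 ⊢
      intro y
      have h5 := h4 y
      rw [map_mul, map_pow] at h5
      have h6 : IsCoprime (Polynomial.X : Polynomial ℂ) (lineEv x₀ y Δ) := by
        rw [Polynomial.irreducible_X.coprime_iff_not_dvd, Polynomial.X_dvd_iff,
          coeff_zero_lineEv]
        intro h7
        exact hΔ ((hM Δ).2 h7)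
      exact (h6.pow (m := k) (n := N)).dvd_of_dvd_mul_left h5
    · intro h3
      exact ⟨1, one_mem _, by rw [one_mul]; exact mem_pow_of_ordGE hM h3⟩

end Pool.Agent.Lib.MP_4fcc12_ag
end
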