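import Pool.Agent.Lib.MP_4fcc12_ag.Lead
import Mathlib.Analysis.Complex.Polynomial.Basic
import Mathlib.LinearAlgebra.Matrix.SpecialLinearGroup
import Mathlib.AlgebraicGeometry.Morphisms.ClosedImmersion
import Mathlib.LinearAlgebra.Dual.Defs
import Mathlib.LinearAlgebra.LinearIndependent.Basic

/-!
# The quotients `ℙX_n^d // SL_n`, `Z_n^k // SL_n` and the map induced by the gradient
-/

open MvPolynomial

namespace Pool.Agent.Lib.MP_4fcc12_ag.Quot

/-- the space `ℂ[z]_k` of forms of degree `k` in `n` variables -/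
abbrev Form (n k : ℕ) : Type := homogeneousSubmodule (Fin n) ℂ k

/-- the linear substitution `f ↦ f (g z)`, as a linear map -/
noncomputable def sub {n k : ℕ} (g : Matrix.SpecialLinearGroup (Fin n) ℂ) :
    Form n k →ₗ[ℂ] Form n k :=
  (aeval (fun i => ∑ j, C (g.1 i j) * X j) :
    MvPolynomial (Fin n) ℂ →ₐ[ℂ] MvPolynomial (Fin n) ℂ).toLinearMap.restrict
    fun f hf => (mem_homogeneousSubmodule k _).2
      (isHomogeneous_subst g.1 ((mem_homogeneousSubmodule k f).1 hf))

/-- the derivative `∂/∂z_i`, as a linear map from forms of degree `d` to forms of degree `d - 1` -/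
noncomputable def pd {n d : ℕ} (i : Fin n) : Form n d →ₗ[ℂ] Form n (d - 1) :=
  (pderiv i : Derivation ℂ (MvPolynomial (Fin n) ℂ) (MvPolynomial (Fin n) ℂ)).toLinearMap.restrict
    fun f hf => (mem_homogeneousSubmodule (d - 1) _).2
      (((mem_homogeneousSubmodule d f).1 hf).pderiv)

/-- The forms `F i` have no common zero except the origin (for `n` forms in `n` variables this says
that their resultant is nonzero). -/
def NoCommonZero {n k : ℕ} (F : Fin n → Form n k) : Prop :=
  ∀ p : Fin n → ℂ, (∀ i, eval p (F i : MvPolynomial (Fin n) ℂ) = 0) → p = 0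

/-- `X_n^d`: the forms of degree `d` whose first order derivatives have no common zero except the
origin (i.e. the forms with nonzero discriminant) -/
def XX (n d : ℕ) : Set (Form n d) := {f | NoCommonZero fun i => pd i f}

/-- the tuples of `n` linearly independent forms of degree `k` without common zero except the
origin (i.e. with nonzero resultant) -/
def UU (n k : ℕ) : Set (Fin n → Form n k) := {F | LinearIndependent ℂ F ∧ NoCommonZero F}

/-- the points of `ℙX_n^d`: lines spanned by a form with nonzero discriminant -/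
abbrev PX (n d : ℕ) : Type :=
  {L : Submodule ℂ (Form n d) // ∃ f ∈ XX n d, L = Submodule.span ℂ {f}}

/-- the points of `Z_n^k`: `n`-dimensional subspaces with a basis with nonzero resultant -/
abbrev ZZ (n k : ℕ) : Type :=
  {W : Submodule ℂ (Form n k) // ∃ F ∈ UU n k, W = Submodule.span ℂ (Set.range F)}

/-- the line spanned by a form with nonzero discriminant -/
noncomputable def lineOf {n d : ℕ} (f : XX n d) : PX n d := ⟨Submodule.span ℂ {f.1}, f.1, f.2, rfl⟩

/-- the span of a tuple with nonzero resultant -/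
noncomputable def spanOf {n k : ℕ} (F : UU n k) : ZZ n k :=
  ⟨Submodule.span ℂ (Set.range F.1), F.1, F.2, rfl⟩

/-- the polynomial functions on a complex vector space -/
def PolyFun (V : Type) [AddCommGroup V] [Module ℂ V] : Subalgebra ℂ (V → ℂ) :=
  Algebra.adjoin ℂ (Set.range fun l : Module.Dual ℂ V => (l : V → ℂ))

/-- regular functions on a (Zariski open) subset of a vector space: locally quotients of polynomial
functions -/
def IsRegular {V : Type} [AddCommGroup V] [Module ℂ V] (U : Set V) (φ : U → ℂ) : Prop :=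
  ∀ u : U, ∃ P ∈ PolyFun V, ∃ Q ∈ PolyFun V, Q u ≠ 0 ∧ ∀ x : U, Q x ≠ 0 → φ x = P x / Q x

/-- The `SL_n`-invariant regular functions on `ℙX_n^d`. A function on `ℙX_n^d` is regular if its
pull back to `X_n^d` is regular. -/
def InvRegPX {n d : ℕ} (ψ : PX n d → ℂ) : Prop :=
  IsRegular (XX n d) (fun f => ψ (lineOf f)) ∧
    ∀ (g : Matrix.SpecialLinearGroup (Fin n) ℂ) (L L' : PX n d),
      L'.1 = L.1.map (sub g) → ψ L' = ψ L

/-- The `SL_n`-invariant regular functions on `Z_n^k`. A function on `Z_n^k` is regular if its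
pull back to the set of bases of the members of `Z_n^k` is regular. -/
def InvRegZZ {n k : ℕ} (ψ : ZZ n k → ℂ) : Prop :=
  IsRegular (UU n k) (fun F => ψ (spanOf F)) ∧
    ∀ (g : Matrix.SpecialLinearGroup (Fin n) ℂ) (W W' : ZZ n k),
      W'.1 = W.1.map (sub g) → ψ W' = ψ W

section regular

variable {V : Type} [AddCommGroup V] [Module ℂ V] {U : Set V}

lemma IsRegular.const (c : ℂ) : IsRegular U fun _ => c := by
  intro u
  refine ⟨algebraMap ℂ _ c, Subalgebra.algebraMap_mem _ c, 1, one_mem _, one_ne_zero, ?_⟩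
  intro x _
  simp

lemma IsRegular.add {φ ψ : U → ℂ} (hφ : IsRegular U φ) (hψ : IsRegular U ψ) :
    IsRegular U (φ + ψ) := by
  intro u
  obtain ⟨P, hP, Q, hQ, hu, h⟩ := hφ u
  obtain ⟨P', hP', Q', hQ', hu', h'⟩ := hψ u
  refine ⟨P * Q' + P' * Q, add_mem (mul_mem hP hQ') (mul_mem hP' hQ), Q * Q', mul_mem hQ hQ',
    mul_ne_zero hu hu', ?_⟩
  intro x hx
  have hx1 : Q x.1 ≠ 0 := left_ne_zero_of_mul hx
  have hx2 : Q' x.1 ≠ 0 := right_ne_zero_of_mul hx
  simp only [Pi.add_apply, Pi.mul_apply, h x hx1, h' x hx2]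
  field_simp

lemma IsRegular.mul {φ ψ : U → ℂ} (hφ : IsRegular U φ) (hψ : IsRegular U ψ) :
    IsRegular U (φ * ψ) := by
  intro u
  obtain ⟨P, hP, Q, hQ, hu, h⟩ := hφ u
  obtain ⟨P', hP', Q', hQ', hu', h'⟩ := hψ u
  refine ⟨P * P', mul_mem hP hP', Q * Q', mul_mem hQ hQ', mul_ne_zero hu hu', ?_⟩
  intro x hx
  have hx1 : Q x.1 ≠ 0 := left_ne_zero_of_mul hx
  have hx2 : Q' x.1 ≠ 0 := right_ne_zero_of_mul hx
  simp only [Pi.mul_apply, h x hx1, h' x hx2]
  field_simp

end regular

section closure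

variable {n k : ℕ}

lemma InvRegPX.const (c : ℂ) : InvRegPX (n := n) (d := k) fun _ => c :=
  ⟨IsRegular.const c, fun _ _ _ _ => rfl⟩

lemma InvRegPX.add {φ ψ : PX n k → ℂ} (hφ : InvRegPX φ) (hψ : InvRegPX ψ) :
    InvRegPX (φ + ψ) :=
  ⟨hφ.1.add hψ.1, fun g L L' h => by
    simp only [Pi.add_apply, hφ.2 g L L' h, hψ.2 g L L' h]⟩

lemma InvRegPX.mul {φ ψ : PX n k → ℂ} (hφ : InvRegPX φ) (hψ : InvRegPX ψ) :
    InvRegPX (φ * ψ) :=
  ⟨hφ.1.mul hψ.1, fun g L L' h => by
    simp only [Pi.mul_apply, hφ.2 g L L' h, hψ.2 g L L' h]⟩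

lemma InvRegPX.neg {φ : PX n k → ℂ} (hφ : InvRegPX φ) : InvRegPX (-φ) := by
  have h : -φ = (fun _ => (-1 : ℂ)) * φ := by
    funext x
    simp
  rw [h]
  exact (InvRegPX.const _).mul hφ

lemma InvRegZZ.const (c : ℂ) : InvRegZZ (n := n) (k := k) fun _ => c :=
  ⟨IsRegular.const c, fun _ _ _ _ => rfl⟩

lemma InvRegZZ.add {φ ψ : ZZ n k → ℂ} (hφ : InvRegZZ φ) (hψ : InvRegZZ ψ) :
    InvRegZZ (φ + ψ) :=
  ⟨hφ.1.add hψ.1, fun g L L' h => by
    simp only [Pi.add_apply, hφ.2 g L L' h, hψ.2 g L L' h]⟩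

lemma InvRegZZ.mul {φ ψ : ZZ n k → ℂ} (hφ : InvRegZZ φ) (hψ : InvRegZZ ψ) :
    InvRegZZ (φ * ψ) :=
  ⟨hφ.1.mul hψ.1, fun g L L' h => by
    simp only [Pi.mul_apply, hφ.2 g L L' h, hψ.2 g L L' h]⟩

lemma InvRegZZ.neg {φ : ZZ n k → ℂ} (hφ : InvRegZZ φ) : InvRegZZ (-φ) := by
  have h : -φ = (fun _ => (-1 : ℂ)) * φ := by
    funext x
    simp
  rw [h]
  exact (InvRegZZ.const _).mul hφ

end closure

/-- The coordinate ring of the affine variety `ℙX_n^d // SL_n`: the `SL_n`-invariant regular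
functions on `ℙX_n^d`. -/
def ringPX (n d : ℕ) : Subring (PX n d → ℂ) where
  carrier := {ψ | InvRegPX ψ}
  mul_mem' := InvRegPX.mul
  one_mem' := InvRegPX.const 1
  add_mem' := InvRegPX.add
  zero_mem' := InvRegPX.const 0
  neg_mem' := InvRegPX.neg

/-- The coordinate ring of the affine variety `Z_n^k // SL_n`: the `SL_n`-invariant regular
functions on `Z_n^k`. -/
def ringZZ (n k : ℕ) : Subring (ZZ n k → ℂ) where
  carrier := {ψ | InvRegZZ ψ}
  mul_mem' := InvRegZZ.mul
  one_mem' := InvRegZZ.const 1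
  add_mem' := InvRegZZ.add
  zero_mem' := InvRegZZ.const 0
  neg_mem' := InvRegZZ.neg

/-- the span of the first order derivatives of the forms in a subspace -/
noncomputable def gradSpan {n d : ℕ} (L : Submodule ℂ (Form n d)) :
    Submodule ℂ (Form n (d - 1)) := ⨆ i : Fin n, L.map (pd i)

/-- `ℙ∇` on lines -/
lemma gradSpan_span {n d : ℕ} (f : Form n d) :
    gradSpan (Submodule.span ℂ {f}) = Submodule.span ℂ (Set.range fun i => pd i f) := by
  rw [gradSpan]
  simp only [Submodule.map_span, Set.image_singleton]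
  rw [← Submodule.span_iUnion]
  congr 1
  ext h
  simp [eq_comm]

lemma linearIndependent_of_noCommonZero {n k : ℕ} (hk : 1 ≤ k) {F : Fin n → Form n k}
    (hF : NoCommonZero F) : LinearIndependent ℂ F := by
  rw [Fintype.linearIndependent_iff]
  intro c hc i
  have h1 := Reg.eq_zero_of_sum (F := ℂ) (T := fun i => (F i : MvPolynomial (Fin n) ℂ)) hF hk
    (fun i => (mem_homogeneousSubmodule k _).1 (F i).2) c
    (by
      have h2 := congrArg (Subtype.val) hc
      rw [AddSubmonoidClass.coe_finsetSum] at h2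
      simpa [C_mul'] using h2)
  exact congrFun h1 i

lemma gradSpan_mem {n d : ℕ} (hd : 3 ≤ d) (L : PX n d) :
    ∃ F ∈ UU n (d - 1), gradSpan L.1 = Submodule.span ℂ (Set.range F) := by
  obtain ⟨L, f, hf, rfl⟩ := L
  refine ⟨fun i => pd i f, ⟨linearIndependent_of_noCommonZero (by omega) hf, hf⟩, ?_⟩
  exact gradSpan_span f

/-- The map `ℙ∇ : ℙX_n^d → Z_n^{d-1}`, sending (the line of) `f` to the span of its first order
derivatives. -/
noncomputable def gradMap (n : ℕ) {d : ℕ} (hd : 3 ≤ d) (L : PX n d) : ZZ n (d - 1) :=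
  ⟨gradSpan L.1, gradSpan_mem hd L⟩

end Pool.Agent.Lib.MP_4fcc12_ag.Quot
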