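import Pool.Agent.Lib.MP_4fcc12_ag.QuotMap
import Pool.Agent.Lib.MP_4fcc12_ag.PtOrd
import Pool.Agent.Lib.MP_4fcc12_ag.Lead

/-!
# Surjectivity of the comorphism
-/

open MvPolynomial Matrix

namespace Pool.Agent.Lib.MP_4fcc12_ag.Quot

variable {n k d : ℕ}

/-- the coefficient vector of a form -/
noncomputable def cfL (n k : ℕ) (f : Form n k) : Mon n k → ℂ := cf k (f : MvPolynomial (Fin n) ℂ)

/-- the coefficient vector of a tuple -/
noncomputable def ctL (n k : ℕ) (F : Fin n → Form n k) : Fin n × Mon n k → ℂ :=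
  ct k fun i => (F i : MvPolynomial (Fin n) ℂ)

lemma frm_cfL (f : Form n k) : frm (cfL n k f) = (f : MvPolynomial (Fin n) ℂ) :=
  frm_cf ((mem_homogeneousSubmodule k _).1 f.2)

lemma tup_ctL (F : Fin n → Form n k) : tup (ctL n k F) = fun i => (F i : MvPolynomial (Fin n) ℂ) :=
  tup_ct fun i => (mem_homogeneousSubmodule k _).1 (F i).2

/-- polynomial functions on forms are polynomials in the coefficients -/
lemma exists_poly {P : Form n k → ℂ} (hP : P ∈ PolyFun (Form n k)) :
    ∃ P' : MvPolynomial (Mon n k) ℂ, ∀ f, P f = eval (cfL n k f) P' := by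
  refine Algebra.adjoin_induction (p := fun P _ => ∃ P' : MvPolynomial (Mon n k) ℂ,
    ∀ f, P f = eval (cfL n k f) P') ?_ ?_ ?_ ?_ hP
  · rintro _ ⟨l, rfl⟩
    let e : Mon n k → Form n k := fun α => ⟨monomial α.1 1,
      (mem_homogeneousSubmodule k _).2 (isHomogeneous_monomial _ α.2)⟩
    refine ⟨∑ α, C (l (e α)) * X α, ?_⟩
    intro f
    have h1 : f = ∑ α, cfL n k f α • e α := by
      apply Subtype.ext
      rw [AddSubmonoidClass.coe_finsetSum]
      conv_lhs => rw [← frm_cfL f]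
      rw [frm]
      apply Finset.sum_congr rfl
      intro α _
      rw [SetLike.val_smul, smul_monomial, smul_eq_mul, mul_one]
    show l f = _
    conv_lhs => rw [h1]
    rw [map_sum, map_sum]
    apply Finset.sum_congr rfl
    intro α _
    rw [map_smul, map_mul, eval_C, eval_X, smul_eq_mul, mul_comm]
  · intro c
    exact ⟨C c, fun f => (eval_C _).symm⟩
  · rintro P Q _ _ ⟨P', h1⟩ ⟨Q', h2⟩
    refine ⟨P' + Q', fun f => ?_⟩
    rw [map_add, ← h1, ← h2]
    rfl
  · rintro P Q _ _ ⟨P', h1⟩ ⟨Q', h2⟩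
    refine ⟨P' * Q', fun f => ?_⟩
    rw [map_mul, ← h1, ← h2]
    rfl

/-- polynomials in the coefficients are polynomial functions on tuples -/
lemma polyFun_tuple (P : MvPolynomial (Fin n × Mon n k) ℂ) :
    (fun F => eval (ctL n k F) P) ∈ PolyFun (Fin n → Form n k) := by
  induction P using MvPolynomial.induction_on with
  | C a =>
    have h1 : (fun F => eval (ctL n k F) (C a)) =
        algebraMap ℂ ((Fin n → Form n k) → ℂ) a := by
      funext F
      rw [eval_C]
      rfl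
    rw [h1]
    exact Subalgebra.algebraMap_mem _ a
  | add P Q hP hQ =>
    have h1 : (fun F => eval (ctL n k F) (P + Q)) =
        (fun F => eval (ctL n k F) P) + fun F => eval (ctL n k F) Q := by
      funext F
      rw [map_add]
      rfl
    rw [h1]
    exact add_mem hP hQ
  | mul_X P j hP =>
    have h1 : (fun F => eval (ctL n k F) (P * X j)) =
        (fun F => eval (ctL n k F) P) * fun F => ctL n k F j := by
      funext F
      rw [map_mul, eval_X]
      rfl
    rw [h1]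
    refine mul_mem hP (Algebra.subset_adjoin ⟨?_, ?_⟩)
    · exact ((MvPolynomial.lcoeff ℂ j.2.1).comp (homogeneousSubmodule (Fin n) ℂ k).subtype).comp
        (LinearMap.proj j.1)
    · rfl

section main

variable {Δ : MvPolynomial (Fin n × Mon n (d - 1)) ℂ} {r₁ r₂ : ℕ}

lemma mem_XX_iff (h : RD n d Δ r₁ r₂) (f : Form n d) :
    f ∈ XX n d ↔ eval (cfL n d f) (gradPull n d Δ) ≠ 0 := by
  have h1 := h.nonDeg_iff (K := ℂ) (cfL n d f)
  rw [aeval_eq_eval, frm_cfL] at h1
  rw [h1]
  exact Iff.rfl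

lemma eval_Δ_ne_zero (h : RD n d Δ r₁ r₂) {F : Fin n → Form n (d - 1)} (hF : F ∈ UU n (d - 1)) :
    eval (ctL n (d - 1) F) Δ ≠ 0 := by
  have h1 := h.reg_iff (K := ℂ) (ctL n (d - 1) F)
  rw [aeval_eq_eval, tup_ctL] at h1
  exact h1.2 hF.2

/-- a regular function on `X_n^d` is a quotient of a polynomial by a power of the discriminant -/
lemma exists_global (h : RD n d Δ r₁ r₂) {φ : XX n d → ℂ} (hφ : IsRegular (XX n d) φ) :
    ∃ (m : ℕ) (P : MvPolynomial (Mon n d) ℂ), ∀ f : XX n d,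
      φ f * eval (cfL n d f.1) (gradPull n d Δ) ^ m = eval (cfL n d f.1) P := by
  let I : Ideal (MvPolynomial (Mon n d) ℂ) :=
    { carrier := {Q | ∃ P : MvPolynomial (Mon n d) ℂ, ∀ f : XX n d,
        φ f * eval (cfL n d f.1) Q = eval (cfL n d f.1) P}
      add_mem' := by
        rintro Q Q' ⟨P, hP⟩ ⟨P', hP'⟩
        refine ⟨P + P', fun f => ?_⟩
        rw [map_add, map_add, ← hP, ← hP', mul_add]
      zero_mem' := ⟨0, fun f => by rw [map_zero, mul_zero]⟩
      smul_mem' := by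
        rintro c Q ⟨P, hP⟩
        refine ⟨c * P, fun f => ?_⟩
        rw [smul_eq_mul, map_mul, map_mul, ← hP]
        ring }
  have h1 : gradPull n d Δ ∈ I.radical := by
    by_contra h2
    obtain ⟨y, hy, hyD⟩ := exists_zero_of_not_mem_radical h2
    have h3 : cfL n d ⟨frm y, (mem_homogeneousSubmodule d _).2 (isHomogeneous_frm y)⟩ = y :=
      cf_frm y
    have h4 : (⟨frm y, (mem_homogeneousSubmodule d _).2 (isHomogeneous_frm y)⟩ : Form n d) ∈
        XX n d := by
      rw [mem_XX_iff h, h3]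
      exact hyD
    obtain ⟨P, hP, Q, hQ, hu, hPQ⟩ := hφ ⟨_, h4⟩
    obtain ⟨P', hP'⟩ := exists_poly hP
    obtain ⟨Q', hQ'⟩ := exists_poly hQ
    have h5 : Q' * Q' ∈ I := by
      refine ⟨P' * Q', fun f => ?_⟩
      rw [map_mul, map_mul, ← hP', ← hQ']
      by_cases h6 : Q f.1 = 0
      · rw [h6]
        ring
      · rw [hPQ f h6]
        field_simp
    have h6 := hy _ h5
    rw [map_mul, ← h3, ← hQ'] at h6
    exact hu (mul_self_eq_zero.1 h6)
  obtain ⟨m, P, hP⟩ := h1
  refine ⟨m, P, fun f => ?_⟩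
  rw [← hP f, map_pow]

/-- invariance under `GL_n` -/
lemma invariant_GL (h : RD n d Δ r₁ r₂) {φ : PX n d → ℂ} (hφ : φ ∈ ringPX n d)
    (f f' : XX n d) (g : Matrix (Fin n) (Fin n) ℂ) (hg : g.det ≠ 0)
    (hf' : (f'.1 : MvPolynomial (Fin n) ℂ) = subst g (f.1 : MvPolynomial (Fin n) ℂ)) :
    φ (lineOf f') = φ (lineOf f) := by
  have hn := h.hn
  obtain ⟨μ, hμ⟩ := IsAlgClosed.exists_pow_nat_eq g.det (show 0 < n by omega)
  have hμ0 : μ ≠ 0 := by
    rintro rfl
    rw [zero_pow (by omega)] at hμ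
    exact hg hμ.symm
  let g₁ : Matrix.SpecialLinearGroup (Fin n) ℂ := ⟨μ⁻¹ • g, by
    rw [Matrix.det_smul, Fintype.card_fin, inv_pow, hμ, inv_mul_cancel₀ hg]⟩
  apply hφ.2 g₁
  show Submodule.span ℂ {f'.1} = (Submodule.span ℂ {f.1}).map (sub g₁)
  rw [Submodule.map_span, Set.image_singleton]
  have h1 : f'.1 = (μ ^ d) • sub g₁ f.1 := by
    apply Subtype.ext
    rw [hf', SetLike.val_smul, coe_sub]
    apply MvPolynomial.funext
    intro p
    have h2 : g *ᵥ p = fun j => μ * (g₁.1 *ᵥ p) j := by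
      funext j
      show (g *ᵥ p) j = μ * ((μ⁻¹ • g) *ᵥ p) j
      rw [Matrix.smul_mulVec, Pi.smul_apply, smul_eq_mul, mul_inv_cancel_left₀ hμ0]
    have h3 := aeval_mul_of_isHomogeneous ((mem_homogeneousSubmodule d _).1 f.1.2) μ (g₁.1 *ᵥ p)
    rw [aeval_eq_eval, aeval_eq_eval] at h3
    rw [eval_subst, h2, smul_eval, eval_subst]
    exact h3
  rw [h1]
  exact Submodule.span_singleton_smul_eq (isUnit_iff_ne_zero.2 (pow_ne_zero _ hμ0)) _

/-- the form with given coefficients -/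
noncomputable def frmF (x : Mon n d → ℂ) : Form n d :=
  ⟨frm x, (mem_homogeneousSubmodule d _).2 (isHomogeneous_frm x)⟩

lemma cfL_frmF (x : Mon n d → ℂ) : cfL n d (frmF x) = x := cf_frm x

lemma semi_of_invariant (h : RD n d Δ r₁ r₂) {φ : PX n d → ℂ} (hφ : φ ∈ ringPX n d)
    {m : ℕ} {P : MvPolynomial (Mon n d) ℂ}
    (hP : ∀ f : XX n d, φ (lineOf f) *
      eval (cfL n d f.1) (gradPull n d Δ) ^ m = eval (cfL n d f.1) P) :
    (actS n d).Semi ((m + 1) * (r₁ + r₂)) 0 (P * gradPull n d Δ) := by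
  have hsemi : (actS n d).Semi (r₁ + r₂) 0 (gradPull n d Δ) := semi_gradPull h.semi
  apply Actn.semi_of_complex
  intro x g a hg _
  rw [aeval_eq_eval, aeval_eq_eval, pow_zero, mul_one, map_mul, map_mul]
  have hD : eval ((actS n d).app x g a) (gradPull n d Δ) =
      g.det ^ (r₁ + r₂) * eval x (gradPull n d Δ) := by
    have h1 := hsemi x g a
    rw [aeval_eq_eval, aeval_eq_eval, pow_zero, mul_one] at h1
    exact h1
  by_cases hx : eval x (gradPull n d Δ) = 0
  · rw [hD, hx, mul_zero, mul_zero, mul_zero, mul_zero]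
  · have hx' : eval ((actS n d).app x g a) (gradPull n d Δ) ≠ 0 := by
      rw [hD]
      exact mul_ne_zero (pow_ne_zero _ hg) hx
    have hm1 : frmF x ∈ XX n d := by
      rw [mem_XX_iff h, cfL_frmF]
      exact hx
    have hm2 : frmF ((actS n d).app x g a) ∈ XX n d := by
      rw [mem_XX_iff h, cfL_frmF]
      exact hx'
    have h1 := hP ⟨_, hm1⟩
    have h2 := hP ⟨_, hm2⟩
    have h3 := invariant_GL h hφ ⟨_, hm1⟩ ⟨_, hm2⟩ g hg (by
      show frm ((actS n d).app x g a) = subst g (frm x)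
      rw [actS_app, frm_cf (isHomogeneous_subst g (isHomogeneous_frm x))])
    rw [h3] at h2
    dsimp only at h1 h2
    rw [cfL_frmF] at h1 h2
    rw [← h1, ← h2, hD]
    ring

/-- two bases of the same subspace differ by an invertible matrix -/
lemma exists_matrix {F F' : Fin n → Form n k} (hF' : LinearIndependent ℂ F')
    (h : Submodule.span ℂ (Set.range F) = Submodule.span ℂ (Set.range F')) :
    ∃ c : Matrix (Fin n) (Fin n) ℂ, c.det ≠ 0 ∧ ∀ i, F' i = ∑ j, c i j • F j := by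
  have key : ∀ (F F' : Fin n → Form n k),
      Submodule.span ℂ (Set.range F) = Submodule.span ℂ (Set.range F') →
      ∃ c : Matrix (Fin n) (Fin n) ℂ, ∀ i, F' i = ∑ j, c i j • F j := by
    intro F F' h
    have h1 : ∀ i, ∃ c : Fin n → ℂ, ∑ j, c j • F j = F' i := by
      intro i
      have h2 : F' i ∈ Submodule.span ℂ (Set.range F) := by
        rw [h]
        exact Submodule.subset_span ⟨i, rfl⟩
      exact (Submodule.mem_span_range_iff_exists_fun ℂ).1 h2
    choose c hc using h1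
    exact ⟨Matrix.of c, fun i => (hc i).symm⟩
  obtain ⟨c, hc⟩ := key F F' h
  obtain ⟨c', hc'⟩ := key F' F h.symm
  refine ⟨c, ?_, hc⟩
  have h2 : c * c' = 1 := by
    refine Matrix.ext fun i j => ?_
    have h3 : ∑ l, (c * c') i l • F' l = ∑ l, (1 : Matrix (Fin n) (Fin n) ℂ) i l • F' l := by
      have h4 : ∑ l, (1 : Matrix (Fin n) (Fin n) ℂ) i l • F' l = F' i := by
        simp [Matrix.one_apply]
      rw [h4]
      conv_rhs => rw [hc i]
      have h5 : ∀ j, c i j • F j = ∑ l, (c i j * c' j l) • F' l := by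
        intro j
        conv_lhs => rw [hc' j]
        rw [Finset.smul_sum]
        apply Finset.sum_congr rfl
        intro l _
        rw [smul_smul]
      rw [Finset.sum_congr rfl fun j _ => h5 j, Finset.sum_comm]
      apply Finset.sum_congr rfl
      intro l _
      rw [Matrix.mul_apply, Finset.sum_smul]
    exact congrFun (Fintype.linearIndependent_iffₛ.1 hF' _ _ h3 |> funext) j
  intro h0
  have h3 := congrArg Matrix.det h2
  rw [Matrix.det_mul, h0, zero_mul, Matrix.det_one] at h3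
  exact zero_ne_one h3

lemma ctL_matrix (F F' : Fin n → Form n k) (c : Matrix (Fin n) (Fin n) ℂ)
    (h : ∀ i, F' i = ∑ j, c i j • F j) :
    ctL n k F' = (actT n k).app (ctL n k F) 1 c := by
  rw [actT_app, tup_ctL, ctL]
  congr 1
  funext i
  rw [h i, act, AddSubmonoidClass.coe_finsetSum]
  apply Finset.sum_congr rfl
  intro j _
  rw [subst_one, SetLike.val_smul, smul_eq_C_mul]

lemma ctL_sub (F : Fin n → Form n k) (g : Matrix.SpecialLinearGroup (Fin n) ℂ) :
    ctL n k (fun i => sub g (F i)) = (actT n k).app (ctL n k F) g.1 1 := by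
  rw [actT_app, tup_ctL, ctL]
  congr 1
  funext i
  rw [act, coe_sub, Finset.sum_eq_single i]
  · simp
  · intro j _ hj
    simp [Matrix.one_apply_ne (Ne.symm hj)]
  · intro h
    exact absurd (Finset.mem_univ i) h

lemma eval_appT {w₁ w₂ : ℕ} {Q : MvPolynomial (Fin n × Mon n k) ℂ}
    (hQ : (actT n k).Semi w₁ w₂ Q) (x : Fin n × Mon n k → ℂ) (g a : Matrix (Fin n) (Fin n) ℂ) :
    eval ((actT n k).app x g a) Q = g.det ^ w₁ * a.det ^ w₂ * eval x Q := by
  have h1 := hQ x g a
  rw [aeval_eq_eval, aeval_eq_eval] at h1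
  exact h1

/-- the comorphism is surjective -/
theorem gradStar_surjective (hKEY : StatementKEY) (h : RD n d Δ r₁ r₂) (hd : 3 ≤ d) :
    Function.Surjective (gradStar n hd) := by
  intro φ
  obtain ⟨m, P, hP⟩ := exists_global h φ.2.1
  have hsemi : (actS n d).Semi ((m + 1) * (r₁ + r₂)) 0 (P * gradPull n d Δ) :=
    semi_of_invariant h φ.2 hP
  obtain ⟨m', Q, hQ, hPQ⟩ := hKEY n d Δ r₁ r₂ h (m + 1) (P * gradPull n d Δ) hsemi
  -- the value on tuples
  let Ψ : (Fin n → Form n (d - 1)) → ℂ := fun F =>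
    eval (ctL n (d - 1) F) Q / eval (ctL n (d - 1) F) Δ ^ m'
  have hΨc : ∀ (F F' : Fin n → Form n (d - 1)) (c : Matrix (Fin n) (Fin n) ℂ), c.det ≠ 0 →
      (∀ i, F' i = ∑ j, c i j • F j) → Ψ F' = Ψ F := by
    intro F F' c hc hF
    show eval (ctL n (d - 1) F') Q / eval (ctL n (d - 1) F') Δ ^ m' =
      eval (ctL n (d - 1) F) Q / eval (ctL n (d - 1) F) Δ ^ m'
    rw [ctL_matrix F F' c hF, eval_appT hQ, eval_appT h.semi, Matrix.det_one, one_pow, one_pow,
      one_mul, one_mul, mul_pow, ← pow_mul, mul_comm r₂ m', mul_div_mul_left _ _ (pow_ne_zero _ hc)]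
  let ψ : ZZ n (d - 1) → ℂ := fun W => Ψ W.2.choose
  have hψ : ∀ (F : Fin n → Form n (d - 1)) (hF : F ∈ UU n (d - 1)),
      ψ (spanOf ⟨F, hF⟩) = Ψ F := by
    intro F hF
    have h1 : ∃ F' ∈ UU n (d - 1), Submodule.span ℂ (Set.range F) =
        Submodule.span ℂ (Set.range F') := ⟨F, hF, rfl⟩
    obtain ⟨c, hc, hcF⟩ := exists_matrix h1.choose_spec.1.1 h1.choose_spec.2
    exact hΨc F _ c hc hcF
  have hψmem : ψ ∈ ringZZ n (d - 1) := by
    refine ⟨?_, ?_⟩
    · intro u
      refine ⟨_, polyFun_tuple Q, _, polyFun_tuple (Δ ^ m'), ?_, ?_⟩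
      · show eval (ctL n (d - 1) u.1) (Δ ^ m') ≠ 0
        rw [map_pow]
        exact pow_ne_zero _ (eval_Δ_ne_zero h u.2)
      · intro F _
        show ψ (spanOf F) =
          eval (ctL n (d - 1) F.1) Q / eval (ctL n (d - 1) F.1) (Δ ^ m')
        rw [hψ F.1 F.2, map_pow]
    · rintro g ⟨W, F, hF, rfl⟩ ⟨W', F', hF', rfl⟩ hW
      show ψ (spanOf ⟨F', hF'⟩) = ψ (spanOf ⟨F, hF⟩)
      rw [hψ F hF, hψ F' hF']
      have h1 : Submodule.span ℂ (Set.range fun i => sub g (F i)) =
          Submodule.span ℂ (Set.range F') := by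
        have h2 : Submodule.span ℂ (Set.range F') =
          (Submodule.span ℂ (Set.range F)).map (sub g) := hW
        rw [h2, Submodule.map_span]
        congr 1
        ext x
        simp
      have hli : LinearIndependent ℂ fun i => sub g (F i) := by
        have h2 : ∀ f : Form n (d - 1), sub g⁻¹ (sub g f) = f := by
          intro f
          apply Subtype.ext
          rw [coe_sub, coe_sub, ← subst_mul, ← Matrix.SpecialLinearGroup.coe_mul, mul_inv_cancel,
            Matrix.SpecialLinearGroup.coe_one, subst_one]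
        have h3 : Function.Injective (sub g : Form n (d - 1) →ₗ[ℂ] Form n (d - 1)) :=
          Function.LeftInverse.injective h2
        exact hF.1.map' _ (LinearMap.ker_eq_bot.2 h3)
      obtain ⟨c, hc, hcF⟩ := exists_matrix hF'.1 h1
      rw [hΨc _ F' c hc hcF]
      show eval (ctL n (d - 1) fun i => sub g (F i)) Q /
        eval (ctL n (d - 1) fun i => sub g (F i)) Δ ^ m' =
        eval (ctL n (d - 1) F) Q / eval (ctL n (d - 1) F) Δ ^ m'
      rw [ctL_sub, eval_appT hQ, eval_appT h.semi, Matrix.det_one, g.2]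
      simp
  refine ⟨⟨ψ, hψmem⟩, ?_⟩
  apply Subtype.ext
  funext L
  obtain ⟨L, f, hf, rfl⟩ := L
  show ψ (gradMap n hd (lineOf ⟨f, hf⟩)) = φ.1 (lineOf ⟨f, hf⟩)
  rw [gradMap_lineOf, hψ (gradL n d f) (gradL_mem hd f hf)]
  have h2 : ctL n (d - 1) (gradL n d f) = gradC d (cfL n d f) := by
    rw [gradC, frm_cfL]
    rfl
  have h3 : ∀ R : MvPolynomial (Fin n × Mon n (d - 1)) ℂ,
      eval (ctL n (d - 1) (gradL n d f)) R = eval (cfL n d f) (gradPull n d R) := by
    intro R
    have h4 := aeval_gradPull d R (cfL n d f)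
    rw [aeval_eq_eval, aeval_eq_eval, ← h2] at h4
    exact h4.symm
  show eval (ctL n (d - 1) (gradL n d f)) Q / eval (ctL n (d - 1) (gradL n d f)) Δ ^ m' = _
  rw [h3, h3]
  have hD := (mem_XX_iff h f).1 hf
  have h5 := congrArg (eval (cfL n d f)) hPQ
  rw [map_mul, map_pow, map_mul, map_mul, map_pow] at h5
  have h6 := hP ⟨f, hf⟩
  dsimp only at h6
  rw [← h6] at h5
  rw [div_eq_iff (pow_ne_zero _ hD)]
  apply mul_right_cancel₀ (pow_ne_zero (m + 1) hD)
  rw [h5]
  ring

end main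

end Pool.Agent.Lib.MP_4fcc12_ag.Quot
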