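import Pool.Agent.Lib.MP_4fcc12_ag.Quot
import Pool.Agent.Lib.MP_4fcc12_ag.Concrete

/-!
# The comorphism of the map induced by the gradient
-/

open MvPolynomial

namespace Pool.Agent.Lib.MP_4fcc12_ag.Quot

section comp

variable {V W : Type} [AddCommGroup V] [Module ℂ V] [AddCommGroup W] [Module ℂ W]

lemma polyFun_comp (T : V →ₗ[ℂ] W) {P : W → ℂ} (hP : P ∈ PolyFun W) :
    (fun v => P (T v)) ∈ PolyFun V := by
  refine Algebra.adjoin_induction (p := fun P _ => (fun v => P (T v)) ∈ PolyFun V)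
    ?_ ?_ ?_ ?_ hP
  · rintro _ ⟨l, rfl⟩
    exact Algebra.subset_adjoin ⟨l.comp T, rfl⟩
  · intro c
    exact Subalgebra.algebraMap_mem _ c
  · intro P Q _ _ h1 h2
    exact add_mem h1 h2
  · intro P Q _ _ h1 h2
    exact mul_mem h1 h2

lemma IsRegular.comp {U : Set V} {U' : Set W} (T : V →ₗ[ℂ] W) (hT : ∀ u ∈ U, T u ∈ U')
    {φ : U' → ℂ} (hφ : IsRegular U' φ) : IsRegular U fun u => φ ⟨T u, hT u u.2⟩ := by
  intro u
  obtain ⟨P, hP, Q, hQ, hu, h⟩ := hφ ⟨T u, hT u u.2⟩
  exact ⟨_, polyFun_comp T hP, _, polyFun_comp T hQ, hu, fun x hx => h ⟨T x, hT x x.2⟩ hx⟩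

lemma IsRegular.congr {U : Set V} {φ φ' : U → ℂ} (hφ : IsRegular U φ)
    (h : ∀ u, φ u = φ' u) : IsRegular U φ' := by
  have h1 : φ = φ' := funext h
  rwa [← h1]

end comp

/-- the gradient as a linear map -/
noncomputable def gradL (n d : ℕ) : Form n d →ₗ[ℂ] (Fin n → Form n (d - 1)) :=
  LinearMap.pi fun i => pd i

lemma gradL_mem {n d : ℕ} (hd : 3 ≤ d) (f : Form n d) (hf : f ∈ XX n d) :
    gradL n d f ∈ UU n (d - 1) :=
  ⟨linearIndependent_of_noCommonZero (by omega) hf, hf⟩

lemma coe_sub {n k : ℕ} (g : Matrix.SpecialLinearGroup (Fin n) ℂ) (f : Form n k) :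
    (sub g f : MvPolynomial (Fin n) ℂ) = subst g.1 f := rfl

lemma coe_pd {n d : ℕ} (i : Fin n) (f : Form n d) :
    (pd i f : MvPolynomial (Fin n) ℂ) = pderiv i (f : MvPolynomial (Fin n) ℂ) := rfl

/-- the chain rule -/
lemma pd_sub {n d : ℕ} (g : Matrix.SpecialLinearGroup (Fin n) ℂ) (i : Fin n) (f : Form n d) :
    pd i (sub g f) = ∑ j, g.1 j i • sub g (pd j f) := by
  apply Subtype.ext
  rw [coe_pd, coe_sub, pderiv_subst, AddSubmonoidClass.coe_finsetSum]
  apply Finset.sum_congr rfl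
  intro j _
  rw [SetLike.val_smul, coe_sub, coe_pd, smul_eq_C_mul]

lemma gradSpan_map {n d : ℕ} (g : Matrix.SpecialLinearGroup (Fin n) ℂ)
    (L : Submodule ℂ (Form n d)) : gradSpan (L.map (sub g)) = (gradSpan L).map (sub g) := by
  apply le_antisymm
  · apply iSup_le
    intro i
    rintro _ ⟨_, ⟨f, hf, rfl⟩, rfl⟩
    rw [pd_sub, gradSpan, Submodule.map_iSup]
    apply Submodule.sum_mem
    intro j _
    apply Submodule.smul_mem
    exact Submodule.mem_iSup_of_mem j ⟨_, ⟨f, hf, rfl⟩, rfl⟩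
  · rw [gradSpan, Submodule.map_iSup]
    apply iSup_le
    intro j
    rintro _ ⟨_, ⟨f, hf, rfl⟩, rfl⟩
    have h1 : sub g (pd j f) = ∑ i, (g⁻¹).1 i j • pd i (sub g f) := by
      have h2 : ∀ k, ∑ i, (g⁻¹).1 i j * g.1 k i = if k = j then 1 else 0 := by
        intro k
        have h3 := congrFun (congrFun (congrArg Subtype.val (mul_inv_cancel g)) k) j
        rw [Matrix.SpecialLinearGroup.coe_mul, Matrix.mul_apply,
          Matrix.SpecialLinearGroup.coe_one, Matrix.one_apply] at h3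
        rw [← h3]
        apply Finset.sum_congr rfl
        intro i _
        ring
      have h3 : ∀ i, (g⁻¹).1 i j • pd i (sub g f) =
          ∑ k, ((g⁻¹).1 i j * g.1 k i) • sub g (pd k f) := by
        intro i
        rw [pd_sub, Finset.smul_sum]
        apply Finset.sum_congr rfl
        intro k _
        rw [smul_smul]
      rw [Finset.sum_congr rfl fun i _ => h3 i, Finset.sum_comm]
      have h4 : ∀ k, ∑ i, ((g⁻¹).1 i j * g.1 k i) • sub g (pd k f) =
          if k = j then sub g (pd k f) else 0 := by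
        intro k
        rw [← Finset.sum_smul, h2]
        split_ifs
        · rw [one_smul]
        · rw [zero_smul]
      rw [Finset.sum_congr rfl fun k _ => h4 k]
      simp
    rw [h1]
    apply Submodule.sum_mem
    intro i _
    apply Submodule.smul_mem
    exact Submodule.mem_iSup_of_mem i ⟨_, ⟨f, hf, rfl⟩, rfl⟩

lemma gradMap_lineOf {n d : ℕ} (hd : 3 ≤ d) (f : XX n d) :
    gradMap n hd (lineOf f) = spanOf ⟨gradL n d f.1, gradL_mem hd f.1 f.2⟩ :=
  Subtype.ext (gradSpan_span f.1)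

lemma gradStar_mem {n d : ℕ} (hd : 3 ≤ d) (ψ : ringZZ n (d - 1)) :
    (fun L => ψ.1 (gradMap n hd L)) ∈ ringPX n d := by
  obtain ⟨ψ, h1, h2⟩ := ψ
  refine ⟨?_, ?_⟩
  · have h3 := IsRegular.comp (gradL n d) (gradL_mem hd) h1
    refine h3.congr fun f => ?_
    exact congrArg ψ (gradMap_lineOf hd f).symm
  · intro g L L' hL
    apply h2 g
    show gradSpan L'.1 = (gradSpan L.1).map (sub g)
    rw [hL, gradSpan_map]

/-- composition with a map, as a ring homomorphism between rings of functions -/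
def pullBack {A B : Type} (f : A → B) : (B → ℂ) →+* (A → ℂ) :=
  RingHom.pi fun a => Pi.evalRingHom (fun _ => ℂ) (f a)

/-- The comorphism `ψ ↦ ψ ∘ ℙ∇` of the morphism `ℙX_n^d // SL_n → Z_n^{d-1} // SL_n`. -/
noncomputable def gradStar (n : ℕ) {d : ℕ} (hd : 3 ≤ d) : ringZZ n (d - 1) →+* ringPX n d :=
  ((pullBack (gradMap n hd)).comp (ringZZ n (d - 1)).subtype).codRestrict (ringPX n d)
    (gradStar_mem hd)

open AlgebraicGeometry CategoryTheory

/-- the ring of `SL_n`-invariant regular functions on `ℙX_n^d` -/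
noncomputable def catPX (n d : ℕ) : CommRingCat := CommRingCat.of (ringPX n d)

/-- the ring of `SL_n`-invariant regular functions on `Z_n^k` -/
noncomputable def catZZ (n k : ℕ) : CommRingCat := CommRingCat.of (ringZZ n k)

/-- the comorphism -/
noncomputable def gradCat (n : ℕ) {d : ℕ} (hd : 3 ≤ d) : catZZ n (d - 1) ⟶ catPX n d :=
  CommRingCat.ofHom (gradStar n hd)

/-- The good quotient `ℙX_n^d // SL_n` (the spectrum of the ring of `SL_n`-invariant regular
functions on the affine variety `ℙX_n^d`). -/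
noncomputable def quotPX (n d : ℕ) : Scheme := Spec (catPX n d)

/-- The good quotient `Z_n^k // SL_n` (the spectrum of the ring of `SL_n`-invariant regular
functions on the affine variety `Z_n^k`). -/
noncomputable def quotZZ (n k : ℕ) : Scheme := Spec (catZZ n k)

/-- The morphism `ℙX_n^d // SL_n → Z_n^{d-1} // SL_n` induced by `ℙ∇`. -/
noncomputable def gradBar (n : ℕ) {d : ℕ} (hd : 3 ≤ d) : quotPX n d ⟶ quotZZ n (d - 1) :=
  Spec.map (gradCat n hd)

end Pool.Agent.Lib.MP_4fcc12_ag.Quot
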