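import Mathlib.RingTheory.Polynomial.GaussLemma
import Mathlib.RingTheory.Polynomial.UniqueFactorization
import Mathlib.RingTheory.Localization.FractionRing
import Mathlib.Algebra.MvPolynomial.Equiv
import Mathlib.Data.Complex.Basic

/-!
# Principality of prime ideals contracting to zero
-/

open Polynomial

namespace Pool.Agent.Lib.MP_4fcc12_ag

section one

variable {R : Type*} [CommRing R] [IsDomain R] [UniqueFactorizationMonoid R]

/-- Two polynomials over a UFD, one irreducible of positive degree and not dividing the other, have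
a nonzero constant in the ideal they generate. -/
lemma exists_const_of_not_dvd {Δ P : R[X]} (hΔ : Irreducible Δ) (hprim : Δ.IsPrimitive)
    (h : ¬ Δ ∣ P) : ∃ (r : R) (u v : R[X]), r ≠ 0 ∧ u * Δ + v * P = Polynomial.C r := by
  classical
  let K := FractionRing R
  have hirr : Irreducible (Δ.map (algebraMap R K)) :=
    (hprim.irreducible_iff_irreducible_map_fraction_map (K := K)).1 hΔ
  have hnd : ¬ Δ.map (algebraMap R K) ∣ P.map (algebraMap R K) := fun hd =>
    h (hprim.dvd_of_fraction_map_dvd_fraction_map hd)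
  have hcop : IsCoprime (Δ.map (algebraMap R K)) (P.map (algebraMap R K)) :=
    (hirr.coprime_iff_not_dvd).2 hnd
  obtain ⟨a, b, hab⟩ := hcop
  obtain ⟨c, c0, hc⟩ := IsLocalization.integerNormalization_spec (nonZeroDivisors R) a
  obtain ⟨d, d0, hd⟩ := IsLocalization.integerNormalization_spec (nonZeroDivisors R) b
  rw [Algebra.smul_def, algebraMap_apply] at hc hd
  rw [mem_nonZeroDivisors_iff_ne_zero] at c0 d0
  refine ⟨c * d, C d * IsLocalization.integerNormalization (nonZeroDivisors R) a,
    C c * IsLocalization.integerNormalization (nonZeroDivisors R) b, mul_ne_zero c0 d0, ?_⟩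
  apply map_injective (algebraMap R K) (IsFractionRing.injective R K)
  simp only [Polynomial.map_add, Polynomial.map_mul, hc, hd, map_C, map_mul]
  linear_combination (C (algebraMap R K c) * C (algebraMap R K d)) * hab

lemma principal_of_contract {I : Ideal R[X]} [I.IsPrime] (h0 : ∀ r : R, C r ∈ I → r = 0)
    (hne : I ≠ ⊥) : ∃ Δ : R[X], Irreducible Δ ∧ Δ ∈ I ∧ ∀ P ∈ I, Δ ∣ P := by
  classical
  obtain ⟨Q, hQ, hQ0⟩ := Submodule.exists_mem_ne_zero_of_ne_bot hne
  -- an irreducible factor in `I`
  have key : ∀ s : Multiset R[X], s.prod ∈ I → ∃ p ∈ s, p ∈ I := by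
    intro s
    exact fun hs => (Ideal.IsPrime.multiset_prod_mem_iff_exists_mem ‹_› s).1 hs
  obtain ⟨u, hu⟩ := (UniqueFactorizationMonoid.factors_prod hQ0)
  have h1 : (UniqueFactorizationMonoid.factors Q).prod ∈ I := by
    have h2 : (UniqueFactorizationMonoid.factors Q).prod ∣ Q ∧
        Q ∣ (UniqueFactorizationMonoid.factors Q).prod :=
      ⟨Associated.dvd ⟨u, hu⟩, Associated.dvd' ⟨u, hu⟩⟩
    exact I.mem_of_dvd h2.2 hQ
  obtain ⟨Δ, hΔ, hΔI⟩ := key _ h1
  have hirr := UniqueFactorizationMonoid.irreducible_of_factor _ hΔ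
  refine ⟨Δ, hirr, hΔI, ?_⟩
  have hprim : Δ.IsPrimitive := by
    intro r hr
    obtain ⟨q, hq⟩ := hr
    rcases hirr.isUnit_or_isUnit hq with h | h
    · exact isUnit_C.1 h
    · exfalso
      have : C r ∈ I := by
        obtain ⟨w, rfl⟩ := h
        have : C r = Δ * (↑w⁻¹ : R[X]) := by
          rw [hq, mul_assoc, Units.mul_inv, mul_one]
        rw [this]
        exact I.mul_mem_right _ hΔI
      have hr0 := h0 r this
      rw [hr0] at hq
      simp at hq
      exact hirr.ne_zero hq
  intro P hP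
  by_contra hnd
  obtain ⟨r, a, b, hr, hab⟩ := exists_const_of_not_dvd hirr hprim hnd
  apply hr
  apply h0
  rw [← hab]
  exact I.add_mem (I.mul_mem_left _ hΔI) (I.mul_mem_left _ hP)

end one

/-- A nonzero prime ideal of a polynomial ring over a field containing no nonzero polynomial that
does not involve the variable `v` is principal. -/
lemma principal_of_contract_mv {κ : Type*} {k : Type*} [Field k] (v : κ)
    {I : Ideal (MvPolynomial κ k)} [I.IsPrime]
    (h0 : ∀ P ∈ I, (∃ Q : MvPolynomial {w : κ // w ≠ v} k, P = MvPolynomial.rename (↑) Q) → P = 0)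
    (hne : I ≠ ⊥) :
    ∃ Δ : MvPolynomial κ k, Irreducible Δ ∧ Δ ∈ I ∧ ∀ P ∈ I, Δ ∣ P := by
  classical
  let e : κ ≃ Option {w : κ // w ≠ v} := (Equiv.optionSubtypeNe v).symm
  let E : MvPolynomial κ k ≃ₐ[k] (MvPolynomial {w : κ // w ≠ v} k)[X] :=
    (MvPolynomial.renameEquiv k e).trans (MvPolynomial.optionEquivLeft k _)
  have hEsymm : ∀ Q, E.symm (C Q) = MvPolynomial.rename (↑) Q := by
    intro Q
    rw [AlgEquiv.symm_apply_eq]
    simp only [E, AlgEquiv.trans_apply, MvPolynomial.renameEquiv_apply,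
      MvPolynomial.rename_rename]
    have : (e ∘ fun w : {w : κ // w ≠ v} => (w : κ)) = some := by
      funext w
      simp only [Function.comp_apply, e]
      rw [Equiv.symm_apply_eq]
      simp
    rw [this]
    induction Q using MvPolynomial.induction_on with
    | C a => simp [MvPolynomial.optionEquivLeft_C]
    | add p q hp hq => simp [hp, hq]
    | mul_X p i hp =>
      rw [map_mul, map_mul, map_mul, ← hp, MvPolynomial.rename_X, MvPolynomial.optionEquivLeft_X_some]
  let J : Ideal (MvPolynomial {w : κ // w ≠ v} k)[X] := I.comap E.symm.toRingEquiv.toRingHom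
  have hJ : ∀ q, q ∈ J ↔ E.symm q ∈ I := fun q => Iff.rfl
  have : J.IsPrime := Ideal.comap_isPrime _ _
  have hJ0 : ∀ r, C r ∈ J → r = 0 := by
    intro r hr
    have h1 := (hJ _).1 hr
    rw [hEsymm] at h1
    have h2 := h0 _ h1 ⟨r, rfl⟩
    exact (map_eq_zero_iff _ (MvPolynomial.rename_injective _ Subtype.val_injective)).1 h2
  have hJne : J ≠ ⊥ := by
    obtain ⟨Q, hQ, hQ0⟩ := Submodule.exists_mem_ne_zero_of_ne_bot hne
    intro hb
    have h1 : E Q ∈ J := by rw [hJ]; simpa using hQ
    rw [hb, Ideal.mem_bot] at h1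
    exact hQ0 ((map_eq_zero_iff _ E.injective).1 h1)
  obtain ⟨Δ, hΔ, hΔJ, hdvd⟩ := principal_of_contract hJ0 hJne
  refine ⟨E.symm Δ, ?_, (hJ _).1 hΔJ, ?_⟩
  · exact (MulEquiv.irreducible_iff E.symm).2 hΔ
  · intro P hP
    have h1 : E P ∈ J := by rw [hJ]; simpa using hP
    have h2 := hdvd _ h1
    have h3 := map_dvd E.symm h2
    simpa using h3

end Pool.Agent.Lib.MP_4fcc12_ag
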