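import Pool.Agent.Lib.MP_4fcc12_ag.Spec
import Mathlib.RingTheory.Nullstellensatz
import Mathlib.LinearAlgebra.Matrix.ToLinearEquiv
import Mathlib.LinearAlgebra.Matrix.Basis
import Mathlib.LinearAlgebra.Dimension.Constructions
import Pool.Agent.Lib.MP_4fcc12_ag.ResPrin
import Mathlib.Analysis.Complex.Polynomial.Basic
import Pool.Agent.Lib.MP_4fcc12_ag.ResChar
import Mathlib.Algebra.MvPolynomial.Nilpotent

section
/-!
# Sylvester-type minors
-/
open MvPolynomial Matrix

set_option linter.unusedSectionVars false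

namespace Pool.Agent.Lib.MP_4fcc12_ag

variable {n k : ℕ}

section comp

variable {R : Type*} [CommRing R]

lemma homogeneousComponent_mul_of_homog {σ : Type*} {F : MvPolynomial σ R} (hF : F.IsHomogeneous k)
    (m : ℕ) (q : MvPolynomial σ R) :
    homogeneousComponent (m + k) (q * F) = homogeneousComponent m q * F := by
  have h1 : ∀ j, homogeneousComponent (m + k) (homogeneousComponent j q * F) =
      if j = m then homogeneousComponent m q * F else 0 := by
    intro j
    have h2 : (homogeneousComponent j q * F).IsHomogeneous (j + k) :=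
      (homogeneousComponent_isHomogeneous j q).mul hF
    rw [homogeneousComponent_of_mem ((mem_homogeneousSubmodule _ _).2 h2)]
    by_cases hj : j = m
    · subst hj; simp
    · rw [if_neg hj, if_neg (by omega)]
  conv_lhs => rw [← sum_homogeneousComponent q, Finset.sum_mul, map_sum]
  simp only [h1]
  rw [Finset.sum_ite_eq']
  split_ifs with h
  · rfl
  · rw [homogeneousComponent_eq_zero]
    · simp
    · simp at h; omega

end comp

section null

variable {K : Type*} [Field K] [IsAlgClosed K]

lemma exists_forms (hn : 1 ≤ n) (F : Fin n → MvPolynomial (Fin n) K)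
    (hF : ∀ i, (F i).IsHomogeneous k)
    (hz : ∀ p : Fin n → K, (∀ i, eval p (F i) = 0) → p = 0) :
    ∃ m : ℕ, ∀ β : Mon n (m + k), ∃ q : Fin n → MvPolynomial (Fin n) K,
      (∀ i, (q i).IsHomogeneous m) ∧ (monomial β.1 (1 : K)) = ∑ i, q i * F i := by
  classical
  let I : Ideal (MvPolynomial (Fin n) K) := Ideal.span (Set.range F)
  have hzero : ∀ x ∈ zeroLocus K I, x = 0 := by
    intro x hx
    apply hz
    intro i
    have := hx (F i) (Ideal.subset_span ⟨i, rfl⟩)
    simpa [aeval_eq_eval] using this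
  have hX : ∀ j : Fin n, ∃ m : ℕ, (X j : MvPolynomial (Fin n) K) ^ m ∈ I := by
    intro j
    have h1 : (X j : MvPolynomial (Fin n) K) ∈ vanishingIdeal K (zeroLocus K I) := by
      intro x hx
      rw [hzero x hx]
      simp
    rw [vanishingIdeal_zeroLocus_eq_radical] at h1
    exact h1
  choose M hM using hX
  refine ⟨∑ j, M j, fun β => ?_⟩
  have hex : ∃ j, M j ≤ β.1 j := by
    by_contra hcon
    push Not at hcon
    have h1 : β.1.degree = ∑ j, β.1 j := by
      rw [Finsupp.degree_eq_sum]
    have h2 := β.2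
    rw [h1] at h2
    have h3 : ∑ j, β.1 j < ∑ j, M j := by
      apply Finset.sum_lt_sum_of_nonempty
      · exact ⟨⟨0, hn⟩, Finset.mem_univ _⟩
      · intro j _
        exact hcon j
    omega
  obtain ⟨j, hj⟩ := hex
  have hmem : (monomial β.1 (1 : K)) ∈ I := by
    have h1 : (monomial β.1 (1 : K)) =
        (monomial (β.1 - Finsupp.single j (M j)) (1 : K)) * X j ^ M j := by
      rw [X_pow_eq_monomial, monomial_mul, mul_one, tsub_add_cancel_of_le]
      rw [Finsupp.single_le_iff]
      exact hj
    rw [h1]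
    exact I.mul_mem_left _ (hM j)
  obtain ⟨q, hq⟩ := (Ideal.mem_span_range_iff_exists_fun).1 hmem
  refine ⟨fun i => homogeneousComponent (∑ j, M j) (q i), fun i =>
    homogeneousComponent_isHomogeneous _ _, ?_⟩
  have h1 : homogeneousComponent ((∑ j, M j) + k) (monomial β.1 (1 : K)) = monomial β.1 1 := by
    apply homogeneousComponent_eq_self
    exact isHomogeneous_monomial _ β.2
  rw [← h1, ← hq, map_sum]
  apply Finset.sum_congr rfl
  intro i _
  exact homogeneousComponent_mul_of_homog (hF i) _ _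

end null

section mat

variable {R S : Type*} [CommRing R] [CommRing S]

/-- The Sylvester-type matrix of a tuple of forms. -/
noncomputable def syl (m : ℕ) (x : Fin n × Mon n k → R) :
    Matrix (Mon n (m + k)) (Fin n × Mon n m) R :=
  Matrix.of fun β c => coeff β.1 (monomial c.2.1 (1 : R) * tup x c.1)

lemma syl_map (φ : R →+* S) (m : ℕ) (x : Fin n × Mon n k → R) :
    (syl m x).map φ = syl m (φ ∘ x) := by
  ext β c
  simp only [syl, Matrix.map_apply, Matrix.of_apply]
  rw [← coeff_map, map_mul, map_monomial, map_one, map_tup]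

/-- the vector of monomials at a point -/
def monv (N : ℕ) (p : Fin n → R) : Mon n N → R := fun β => ∏ i, p i ^ β.1 i

lemma eval_eq_sum_monv {N : ℕ} {f : MvPolynomial (Fin n) R} (hf : f.IsHomogeneous N)
    (p : Fin n → R) : eval p f = ∑ β : Mon n N, monv N p β * coeff β.1 f := by
  conv_lhs => rw [← frm_cf hf, frm, map_sum]
  apply Finset.sum_congr rfl
  intro β _
  rw [eval_monomial, cf, monv, mul_comm, Finsupp.prod_fintype]
  intro i
  simp

lemma monv_vecMul_syl (m : ℕ) (x : Fin n × Mon n k → R) (p : Fin n → R)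
    (hp : ∀ i, eval p (tup x i) = 0) : monv (m + k) p ᵥ* syl m x = 0 := by
  funext c
  have h1 : (monomial c.2.1 (1 : R) * tup x c.1).IsHomogeneous (m + k) :=
    (isHomogeneous_monomial _ c.2.2).mul (isHomogeneous_tup x c.1)
  have h2 := eval_eq_sum_monv h1 p
  rw [map_mul, hp, mul_zero] at h2
  simp only [Matrix.vecMul, dotProduct, syl, Matrix.of_apply, Pi.zero_apply]
  exact h2.symm

lemma monv_ne_zero [IsDomain R] (N : ℕ) (p : Fin n → R) (j : Fin n) (hj : p j ≠ 0) :
    monv N p ≠ 0 := by
  classical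
  intro h
  have h1 := congrFun h ⟨Finsupp.single j N, by simp⟩
  simp only [monv, Pi.zero_apply] at h1
  rw [Finset.prod_eq_single j] at h1
  · simp only [Finsupp.single_eq_same] at h1
    exact pow_ne_zero _ hj h1
  · intro b _ hb
    rw [Finsupp.single_apply, if_neg (Ne.symm hb), pow_zero]
  · simp

lemma det_syl_eq_zero [IsDomain R] (m : ℕ) (x : Fin n × Mon n k → R) (p : Fin n → R)
    (hp : ∀ i, eval p (tup x i) = 0) (hp0 : p ≠ 0) (e : Mon n (m + k) → Fin n × Mon n m) :
    ((syl m x).submatrix id e).det = 0 := by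
  obtain ⟨j, hj⟩ := Function.ne_iff.1 hp0
  rw [← Matrix.exists_vecMul_eq_zero_iff]
  refine ⟨monv (m + k) p, monv_ne_zero _ p j hj, ?_⟩
  have h := monv_vecMul_syl m x p hp
  funext c
  exact congrFun h (e c)

end mat

lemma exists_minor {K : Type} [Field K] [IsAlgClosed K] (hn : 1 ≤ n) (x : Fin n × Mon n k → K)
    (hz : ∀ p : Fin n → K, (∀ i, eval p (tup x i) = 0) → p = 0) :
    ∃ (m : ℕ) (e : Mon n (m + k) → Fin n × Mon n m), ((syl m x).submatrix id e).det ≠ 0 := by
  classical
  obtain ⟨m, hm⟩ := exists_forms hn (tup x) (isHomogeneous_tup x) hz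
  refine ⟨m, ?_⟩
  -- the columns span
  have hspan : Submodule.span K (Set.range (syl m x).col) = ⊤ := by
    rw [eq_top_iff, ← (Pi.basisFun K (Mon n (m + k))).span_eq, Submodule.span_le]
    rintro _ ⟨β, rfl⟩
    obtain ⟨q, hq, hβ⟩ := hm β
    have h1 : (Pi.basisFun K (Mon n (m + k)) β) =
        ∑ c : Fin n × Mon n m, coeff c.2.1 (q c.1) • (syl m x).col c := by
      funext γ
      have h2 : (Pi.basisFun K (Mon n (m + k)) β) γ = coeff γ.1 (monomial β.1 (1 : K)) := by
        rw [Pi.basisFun_apply, Pi.single_apply, coeff_monomial]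
        simp only [Subtype.ext_iff, eq_comm]
      rw [h2, hβ, coeff_sum, Finset.sum_apply, Fintype.sum_prod_type]
      apply Finset.sum_congr rfl
      intro i _
      conv_lhs => rw [← frm_cf (hq i), frm, Finset.sum_mul, coeff_sum]
      apply Finset.sum_congr rfl
      intro δ _
      simp only [Pi.smul_apply, smul_eq_mul, Matrix.col_apply, syl, Matrix.of_apply, cf]
      rw [← coeff_C_mul, ← mul_assoc, C_mul_monomial, mul_one]
    rw [SetLike.mem_coe, h1]
    apply Submodule.sum_mem
    intro c _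
    exact Submodule.smul_mem _ _ (Submodule.subset_span ⟨c, rfl⟩)
  obtain ⟨ι, a, ha, hs, hli⟩ := exists_linearIndependent' K (syl m x).col
  rw [hspan] at hs
  let b : Module.Basis ι K (Mon n (m + k) → K) := Module.Basis.mk hli (by rw [hs])
  let e' : Mon n (m + k) ≃ ι := (Pi.basisFun K (Mon n (m + k))).indexEquiv b
  refine ⟨a ∘ e', ?_⟩
  have h1 : LinearIndependent K ((syl m x).submatrix id (a ∘ e')).col := by
    have := hli.comp e' e'.injective
    exact this
  have h2 := (Matrix.linearIndependent_cols_iff_isUnit).1 h1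
  exact ((Matrix.isUnit_iff_isUnit_det _).1 h2).ne_zero

end Pool.Agent.Lib.MP_4fcc12_ag
end

section
/-!
# The ideal of tuples with a common zero
-/
open MvPolynomial Matrix

set_option linter.unusedSectionVars false

namespace Pool.Agent.Lib.MP_4fcc12_ag

variable {n k : ℕ}

/-- the exponent `k e_l` -/
noncomputable def topM (k : ℕ) (l : Fin n) : Mon n k := ⟨Finsupp.single l k, by simp⟩

section solve

variable {R : Type*} [CommRing R] {S : Type*} [CommRing S]

/-- change the coefficients of `z_l ^ k` so that `z` becomes a zero -/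
noncomputable def solve (l : Fin n) (x : Fin n × Mon n k → R) (z : Fin n → R) :
    Fin n × Mon n k → R := fun v =>
  if v.2 = topM k l then - ∑ β ∈ Finset.univ.erase (topM k l), x (v.1, β) * monv k z β else x v

lemma monv_map (φ : R →+* S) (N : ℕ) (z : Fin n → R) (β : Mon n N) :
    φ (monv N z β) = monv N (φ ∘ z) β := by
  simp [monv]

lemma solve_map (φ : R →+* S) (l : Fin n) (x : Fin n × Mon n k → R) (z : Fin n → R) :
    φ ∘ solve l x z = solve l (φ ∘ x) (φ ∘ z) := by
  funext v
  simp only [solve, Function.comp_apply]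
  split_ifs
  · simp [map_sum, monv_map]
  · rfl

lemma monv_topM {l : Fin n} {z : Fin n → R} (hz : z l = 1) : monv k z (topM k l) = 1 := by
  classical
  rw [monv, Finset.prod_eq_single l]
  · rw [hz, one_pow]
  · intro b _ hb
    simp only [topM]
    rw [Finsupp.single_apply, if_neg (Ne.symm hb), pow_zero]
  · simp

lemma eval_tup (x : Fin n × Mon n k → R) (z : Fin n → R) (i : Fin n) :
    eval z (tup x i) = ∑ β : Mon n k, x (i, β) * monv k z β := by
  rw [eval_eq_sum_monv (isHomogeneous_tup x i) z]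
  apply Finset.sum_congr rfl
  intro β _
  have h : coeff β.1 (tup x i) = x (i, β) := congrFun (ct_tup x) (i, β)
  rw [h, mul_comm]

lemma eval_solve {l : Fin n} (x : Fin n × Mon n k → R) {z : Fin n → R} (hz : z l = 1)
    (i : Fin n) : eval z (tup (solve l x z) i) = 0 := by
  rw [eval_tup, ← Finset.add_sum_erase _ _ (Finset.mem_univ (topM k l)), monv_topM hz]
  have h1 : solve l x z (i, topM k l) =
      - ∑ β ∈ Finset.univ.erase (topM k l), x (i, β) * monv k z β := by
    simp [solve]
  have h2 : ∑ β ∈ Finset.univ.erase (topM k l), solve l x z (i, β) * monv k z β =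
      ∑ β ∈ Finset.univ.erase (topM k l), x (i, β) * monv k z β := by
    apply Finset.sum_congr rfl
    intro β hβ
    rw [solve, if_neg (Finset.ne_of_mem_erase hβ)]
  rw [h1, h2]
  ring

lemma solve_eq_self {l : Fin n} {x : Fin n × Mon n k → R} {z : Fin n → R} (hz : z l = 1)
    (h : ∀ i, eval z (tup x i) = 0) : solve l x z = x := by
  funext v
  obtain ⟨i, α⟩ := v
  simp only [solve]
  split_ifs with hα
  · have h1 := h i
    rw [eval_tup, ← Finset.add_sum_erase _ _ (Finset.mem_univ (topM k l)), monv_topM hz] at h1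
    rw [hα]
    linear_combination -h1
  · rfl

lemma eval_smul_homog {F : MvPolynomial (Fin n) R} (hF : F.IsHomogeneous k) (c : R)
    (p : Fin n → R) : eval (c • p) F = c ^ k * eval p F := by
  rw [eval_eq_sum_monv hF, eval_eq_sum_monv hF, Finset.mul_sum]
  apply Finset.sum_congr rfl
  intro β _
  have h : monv k (c • p) β = c ^ k * monv k p β := by
    simp only [monv, Pi.smul_apply, smul_eq_mul, mul_pow, Finset.prod_mul_distrib]
    congr 1
    rw [Finset.prod_pow_eq_pow_sum]
    congr 1
    have := β.2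
    rw [Finsupp.degree_eq_sum] at this
    exact this
  rw [h, mul_assoc]

end solve

/-- generic zero -/
noncomputable def genZ (n k : ℕ) (l : Fin n) : Fin n → MvPolynomial ((Fin n × Mon n k) ⊕ Fin n) ℂ :=
  fun j => if j = l then 1 else X (Sum.inr j)

/-- generic tuple with a zero -/
noncomputable def genY (n k : ℕ) (l : Fin n) :
    Fin n × Mon n k → MvPolynomial ((Fin n × Mon n k) ⊕ Fin n) ℂ :=
  solve l (fun v => X (Sum.inl v)) (genZ n k l)

/-- parametrization -/
noncomputable def theta (n k : ℕ) (l : Fin n) :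
    MvPolynomial (Fin n × Mon n k) ℂ →ₐ[ℂ] MvPolynomial ((Fin n × Mon n k) ⊕ Fin n) ℂ :=
  aeval (genY n k l)

/-- the ideal -/
noncomputable def zI (n k : ℕ) (l : Fin n) : Ideal (MvPolynomial (Fin n × Mon n k) ℂ) :=
  RingHom.ker (theta n k l)

instance (l : Fin n) : (zI n k l).IsPrime := RingHom.ker_isPrime _

lemma genZ_l (l : Fin n) : genZ n k l l = 1 := by simp [genZ]

lemma mem_zI {l : Fin n} {P : MvPolynomial (Fin n × Mon n k) ℂ} :
    P ∈ zI n k l ↔ aeval (genY n k l) P = 0 := Iff.rfl

lemma aeval_eq_zero_of_zero_one {R : Type*} [CommRing R] [Algebra ℂ R] {l : Fin n}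
    {P : MvPolynomial (Fin n × Mon n k) ℂ} (hP : P ∈ zI n k l) {x : Fin n × Mon n k → R}
    {z : Fin n → R} (hz : z l = 1) (h : ∀ i, eval z (tup x i) = 0) : aeval x P = 0 := by
  let φ : MvPolynomial ((Fin n × Mon n k) ⊕ Fin n) ℂ →ₐ[ℂ] R := aeval (Sum.elim x z)
  have h1 : φ.toRingHom ∘ genY n k l = x := by
    rw [genY, solve_map]
    have h2 : (φ.toRingHom ∘ fun v => X (Sum.inl v)) = x := by
      funext v
      simp [φ]
    have h3 : φ.toRingHom ∘ genZ n k l = z := by
      funext j
      simp only [Function.comp_apply, genZ]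
      split_ifs with hj
      · rw [hj, hz]; simp
      · simp [φ]
    rw [h2, h3]
    exact solve_eq_self hz h
  have h4 : aeval x P = φ (aeval (genY n k l) P) := by
    rw [← AlgHom.comp_apply, comp_aeval]
    congr 2
    exact h1.symm
  rw [h4, mem_zI.1 hP, map_zero]

lemma aeval_eq_zero_of_zero {L : Type*} [Field L] [Algebra ℂ L] {l : Fin n}
    {P : MvPolynomial (Fin n × Mon n k) ℂ} (hP : P ∈ zI n k l) {x : Fin n × Mon n k → L}
    {p : Fin n → L} (hp : p l ≠ 0) (h : ∀ i, eval p (tup x i) = 0) : aeval x P = 0 := by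
  apply aeval_eq_zero_of_zero_one hP (z := (p l)⁻¹ • p)
  · simp [hp]
  · intro i
    rw [eval_smul_homog (isHomogeneous_tup x i), h i, mul_zero]

/-- the generic minor -/
noncomputable def minorD (m : ℕ) (e : Mon n (m + k) → Fin n × Mon n m) :
    MvPolynomial (Fin n × Mon n k) ℂ :=
  ((syl m (X : Fin n × Mon n k → MvPolynomial (Fin n × Mon n k) ℂ)).submatrix id e).det

lemma aeval_minorD {R : Type*} [CommRing R] [Algebra ℂ R] (m : ℕ)
    (e : Mon n (m + k) → Fin n × Mon n m) (x : Fin n × Mon n k → R) :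
    aeval x (minorD m e) = ((syl m x).submatrix id e).det := by
  rw [minorD, AlgHom.map_det]
  congr 1
  have h := syl_map (aeval x : MvPolynomial (Fin n × Mon n k) ℂ →ₐ[ℂ] R).toRingHom m X
  have h2 : (aeval x : MvPolynomial (Fin n × Mon n k) ℂ →ₐ[ℂ] R).toRingHom ∘ X = x := by
    funext v
    simp
  rw [h2] at h
  rw [← h]
  rfl

lemma minorD_mem (l : Fin n) (m : ℕ) (e : Mon n (m + k) → Fin n × Mon n m) :
    minorD m e ∈ zI n k l := by
  rw [mem_zI, aeval_minorD]
  apply det_syl_eq_zero m _ (genZ n k l)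
  · exact eval_solve _ (genZ_l l)
  · intro h
    have := congrFun h l
    rw [genZ_l] at this
    exact one_ne_zero this

lemma zI_ne_bot (hk : 1 ≤ k) (l : Fin n) : zI n k l ≠ ⊥ := by
  classical
  have hn : 1 ≤ n := by have := l.2; omega
  let x : Fin n × Mon n k → ℂ := ct k (fun i => X i ^ k)
  have hx : tup x = fun i => X i ^ k := by
    apply tup_ct
    intro i
    have := (isHomogeneous_X ℂ i).pow k
    simpa using this
  obtain ⟨m, e, hme⟩ := exists_minor hn x (by
    intro p hp
    funext i
    have := hp i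
    rw [hx] at this
    simp only [map_pow, eval_X] at this
    exact pow_eq_zero_iff (by omega) |>.1 this)
  intro hb
  have h1 := minorD_mem (k := k) l m e
  rw [hb, Ideal.mem_bot] at h1
  apply hme
  rw [← aeval_minorD, h1, map_zero]

/-- the exponent `(k-1) e_l + e_i` -/
noncomputable def bM (k : ℕ) (hk : 1 ≤ k) (l i : Fin n) : Mon n k :=
  ⟨Finsupp.single l (k - 1) + Finsupp.single i 1, by
    rw [map_add, Finsupp.degree_single, Finsupp.degree_single]; omega⟩

lemma bM_ne (hk : 1 ≤ k) {l i : Fin n} (hi : i ≠ l) : bM k hk l i ≠ topM k l := by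
  intro h
  have h1 := congrArg (fun α : Mon n k => α.1 i) h
  simp only [bM, topM, Finsupp.add_apply, Finsupp.single_apply, if_neg (Ne.symm hi)] at h1
  simp at h1

lemma monv_bM {R : Type*} [CommRing R] (hk : 1 ≤ k) {l i : Fin n} {z : Fin n → R} (hz : z l = 1) :
    monv k z (bM k hk l i) = z i := by
  classical
  simp only [monv, bM, Finsupp.add_apply, pow_add, Finset.prod_mul_distrib]
  rw [Finset.prod_eq_single l, Finset.prod_eq_single i]
  · simp [hz]
  · intro b _ hb
    rw [Finsupp.single_apply, if_neg (Ne.symm hb), pow_zero]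
  · simp
  · intro b _ hb
    rw [Finsupp.single_apply, if_neg (Ne.symm hb), pow_zero]
  · simp

/-- `θ` is injective on polynomials not involving one of the coefficients. -/
lemma zI_contract (hk : 1 ≤ k) (l : Fin n)
    (Q : MvPolynomial {w : Fin n × Mon n k // w ≠ (l, topM k l)} ℂ)
    (hQ : rename (↑) Q ∈ zI n k l) : Q = 0 := by
  classical
  by_contra hQ0
  let W := {w : Fin n × Mon n k // w ≠ (l, topM k l)}
  -- the variables which are scaled
  let O : Set (Fin n × Mon n k) := {v | v.1 = l ∨ (v.2 ≠ topM k l ∧ v.2 ≠ bM k hk l v.1)}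
  let sc : W → Polynomial (MvPolynomial W ℂ) := fun w =>
    if (w : Fin n × Mon n k) ∈ O then Polynomial.C (X w) * Polynomial.X else Polynomial.C (X w)
  let Qs : Polynomial (MvPolynomial W ℂ) := aeval sc Q
  have hQs : Qs ≠ 0 := by
    intro h
    apply hQ0
    have h1 := congrArg (Polynomial.aeval (1 : MvPolynomial W ℂ)) h
    have h2 : Polynomial.aeval (1 : MvPolynomial W ℂ) Qs = Q := by
      have h3 : (((Polynomial.aeval (1 : MvPolynomial W ℂ)).restrictScalars ℂ).comp (aeval sc) :
          MvPolynomial W ℂ →ₐ[ℂ] MvPolynomial W ℂ) = AlgHom.id ℂ _ := by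
        apply MvPolynomial.algHom_ext
        intro w
        simp only [AlgHom.comp_apply, aeval_X, AlgHom.restrictScalars_apply, sc]
        split_ifs <;> simp
      exact congrArg (fun φ => φ Q) h3
    rw [h2, map_zero] at h1
    exact h1
  obtain ⟨Rr, hR, hnd⟩ := Polynomial.exists_eq_pow_rootMultiplicity_mul_and_not_dvd Qs hQs 0
  set m := Polynomial.rootMultiplicity 0 Qs
  rw [Polynomial.C_0, sub_zero] at hR hnd
  have hc : Rr.coeff 0 ≠ 0 := fun h => hnd (Polynomial.X_dvd_iff.2 h)
  -- product of the distinguished coefficients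
  have hprod : Rr.coeff 0 * ∏ i ∈ (Finset.univ.erase l).attach,
      X (⟨(i.1, bM k hk l i.1), fun h => (Finset.ne_of_mem_erase i.2) (congrArg Prod.fst h)⟩ : W)
      = 0 := by
    apply MvPolynomial.funext
    intro x
    rw [map_zero, map_mul, map_prod]
    simp only [eval_X]
    by_cases hx : ∀ i : {i // i ∈ Finset.univ.erase l}, x ⟨(i.1, bM k hk l i.1),
      fun h => (Finset.ne_of_mem_erase i.2) (congrArg Prod.fst h)⟩ ≠ 0
    swap
    · push Not at hx
      obtain ⟨i, hi⟩ := hx
      rw [Finset.prod_eq_zero (Finset.mem_attach _ i) hi, mul_zero]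
    -- extend `x`
    let x' : Fin n × Mon n k → ℂ := fun v => if h : v ≠ (l, topM k l) then x ⟨v, h⟩ else 0
    have hx' : ∀ w : W, x' w = x w := by
      intro w
      simp only [x']
      rw [dif_pos w.2]
    have hb : ∀ i, i ≠ l → x' (i, bM k hk l i) ≠ 0 := by
      intro i hi
      have h1 := hx ⟨i, Finset.mem_erase.2 ⟨hi, Finset.mem_univ _⟩⟩
      have h2 := hx' ⟨(i, bM k hk l i), fun h => hi (congrArg Prod.fst h)⟩
      simp only at h2
      rw [h2]
      exact h1
    let z : Fin n → ℂ := fun i => if i = l then 1 else - x' (i, topM k l) / x' (i, bM k hk l i)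
    let xh : Fin n × Mon n k → Polynomial ℂ := fun v =>
      if v ∈ O then Polynomial.C (x' v) * Polynomial.X else Polynomial.C (x' v)
    let zh : Fin n → Polynomial ℂ := fun i => Polynomial.C (z i)
    have hzh : zh l = 1 := by simp [zh, z]
    let F := solve l xh zh
    have hPF : aeval F (rename (↑) Q : MvPolynomial (Fin n × Mon n k) ℂ) = 0 :=
      aeval_eq_zero_of_zero_one hQ hzh (eval_solve xh hzh)
    rw [aeval_rename] at hPF
    let χ : W → Polynomial ℂ := fun w =>
      if (w : Fin n × Mon n k).2 = topM k l then F w else Polynomial.C (x w)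
    have hχ : ∀ w : W, (if (w : Fin n × Mon n k) ∈ O then χ w * Polynomial.X else χ w) = F w := by
      rintro ⟨⟨i, α⟩, hw⟩
      by_cases hα : α = topM k l
      · have hi : i ≠ l := fun h => hw (by rw [h, hα])
        rw [if_neg]
        · simp only [χ]
          rw [if_pos hα]
        · simp only [O, Set.mem_ofPred_eq]
          rintro (h | h)
          · exact hi h
          · exact h.1 hα
      · simp only [χ, F, solve]
        rw [if_neg hα, if_neg hα]
        simp only [xh]
        rw [← hx' ⟨(i, α), hw⟩]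
    let Φ : Polynomial (MvPolynomial W ℂ) →+* Polynomial ℂ :=
      Polynomial.eval₂RingHom (aeval χ : MvPolynomial W ℂ →ₐ[ℂ] Polynomial ℂ).toRingHom Polynomial.X
    have hΦ : Φ Qs = 0 := by
      have h1 : Φ.comp (aeval sc : MvPolynomial W ℂ →ₐ[ℂ] _).toRingHom =
          (aeval (F ∘ fun w : W => (w : Fin n × Mon n k)) : MvPolynomial W ℂ →ₐ[ℂ] _).toRingHom := by
        apply MvPolynomial.ringHom_ext
        · intro r
          simp [Φ, Polynomial.algebraMap_apply]
        · intro w
          simp only [RingHom.comp_apply, AlgHom.toRingHom_eq_coe, RingHom.coe_coe, aeval_X,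
            Function.comp_apply, sc, Φ]
          rw [← hχ w]
          split_ifs <;> simp
      have h2 := congrArg (fun φ => φ Q) h1
      exact h2.trans hPF
    have hΦR : Φ Rr = 0 := by
      rw [hR, map_mul, map_pow] at hΦ
      have h1 : Φ Polynomial.X = Polynomial.X := by simp [Φ]
      rw [h1] at hΦ
      rcases mul_eq_zero.1 hΦ with h | h
      · exact absurd h (pow_ne_zero _ Polynomial.X_ne_zero)
      · exact h
    have h0 : (Polynomial.evalRingHom 0).comp Φ =
        (eval x : MvPolynomial W ℂ →+* ℂ).comp (Polynomial.evalRingHom 0) := by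
      apply Polynomial.ringHom_ext'
      · apply MvPolynomial.ringHom_ext
        · intro r
          simp [Φ, Polynomial.algebraMap_apply]
        · rintro ⟨⟨i, α⟩, hw⟩
          simp only [RingHom.comp_apply, Φ, Polynomial.coe_eval₂RingHom, Polynomial.eval₂_C,
            AlgHom.toRingHom_eq_coe, RingHom.coe_coe, aeval_X, Polynomial.coe_evalRingHom,
            Polynomial.eval_C, eval_X, χ]
          by_cases hα : α = topM k l
          · have hi : i ≠ l := fun h => hw (by rw [h, hα])
            rw [if_pos hα]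
            simp only [F, solve]
            rw [if_pos hα]
            subst hα
            rw [Polynomial.eval_neg, Polynomial.eval_finsetSum]
            rw [Finset.sum_eq_single (bM k hk l i)]
            · have h3 : (i, bM k hk l i) ∉ O := by
                simp only [O, Set.mem_ofPred_eq]
                rintro (h | h)
                · exact hi h
                · exact h.2 rfl
              simp only [xh]
              rw [if_neg h3, monv_bM hk hzh, ← hx' ⟨(i, topM k l), hw⟩]
              simp only [zh, z, if_neg hi, Polynomial.eval_mul, Polynomial.eval_C]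
              field_simp [hb i hi]
            · intro β hβ hβ'
              have h3 : (i, β) ∈ O := by
                simp only [O, Set.mem_ofPred_eq]
                exact Or.inr ⟨Finset.ne_of_mem_erase hβ, hβ'⟩
              simp only [xh]
              rw [if_pos h3]
              simp
            · intro h
              exact absurd (Finset.mem_erase.2 ⟨bM_ne hk hi, Finset.mem_univ _⟩) h
          · rw [if_neg hα]
            simp
      · simp [Φ]
    have h1 := congrArg (fun φ => φ Rr) h0
    simp only [RingHom.comp_apply, hΦR, map_zero] at h1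
    rw [Polynomial.coe_evalRingHom, ← Polynomial.coeff_zero_eq_eval_zero] at h1
    rw [← h1, zero_mul]
  rcases mul_eq_zero.1 hprod with h | h
  · exact hc h
  · rw [Finset.prod_eq_zero_iff] at h
    obtain ⟨i, _, hi⟩ := h
    exact X_ne_zero _ hi

lemma exists_delta (hk : 1 ≤ k) (l : Fin n) : ∃ Δ : MvPolynomial (Fin n × Mon n k) ℂ,
    Irreducible Δ ∧ Δ ∈ zI n k l ∧ ∀ P ∈ zI n k l, Δ ∣ P := by
  apply principal_of_contract_mv (l, topM k l)
  · rintro P hP ⟨Q, rfl⟩
    rw [zI_contract hk l Q hP, map_zero]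
  · exact zI_ne_bot hk l

end Pool.Agent.Lib.MP_4fcc12_ag
end

section
/-!
# Existence of the resultant
-/
open MvPolynomial Matrix

set_option linter.unusedSectionVars false

namespace Pool.Agent.Lib.MP_4fcc12_ag

variable {n k : ℕ}

section zeros

variable {R : Type*} [CommRing R] [Algebra ℂ R]

/-- zeros of a transformed tuple -/
lemma eval_tup_app (x : Fin n × Mon n k → R) (g a : Matrix (Fin n) (Fin n) R) (p : Fin n → R)
    (h : ∀ i, eval (g *ᵥ p) (tup x i) = 0) (i : Fin n) :
    eval p (tup ((actT n k).app x g a) i) = 0 := by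
  rw [actT_app, tup_ct (isHomogeneous_act (isHomogeneous_tup x) g a), act, map_sum]
  apply Finset.sum_eq_zero
  intro j _
  rw [map_mul, eval_subst, h, mul_zero]

end zeros

/-- the automorphism of the coordinate ring -/
noncomputable def sig (g a : Matrix (Fin n) (Fin n) ℂ) :
    MvPolynomial (Fin n × Mon n k) ℂ →ₐ[ℂ] MvPolynomial (Fin n × Mon n k) ℂ :=
  aeval ((actT n k).app X (g.map (algebraMap ℂ _)) (a.map (algebraMap ℂ _)))

lemma aeval_sig {R : Type*} [CommRing R] [Algebra ℂ R] (g a : Matrix (Fin n) (Fin n) ℂ)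
    (x : Fin n × Mon n k → R) (P : MvPolynomial (Fin n × Mon n k) ℂ) :
    aeval x (sig g a P) =
      aeval ((actT n k).app x (g.map (algebraMap ℂ R)) (a.map (algebraMap ℂ R))) P := by
  rw [sig, ← AlgHom.comp_apply, comp_aeval]
  have h1 := (actT n k).map_app (aeval x : MvPolynomial (Fin n × Mon n k) ℂ →ₐ[ℂ] R) X
    (g.map (algebraMap ℂ _)) (a.map (algebraMap ℂ _))
  have h2 : (aeval x : MvPolynomial (Fin n × Mon n k) ℂ →ₐ[ℂ] R) ∘ X = x := by
    funext v
    simp
  have h3 : ∀ g : Matrix (Fin n) (Fin n) ℂ, (g.map (algebraMap ℂ (MvPolynomial (Fin n × Mon n k) ℂ))).map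
      (aeval x : MvPolynomial (Fin n × Mon n k) ℂ →ₐ[ℂ] R) = g.map (algebraMap ℂ R) := by
    intro g
    ext i j
    simp
  rw [h2, h3, h3] at h1
  rw [← h1]
  rfl

lemma sig_sig (g a g' a' : Matrix (Fin n) (Fin n) ℂ) (P : MvPolynomial (Fin n × Mon n k) ℂ) :
    sig g a (sig g' a' P) = sig (g * g') (a' * a) P := by
  have h := aeval_sig g' a' ((actT n k).app X (g.map (algebraMap ℂ (MvPolynomial (Fin n × Mon n k) ℂ)))
    (a.map (algebraMap ℂ _))) P
  have h2 : sig g a (sig g' a' P) = aeval ((actT n k).app X (g.map (algebraMap ℂ (MvPolynomial (Fin n × Mon n k) ℂ)))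
    (a.map (algebraMap ℂ _))) (sig g' a' P) := rfl
  rw [h2, h, Actn.app_app, sig, Matrix.map_mul, Matrix.map_mul]

lemma sig_one (P : MvPolynomial (Fin n × Mon n k) ℂ) : sig 1 1 P = P := by
  rw [sig, Matrix.map_one _ (map_zero _) (map_one _), Actn.app_one, aeval_X_left_apply]

/-- `sig` as an equivalence -/
noncomputable def sigE (g a : Matrix (Fin n) (Fin n) ℂ) (hg : g.det ≠ 0) (ha : a.det ≠ 0) :
    MvPolynomial (Fin n × Mon n k) ℂ ≃ₐ[ℂ] MvPolynomial (Fin n × Mon n k) ℂ :=
  AlgEquiv.ofAlgHom (sig g a) (sig g⁻¹ a⁻¹)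
    (by
      apply AlgHom.ext
      intro P
      have hg' := isUnit_iff_ne_zero.2 hg
      have ha' := isUnit_iff_ne_zero.2 ha
      rw [AlgHom.comp_apply, sig_sig, Matrix.mul_nonsing_inv _ hg', Matrix.nonsing_inv_mul _ ha',
        sig_one]
      rfl)
    (by
      apply AlgHom.ext
      intro P
      have hg' := isUnit_iff_ne_zero.2 hg
      have ha' := isUnit_iff_ne_zero.2 ha
      rw [AlgHom.comp_apply, sig_sig, Matrix.nonsing_inv_mul _ hg', Matrix.mul_nonsing_inv _ ha',
        sig_one]
      rfl)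

/-- the ideal is stable -/
lemma sig_mem {l : Fin n} {P : MvPolynomial (Fin n × Mon n k) ℂ} (hP : P ∈ zI n k l)
    (g a : Matrix (Fin n) (Fin n) ℂ) (hg : g.det ≠ 0) : sig g a P ∈ zI n k l := by
  classical
  let B := MvPolynomial ((Fin n × Mon n k) ⊕ Fin n) ℂ
  let L := FractionRing B
  let ι : B →ₐ[ℂ] L := (Algebra.ofId B L).restrictScalars ℂ
  have hι : Function.Injective ι := IsFractionRing.injective B L
  rw [mem_zI]
  apply hι
  rw [map_zero, ← AlgHom.comp_apply, comp_aeval, aeval_sig]
  -- the zero of the transformed tuple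
  let gi : Matrix (Fin n) (Fin n) ℂ := g⁻¹
  let p : Fin n → B := (gi.map (algebraMap ℂ B)) *ᵥ genZ n k l
  have hgu := isUnit_iff_ne_zero.2 hg
  have hpl : p l ≠ 0 := by
    intro h0
    -- the row vanishes
    have hrow : ∀ w : Fin n → ℂ, w l = 1 → ∑ j, gi l j * w j = 0 := by
      intro w hw
      have h1 := congrArg (aeval (Sum.elim (0 : Fin n × Mon n k → ℂ) w)) h0
      rw [map_zero] at h1
      simp only [p, Matrix.mulVec, dotProduct, map_sum, map_mul, Matrix.map_apply] at h1
      rw [← h1]
      apply Finset.sum_congr rfl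
      intro j _
      congr 1
      · exact (AlgHom.commutes (aeval (Sum.elim (0 : Fin n × Mon n k → ℂ) w)) (gi l j)).symm
      · simp only [genZ]
        split_ifs with hj
        · rw [hj, hw]; simp
        · simp
    have h1 := hrow (Pi.single l 1) (by simp)
    simp only [Pi.single_apply, mul_ite, mul_one, mul_zero, Finset.sum_ite_eq', Finset.mem_univ,
      if_true] at h1
    have h2 : ∀ j, gi l j = 0 := by
      intro j
      by_cases hj : j = l
      · rw [hj]; exact h1
      have h3 := hrow (Pi.single l 1 + Pi.single j 1) (by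
        simp [Pi.single_apply, Ne.symm hj])
      simp only [Pi.add_apply, Pi.single_apply, mul_add, mul_ite, mul_one, mul_zero,
        Finset.sum_add_distrib, Finset.sum_ite_eq', Finset.mem_univ, if_true] at h3
      rw [h1, zero_add] at h3
      exact h3
    have h4 : gi * g = 1 := Matrix.nonsing_inv_mul _ hgu
    have h5 := congrFun (congrFun h4 l) l
    rw [Matrix.mul_apply] at h5
    simp [h2] at h5
  apply aeval_eq_zero_of_zero hP (p := ι ∘ p)
  · intro h
    exact hpl (hι (by rw [map_zero]; exact h))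
  · intro i
    apply eval_tup_app
    intro j
    have h1 : (g.map (algebraMap ℂ L)) *ᵥ (ι ∘ p) = ι ∘ genZ n k l := by
      have h2 : (ι ∘ p) = (gi.map (algebraMap ℂ L)) *ᵥ (ι ∘ genZ n k l) := by
        funext i
        simp only [Function.comp_apply, p, Matrix.mulVec, dotProduct, map_sum, map_mul,
          Matrix.map_apply, AlgHom.commutes]
      rw [h2, Matrix.mulVec_mulVec, ← Matrix.map_mul, Matrix.mul_nonsing_inv _ hgu,
        Matrix.map_one _ (map_zero _) (map_one _), Matrix.one_mulVec]
    rw [h1]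
    have h3 := eval_solve (l := l) (fun v => (X (Sum.inl v) : B)) (genZ_l l) j
    have h4 : (fun v => ι (genY n k l v)) = ι.toRingHom ∘ genY n k l := rfl
    rw [h4, ← map_tup]
    have h5 : (ι ∘ genZ n k l) = ι.toRingHom ∘ genZ n k l := rfl
    rw [h5]
    have h6 := MvPolynomial.eval₂_comp_left ι.toRingHom (RingHom.id B) (genZ n k l)
      (tup (genY n k l) j)
    rw [eval_map]
    rw [RingHom.comp_id] at h6
    rw [← h6]
    have h7 : eval₂ (RingHom.id B) (genZ n k l) (tup (genY n k l) j) = 0 := h3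
    rw [h7, map_zero]

section semi

variable {l : Fin n} {Δ : MvPolynomial (Fin n × Mon n k) ℂ} (h1 : Irreducible Δ)
  (h2 : Δ ∈ zI n k l) (h3 : ∀ P ∈ zI n k l, Δ ∣ P)

include h1 h2 h3

lemma sig_delta (g a : Matrix (Fin n) (Fin n) ℂ) (hg : g.det ≠ 0) (ha : a.det ≠ 0) :
    ∃ c : ℂ, sig g a Δ = C c * Δ := by
  obtain ⟨Q, hQ⟩ := h3 _ (sig_mem h2 g a hg)
  have hirr : Irreducible (sig g a Δ) := (MulEquiv.irreducible_iff (sigE g a hg ha)).2 h1
  rcases hirr.isUnit_or_isUnit hQ with h | h
  · exact absurd h h1.not_isUnit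
  · have hc := totalDegree_eq_zero_iff_eq_C.1 (MvPolynomial.isUnit_iff_totalDegree_of_isReduced.1 h).2
    exact ⟨coeff 0 Q, by rw [hQ, mul_comm, ← hc]⟩

lemma exists_semi : ∃ r₁ r₂ : ℕ, (actT n k).Semi r₁ r₂ Δ := by
  classical
  -- a point where `Δ` does not vanish
  obtain ⟨x0, hx0⟩ : ∃ x0 : Fin n × Mon n k → ℂ, aeval x0 Δ ≠ 0 := by
    by_contra hcon
    push Not at hcon
    apply h1.ne_zero
    apply MvPolynomial.funext
    intro x
    have := hcon x
    rw [map_zero]
    simpa [aeval_eq_eval] using this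
  let f : Matrix (Fin n) (Fin n) ℂ → Matrix (Fin n) (Fin n) ℂ → ℂ := fun g a =>
    aeval ((actT n k).app x0 g a) Δ * (aeval x0 Δ)⁻¹
  have hid : ∀ g : Matrix (Fin n) (Fin n) ℂ, g.map (algebraMap ℂ ℂ) = g := by
    intro g; ext i j; simp
  have key : ∀ (x : Fin n × Mon n k → ℂ) (g a : Matrix (Fin n) (Fin n) ℂ), g.det ≠ 0 → a.det ≠ 0 →
      aeval ((actT n k).app x g a) Δ = f g a * aeval x Δ := by
    intro x g a hg ha
    obtain ⟨c, hc⟩ := sig_delta h1 h2 h3 g a hg ha
    have e : ∀ x : Fin n × Mon n k → ℂ, aeval ((actT n k).app x g a) Δ = c * aeval x Δ := by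
      intro x
      have := aeval_sig g a x Δ
      rw [hid, hid, hc, map_mul] at this
      rw [← this]
      simp
    have e1 : f g a = c := by
      simp only [f]
      rw [e x0]
      field_simp
    rw [e1, e x]
  have hf1 : f 1 1 = 1 := by
    simp only [f]
    rw [Actn.app_one]
    exact mul_inv_cancel₀ hx0
  have hmul : ∀ g a g' a' : Matrix (Fin n) (Fin n) ℂ, g.det ≠ 0 → a.det ≠ 0 → g'.det ≠ 0 →
      a'.det ≠ 0 → f (g * g') (a' * a) = f g a * f g' a' := by
    intro g a g' a' hg ha hg' ha'
    have e1 : f (g * g') (a' * a) = aeval ((actT n k).app x0 (g * g') (a' * a)) Δ *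
      (aeval x0 Δ)⁻¹ := rfl
    rw [e1, ← Actn.app_app, key _ _ _ hg' ha', key _ _ _ hg ha]
    field_simp
  have hd1 : (1 : Matrix (Fin n) (Fin n) ℂ).det ≠ 0 := by simp
  -- polynomiality
  have hpol : ∀ g a : Matrix (Fin n) (Fin n) ℂ, f g a = MvPolynomial.eval (gpt g a)
      (aeval ((actT n k).app (fun v => C (x0 v)) (gX n ℂ) (aX n ℂ)) Δ * C (aeval x0 Δ)⁻¹) := by
    intro g a
    rw [map_mul, eval_C]
    simp only [f]
    congr 1
    let φ : MvPolynomial (Grp n) ℂ →ₐ[ℂ] ℂ := aeval (gpt g a)
    have e1 : ∀ p, MvPolynomial.eval (gpt g a) p = φ p := fun p => by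
      simp [φ, aeval_eq_eval]
    rw [e1, ← AlgHom.comp_apply, comp_aeval]
    have e2 := (actT n k).map_app φ (fun v => C (x0 v)) (gX n ℂ) (aX n ℂ)
    have e3 : (gX n ℂ).map φ = g := by
      ext i j; simp [gX, φ, gpt]
    have e4 : (aX n ℂ).map φ = a := by
      ext i j; simp [aX, φ, gpt]
    have e5 : (φ ∘ fun v => C (x0 v)) = x0 := by
      funext v; simp [φ]
    rw [e3, e4, e5] at e2
    rw [← e2]
    rfl
  set Pf : MvPolynomial (Grp n) ℂ :=
    aeval ((actT n k).app (fun v => C (x0 v)) (gX n ℂ) (aX n ℂ)) Δ * C (aeval x0 Δ)⁻¹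
  obtain ⟨r₁, hr₁⟩ := char_det l (fun g => f g 1)
    (aeval (gpt (Matrix.of fun i j => X (i, j)) 1) Pf) (by
      intro g
      rw [hpol]
      let ψ : MvPolynomial (Fin n × Fin n) ℂ →ₐ[ℂ] ℂ := aeval fun ij => g ij.1 ij.2
      have e1 : ∀ p, MvPolynomial.eval (fun ij : Fin n × Fin n => g ij.1 ij.2) p = ψ p :=
        fun p => by simp [ψ, aeval_eq_eval]
      rw [e1, ← AlgHom.comp_apply, comp_aeval]
      have e2 : ∀ p, MvPolynomial.eval (gpt g 1) p = aeval (gpt g (1 : Matrix (Fin n) (Fin n) ℂ)) p := fun p => by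
        simp [aeval_eq_eval]
      rw [e2]
      congr 2
      funext s
      rcases s with ⟨i, j⟩ | ⟨i, j⟩
      · simp [gpt, ψ]
      · simp only [gpt, Sum.elim_inr]
        rw [Matrix.one_apply, Matrix.one_apply]
        split_ifs <;> simp)
    hf1 (by
      intro g h hg hh
      have := hmul g 1 h 1 hg hd1 hh hd1
      rw [mul_one] at this
      exact this)
  obtain ⟨r₂, hr₂⟩ := char_det l (fun a => f 1 a)
    (aeval (gpt 1 (Matrix.of fun i j => X (i, j))) Pf) (by
      intro g
      rw [hpol]
      let ψ : MvPolynomial (Fin n × Fin n) ℂ →ₐ[ℂ] ℂ := aeval fun ij => g ij.1 ij.2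
      have e1 : ∀ p, MvPolynomial.eval (fun ij : Fin n × Fin n => g ij.1 ij.2) p = ψ p :=
        fun p => by simp [ψ, aeval_eq_eval]
      rw [e1, ← AlgHom.comp_apply, comp_aeval]
      have e2 : ∀ p, MvPolynomial.eval (gpt 1 g) p = aeval (gpt (1 : Matrix (Fin n) (Fin n) ℂ) g) p := fun p => by
        simp [aeval_eq_eval]
      rw [e2]
      congr 2
      funext s
      rcases s with ⟨i, j⟩ | ⟨i, j⟩
      · simp only [gpt, Sum.elim_inl]
        rw [Matrix.one_apply, Matrix.one_apply]
        split_ifs <;> simp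
      · simp [gpt, ψ])
    hf1 (by
      intro a b ha hb
      have := hmul 1 b 1 a hd1 hb hd1 ha
      rw [mul_one] at this
      rw [this, mul_comm])
  refine ⟨r₁, r₂, ?_⟩
  apply Actn.semi_of_complex
  intro x g a hg ha
  rw [key x g a hg ha]
  congr 1
  have := hmul g 1 1 a hg hd1 hd1 ha
  rw [mul_one, mul_one] at this
  rw [this]
  have e1 := hr₁ g hg
  have e2 := hr₂ a ha
  rw [e1, e2]

end semi

theorem res_exists (n k : ℕ) (hn : 2 ≤ n) (hk : 1 ≤ k) : ResExists n k := by
  classical
  let l : Fin n := ⟨0, by omega⟩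
  obtain ⟨Δ, h1, h2, h3⟩ := exists_delta (n := n) hk l
  obtain ⟨r₁, r₂, hsemi⟩ := exists_semi h1 h2 h3
  refine ⟨Δ, r₁, r₂, hsemi, ?_⟩
  intro K _ _ _ x
  constructor
  · intro hx
    by_contra hcon
    push Not at hcon
    obtain ⟨m, e, hme⟩ := exists_minor (by omega) x (by
      intro p hp
      by_contra hp0
      obtain ⟨i, hi⟩ := hcon p hp0
      exact hi (hp i))
    obtain ⟨Q, hQ⟩ := h3 _ (minorD_mem (k := k) l m e)
    apply hme
    rw [← aeval_minorD, hQ, map_mul, hx, zero_mul]
  · rintro ⟨p, hp0, hp⟩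
    by_cases hpl : p l = 0
    · obtain ⟨j, hj⟩ := Function.ne_iff.1 hp0
      have hjl : j ≠ l := fun h => hj (by rw [h]; exact hpl)
      let g : Matrix (Fin n) (Fin n) K := transvection l j (-1)
      let q : Fin n → K := transvection l j 1 *ᵥ p
      have hgq : g *ᵥ q = p := by
        simp only [g, q]
        rw [Matrix.mulVec_mulVec, transvection_mul_transvection_same _ _ (Ne.symm hjl)]
        simp
      have hql : q l ≠ 0 := by
        simp only [q, transvection, Matrix.add_mulVec, Matrix.one_mulVec, Pi.add_apply, hpl,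
          zero_add]
        rw [Matrix.single_mulVec]
        simpa using hj
      have h4 : aeval ((actT n k).app x g 1) Δ = 0 := by
        apply aeval_eq_zero_of_zero h2 hql
        apply eval_tup_app
        intro i
        rw [hgq]
        exact hp i
      rw [hsemi x g 1] at h4
      have h5 : g.det = 1 := det_transvection_of_ne _ _ (Ne.symm hjl) _
      rw [h5] at h4
      simpa using h4
    · exact aeval_eq_zero_of_zero h2 hpl hp

end Pool.Agent.Lib.MP_4fcc12_ag
end
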