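import Pool.Agent.Lib.MP_4fcc12_ag.Spec3
import Mathlib.RingTheory.Polynomial.Basic
import Mathlib.RingTheory.Finiteness.Basic
import Pool.Agent.Lib.MP_4fcc12_ag.PtOrd
import Mathlib.RingTheory.Valuation.LocalSubring
import Mathlib.Algebra.Polynomial.Lifts

section
/-!
Module HILB: Hilbert's theorem on the finite generation of the ring of semi-invariants of forms.
-/
open MvPolynomial Matrix

namespace Pool.Agent.Lib.MP_4fcc12_ag

namespace Hilb

variable {n : ℕ} {κ : Type} (A : Actn n κ) [A.IsAction]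

lemma rey_twist {R : Type} [CommRing R] [Algebra ℂ R] (w₁ w₂ u₁ u₂ : ℕ) (P : MvPolynomial κ ℂ)
    (x : κ → R) (g a : Matrix (Fin n) (Fin n) R) :
    g.det ^ u₁ * a.det ^ u₂ * aeval (A.app x g a) (A.rey w₁ w₂ u₁ u₂ P) =
      g.det ^ w₁ * a.det ^ w₂ * aeval x (A.rey w₁ w₂ u₁ u₂ P) := by
  rw [Actn.aeval_rey, Actn.aeval_rey]
  have h1 := Lam_trl g a w₁ w₂
    (dd R u₁ u₂ * aeval (A.app (fun k => C (x k)) (gX n R) (aX n R)) P)
  rw [map_mul, trl_dd, Actn.trl_aeval, mul_assoc, ← smul_eq_C_mul, map_smul, smul_eq_mul] at h1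
  exact h1

/-- the Reynolds operator vanishes when the twist is larger than the weight -/
lemma rey_eq_zero (hn : 1 ≤ n) (w₁ w₂ u₁ : ℕ) (h₁ : w₁ < u₁) (P : MvPolynomial κ ℂ) :
    A.rey w₁ w₂ u₁ w₂ P = 0 := by
  let R := Polynomial (MvPolynomial κ ℂ)
  let g : Matrix (Fin n) (Fin n) R := Matrix.scalar (Fin n) (Polynomial.X : R)
  let x : κ → R := fun k => Polynomial.C (X k)
  have hdet : g.det = (Polynomial.X : R) ^ n := by
    show (Matrix.scalar (Fin n) (Polynomial.X : R)).det = _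
    rw [Matrix.scalar_apply, Matrix.det_diagonal]
    simp
  have h1 := rey_twist A w₁ w₂ u₁ w₂ P x g 1
  rw [Matrix.det_one, one_pow, mul_one, mul_one, hdet, ← pow_mul, ← pow_mul] at h1
  have h2 : n * u₁ = n * w₁ + (n * (u₁ - w₁)) := by
    rw [← Nat.mul_add, Nat.add_sub_cancel' h₁.le]
  rw [h2, pow_add, mul_assoc] at h1
  have h3 := mul_left_cancel₀ (pow_ne_zero _ (Polynomial.X_ne_zero (R := MvPolynomial κ ℂ))) h1
  have h4 : aeval x (A.rey w₁ w₂ u₁ w₂ P) = Polynomial.C (A.rey w₁ w₂ u₁ w₂ P) := by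
    let φ : MvPolynomial κ ℂ →ₐ[ℂ] R :=
      (Algebra.ofId (MvPolynomial κ ℂ) R).restrictScalars ℂ
    have h5 : φ = aeval x := by
      apply MvPolynomial.algHom_ext
      intro k
      rw [aeval_X]
      rfl
    rw [← h5]
    rfl
  rw [h4] at h3
  have h5 := congrArg (Polynomial.eval 0) h3
  rw [Polynomial.eval_mul, Polynomial.eval_pow, Polynomial.eval_X, Polynomial.eval_C,
    zero_pow (Nat.mul_ne_zero (by omega) (by omega)), zero_mul] at h5
  exact h5.symm

/-- invariants are constant -/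
lemma eq_C_of_semi_zero {d : ℕ} (hd : 1 ≤ d) {P : MvPolynomial (Mon n d) ℂ}
    (hP : (actS n d).Semi 0 0 P) : P = C (eval 0 P) := by
  have h1 := hP (fun k => (X k : MvPolynomial (Mon n d) ℂ)) 0 1
  rw [pow_zero, pow_zero, one_mul, one_mul] at h1
  have h2 : aeval (fun k => (X k : MvPolynomial (Mon n d) ℂ)) P = P := aeval_X_left_apply P
  have h3 : (actS n d).app (fun k => (X k : MvPolynomial (Mon n d) ℂ)) 0 1 = 0 := by
    rw [actS_app]
    have h4 : subst (0 : Matrix (Fin n) (Fin n) (MvPolynomial (Mon n d) ℂ))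
        (frm (fun k => (X k : MvPolynomial (Mon n d) ℂ))) = 0 := by
      rw [frm, map_sum]
      apply Finset.sum_eq_zero
      intro α _
      have h5 : subst (0 : Matrix (Fin n) (Fin n) (MvPolynomial (Mon n d) ℂ)) =
          aeval (fun _ => 0) := by
        apply MvPolynomial.algHom_ext
        intro i
        simp
      rw [h5, aeval_monomial]
      have h6 : α.1 ≠ 0 := by
        intro h
        have h7 := α.2
        rw [h] at h7
        simp at h7
        omega
      obtain ⟨i, hi⟩ := Finsupp.ne_iff.1 h6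
      rw [Finsupp.coe_zero, Pi.zero_apply] at hi
      rw [Finsupp.prod, Finset.prod_eq_zero (Finsupp.mem_support_iff.2 hi) (zero_pow hi), mul_zero]
    rw [h4]
    funext α
    simp [cf]
  rw [h2, h3] at h1
  have h6 : aeval (0 : Mon n d → MvPolynomial (Mon n d) ℂ) P = C (eval 0 P) := by
    have h7 : (aeval (0 : Mon n d → MvPolynomial (Mon n d) ℂ) :
        MvPolynomial (Mon n d) ℂ →ₐ[ℂ] MvPolynomial (Mon n d) ℂ) =
        (Algebra.ofId ℂ (MvPolynomial (Mon n d) ℂ)).comp (aeval (0 : Mon n d → ℂ)) := by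
      apply MvPolynomial.algHom_ext
      intro i
      simp
    rw [h7]
    rfl
  rw [h6] at h1
  exact h1.symm

end Hilb

/-- MODULE HILB. -/
theorem statementHILB : StatementHILB := by
  classical
  intro n d hn hd
  let S : Set (MvPolynomial (Mon n d) ℂ) := {Q | ∃ w : ℕ, 0 < w ∧ (actS n d).Semi w 0 Q}
  have hfg : (Ideal.span S).FG := (isNoetherianRing_iff_ideal_fg _).1 inferInstance _
  obtain ⟨s, hsS, hs⟩ := (Submodule.fg_span_iff_fg_span_finset_subset S).1 hfg
  have hex : ∀ Q : s, ∃ w : ℕ, 0 < w ∧ (actS n d).Semi w 0 (Q : MvPolynomial (Mon n d) ℂ) :=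
    fun Q => hsS Q.2
  choose w hw0 hw using hex
  let e := s.equivFin
  refine ⟨s.card, fun j => (e.symm j : MvPolynomial (Mon n d) ℂ), fun j => w (e.symm j),
    fun j => hw _, ?_⟩
  set I : Fin s.card → MvPolynomial (Mon n d) ℂ := fun j =>
    (e.symm j : MvPolynomial (Mon n d) ℂ) with hI
  set W : Fin s.card → ℕ := fun j => w (e.symm j) with hW
  have hI0 : ∀ j, (actS n d).Semi (W j) 0 (I j) := fun j => hw _
  have hW0 : ∀ j, 0 < W j := fun j => hw0 _
  have hspan : Ideal.span S = Ideal.span (Set.range I) := by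
    have h1 : Set.range I = (s : Set (MvPolynomial (Mon n d) ℂ)) := by
      ext Q
      constructor
      · rintro ⟨j, rfl⟩
        exact (e.symm j).2
      · intro hQ
        exact ⟨e ⟨Q, hQ⟩, by simp [hI]⟩
    rw [h1]
    exact hs
  intro v
  induction v using Nat.strong_induction_on with
  | _ v ih =>
    intro P hP
    rcases Nat.eq_zero_or_pos v with hv | hv
    · subst hv
      have h1 : P = (eval 0 P) • (1 : MvPolynomial (Mon n d) ℂ) := by
        rw [smul_eq_C_mul, mul_one]
        exact Hilb.eq_C_of_semi_zero hd hP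
      rw [h1]
      apply Submodule.smul_mem
      apply Submodule.subset_span
      exact ⟨0, by simp, by simp⟩
    · have h1 : P ∈ Ideal.span (Set.range I) := by
        rw [← hspan]
        exact Ideal.subset_span ⟨v, hv, hP⟩
      rw [Ideal.span, Submodule.mem_span_range_iff_exists_fun] at h1
      obtain ⟨c, hc⟩ := h1
      have h2 : P = ∑ j, I j * (actS n d).rey v 0 (0 + W j) (0 + 0) (c j) := by
        have h3 : (actS n d).rey v 0 0 0 P = P :=
          (actS n d).rey_of_semi 0 0 hP (by omega) (by omega)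
        rw [← h3, ← hc, Actn.rey_sum]
        apply Finset.sum_congr rfl
        intro j _
        rw [smul_eq_mul, mul_comm (c j), (actS n d).rey_mul 0 0 (hI0 j)]
      rw [h2]
      apply Submodule.sum_mem
      intro j _
      rw [zero_add, zero_add]
      by_cases hjv : W j ≤ v
      · have h4 : (actS n d).Semi (v - W j) 0 ((actS n d).rey v 0 (W j) 0 (c j)) :=
          (actS n d).semi_rey v 0 (W j) 0 (c j) hjv le_rfl
        have h5 := ih (v - W j) (by have := hW0 j; omega) _ h4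
        -- multiply by `I j`
        have h6 : ∀ Q ∈ Submodule.span ℂ {M | ∃ e : Fin s.card → ℕ,
            ∑ j, e j * W j = v - W j ∧ M = ∏ j, I j ^ e j},
            I j * Q ∈ Submodule.span ℂ {M | ∃ e : Fin s.card → ℕ,
              ∑ j, e j * W j = v ∧ M = ∏ j, I j ^ e j} := by
          intro Q hQ
          induction hQ using Submodule.span_induction with
          | mem Q hQ =>
            obtain ⟨f, hf, rfl⟩ := hQ
            apply Submodule.subset_span
            refine ⟨f + Pi.single j 1, ?_, ?_⟩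
            · simp only [Pi.add_apply, add_mul, Finset.sum_add_distrib, hf]
              rw [Finset.sum_eq_single j]
              · simp only [Pi.single_eq_same, one_mul]
                omega
              · intro b _ hb
                rw [Pi.single_eq_of_ne hb, zero_mul]
              · simp
            · simp only [Pi.add_apply, pow_add, Finset.prod_mul_distrib]
              rw [mul_comm]
              congr 1
              rw [Finset.prod_eq_single j]
              · simp
              · intro b _ hb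
                rw [Pi.single_eq_of_ne hb, pow_zero]
              · simp
          | zero => simp
          | add Q Q' _ _ hQ hQ' => rw [mul_add]; exact Submodule.add_mem _ hQ hQ'
          | smul c Q _ hQ => rw [mul_smul_comm]; exact Submodule.smul_mem _ _ hQ
        exact h6 _ h5
      · have h7 : (actS n d).rey v 0 (W j) 0 (c j) = 0 :=
          Hilb.rey_eq_zero (actS n d) hn v 0 (W j) (by omega) (c j)
        rw [h7, mul_zero]
        exact Submodule.zero_mem _

end Pool.Agent.Lib.MP_4fcc12_ag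
end

section
open MvPolynomial Matrix

set_option linter.unusedSectionVars false

namespace Pool.Agent.Lib.MP_4fcc12_ag

lemma semi_prod {n d N : ℕ} (I : Fin N → MvPolynomial (Mon n d) ℂ) (wt e : Fin N → ℕ)
    (hI : ∀ j, (actS n d).Semi (wt j) 0 (I j)) :
    (actS n d).Semi (∑ j, e j * wt j) 0 (∏ j, I j ^ e j) := by
  intro R _ _ x g a
  rw [map_prod, map_prod, pow_zero, mul_one, ← Finset.prod_pow_eq_pow_sum,
    ← Finset.prod_mul_distrib]
  apply Finset.prod_congr rfl
  intro j _
  rw [map_pow, map_pow, hI j, pow_zero, mul_one, mul_pow, ← pow_mul, mul_comm (wt j)]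

theorem statementFG : StatementFG := by
  intro n d hn hd Δ w hw hΔ0 hΔ
  obtain ⟨N, I, wt, hI, hspan⟩ := statementHILB n d hn hd
  rw [← Subalgebra.fg_iff_finiteType, Subalgebra.fg_def]
  choose b hb using fun j => exists_divB Δ (I j ^ w) (wt j)
  choose c hc using fun e : Fin N → Fin w =>
    exists_divB Δ (∏ j, I j ^ (e j : ℕ)) ((∑ j, (e j : ℕ) * wt j) / w)
  refine ⟨Set.range b ∪ {y | ∃ e : Fin N → Fin w, w ∣ ∑ j, (e j : ℕ) * wt j ∧ y = c e}, ?_, ?_⟩
  · apply (Set.finite_range b).union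
    apply (Set.finite_range c).subset
    rintro y ⟨e, -, rfl⟩
    exact ⟨e, rfl⟩
  apply le_antisymm
  · rw [Algebra.adjoin_le_iff]
    rintro y (⟨j, rfl⟩ | ⟨e, he, rfl⟩)
    · refine ⟨wt j, I j ^ w, ?_, hb j⟩
      have h1 : (actS n d).Semi (w * wt j) (w * 0) (I j ^ w) := Actn.Semi.pow (hI j) w
      rw [mul_comm w (wt j), mul_zero] at h1
      rwa [mul_zero]
    · refine ⟨(∑ j, (e j : ℕ) * wt j) / w, ∏ j, I j ^ (e j : ℕ), ?_, hc e⟩
      have h1 : (actS n d).Semi (∑ j, (e j : ℕ) * wt j) 0 (∏ j, I j ^ (e j : ℕ)) :=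
        semi_prod I wt (fun j => (e j : ℕ)) hI
      rwa [Nat.div_mul_cancel he, mul_zero]
  · rintro φ ⟨m, P, hP, hφ⟩
    have hP' := hspan (m * w) P hP
    revert hφ
    revert φ
    refine Submodule.span_induction (p := fun P _ => ∀ φ : Localization.Away Δ,
      φ * algebraMap (MvPolynomial (Mon n d) ℂ) (Localization.Away Δ) (Δ ^ m) =
        algebraMap (MvPolynomial (Mon n d) ℂ) (Localization.Away Δ) P →
      φ ∈ Algebra.adjoin ℂ (Set.range b ∪
        {y | ∃ e : Fin N → Fin w, w ∣ ∑ j, (e j : ℕ) * wt j ∧ y = c e})) ?_ ?_ ?_ ?_ hP'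
    · rintro M ⟨e, he, rfl⟩ φ hφ
      -- division with remainder
      obtain ⟨e', he'⟩ : ∃ e' : Fin N → Fin w, ∀ j, (e' j : ℕ) = e j % w :=
        ⟨fun j => ⟨e j % w, Nat.mod_lt _ hw⟩, fun j => rfl⟩
      have hsum : ∑ j, (e' j : ℕ) * wt j + w * ∑ j, (e j / w) * wt j = m * w := by
        rw [← he, Finset.mul_sum, ← Finset.sum_add_distrib]
        apply Finset.sum_congr rfl
        intro j _
        rw [he']
        conv_rhs => rw [← Nat.mod_add_div (e j) w]
        ring
      have hdvd : w ∣ ∑ j, (e' j : ℕ) * wt j := by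
        have h1 : w ∣ ∑ j, (e' j : ℕ) * wt j + w * ∑ j, (e j / w) * wt j := by
          rw [hsum]
          exact dvd_mul_left _ _
        exact (Nat.dvd_add_left (dvd_mul_right _ _)).1 h1
      obtain ⟨m', hm'⟩ := hdvd
      have hmm : m' + ∑ j, (e j / w) * wt j = m := by
        rw [hm', ← mul_add, mul_comm m w] at hsum
        exact Nat.eq_of_mul_eq_mul_left hw hsum
      have hce := hc e'
      rw [hm', Nat.mul_div_cancel_left _ hw] at hce
      have hφeq : φ = c e' * ∏ j, b j ^ (e j / w) := by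
        apply (isUnit_powB Δ m).mul_right_cancel
        rw [hφ, ← hmm, pow_add, map_mul]
        have h1 : (∏ j, b j ^ (e j / w)) * algebraMap (MvPolynomial (Mon n d) ℂ)
            (Localization.Away Δ) (Δ ^ (∑ j, (e j / w) * wt j)) =
            algebraMap (MvPolynomial (Mon n d) ℂ)
            (Localization.Away Δ) (∏ j, (I j ^ w) ^ (e j / w)) := by
          rw [← Finset.prod_pow_eq_pow_sum, map_prod, map_prod, ← Finset.prod_mul_distrib]
          apply Finset.prod_congr rfl
          intro j _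
          rw [map_pow _ (I j ^ w), ← hb j, mul_pow, ← map_pow, ← pow_mul, mul_comm (wt j)]
        rw [mul_mul_mul_comm, hce, h1, ← map_mul]
        congr 1
        rw [← Finset.prod_mul_distrib]
        apply Finset.prod_congr rfl
        intro j _
        rw [he', ← pow_mul, ← pow_add, Nat.mod_add_div]
      rw [hφeq]
      apply mul_mem
      · exact Algebra.subset_adjoin (Or.inr ⟨e', ⟨m', hm'⟩, rfl⟩)
      · apply prod_mem
        intro j _
        apply pow_mem
        exact Algebra.subset_adjoin (Or.inl ⟨j, rfl⟩)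
    · intro φ hφ
      rw [map_zero] at hφ
      rw [(isUnit_powB Δ m).mul_left_eq_zero.1 hφ]
      exact zero_mem _
    · intro P Q _ _ hP hQ φ hφ
      obtain ⟨φ₁, h1⟩ := exists_divB Δ P m
      obtain ⟨φ₂, h2⟩ := exists_divB Δ Q m
      have h3 : φ = φ₁ + φ₂ := by
        apply (isUnit_powB Δ m).mul_right_cancel
        rw [hφ, add_mul, h1, h2, map_add]
      rw [h3]
      exact add_mem (hP φ₁ h1) (hQ φ₂ h2)
    · intro t P _ hP φ hφ
      obtain ⟨φ₁, h1⟩ := exists_divB Δ P m
      have h3 : φ = t • φ₁ := by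
        apply (isUnit_powB Δ m).mul_right_cancel
        rw [hφ, smul_mul_assoc, h1]
        exact map_smul (IsScalarTower.toAlgHom ℂ (MvPolynomial (Mon n d) ℂ)
          (Localization.Away Δ)) t P
      rw [h3]
      exact Subalgebra.smul_mem _ (hP φ₁ h1) t

end Pool.Agent.Lib.MP_4fcc12_ag
end

section
open MvPolynomial Matrix

set_option linter.unusedSectionVars false

namespace Pool.Agent.Lib.MP_4fcc12_ag

variable {n d : ℕ} {Δ : MvPolynomial (Fin n × Mon n (d - 1)) ℂ} {r₁ r₂ : ℕ}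

/-- points in the same orbit lie over the same maximal ideal of the ring of invariants -/
lemma comap_eq_of_orbit (h : RD n d Δ r₁ r₂) {𝔐 𝔐' : Ideal (Localization.Away (gradPull n d Δ))}
    {x x' : Mon n d → ℂ} (hp : PtOf 𝔐 x) (hp' : PtOf 𝔐' x') {g : Matrix (Fin n) (Fin n) ℂ}
    (hg : g.det ≠ 0) (hx : (actS n d).app x g 1 = x') :
    𝔐.comap (algebraMap (RR h) (Localization.Away (gradPull n d Δ))) =
      𝔐'.comap (algebraMap (RR h) (Localization.Away (gradPull n d Δ))) := by
  ext φ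
  obtain ⟨m, P, hP, hφ⟩ := φ.2
  rw [Ideal.mem_comap, Ideal.mem_comap]
  change (φ : Localization.Away (gradPull n d Δ)) ∈ 𝔐 ↔
    (φ : Localization.Away (gradPull n d Δ)) ∈ 𝔐'
  rw [hp.mem_iff hφ, hp'.mem_iff hφ, ← hx, eval_app_semi hP, mul_eq_zero,
    or_iff_right (pow_ne_zero _ hg)]

/-- the element of `SS h` given by a semi-invariant -/
lemma exists_SS (h : RD n d Δ r₁ r₂) {m : ℕ} {Q : MvPolynomial (Fin n × Mon n (d - 1)) ℂ}
    (hQ : (actT n (d - 1)).Semi (m * r₁) (m * r₂) Q) :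
    ∃ s ∈ SS h, (s : Localization.Away (gradPull n d Δ)) * algebraMap (MvPolynomial (Mon n d) ℂ)
      (Localization.Away (gradPull n d Δ)) (gradPull n d Δ ^ m) =
      algebraMap (MvPolynomial (Mon n d) ℂ) (Localization.Away (gradPull n d Δ))
        (gradPull n d Q) := by
  obtain ⟨s, hs⟩ := exists_divB (gradPull n d Δ) (gradPull n d Q) m
  have h1 : s ∈ RR h := by
    refine ⟨m, gradPull n d Q, ?_, hs⟩
    have h2 : (actS n d).Semi (m * r₁ + m * r₂) 0 (gradPull n d Q) := semi_gradPull hQ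
    rwa [← mul_add] at h2
  exact ⟨⟨s, h1⟩, ⟨m, Q, hQ, hs⟩, hs⟩

/-- points over the same maximal ideal of `SS h` are in the same orbit -/
lemma same_orbit (hALG : StatementALG) (hORB : StatementORB) (h : RD n d Δ r₁ r₂)
    {𝔐 𝔐' : Ideal (Localization.Away (gradPull n d Δ))}
    {x x' : Mon n d → ℂ} (hp : PtOf 𝔐 x) (hp' : PtOf 𝔐' x')
    (hx : eval x (gradPull n d Δ) ≠ 0) (hx' : eval x' (gradPull n d Δ) ≠ 0)
    (hS : ∀ s ∈ SS h, (s : Localization.Away (gradPull n d Δ)) ∈ 𝔐 →
      (s : Localization.Away (gradPull n d Δ)) ∈ 𝔐') :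
    ∃ g : Matrix (Fin n) (Fin n) ℂ, g.det ≠ 0 ∧ (actS n d).app x g 1 = x' := by
  apply sep hALG hORB h x x' hx hx'
  intro m Q hQ
  obtain ⟨c, hc⟩ : ∃ c, c = eval x (gradPull n d Q) / (eval x (gradPull n d Δ)) ^ m := ⟨_, rfl⟩
  have hQ' : (actT n (d - 1)).Semi (m * r₁) (m * r₂) (Q - C c * Δ ^ m) := by
    have h0 : (actT n (d - 1)).Semi (m * r₁) (m * r₂) (Δ ^ m) := Actn.Semi.pow h.semi m
    have h1 : (actT n (d - 1)).Semi (m * r₁) (m * r₂) (C c * Δ ^ m) := by
      have h2 : (actT n (d - 1)).Semi (0 + m * r₁) (0 + m * r₂) (C c * Δ ^ m) :=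
        Actn.Semi.mul (Actn.Semi.C c) h0
      rwa [zero_add, zero_add] at h2
    exact @Actn.Semi.sub n _ (actT n (d - 1)) (m * r₁) (m * r₂) Q (C c * Δ ^ m) hQ h1
  obtain ⟨s, hs, hsQ⟩ := exists_SS h hQ'
  have hgp : gradPull n d (Q - C c * Δ ^ m) =
      gradPull n d Q - C c * gradPull n d Δ ^ m := by
    have h1 : gradPull n d (MvPolynomial.C c) = MvPolynomial.C c := by
      rw [gradPull, aeval_C]
      rfl
    rw [map_sub, map_mul, map_pow, h1]
  have h1 : (s : Localization.Away (gradPull n d Δ)) ∈ 𝔐 := by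
    rw [hp.mem_iff hsQ, hgp, map_sub, map_mul, eval_C, map_pow, hc,
      div_mul_cancel₀ _ (pow_ne_zero _ hx), sub_self]
  have h2 := hS s hs h1
  rw [hp'.mem_iff hsQ, hgp, map_sub, map_mul, eval_C, map_pow, sub_eq_zero] at h2
  rw [← hc, h2, mul_div_cancel_right₀ _ (pow_ne_zero _ hx')]

/-- translation by `g` on semi-invariants -/
lemma trn_semi {w : ℕ} {P : MvPolynomial (Mon n d) ℂ} (hP : (actS n d).Semi w 0 P)
    (g : Matrix (Fin n) (Fin n) ℂ) : trn (actS n d) g 1 P = C (g.det ^ w) * P := by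
  apply MvPolynomial.funext
  intro x
  rw [eval_trn, eval_app_semi hP, map_mul, eval_C]

lemma trn_trn (g g' : Matrix (Fin n) (Fin n) ℂ) (P : MvPolynomial (Mon n d) ℂ) :
    trn (actS n d) g 1 (trn (actS n d) g' 1 P) = trn (actS n d) (g * g') 1 P := by
  apply MvPolynomial.funext
  intro x
  rw [eval_trn, eval_trn, eval_trn, Actn.app_app, one_mul]

lemma trn_one (P : MvPolynomial (Mon n d) ℂ) : trn (actS n d) 1 1 P = P := by
  apply MvPolynomial.funext
  intro x
  rw [eval_trn, Actn.app_one]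

/-- the extension of the translation to the localization -/
lemma exists_trnB (h : RD n d Δ r₁ r₂) {g : Matrix (Fin n) (Fin n) ℂ} (hg : g.det ≠ 0) :
    ∃ θ : Localization.Away (gradPull n d Δ) →+* Localization.Away (gradPull n d Δ),
      ∀ P, θ (algebraMap (MvPolynomial (Mon n d) ℂ) _ P) =
        algebraMap (MvPolynomial (Mon n d) ℂ) _ (trn (actS n d) g 1 P) := by
  have hu : IsUnit (((algebraMap (MvPolynomial (Mon n d) ℂ)
      (Localization.Away (gradPull n d Δ))).comp (trn (actS n d) g 1).toRingHom)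
      (gradPull n d Δ)) := by
    have h1 : ((algebraMap (MvPolynomial (Mon n d) ℂ)
      (Localization.Away (gradPull n d Δ))).comp (trn (actS n d) g 1).toRingHom)
      (gradPull n d Δ) = algebraMap (MvPolynomial (Mon n d) ℂ)
      (Localization.Away (gradPull n d Δ)) (C (g.det ^ (r₁ + r₂)) * gradPull n d Δ) := by
      rw [← trn_semi h.semiD]
      rfl
    rw [h1, map_mul]
    refine IsUnit.mul ?_ (IsLocalization.Away.algebraMap_isUnit _)
    apply IsUnit.map
    apply IsUnit.map
    exact isUnit_iff_ne_zero.2 (pow_ne_zero _ hg)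
  refine ⟨IsLocalization.Away.lift (gradPull n d Δ) hu, ?_⟩
  intro P
  rw [IsLocalization.Away.lift_eq]
  rfl

lemma exists_theta (h : RD n d Δ r₁ r₂)
    {𝔐 𝔐' : Ideal (Localization.Away (gradPull n d Δ))}
    {x x' : Mon n d → ℂ} (hp : PtOf 𝔐 x) (hp' : PtOf 𝔐' x') {g : Matrix (Fin n) (Fin n) ℂ}
    (hg : g.det ≠ 0) (hx : (actS n d).app x' g 1 = x) :
    ∃ θ : Localization.Away (gradPull n d Δ) ≃+* Localization.Away (gradPull n d Δ),
      (∀ r : RR h, θ (r : Localization.Away (gradPull n d Δ)) = r) ∧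
      𝔐'.comap (θ : Localization.Away (gradPull n d Δ) →+* Localization.Away (gradPull n d Δ)) =
        𝔐 := by
  have hgu := isUnit_iff_ne_zero.2 hg
  obtain ⟨θ₁, h1⟩ := exists_trnB h hg
  obtain ⟨θ₂, h2⟩ := exists_trnB h (g := g⁻¹) (Matrix.isUnit_nonsing_inv_det _ hgu).ne_zero
  have h12 : θ₁.comp θ₂ = RingHom.id _ := by
    apply IsLocalization.ringHom_ext (Submonoid.powers (gradPull n d Δ))
    refine RingHom.ext fun P => ?_
    rw [RingHom.comp_apply, RingHom.comp_apply, h2, h1, trn_trn, Matrix.mul_nonsing_inv _ hgu,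
      trn_one]
    rfl
  have h21 : θ₂.comp θ₁ = RingHom.id _ := by
    apply IsLocalization.ringHom_ext (Submonoid.powers (gradPull n d Δ))
    refine RingHom.ext fun P => ?_
    rw [RingHom.comp_apply, RingHom.comp_apply, h1, h2, trn_trn, Matrix.nonsing_inv_mul _ hgu,
      trn_one]
    rfl
  refine ⟨RingEquiv.ofRingHom θ₁ θ₂ h12 h21, ?_, ?_⟩
  · intro r
    obtain ⟨m, P, hP, hr⟩ := r.2
    change θ₁ (r : Localization.Away (gradPull n d Δ)) = r
    have h3 := congrArg θ₁ hr
    have h0 : (actS n d).Semi (m * (r₁ + r₂)) 0 (gradPull n d Δ ^ m) :=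
      Actn.Semi.pow h.semiD m
    rw [map_mul, h1, h1, trn_semi hP, trn_semi h0, map_mul, map_mul _ _ P, ← hr] at h3
    have h4 : IsUnit (algebraMap (MvPolynomial (Mon n d) ℂ)
        (Localization.Away (gradPull n d Δ)) (C (g.det ^ (m * (r₁ + r₂)))) *
        algebraMap (MvPolynomial (Mon n d) ℂ)
        (Localization.Away (gradPull n d Δ)) (gradPull n d Δ ^ m)) := by
      refine IsUnit.mul ?_ (isUnit_powB _ _)
      apply IsUnit.map
      apply IsUnit.map
      exact isUnit_iff_ne_zero.2 (pow_ne_zero _ hg)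
    apply h4.mul_right_cancel
    rw [h3]
    ring
  · ext φ
    rw [Ideal.mem_comap]
    change θ₁ φ ∈ 𝔐' ↔ φ ∈ 𝔐
    obtain ⟨⟨P, ⟨_, m, rfl⟩⟩, hφ⟩ := IsLocalization.surj (Submonoid.powers (gradPull n d Δ)) φ
    have hφ' : φ * algebraMap (MvPolynomial (Mon n d) ℂ)
        (Localization.Away (gradPull n d Δ)) (gradPull n d Δ ^ m) =
        algebraMap (MvPolynomial (Mon n d) ℂ) (Localization.Away (gradPull n d Δ)) P := hφ
    have h3 := congrArg θ₁ hφ'
    have h0 : (actS n d).Semi (m * (r₁ + r₂)) 0 (gradPull n d Δ ^ m) :=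
      Actn.Semi.pow h.semiD m
    rw [map_mul, h1, h1, trn_semi h0] at h3
    have h4 : IsUnit (algebraMap (MvPolynomial (Mon n d) ℂ)
        (Localization.Away (gradPull n d Δ)) (C (g.det ^ (m * (r₁ + r₂))) *
        gradPull n d Δ ^ m)) := by
      rw [map_mul]
      refine IsUnit.mul ?_ (isUnit_powB _ _)
      apply IsUnit.map
      apply IsUnit.map
      exact isUnit_iff_ne_zero.2 (pow_ne_zero _ hg)
    rw [hp.mem_iff hφ', ← Ideal.mul_unit_mem_iff_mem 𝔐' h4, h3, hp', eval_trn, hx]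

end Pool.Agent.Lib.MP_4fcc12_ag
end

section
open MvPolynomial Matrix

set_option linter.unusedSectionVars false

namespace Pool.Agent.Lib.MP_4fcc12_ag

variable {n d : ℕ} {Δ : MvPolynomial (Fin n × Mon n (d - 1)) ℂ} {r₁ r₂ : ℕ}

/-- reflecting integrality along an injective homomorphism to a field, tested with valuation
rings -/
lemma integral_of_valuations {S R K : Type} [CommRing S] [CommRing R] [Field K] [Algebra S R]
    (j : R →+* K) (hj : Function.Injective j) (φ : R)
    (h : ∀ O : ValuationSubring K, (∀ s : S, j (algebraMap S R s) ∈ O) → j φ ∈ O) :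
    IsIntegral S φ := by
  have h1 : j φ ∈ (⨅ V : {V : ValuationSubring K //
      Set.range (j.comp (algebraMap S R)) ⊆ V.toSubring}, V.1.toSubring) := by
    rw [Subring.mem_iInf]
    rintro ⟨V, hV⟩
    exact h V fun s => hV ⟨s, rfl⟩
  rw [iInf_valuationSubring_superset] at h1
  have h2 : IsIntegral (Subring.closure (Set.range (j.comp (algebraMap S R)))) (j φ) := h1
  have h3 : Subring.closure (Set.range (j.comp (algebraMap S R))) =
      (j.comp (algebraMap S R)).range := by
    rw [← RingHom.coe_range, Subring.closure_eq]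
  rw [h3] at h2
  obtain ⟨p, hp, hp0⟩ := h2
  have hlift : p ∈ Polynomial.lifts (j.comp (algebraMap S R)).rangeRestrict := by
    rw [Polynomial.mem_lifts]
    exact Polynomial.map_surjective _ (RingHom.rangeRestrict_surjective _) p
  obtain ⟨q, hq1, -, hq2⟩ := Polynomial.lifts_and_natDegree_eq_and_monic hlift hp
  refine ⟨q, hq2, ?_⟩
  apply hj
  rw [map_zero, Polynomial.hom_eval₂, ← hp0, ← hq1, Polynomial.eval₂_map]
  rfl

/-- integrality of invariants over the pull backs -/
theorem isIntegral_RS (hINT : StatementINT) (h : RD n d Δ r₁ r₂) (hD : gradPull n d Δ ≠ 0) :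
    Algebra.IsIntegral (SS h) (RR h) := by
  constructor
  intro φ
  let K := FractionRing (MvPolynomial (Mon n d) ℂ)
  have hinj : Function.Injective (algebraMap (MvPolynomial (Mon n d) ℂ) K) :=
    IsFractionRing.injective _ _
  have hDK : algebraMap (MvPolynomial (Mon n d) ℂ) K (gradPull n d Δ) ≠ 0 := by
    rw [Ne, map_eq_zero_iff _ hinj]
    exact hD
  have hu : IsUnit (algebraMap (MvPolynomial (Mon n d) ℂ) K (gradPull n d Δ)) :=
    isUnit_iff_ne_zero.2 hDK
  let j₀ : Localization.Away (gradPull n d Δ) →+* K := IsLocalization.Away.lift _ hu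
  have hj₀ : ∀ P, j₀ (algebraMap (MvPolynomial (Mon n d) ℂ)
      (Localization.Away (gradPull n d Δ)) P) = algebraMap (MvPolynomial (Mon n d) ℂ) K P :=
    fun P => IsLocalization.Away.lift_eq _ hu P
  -- values
  have hval : ∀ (b : Localization.Away (gradPull n d Δ)) (m : ℕ) (P : MvPolynomial (Mon n d) ℂ),
      b * algebraMap (MvPolynomial (Mon n d) ℂ) (Localization.Away (gradPull n d Δ))
        (gradPull n d Δ ^ m) =
      algebraMap (MvPolynomial (Mon n d) ℂ) (Localization.Away (gradPull n d Δ)) P →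
      j₀ b = algebraMap (MvPolynomial (Mon n d) ℂ) K P /
        (algebraMap (MvPolynomial (Mon n d) ℂ) K (gradPull n d Δ)) ^ m := by
    intro b m P hb
    have h1 := congrArg j₀ hb
    rw [map_mul, hj₀, hj₀, map_pow] at h1
    rw [eq_div_iff (pow_ne_zero _ hDK), h1]
  have hj₀inj : Function.Injective j₀ := by
    rw [injective_iff_map_eq_zero]
    intro b hb
    obtain ⟨⟨P, ⟨_, m, rfl⟩⟩, hφ⟩ := IsLocalization.surj (Submonoid.powers (gradPull n d Δ)) b
    have hφ' : b * algebraMap (MvPolynomial (Mon n d) ℂ)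
        (Localization.Away (gradPull n d Δ)) (gradPull n d Δ ^ m) =
        algebraMap (MvPolynomial (Mon n d) ℂ) (Localization.Away (gradPull n d Δ)) P := hφ
    have h1 := congrArg j₀ hφ'
    rw [map_mul, hb, zero_mul, hj₀] at h1
    have h2 : P = 0 := (map_eq_zero_iff _ hinj).1 h1.symm
    rw [h2, map_zero] at hφ'
    exact (isUnit_powB (gradPull n d Δ) m).mul_left_eq_zero.1 hφ'
  let j : RR h →+* K := j₀.comp (algebraMap (RR h) (Localization.Away (gradPull n d Δ)))
  have hj : Function.Injective j := hj₀inj.comp Subtype.val_injective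
  apply integral_of_valuations j hj
  intro O hO
  -- the generic point
  let x : Mon n d → K := fun i => algebraMap (MvPolynomial (Mon n d) ℂ) K (X i)
  have hx : ∀ P : MvPolynomial (Mon n d) ℂ, aeval x P =
      algebraMap (MvPolynomial (Mon n d) ℂ) K P := by
    intro P
    have h1 : (aeval x : MvPolynomial (Mon n d) ℂ →ₐ[ℂ] K) =
        IsScalarTower.toAlgHom ℂ (MvPolynomial (Mon n d) ℂ) K := by
      apply MvPolynomial.algHom_ext
      intro i
      rw [aeval_X]
      rfl
    rw [h1]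
    rfl
  obtain ⟨m, P, hP, hφ⟩ := φ.2
  have hfin := hINT n d Δ r₁ r₂ h K O ?_ x ?_ ?_ m P hP
  · rw [hx, hx] at hfin
    change j₀ (φ : Localization.Away (gradPull n d Δ)) ∈ O
    rw [hval _ m P hφ]
    exact hfin
  · intro c
    have h1 := hO (algebraMap ℂ (SS h) c)
    have h2 : j (algebraMap (SS h) (RR h) (algebraMap ℂ (SS h) c)) = algebraMap ℂ K c := by
      change j₀ (algebraMap ℂ (Localization.Away (gradPull n d Δ)) c) = algebraMap ℂ K c
      rw [IsScalarTower.algebraMap_apply ℂ (MvPolynomial (Mon n d) ℂ)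
        (Localization.Away (gradPull n d Δ)), hj₀]
      rfl
    rwa [h2] at h1
  · rw [hx]
    exact hDK
  · intro m Q hQ
    rw [hx, hx]
    obtain ⟨s, hs, hsQ⟩ := exists_SS h hQ
    have h1 := hO ⟨s, hs⟩
    have h2 : j (algebraMap (SS h) (RR h) ⟨s, hs⟩) =
        j₀ (s : Localization.Away (gradPull n d Δ)) := rfl
    rw [h2, hval _ m _ hsQ] at h1
    exact h1

end Pool.Agent.Lib.MP_4fcc12_ag
end

section
open MvPolynomial Matrix

set_option linter.unusedSectionVars false

namespace Pool.Agent.Lib.MP_4fcc12_ag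

variable {n d : ℕ} {Δ : MvPolynomial (Fin n × Mon n (d - 1)) ℂ} {r₁ r₂ : ℕ}

/-- the lifting step in the ring of invariants -/
lemma ek_ring (hEK5 : StatementEK5) (hTAN : StatementTAN) (hHALL : StatementHALL)
    (hGF : StatementGF) (hORB : StatementORB) (h : RD n d Δ r₁ r₂)
    {f₀ : MvPolynomial (Fin n) ℂ} (hf₀ : f₀.IsHomogeneous d) (nd₀ : NonDeg f₀)
    {b : Fin n → Fin n} (hb : BlockForm f₀ b)
    {𝔐 : Ideal (Localization.Away (gradPull n d Δ))}
    (hord : ∀ (k : ℕ) (P : MvPolynomial (Mon n d) ℂ),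
      algebraMap (MvPolynomial (Mon n d) ℂ) (Localization.Away (gradPull n d Δ)) P ∈ 𝔐 ^ k ↔
        OrdGE (cf d f₀) k P)
    (j : ℕ) (φ : RR h) (hφ : (φ : Localization.Away (gradPull n d Δ)) ∈ 𝔐 ^ j) :
    ∃ s ∈ SS h, (φ : Localization.Away (gradPull n d Δ)) - (s : RR h) ∈ 𝔐 ^ (j + 1) := by
  obtain ⟨m₀, P, hP, hφP⟩ := φ.2
  have h1 : OrdGE (cf d f₀) j P := by
    rw [← hord, ← hφP, Ideal.mul_unit_mem_iff_mem _ (isUnit_powB _ _)]
    exact hφ
  obtain ⟨m, Q, hQ, hPQ⟩ := ek_step hEK5 hTAN hHALL hGF hORB h hf₀ nd₀ hb hP h1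
  obtain ⟨s, hs, hsQ⟩ := exists_SS h hQ
  refine ⟨s, hs, ?_⟩
  rw [← hord] at hPQ
  have h2 : ((φ : Localization.Away (gradPull n d Δ)) - (s : RR h)) *
      algebraMap (MvPolynomial (Mon n d) ℂ) (Localization.Away (gradPull n d Δ))
        (gradPull n d Δ ^ (m₀ + m)) =
      algebraMap (MvPolynomial (Mon n d) ℂ) (Localization.Away (gradPull n d Δ))
        (P * gradPull n d Δ ^ m - gradPull n d Q * gradPull n d Δ ^ m₀) := by
    rw [pow_add, map_sub, map_mul, map_mul, map_mul, ← hφP, ← hsQ]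
    ring
  rw [← h2, Ideal.mul_unit_mem_iff_mem _ (isUnit_powB _ _)] at hPQ
  exact hPQ

/-- the main result in terms of polynomials -/
theorem statementKEY_of (hALG : StatementALG) (hORB : StatementORB) (hEK5 : StatementEK5)
    (hTAN : StatementTAN) (hHALL : StatementHALL) (hGF : StatementGF) (hINT : StatementINT)
    (hCTR : StatementCTR) (hFG : StatementFG) (hORD : StatementORD) (hPT : StatementPT)
    (hRDF : StatementRDF) (hKRULL : StatementKRULL) (hNAK : StatementNAK) : StatementKEY := by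
  intro n d Δ r₁ r₂ h m P hP
  obtain ⟨-, hr₂, hD⟩ := hRDF n d Δ r₁ r₂ h
  have hn := h.hn
  have hd := h.hd
  have i1 : Algebra.IsIntegral (SS h) (RR h) := isIntegral_RS hINT h hD
  have i2 : Algebra.FiniteType ℂ (RR h) :=
    hFG n d (by omega) (by omega) (gradPull n d Δ) (r₁ + r₂) (by omega) hD h.semiD
  have i3 : Algebra.FiniteType (SS h) (RR h) := .of_restrictScalars_finiteType ℂ _ _
  have i5 : IsNoetherianRing (RR h) := Algebra.FiniteType.isNoetherianRing ℂ _
  have i6 : IsNoetherianRing (Localization.Away (gradPull n d Δ)) :=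
    IsLocalization.isNoetherianRing (Submonoid.powers (gradPull n d Δ)) _ inferInstance
  have hsurj : Function.Surjective (algebraMap (SS h) (RR h)) := by
    refine @hNAK (SS h) (RR h) _ _ _ Algebra.IsIntegral.finite ?_
    intro 𝔪 h𝔪
    have hker : RingHom.ker (algebraMap (SS h) (RR h)) ≤ 𝔪 := by
      have hinj : Function.Injective (algebraMap (SS h) (RR h)) := Subtype.val_injective
      rw [(RingHom.injective_iff_ker_eq_bot _).1 hinj]
      exact bot_le
    obtain ⟨𝔫, h𝔫, h𝔫m⟩ := Ideal.exists_ideal_over_maximal_of_isIntegral 𝔪 hker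
    obtain ⟨𝔐₁, x₁, h𝔐₁, hx₁, hp₁, hc₁⟩ := exists_pt hCTR hORD h hD 𝔫 h𝔫
    -- block form
    have nd₁ : NonDeg (frm x₁) := (h.nonDeg_iff (K := ℂ) x₁).1 (by rwa [aeval_eq_eval])
    obtain ⟨g, b, hg, hb⟩ := exists_block hALG hd (isHomogeneous_frm x₁) nd₁
    have hf₀ : (subst g (frm x₁)).IsHomogeneous d := isHomogeneous_subst _ (isHomogeneous_frm x₁)
    have nd₀ : NonDeg (subst g (frm x₁)) := nd₁.subst (isUnit_iff_ne_zero.2 hg)
    obtain ⟨x₀, hx₀def⟩ : ∃ x₀, x₀ = cf d (subst g (frm x₁)) := ⟨_, rfl⟩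
    have hx₀app : (actS n d).app x₁ g 1 = x₀ := by rw [actS_app, hx₀def]
    have hx₀ : eval x₀ (gradPull n d Δ) ≠ 0 := by
      rw [← hx₀app, eval_app_semi h.semiD]
      exact mul_ne_zero (pow_ne_zero _ hg) hx₁
    obtain ⟨𝔐, h𝔐, hp⟩ := hPT _ (gradPull n d Δ) x₀ hx₀
    have hp' : PtOf 𝔐 x₀ := hp
    have hc : 𝔐.comap (algebraMap (RR h) (Localization.Away (gradPull n d Δ))) = 𝔫 := by
      rw [← hc₁]
      exact (comap_eq_of_orbit h hp₁ hp' hg hx₀app).symm
    obtain ⟨x₀', hx₀', hord'⟩ := hORD _ (gradPull n d Δ) 𝔐 h𝔐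
    have hp'' : PtOf 𝔐 x₀' := by
      intro P
      have h2 := hord' 1 P
      rw [pow_one] at h2
      rw [h2, ordGE_iff]
      constructor
      · intro h3
        have h4 := Polynomial.X_pow_dvd_iff.1 (h3 0) 0 Nat.one_pos
        rwa [coeff_zero_lineEv] at h4
      · intro h3 y
        rw [pow_one, Polynomial.X_dvd_iff, coeff_zero_lineEv, h3]
    have hord : ∀ (k : ℕ) (P : MvPolynomial (Mon n d) ℂ),
        algebraMap (MvPolynomial (Mon n d) ℂ) (Localization.Away (gradPull n d Δ)) P ∈ 𝔐 ^ k ↔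
          OrdGE (cf d (subst g (frm x₁))) k P := by
      rw [← hx₀def, hp'.eq hp'']
      exact hord'
    have hmem𝔫 : ∀ φ : RR h, φ ∈ 𝔫 ↔ (φ : Localization.Away (gradPull n d Δ)) ∈ 𝔐 := by
      intro φ
      rw [← hc, Ideal.mem_comap]
      exact Iff.rfl
    refine ⟨𝔫, h𝔫, ?_, ?_, ?_⟩
    · -- uniqueness
      intro 𝔫' h𝔫' h𝔫'm
      obtain ⟨𝔐₂, x₂, h𝔐₂, hx₂, hp₂, hc₂⟩ := exists_pt hCTR hORD h hD 𝔫' h𝔫'
      obtain ⟨g', hg', hg'x⟩ := same_orbit hALG hORB h hp' hp₂ hx₀ hx₂ (by
        intro s hs hs𝔐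
        have h1 : (⟨s, hs⟩ : SS h) ∈ 𝔪 := by
          rw [← h𝔫m, Ideal.mem_comap]
          exact (hmem𝔫 s).2 hs𝔐
        rw [← h𝔫'm, Ideal.mem_comap, ← hc₂, Ideal.mem_comap] at h1
        exact h1)
      rw [← hc₂, ← hc]
      exact (comap_eq_of_orbit h hp' hp₂ hg' hg'x).symm
    · -- residue fields
      intro φ
      obtain ⟨m₁, P₁, hP₁, hφ⟩ := φ.2
      refine ⟨algebraMap ℂ (SS h) (eval x₀ P₁ / (eval x₀ (gradPull n d Δ)) ^ m₁), ?_⟩
      rw [hmem𝔫]
      have h1 : ((φ - algebraMap (SS h) (RR h) (algebraMap ℂ (SS h)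
          (eval x₀ P₁ / (eval x₀ (gradPull n d Δ)) ^ m₁)) : RR h) :
          Localization.Away (gradPull n d Δ)) * algebraMap (MvPolynomial (Mon n d) ℂ)
          (Localization.Away (gradPull n d Δ)) (gradPull n d Δ ^ m₁) =
          algebraMap (MvPolynomial (Mon n d) ℂ) (Localization.Away (gradPull n d Δ))
            (P₁ - C (eval x₀ P₁ / (eval x₀ (gradPull n d Δ)) ^ m₁) * gradPull n d Δ ^ m₁) := by
        have h2 : ((algebraMap (SS h) (RR h) (algebraMap ℂ (SS h)
          (eval x₀ P₁ / (eval x₀ (gradPull n d Δ)) ^ m₁)) : RR h) :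
          Localization.Away (gradPull n d Δ)) = algebraMap (MvPolynomial (Mon n d) ℂ)
          (Localization.Away (gradPull n d Δ))
          (C (eval x₀ P₁ / (eval x₀ (gradPull n d Δ)) ^ m₁)) := by
          rw [← MvPolynomial.algebraMap_eq]
          exact IsScalarTower.algebraMap_apply ℂ (MvPolynomial (Mon n d) ℂ)
            (Localization.Away (gradPull n d Δ)) _
        rw [AddSubgroupClass.coe_sub, h2, sub_mul, hφ, map_sub, map_mul]
      rw [hp'.mem_iff h1, map_sub, map_mul, eval_C, map_pow,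
        div_mul_cancel₀ _ (pow_ne_zero _ hx₀), sub_self]
    · -- the infinitesimal condition
      obtain ⟨k, hk⟩ := hKRULL (Localization.Away (gradPull n d Δ)) (RR h).toSubring
        (fun 𝔞 φ hφ => h.ctr hCTR hD 𝔞 φ hφ) 𝔫 𝔐 hc (by
          intro 𝔐' h𝔐' hle
          obtain ⟨x₂, hx₂, hord₂⟩ := hORD _ (gradPull n d Δ) 𝔐' h𝔐'
          have hp₂ : PtOf 𝔐' x₂ := by
            intro P
            have h2 := hord₂ 1 P
            rw [pow_one] at h2
            rw [h2, ordGE_iff]
            constructor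
            · intro h3
              have h4 := Polynomial.X_pow_dvd_iff.1 (h3 0) 0 Nat.one_pos
              rwa [coeff_zero_lineEv] at h4
            · intro h3 y
              rw [pow_one, Polynomial.X_dvd_iff, coeff_zero_lineEv, h3]
          obtain ⟨g', hg', hg'x⟩ := same_orbit hALG hORB h hp' hp₂ hx₀ hx₂ (by
            intro s _ hs𝔐
            have h1 : s ∈ 𝔫 := (hmem𝔫 s).2 hs𝔐
            exact hle (Ideal.mem_map_of_mem _ h1))
          have hg'u := isUnit_iff_ne_zero.2 hg'
          obtain ⟨θ, h1, h2⟩ := exists_theta h hp' hp₂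
            (Matrix.isUnit_nonsing_inv_det _ hg'u).ne_zero (by
              rw [← hg'x, Actn.app_app, Matrix.mul_nonsing_inv _ hg'u, one_mul, Actn.app_one])
          exact ⟨θ, h1, h2⟩)
      -- downward induction
      have hind : ∀ (e j : ℕ), 1 ≤ j → k ≤ j + e → ∀ φ : RR h,
          (φ : Localization.Away (gradPull n d Δ)) ∈ 𝔐 ^ j →
          φ ∈ 𝔪.map (algebraMap (SS h) (RR h)) ⊔ 𝔫 ^ 2 := by
        intro e
        induction e with
        | zero =>
          intro j _ hjk φ hφ
          have h1 : φ ∈ 𝔫 ^ 2 := hk φ (Ideal.pow_le_pow_right (by omega) hφ)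
          exact Ideal.mem_sup_right h1
        | succ e ih =>
          intro j hj hjk φ hφ
          obtain ⟨s, hs, hφs⟩ := ek_ring hEK5 hTAN hHALL hGF hORB h hf₀ nd₀ hb hord j φ hφ
          have h1 : (φ : Localization.Away (gradPull n d Δ)) ∈ 𝔐 :=
            Ideal.pow_le_self (by omega) hφ
          have h2 : (φ : Localization.Away (gradPull n d Δ)) - (s : RR h) ∈ 𝔐 :=
            Ideal.pow_le_self (by omega) hφs
          have h3 : (s : Localization.Away (gradPull n d Δ)) ∈ 𝔐 := by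
            have h4 := Ideal.sub_mem _ h1 h2
            rwa [sub_sub_cancel] at h4
          have h4 : (⟨s, hs⟩ : SS h) ∈ 𝔪 := by
            rw [← h𝔫m, Ideal.mem_comap]
            exact (hmem𝔫 s).2 h3
          have h5 : s ∈ 𝔪.map (algebraMap (SS h) (RR h)) := Ideal.mem_map_of_mem _ h4
          have h6 : φ - s ∈ 𝔪.map (algebraMap (SS h) (RR h)) ⊔ 𝔫 ^ 2 :=
            ih (j + 1) (by omega) (by omega) (φ - s) hφs
          have h7 : φ = s + (φ - s) := by ring
          rw [h7]
          exact Ideal.add_mem _ (Ideal.mem_sup_left h5) h6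
      intro φ hφ
      refine hind k 1 le_rfl (by omega) φ ?_
      rw [pow_one]
      exact (hmem𝔫 φ).1 hφ
  -- conclusion
  obtain ⟨φ, hφ⟩ := exists_divB (gradPull n d Δ) P m
  have hφR : φ ∈ RR h := ⟨m, P, hP, hφ⟩
  obtain ⟨s, hs⟩ := hsurj ⟨φ, hφR⟩
  obtain ⟨m', Q, hQ, hsQ⟩ := s.2
  refine ⟨m', Q, hQ, ?_⟩
  apply injB hD
  have h1 : ((s : RR h) : Localization.Away (gradPull n d Δ)) = φ := congrArg Subtype.val hs
  rw [h1] at hsQ
  rw [map_mul, map_mul, ← hsQ, ← hφ]
  ring

end Pool.Agent.Lib.MP_4fcc12_ag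
end

section
open MvPolynomial Matrix

set_option linter.unusedSectionVars false

namespace Pool.Agent.Lib.MP_4fcc12_ag

variable {n : ℕ}

/-- the Fermat form -/
noncomputable def fermat (n d : ℕ) : MvPolynomial (Fin n) ℂ := ∑ i, X i ^ d

lemma fermat_hom (n d : ℕ) : (fermat n d).IsHomogeneous d := by
  apply IsHomogeneous.sum
  intro i _
  exact isHomogeneous_X_pow i d

lemma fermat_nonDeg {n d : ℕ} (hd : 2 ≤ d) : NonDeg (fermat n d) := by
  intro p hp
  funext i
  have h1 := hp i
  have h2 : grad (fermat n d) i = C (d : ℂ) * X i ^ (d - 1) := by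
    rw [grad, fermat, map_sum, Finset.sum_eq_single i]
    · rw [Derivation.leibniz_pow, pderiv_X_self]
      simp
    · intro j _ hj
      rw [Derivation.leibniz_pow, pderiv_X_of_ne hj]
      simp
    · intro h
      exact absurd (Finset.mem_univ i) h
  rw [h2, map_mul, eval_C, map_pow, eval_X, mul_eq_zero] at h1
  rcases h1 with h1 | h1
  · exfalso
    have : d = 0 := by exact_mod_cast h1
    omega
  · exact pow_eq_zero_iff (by omega) |>.1 h1

theorem statementRDF : StatementRDF := by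
  intro n d Δ r₁ r₂ h
  have hn := h.hn
  have hd := h.hd
  obtain ⟨x₀, hx₀⟩ : ∃ x₀ : Mon n d → ℂ, x₀ = cf d (fermat n d) := ⟨_, rfl⟩
  have hfrm : frm x₀ = fermat n d := by rw [hx₀, frm_cf (fermat_hom n d)]
  have hδ : eval x₀ (gradPull n d Δ) ≠ 0 := by
    have h1 := (h.nonDeg_iff (K := ℂ) x₀).2 (by rw [hfrm]; exact fermat_nonDeg (by omega))
    rwa [aeval_eq_eval] at h1
  have hδ' : eval (gradC d x₀) Δ ≠ 0 := by
    have h1 := aeval_gradPull d Δ x₀
    rw [aeval_eq_eval, aeval_eq_eval] at h1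
    rwa [h1] at hδ
  have hr : r₁ = (d - 1) * r₂ := by
    have h1 := h.semi (gradC d x₀) ((2 : ℂ) • (1 : Matrix (Fin n) (Fin n) ℂ))
      (((2 : ℂ) ^ (d - 1))⁻¹ • (1 : Matrix (Fin n) (Fin n) ℂ))
    have h2 : (actT n (d - 1)).app (gradC d x₀) ((2 : ℂ) • (1 : Matrix (Fin n) (Fin n) ℂ))
      (((2 : ℂ) ^ (d - 1))⁻¹ • (1 : Matrix (Fin n) (Fin n) ℂ)) = gradC d x₀ := by
      rw [actT_app]
      have h3 : act (tup (gradC d x₀)) ((2 : ℂ) • (1 : Matrix (Fin n) (Fin n) ℂ))
          (((2 : ℂ) ^ (d - 1))⁻¹ • (1 : Matrix (Fin n) (Fin n) ℂ)) = tup (gradC d x₀) := by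
        funext i
        have h4 : ∀ j, subst ((2 : ℂ) • (1 : Matrix (Fin n) (Fin n) ℂ)) (tup (gradC d x₀) j) =
            C ((2 : ℂ) ^ (d - 1)) * tup (gradC d x₀) j := by
          intro j
          apply MvPolynomial.funext
          intro p
          rw [eval_subst, Matrix.smul_mulVec, Matrix.one_mulVec, map_mul, eval_C]
          have h5 := aeval_mul_of_isHomogeneous (isHomogeneous_tup (gradC d x₀) j) (2 : ℂ) p
          rw [aeval_eq_eval, aeval_eq_eval] at h5
          exact h5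
        have h6 : ∀ j, C ((((2 : ℂ) ^ (d - 1))⁻¹ • (1 : Matrix (Fin n) (Fin n) ℂ)) i j) *
            subst ((2 : ℂ) • (1 : Matrix (Fin n) (Fin n) ℂ)) (tup (gradC d x₀) j) =
            if i = j then tup (gradC d x₀) j else 0 := by
          intro j
          rw [h4, Matrix.smul_apply, Matrix.one_apply, smul_eq_mul]
          split_ifs with hij
          · rw [← mul_assoc, ← C_mul, mul_one, inv_mul_cancel₀ (pow_ne_zero _ two_ne_zero), C_1,
              one_mul]
          · rw [mul_zero, C_0, zero_mul]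
        rw [act, Finset.sum_congr rfl fun j _ => h6 j]
        simp
      rw [h3, ct_tup]
    rw [h2, Matrix.det_smul, Matrix.det_smul, Matrix.det_one, mul_one, mul_one, aeval_eq_eval]
      at h1
    have h7 : ((2 : ℂ) ^ Fintype.card (Fin n)) ^ r₁ *
        (((2 : ℂ) ^ (d - 1))⁻¹ ^ Fintype.card (Fin n)) ^ r₂ = 1 := by
      apply mul_right_cancel₀ hδ'
      rw [one_mul]
      exact h1.symm
    rw [Fintype.card_fin, inv_pow, inv_pow, ← pow_mul, ← pow_mul, ← pow_mul] at h7
    have h8 : (2 : ℂ) ^ (n * r₁) = 2 ^ ((d - 1) * (n * r₂)) := by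
      rwa [mul_inv_eq_one₀ (pow_ne_zero _ two_ne_zero)] at h7
    have h9 : n * r₁ = (d - 1) * (n * r₂) := by
      have h10 : (2 : ℕ) ^ (n * r₁) = 2 ^ ((d - 1) * (n * r₂)) := by exact_mod_cast h8
      exact Nat.pow_right_injective le_rfl h10
    have h11 : n * r₁ = n * ((d - 1) * r₂) := by rw [h9]; ring
    exact Nat.eq_of_mul_eq_mul_left (by omega) h11
  refine ⟨hr, ?_, ?_⟩
  · by_contra h0
    have hr2 : r₂ = 0 := by omega
    subst hr2
    rw [mul_zero] at hr
    subst hr
    have h1 := h.semi (gradC d x₀) 0 0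
    rw [pow_zero, one_mul, one_mul, aeval_eq_eval, aeval_eq_eval] at h1
    have h2 : (actT n (d - 1)).app (gradC d x₀) 0 0 = 0 := by
      rw [actT_app]
      funext j
      simp [ct, act]
    rw [h2] at h1
    apply hδ'
    rw [← h1]
    have h3 := (h.zero_iff ℂ 0).2 ⟨fun _ => 1, ?_, ?_⟩
    · rwa [aeval_eq_eval] at h3
    · intro h4
      have h5 := congrFun h4 ⟨0, by omega⟩
      exact one_ne_zero h5
    · intro i
      simp [tup, frm]
  · intro h0
    rw [h0, map_zero] at hδ
    exact hδ rfl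

end Pool.Agent.Lib.MP_4fcc12_ag
end
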