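import Pool.Agent.Lib.MP_4fcc12_ag.Concrete
import Mathlib.FieldTheory.IsAlgClosed.Basic

/-!
Statement of the module on resultants (work split).
-/

open MvPolynomial

namespace Pool.Agent.Lib.MP_4fcc12_ag

/-- Existence of a resultant for `n` forms of degree `k` in `n` variables. -/
def ResExists (n k : ℕ) : Prop :=
  ∃ (Δ : MvPolynomial (Fin n × Mon n k) ℂ) (r₁ r₂ : ℕ), (actT n k).Semi r₁ r₂ Δ ∧
    ∀ (K : Type) [Field K] [IsAlgClosed K] [Algebra ℂ K] (x : Fin n × Mon n k → K),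
      aeval x Δ = 0 ↔ ∃ p : Fin n → K, p ≠ 0 ∧ ∀ i, eval p (tup x i) = 0

end Pool.Agent.Lib.MP_4fcc12_ag
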