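import Pool.Agent.Lib.MP_4fcc12_ag.Spec3
import Mathlib.Combinatorics.Hall.Basic
import Mathlib.RingTheory.Filtration
import Mathlib.RingTheory.Artinian.Ring
import Mathlib.RingTheory.KrullDimension.Zero
import Mathlib.RingTheory.HopkinsLevitzki
import Mathlib.LinearAlgebra.Matrix.Adjugate
import Mathlib.LinearAlgebra.Dual.Lemmas
import Mathlib.Algebra.MvPolynomial.Equiv
import Mathlib.RingTheory.Polynomial.Basic
import Mathlib.FieldTheory.IsAlgClosed.AlgebraicClosure
import Mathlib.RingTheory.Valuation.LocalSubring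
import Mathlib.RingTheory.Localization.FractionRing
import Mathlib.RingTheory.MvPolynomial.Basic
import Pool.Agent.Lib.MP_4fcc12_ag.Val
import Pool.Agent.Lib.MP_4fcc12_ag.Lead
import Mathlib.Order.Filter.FilterProduct
import Mathlib.FieldTheory.IsAlgClosed.Basic
import Mathlib.FieldTheory.Minpoly.Field
import Mathlib.Analysis.Complex.Polynomial.Basic

section
/-!
Module HALL: a matching with prescribed multiplicities.
-/
namespace Pool.Agent.Lib.MP_4fcc12_ag

/-- MODULE HALL. -/
theorem statementHALL : StatementHALL := by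
  classical
  intro k s d hd μ hrow hcol
  choose m hm using hcol
  -- `m a` copies of each colour `a`
  let t : Fin k → Finset (Σ a : Fin s, Fin (m a)) := fun l =>
    Finset.univ.filter (fun p => μ l p.1 ≠ 0)
  -- the number of copies of the colours in a set
  have hcopies : ∀ A : Finset (Fin s),
      (Finset.univ.filter (fun p : Σ a : Fin s, Fin (m a) => p.1 ∈ A)).card = ∑ a ∈ A, m a := by
    intro A
    have h1 : (Finset.univ.filter (fun p : Σ a : Fin s, Fin (m a) => p.1 ∈ A)) =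
        A.sigma (fun a => (Finset.univ : Finset (Fin (m a)))) := by
      ext ⟨a, j⟩
      simp
    rw [h1, Finset.card_sigma]
    simp
  have hhall : ∀ S : Finset (Fin k), S.card ≤ (S.biUnion t).card := by
    intro S
    set A : Finset (Fin s) := Finset.univ.filter (fun a => ∃ l ∈ S, μ l a ≠ 0) with hA
    have h1 : S.biUnion t =
        Finset.univ.filter (fun p : Σ a : Fin s, Fin (m a) => p.1 ∈ A) := by
      ext p
      simp [t, hA]
    rw [h1, hcopies]
    have h2 : d * S.card ≤ d * ∑ a ∈ A, m a := by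
      calc d * S.card = ∑ l ∈ S, ∑ a, μ l a := by
            rw [Finset.sum_congr rfl (fun l _ => hrow l), Finset.sum_const, smul_eq_mul, mul_comm]
        _ = ∑ l ∈ S, ∑ a ∈ A, μ l a := by
            refine Finset.sum_congr rfl (fun l hl => ?_)
            symm
            refine Finset.sum_subset (Finset.subset_univ _) (fun a _ ha => ?_)
            by_contra h0
            exact ha (by simp only [hA, Finset.mem_filter, Finset.mem_univ, true_and]
                         exact ⟨l, hl, h0⟩)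
        _ = ∑ a ∈ A, ∑ l ∈ S, μ l a := Finset.sum_comm
        _ ≤ ∑ a ∈ A, ∑ l, μ l a := by
            refine Finset.sum_le_sum (fun a _ => ?_)
            exact Finset.sum_le_sum_of_subset (Finset.subset_univ _)
        _ = d * ∑ a ∈ A, m a := by
            rw [Finset.mul_sum]
            exact Finset.sum_congr rfl (fun a _ => hm a)
    exact Nat.le_of_mul_le_mul_left h2 hd
  obtain ⟨f, hf, hft⟩ := (Finset.all_card_le_biUnion_card_iff_exists_injective t).1 hhall
  -- the total number of copies is `k`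
  have htot : ∑ a, m a = k := by
    have h2 : d * ∑ a, m a = d * k := by
      calc d * ∑ a, m a = ∑ a, ∑ l, μ l a := by
            rw [Finset.mul_sum]
            exact Finset.sum_congr rfl (fun a _ => (hm a).symm)
        _ = ∑ l, ∑ a, μ l a := Finset.sum_comm
        _ = d * k := by
            rw [Finset.sum_congr rfl (fun l _ => hrow l), Finset.sum_const, smul_eq_mul,
              mul_comm]
            simp
    exact Nat.eq_of_mul_eq_mul_left hd h2
  have hbij : Function.Bijective f := by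
    rw [Fintype.bijective_iff_injective_and_card]
    refine ⟨hf, ?_⟩
    rw [Fintype.card_sigma]
    simp [htot]
  refine ⟨fun l => (f l).1, fun l => ?_, fun a => ?_⟩
  · have := hft l
    simp only [t, Finset.mem_filter, Finset.mem_univ, true_and] at this
    exact this
  · rw [hm a]
    congr 1
    have h3 : (Finset.univ.filter (fun l => (f l).1 = a)).card =
        (Finset.univ.filter (fun p : Σ a : Fin s, Fin (m a) => p.1 = a)).card := by
      refine Finset.card_bij (fun l _ => f l) ?_ ?_ ?_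
      · intro l hl
        simpa using hl
      · intro l _ l' _ h
        exact hf h
      · intro p hp
        obtain ⟨l, rfl⟩ := hbij.2 p
        exact ⟨l, by simpa using hp, rfl⟩
    rw [h3]
    have := hcopies {a}
    simpa using this

end Pool.Agent.Lib.MP_4fcc12_ag
end

section
/-!
Module KRULL: a Krull intersection argument.
-/
namespace Pool.Agent.Lib.MP_4fcc12_ag

/-- MODULE KRULL. -/
theorem statementKRULL : StatementKRULL := by
  intro B _ _ R _ hpure 𝔫 _ 𝔐 _ h𝔐 htrans
  set N2 : Ideal B := (𝔫 ^ 2).map R.subtype with hN2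
  -- the main claim
  have claim : ∀ φ : R, (∀ k : ℕ, (φ : B) ∈ 𝔐 ^ k ⊔ N2) → φ ∈ 𝔫 ^ 2 := by
    intro φ hφ
    apply hpure
    by_contra hne
    let J : Ideal B :=
      { carrier := {b | b * (φ : B) ∈ N2}
        add_mem' := by
          intro a b ha hb
          simp only [Set.mem_ofPred_eq, add_mul] at *
          exact N2.add_mem ha hb
        zero_mem' := by simp
        smul_mem' := by
          intro c b hb
          simp only [Set.mem_ofPred_eq, smul_eq_mul, mul_assoc] at *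
          exact N2.mul_mem_left c hb }
    have hJ : J ≠ ⊤ := by
      intro h
      have h1 : (1 : B) ∈ J := by rw [h]; trivial
      have h2 : (1 : B) * (φ : B) ∈ N2 := h1
      rw [one_mul] at h2
      exact hne h2
    obtain ⟨𝔐', hmax, hJle⟩ := Ideal.exists_le_maximal J hJ
    have hN2le : N2 ≤ 𝔐' := by
      intro b hb
      apply hJle
      exact N2.mul_mem_right _ hb
    have hnle : 𝔫.map R.subtype ≤ 𝔐' := by
      have h1 : (𝔫.map R.subtype) ^ 2 ≤ 𝔐' := by
        rw [← Ideal.map_pow]; exact hN2le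
      exact hmax.isPrime.le_of_pow_le h1
    obtain ⟨θ, hθ, hcomap⟩ := htrans 𝔐' hmax hnle
    have hmem : ∀ k : ℕ, (φ : B) ∈ 𝔐' ^ k ⊔ N2 := by
      intro k
      obtain ⟨a, ha, b, hb, hab⟩ := Submodule.mem_sup.1 (hφ k)
      have h1 : (φ : B) = θ a + θ b := by
        rw [← map_add, hab, hθ]
      rw [h1]
      refine Submodule.add_mem_sup ?_ ?_
      · have h2 : θ a ∈ Ideal.map (θ : B →+* B) (𝔐 ^ k) := Ideal.mem_map_of_mem (θ : B →+* B) ha
        rw [Ideal.map_pow] at h2
        refine Ideal.pow_right_mono ?_ k h2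
        rw [Ideal.map_le_iff_le_comap]
        exact hcomap.ge
      · have h2 : θ b ∈ Ideal.map (θ : B →+* B) N2 := Ideal.mem_map_of_mem (θ : B →+* B) hb
        have h3 : Ideal.map (θ : B →+* B) N2 = N2 := by
          rw [hN2, Ideal.map_map]
          congr 1
          ext r
          exact hθ r
        rwa [h3] at h2
    -- Krull's intersection theorem in `B ⧸ N2`
    have h1 : (Ideal.Quotient.mk N2 (φ : B)) ∈
        (⨅ i : ℕ, (Ideal.map (Ideal.Quotient.mk N2) 𝔐') ^ i • (⊤ : Submodule (B ⧸ N2) (B ⧸ N2))) := by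
      rw [Submodule.mem_iInf]
      intro i
      rw [smul_eq_mul, Ideal.mul_top, ← Ideal.map_pow]
      obtain ⟨a, ha, b, hb, hab⟩ := Submodule.mem_sup.1 (hmem i)
      have h2 : Ideal.Quotient.mk N2 (φ : B) = Ideal.Quotient.mk N2 a := by
        rw [← hab, map_add, Ideal.Quotient.eq_zero_iff_mem.2 hb, add_zero]
      rw [h2]
      exact Ideal.mem_map_of_mem _ ha
    rw [Ideal.mem_iInf_smul_pow_eq_bot_iff] at h1
    obtain ⟨⟨r, hr⟩, hr2⟩ := h1
    rw [Ideal.mem_map_iff_of_surjective _ Ideal.Quotient.mk_surjective] at hr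
    obtain ⟨c, hc, rfl⟩ := hr
    have h3 : Ideal.Quotient.mk N2 ((1 - c) * (φ : B)) = 0 := by
      have h4 : Ideal.Quotient.mk N2 c * Ideal.Quotient.mk N2 (φ : B) =
          Ideal.Quotient.mk N2 (φ : B) := hr2
      rw [map_mul, map_sub, map_one, sub_mul, one_mul, h4, sub_self]
    have h3' : (1 - c) * (φ : B) ∈ N2 := Ideal.Quotient.eq_zero_iff_mem.1 h3
    have h5 : (1 - c) ∈ J := h3'
    have h6 : (1 : B) ∈ 𝔐' := by
      have := 𝔐'.add_mem (hJle h5) hc
      simpa using this
    exact hmax.ne_top ((Ideal.eq_top_iff_one _).2 h6)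
  -- `R ⧸ 𝔫 ^ 2` is Artinian
  have hart : IsArtinianRing (R ⧸ 𝔫 ^ 2) := by
    rw [isArtinianRing_iff_isNoetherianRing_krullDimLE_zero]
    refine ⟨inferInstance, ?_⟩
    rw [Ring.krullDimLE_zero_iff]
    intro I hI
    have h1 : (𝔫.map (Ideal.Quotient.mk (𝔫 ^ 2))) ≤ I := by
      refine hI.le_of_pow_le (n := 2) ?_
      rw [← Ideal.map_pow, Ideal.map_quotient_self]
      exact bot_le
    have h2 : 𝔫 ≤ I.comap (Ideal.Quotient.mk (𝔫 ^ 2)) := Ideal.map_le_iff_le_comap.1 h1
    have h3 : I.comap (Ideal.Quotient.mk (𝔫 ^ 2)) = 𝔫 := by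
      have hn : 𝔫.IsMaximal := inferInstance
      refine (hn.eq_of_le ?_ h2).symm
      exact (Ideal.IsPrime.comap (Ideal.Quotient.mk (𝔫 ^ 2)) (K := I)).ne_top
    have h4 : (I.comap (Ideal.Quotient.mk (𝔫 ^ 2))).IsMaximal := by rw [h3]; infer_instance
    have h5 : Ideal.map (Ideal.Quotient.mk (𝔫 ^ 2)) (I.comap (Ideal.Quotient.mk (𝔫 ^ 2))) = I :=
      Ideal.map_comap_of_surjective _ Ideal.Quotient.mk_surjective I
    rcases Ideal.map_eq_top_or_isMaximal_of_surjective (Ideal.Quotient.mk (𝔫 ^ 2))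
      Ideal.Quotient.mk_surjective h4 with h6 | h6
    · rw [h5] at h6
      exact absurd h6 hI.ne_top
    · rwa [h5] at h6
  let I : ℕ →o (Submodule (R ⧸ 𝔫 ^ 2) (R ⧸ 𝔫 ^ 2))ᵒᵈ :=
    { toFun := fun k => OrderDual.toDual
        (Ideal.map (Ideal.Quotient.mk (𝔫 ^ 2)) (Ideal.comap R.subtype (𝔐 ^ k)))
      monotone' := by
        intro a b hab
        show Ideal.map (Ideal.Quotient.mk (𝔫 ^ 2)) (Ideal.comap R.subtype (𝔐 ^ b)) ≤
          Ideal.map (Ideal.Quotient.mk (𝔫 ^ 2)) (Ideal.comap R.subtype (𝔐 ^ a))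
        exact Ideal.map_mono (Ideal.comap_mono (Ideal.pow_le_pow_right hab)) }
  obtain ⟨n, hn⟩ := IsArtinian.monotone_stabilizes I
  refine ⟨n, fun φ hφ => claim φ (fun m => ?_)⟩
  rcases le_total m n with hmn | hnm
  · exact Submodule.mem_sup_left (Ideal.pow_le_pow_right hmn hφ)
  · have h1 : Ideal.map (Ideal.Quotient.mk (𝔫 ^ 2)) (Ideal.comap R.subtype (𝔐 ^ n)) =
        Ideal.map (Ideal.Quotient.mk (𝔫 ^ 2)) (Ideal.comap R.subtype (𝔐 ^ m)) := hn m hnm
    have h2 : Ideal.Quotient.mk (𝔫 ^ 2) φ ∈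
        Ideal.map (Ideal.Quotient.mk (𝔫 ^ 2)) (Ideal.comap R.subtype (𝔐 ^ n)) :=
      Ideal.mem_map_of_mem _ hφ
    rw [h1, Ideal.mem_map_iff_of_surjective _ Ideal.Quotient.mk_surjective] at h2
    obtain ⟨ψ, hψ, hψφ⟩ := h2
    have h3 : φ - ψ ∈ 𝔫 ^ 2 := Ideal.Quotient.eq.1 hψφ.symm
    have h4 : (φ : B) = (ψ : B) + ((φ - ψ : R) : B) := by push_cast; ring
    rw [h4]
    exact Submodule.add_mem_sup hψ (Ideal.mem_map_of_mem R.subtype h3)

end Pool.Agent.Lib.MP_4fcc12_ag
end

section
/-!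
# Module EK5, part 1: the inverse translate of a polynomial
-/
open MvPolynomial Matrix

set_option linter.unusedSectionVars false

namespace Pool.Agent.Lib.MP_4fcc12_ag

namespace EK

variable {n : ℕ} {κ : Type}

lemma eval_gT_det (g a : Matrix (Fin n) (Fin n) ℂ) (x : κ → ℂ) :
    eval (Sum.elim (gpt g a) x) (gT κ n).det = g.det := by
  have h := gT_map g a x
  rw [RingHom.map_det]
  congr 1

lemma eval_aT_det (g a : Matrix (Fin n) (Fin n) ℂ) (x : κ → ℂ) :
    eval (Sum.elim (gpt g a) x) (aT κ n).det = a.det := by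
  have h := aT_map g a x
  rw [RingHom.map_det]
  congr 1

lemma eval_gT_adj (g a : Matrix (Fin n) (Fin n) ℂ) (x : κ → ℂ) (i j : Fin n) :
    eval (Sum.elim (gpt g a) x) ((gT κ n).adjugate i j) = g.adjugate i j := by
  have h := gT_map g a x
  have h1 := RingHom.map_adjugate (eval (Sum.elim (gpt g a) x)) (gT κ n)
  have h2 := congrFun (congrFun h1 i) j
  rw [RingHom.mapMatrix_apply, RingHom.mapMatrix_apply, Matrix.map_apply] at h2
  rw [h2]
  congr 2

lemma eval_aT_adj (g a : Matrix (Fin n) (Fin n) ℂ) (x : κ → ℂ) (i j : Fin n) :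
    eval (Sum.elim (gpt g a) x) ((aT κ n).adjugate i j) = a.adjugate i j := by
  have h := aT_map g a x
  have h1 := RingHom.map_adjugate (eval (Sum.elim (gpt g a) x)) (aT κ n)
  have h2 := congrFun (congrFun h1 i) j
  rw [RingHom.mapMatrix_apply, RingHom.mapMatrix_apply, Matrix.map_apply] at h2
  rw [h2]
  congr 2

lemma det_mul_inv {g : Matrix (Fin n) (Fin n) ℂ} (hg : g.det ≠ 0) (i j : Fin n) :
    g.det * g⁻¹ i j = g.adjugate i j := by
  rw [Matrix.inv_def, Matrix.smul_apply, smul_eq_mul, Ring.inverse_eq_inv', ← mul_assoc,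
    mul_inv_cancel₀ hg, one_mul]

/-- the function `(det g * det a) ^ M * F (g⁻¹, a⁻¹, x)` is a polynomial for large `M` -/
lemma exists_inv_poly (F : MvPolynomial (Grp n ⊕ κ) ℂ) :
    ∃ M₀ : ℕ, ∀ M, M₀ ≤ M → ∃ F' : MvPolynomial (Grp n ⊕ κ) ℂ,
      ∀ (g a : Matrix (Fin n) (Fin n) ℂ) (x : κ → ℂ), g.det ≠ 0 → a.det ≠ 0 →
        eval (Sum.elim (gpt g a) x) F' =
          (g.det * a.det) ^ M * eval (Sum.elim (gpt g⁻¹ a⁻¹) x) F := by
  induction F using MvPolynomial.induction_on with
  | C c =>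
    refine ⟨0, fun M _ => ⟨((gT κ n).det * (aT κ n).det) ^ M * C c, ?_⟩⟩
    intro g a x _ _
    rw [map_mul, map_pow, map_mul, eval_gT_det, eval_aT_det, eval_C, eval_C]
  | add p q hp hq =>
    obtain ⟨M₁, h₁⟩ := hp
    obtain ⟨M₂, h₂⟩ := hq
    refine ⟨max M₁ M₂, fun M hM => ?_⟩
    obtain ⟨F₁, hF₁⟩ := h₁ M (le_trans (le_max_left _ _) hM)
    obtain ⟨F₂, hF₂⟩ := h₂ M (le_trans (le_max_right _ _) hM)
    refine ⟨F₁ + F₂, ?_⟩
    intro g a x hg ha
    rw [map_add, map_add, hF₁ g a x hg ha, hF₂ g a x hg ha]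
    ring
  | mul_X p s hp =>
    obtain ⟨M₁, h₁⟩ := hp
    refine ⟨M₁ + 1, fun M hM => ?_⟩
    obtain ⟨M', rfl⟩ : ∃ M', M = M' + 1 := ⟨M - 1, by omega⟩
    obtain ⟨F₁, hF₁⟩ := h₁ M' (by omega)
    rcases s with (⟨i, j⟩ | ⟨i, j⟩) | k
    · refine ⟨F₁ * ((aT κ n).det * (gT κ n).adjugate i j), ?_⟩
      intro g a x hg ha
      rw [map_mul, map_mul, map_mul, hF₁ g a x hg ha, eval_aT_det, eval_gT_adj, ← det_mul_inv hg,
        eval_X]
      simp only [gpt, Sum.elim_inl]
      ring
    · refine ⟨F₁ * ((gT κ n).det * (aT κ n).adjugate i j), ?_⟩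
      intro g a x hg ha
      rw [map_mul, map_mul, map_mul, hF₁ g a x hg ha, eval_gT_det, eval_aT_adj, ← det_mul_inv ha,
        eval_X]
      simp only [gpt, Sum.elim_inl, Sum.elim_inr]
      ring
    · refine ⟨F₁ * ((gT κ n).det * (aT κ n).det * X (Sum.inr k)), ?_⟩
      intro g a x hg ha
      rw [map_mul, map_mul, map_mul, map_mul, hF₁ g a x hg ha, eval_gT_det, eval_aT_det, eval_X,
        eval_X]
      simp only [Sum.elim_inr]
      ring

/-- polynomials in pairs of matrices which vanish at all invertible pairs vanish -/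
lemma eq_zero_of_invertible (p : MvPolynomial (Grp n) ℂ)
    (h : ∀ g a : Matrix (Fin n) (Fin n) ℂ, g.det ≠ 0 → a.det ≠ 0 → eval (gpt g a) p = 0) :
    p = 0 := by
  have h1 : p * dd ℂ 1 1 = 0 := by
    apply MvPolynomial.funext
    intro y
    let g : Matrix (Fin n) (Fin n) ℂ := Matrix.of fun i j => y (Sum.inl (i, j))
    let a : Matrix (Fin n) (Fin n) ℂ := Matrix.of fun i j => y (Sum.inr (i, j))
    have hy : y = gpt g a := by
      funext s
      rcases s with ⟨i, j⟩ | ⟨i, j⟩ <;> rfl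
    rw [map_mul, map_zero, hy, eval_dd]
    by_cases hg : g.det = 0
    · rw [hg]; ring
    by_cases ha : a.det = 0
    · rw [ha]; ring
    rw [h g a hg ha, zero_mul]
  exact (mul_eq_zero.1 h1).resolve_right (dd_ne_zero _ _ _)

section rho

variable (A : Actn n κ)

/-- translation of polynomials on the space -/
noncomputable def rho (g a : Matrix (Fin n) (Fin n) ℂ) : MvPolynomial κ ℂ →ₐ[ℂ] MvPolynomial κ ℂ :=
  aeval (A.app (X : κ → MvPolynomial κ ℂ) (g.map C) (a.map C))

lemma eval_rho (g a : Matrix (Fin n) (Fin n) ℂ) (P : MvPolynomial κ ℂ) (x : κ → ℂ) :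
    eval x (rho A g a P) = eval (A.app x g a) P := by
  have h1 : ∀ p : MvPolynomial κ ℂ, eval x p = aeval x p := fun p => by
    rw [aeval_eq_eval]
  have h2 : ∀ p : MvPolynomial κ ℂ, eval (A.app x g a) p = aeval (A.app x g a) p := fun p => by
    rw [aeval_eq_eval]
  rw [h1, h2, rho, ← AlgHom.comp_apply, comp_aeval]
  have h3 := A.map_app (aeval x : MvPolynomial κ ℂ →ₐ[ℂ] ℂ) X (g.map C) (a.map C)
  have hg : (g.map C).map (aeval x : MvPolynomial κ ℂ →ₐ[ℂ] ℂ) = g := by
    ext i j
    simp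
  have ha : (a.map C).map (aeval x : MvPolynomial κ ℂ →ₐ[ℂ] ℂ) = a := by
    ext i j
    simp
  have hx : (aeval x : MvPolynomial κ ℂ →ₐ[ℂ] ℂ) ∘ X = x := by
    funext k
    simp
  rw [hg, ha, hx] at h3
  rw [← h3]
  rfl

variable [A.IsAction]

lemma rho_mem_orbIdeal {g a : Matrix (Fin n) (Fin n) ℂ} (hg : g.det ≠ 0) (ha : a.det ≠ 0)
    {x₀ : κ → ℂ} {P : MvPolynomial κ ℂ} (hP : P ∈ orbIdeal A x₀) : rho A g a P ∈ orbIdeal A x₀ := by
  intro g' a' hg' ha'
  rw [eval_rho, A.app_app]
  exact hP _ _ (by rw [Matrix.det_mul]; exact mul_ne_zero hg' hg)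
    (by rw [Matrix.det_mul]; exact mul_ne_zero ha ha')

lemma rho_mem_orbIdeal_pow {g a : Matrix (Fin n) (Fin n) ℂ} (hg : g.det ≠ 0) (ha : a.det ≠ 0)
    {x₀ : κ → ℂ} {P : MvPolynomial κ ℂ} {k : ℕ} (hP : P ∈ orbIdeal A x₀ ^ k) :
    rho A g a P ∈ orbIdeal A x₀ ^ k := by
  have h1 : (orbIdeal A x₀ ^ k).map (rho A g a) ≤ orbIdeal A x₀ ^ k := by
    rw [Ideal.map_pow]
    apply Ideal.pow_right_mono
    rw [Ideal.map_le_iff_le_comap]
    intro Q hQ
    exact rho_mem_orbIdeal A hg ha hQ
  exact h1 (Ideal.mem_map_of_mem _ hP)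

lemma rho_rho (g a g' a' : Matrix (Fin n) (Fin n) ℂ) (P : MvPolynomial κ ℂ) :
    rho A g a (rho A g' a' P) = rho A (g * g') (a' * a) P := by
  apply MvPolynomial.funext
  intro x
  rw [eval_rho, eval_rho, eval_rho, A.app_app]

end rho

end EK

end Pool.Agent.Lib.MP_4fcc12_ag
end

section
/-!
# Module EK5, part 2: decomposition of the inverse translate
-/
open MvPolynomial Matrix

set_option linter.unusedSectionVars false

namespace Pool.Agent.Lib.MP_4fcc12_ag

namespace EK

variable {n : ℕ} {κ : Type}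

/-- specialization in the group coordinates -/
noncomputable def spz (Ph : MvPolynomial (Grp n) (MvPolynomial κ ℂ))
    (g a : Matrix (Fin n) (Fin n) ℂ) : MvPolynomial κ ℂ :=
  eval (fun s => C (gpt g a s)) Ph

lemma spz_eq_sum (Ph : MvPolynomial (Grp n) (MvPolynomial κ ℂ))
    (g a : Matrix (Fin n) (Fin n) ℂ) :
    spz Ph g a = ∑ β ∈ Ph.support, (∏ s ∈ β.support, gpt g a s ^ β s) • coeff β Ph := by
  rw [spz, eval_eq]
  apply Finset.sum_congr rfl
  intro β _
  rw [smul_eq_C_mul, mul_comm]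
  congr 1
  rw [map_prod]
  simp

lemma eval_spz (F : MvPolynomial (Grp n ⊕ κ) ℂ) (g a : Matrix (Fin n) (Fin n) ℂ) (x : κ → ℂ) :
    eval x (spz (sumAlgEquiv ℂ (Grp n) κ F) g a) = eval (Sum.elim (gpt g a) x) F := by
  have h : ((eval x).comp ((eval (fun s => (C (gpt g a s) : MvPolynomial κ ℂ))).comp
      (sumAlgEquiv ℂ (Grp n) κ : MvPolynomial (Grp n ⊕ κ) ℂ →+* _))) =
      eval (Sum.elim (gpt g a) x) := by
    apply MvPolynomial.ringHom_ext
    · intro r
      simp
    · rintro (s | k)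
      · simp
      · simp
  exact congrArg (fun φ => φ F) h

/-- if all specializations lie in a subspace then so do all coefficients -/
lemma coeff_mem_of_spz (Ph : MvPolynomial (Grp n) (MvPolynomial κ ℂ))
    (W : Submodule ℂ (MvPolynomial κ ℂ))
    (h : ∀ g a : Matrix (Fin n) (Fin n) ℂ, g.det ≠ 0 → a.det ≠ 0 → spz Ph g a ∈ W)
    (β : Grp n →₀ ℕ) : coeff β Ph ∈ W := by
  by_contra hne
  obtain ⟨l, hl, hW⟩ := Submodule.exists_le_ker_of_notMem hne
  let p : MvPolynomial (Grp n) ℂ := ∑ β ∈ Ph.support, monomial β (l (coeff β Ph))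
  have hp : p = 0 := by
    apply eq_zero_of_invertible
    intro g a hg ha
    have h1 := hW (h g a hg ha)
    rw [LinearMap.mem_ker, spz_eq_sum, map_sum] at h1
    simp only [p, map_sum, eval_monomial]
    rw [← h1]
    apply Finset.sum_congr rfl
    intro β _
    rw [map_smul, smul_eq_mul, mul_comm, Finsupp.prod]
  have h2 := congrArg (coeff β) hp
  simp only [p, coeff_sum, coeff_monomial, coeff_zero] at h2
  by_cases hβ : β ∈ Ph.support
  · rw [Finset.sum_eq_single β] at h2
    · rw [if_pos rfl] at h2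
      exact hl h2
    · intro γ _ hγ
      rw [if_neg hγ]
    · intro h
      exact absurd hβ h
  · rw [notMem_support_iff.1 hβ] at hne
    exact hne (Submodule.zero_mem _)

lemma exists_decomp (Ph : MvPolynomial (Grp n) (MvPolynomial κ ℂ)) :
    ∃ (N : ℕ) (P : Fin N → MvPolynomial κ ℂ) (q : Fin N → MvPolynomial (Grp n) ℂ),
      LinearIndependent ℂ P ∧
      (∀ g a : Matrix (Fin n) (Fin n) ℂ, spz Ph g a = ∑ i, eval (gpt g a) (q i) • P i) ∧
      (∀ W : Submodule ℂ (MvPolynomial κ ℂ),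
        (∀ g a : Matrix (Fin n) (Fin n) ℂ, g.det ≠ 0 → a.det ≠ 0 → spz Ph g a ∈ W) →
        Submodule.span ℂ (Set.range P) ≤ W) := by
  classical
  let V : Submodule ℂ (MvPolynomial κ ℂ) :=
    Submodule.span ℂ ((Ph.support.image fun β => coeff β Ph : Finset _) : Set _)
  have hfin : FiniteDimensional ℂ V := FiniteDimensional.span_finset ℂ _
  let b := Module.finBasis ℂ V
  have hmem : ∀ β ∈ Ph.support, coeff β Ph ∈ V := fun β hβ =>
    Submodule.subset_span (by
      rw [Finset.coe_image]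
      exact ⟨β, hβ, rfl⟩)
  let cc : (Grp n →₀ ℕ) → V := fun β => if hβ : β ∈ Ph.support then ⟨coeff β Ph, hmem β hβ⟩ else 0
  have hcc : ∀ β ∈ Ph.support, coeff β Ph = ∑ i, b.repr (cc β) i • (b i : MvPolynomial κ ℂ) := by
    intro β hβ
    have h1 := b.sum_repr (cc β)
    have h2 := congrArg (Subtype.val) h1
    rw [Submodule.coe_sum] at h2
    simp only [Submodule.coe_smul] at h2
    rw [h2]
    simp only [cc, dif_pos hβ]
  refine ⟨Module.finrank ℂ V, fun i => (b i : MvPolynomial κ ℂ),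
    fun i => ∑ β ∈ Ph.support, monomial β (b.repr (cc β) i), ?_, ?_, ?_⟩
  · exact b.linearIndependent.map' V.subtype (Submodule.ker_subtype V)
  · intro g a
    rw [spz_eq_sum]
    simp only [map_sum, eval_monomial, Finset.sum_smul]
    rw [Finset.sum_comm]
    apply Finset.sum_congr rfl
    intro β hβ
    conv_lhs => rw [hcc β hβ, Finset.smul_sum]
    apply Finset.sum_congr rfl
    intro i _
    rw [smul_smul, mul_comm, Finsupp.prod]
  · intro W hW
    have h1 : V ≤ W := by
      rw [Submodule.span_le]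
      intro p hp
      rw [Finset.coe_image] at hp
      obtain ⟨β, -, rfl⟩ := hp
      exact coeff_mem_of_spz Ph W hW β
    rw [Submodule.span_le]
    rintro _ ⟨i, rfl⟩
    exact h1 (b i).2

/-- the data obtained from a polynomial which is invariant under the stabilizer -/
lemma exists_data (A : Actn n κ) [A.IsAction] (x₀ : κ → ℂ) (k : ℕ) (P₀ : MvPolynomial κ ℂ)
    (hP₀ : P₀ ∈ orbIdeal A x₀ ^ k)
    (hinv : ∀ s s' : Matrix (Fin n) (Fin n) ℂ, s.det ≠ 0 → s'.det ≠ 0 → A.app x₀ s s' = x₀ →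
      ∀ x : κ → ℂ, eval (A.app x s s') P₀ = eval x P₀) :
    ∃ (M N : ℕ) (P : Fin N → MvPolynomial κ ℂ) (q : Fin N → MvPolynomial (Grp n) ℂ),
      (∀ i, P i ∈ orbIdeal A x₀ ^ k) ∧
      (∀ (x : κ → ℂ) (g a : Matrix (Fin n) (Fin n) ℂ), g.det ≠ 0 → a.det ≠ 0 →
        ∑ i, eval (gpt g a) (q i) * eval (A.app x g a) (P i) =
          (g.det * a.det) ^ M * eval x P₀) ∧
      (∀ i (s s' g a : Matrix (Fin n) (Fin n) ℂ), s.det ≠ 0 → s'.det ≠ 0 → g.det ≠ 0 →
        a.det ≠ 0 → A.app x₀ s s' = x₀ →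
        eval (gpt (s * g) (a * s')) (q i) = (s.det * s'.det) ^ M * eval (gpt g a) (q i)) ∧
      (∀ i (g' a' : Matrix (Fin n) (Fin n) ℂ), g'.det ≠ 0 → a'.det ≠ 0 → ∃ c : Fin N → ℂ,
        ∀ g a : Matrix (Fin n) (Fin n) ℂ, g.det ≠ 0 → a.det ≠ 0 →
          eval (gpt (g * g') (a' * a)) (q i) = ∑ j, c j * eval (gpt g a) (q j)) := by
  classical
  obtain ⟨M, hM⟩ := exists_inv_poly (n := n) (aeval A.pol P₀)
  obtain ⟨F, hF⟩ := hM M le_rfl
  let Ph := sumAlgEquiv ℂ (Grp n) κ F
  obtain ⟨N, P, q, hind, hdec, hspan⟩ := exists_decomp Ph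
  -- specializations
  have happ : ∀ (x : κ → ℂ) (g a : Matrix (Fin n) (Fin n) ℂ),
      eval (Sum.elim (gpt g a) x) (aeval A.pol P₀) = eval (A.app x g a) P₀ := by
    intro x g a
    have h1 : ∀ p : MvPolynomial (Grp n ⊕ κ) ℂ, eval (Sum.elim (gpt g a) x) p =
        aeval (Sum.elim (gpt g a) x) p := fun p => by rw [aeval_eq_eval]
    have h2 : ∀ p : MvPolynomial κ ℂ, eval (A.app x g a) p = aeval (A.app x g a) p := fun p => by
      rw [aeval_eq_eval]
    rw [h1, h2, ← AlgHom.comp_apply, comp_aeval]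
    rfl
  have hE : ∀ g a : Matrix (Fin n) (Fin n) ℂ, g.det ≠ 0 → a.det ≠ 0 →
      spz Ph g a = C ((g.det * a.det) ^ M) * rho A g⁻¹ a⁻¹ P₀ := by
    intro g a hg ha
    apply MvPolynomial.funext
    intro x
    rw [eval_spz, hF g a x hg ha, happ, map_mul, eval_C, eval_rho]
  have hinvdet : ∀ {g : Matrix (Fin n) (Fin n) ℂ}, g.det ≠ 0 → (g⁻¹).det ≠ 0 := by
    intro g hg
    rw [Matrix.det_nonsing_inv, Ring.inverse_eq_inv']
    exact inv_ne_zero hg
  have hunit : ∀ {g : Matrix (Fin n) (Fin n) ℂ}, g.det ≠ 0 → IsUnit g.det := fun hg =>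
    isUnit_iff_ne_zero.2 hg
  -- uniqueness of coefficients
  have huniq : ∀ u v : Fin N → ℂ, ∑ i, u i • P i = ∑ i, v i • P i → u = v := by
    intro u v huv
    funext i
    have h1 : ∑ i, (u i - v i) • P i = 0 := by
      simp only [sub_smul, Finset.sum_sub_distrib]
      rw [huv, sub_self]
    have h2 := Fintype.linearIndependent_iff.1 hind _ h1 i
    exact sub_eq_zero.1 h2
  refine ⟨M, N, P, q, ?_, ?_, ?_, ?_⟩
  · intro i
    have h1 := hspan ((orbIdeal A x₀ ^ k).restrictScalars ℂ) (by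
      intro g a hg ha
      rw [hE g a hg ha, Submodule.restrictScalars_mem]
      exact Ideal.mul_mem_left _ _ (rho_mem_orbIdeal_pow A (hinvdet hg) (hinvdet ha) hP₀))
    exact h1 (Submodule.subset_span ⟨i, rfl⟩)
  · intro x g a hg ha
    have h1 := congrArg (eval (A.app x g a)) (hdec g a)
    rw [hE g a hg ha, map_sum, map_mul, eval_C, eval_rho, A.app_app,
      Matrix.mul_nonsing_inv _ (hunit hg), Matrix.nonsing_inv_mul _ (hunit ha), A.app_one] at h1
    simp only [smul_eval] at h1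
    exact h1.symm
  · intro i s s' g a hs hs' hg ha hst
    have h1 : spz Ph (s * g) (a * s') = (s.det * s'.det) ^ M • spz Ph g a := by
      have hsg : (s * g).det ≠ 0 := by rw [Matrix.det_mul]; exact mul_ne_zero hs hg
      have has : (a * s').det ≠ 0 := by rw [Matrix.det_mul]; exact mul_ne_zero ha hs'
      have e1 : ((s * g).det * (a * s').det) ^ M =
          (s.det * s'.det) ^ M * (g.det * a.det) ^ M := by
        rw [Matrix.det_mul, Matrix.det_mul]
        ring
      have e2 : rho A (s * g)⁻¹ (a * s')⁻¹ P₀ = rho A g⁻¹ a⁻¹ P₀ := by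
        apply MvPolynomial.funext
        intro x
        rw [eval_rho, eval_rho, Matrix.mul_inv_rev, Matrix.mul_inv_rev, ← A.app_app]
        apply hinv _ _ (hinvdet hs) (hinvdet hs')
        have h2 := A.app_app x₀ s s' s⁻¹ s'⁻¹
        rw [Matrix.mul_nonsing_inv _ (hunit hs), Matrix.nonsing_inv_mul _ (hunit hs'), A.app_one,
          hst] at h2
        exact h2
      rw [hE _ _ hsg has, hE _ _ hg ha, e1, e2, smul_eq_C_mul, C_mul, mul_assoc]
    rw [hdec, hdec, Finset.smul_sum] at h1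
    simp only [smul_smul] at h1
    exact congrFun (huniq _ _ h1) i
  · intro i g' a' hg' ha'
    -- the translates of `P j` lie in the span of the `P i`
    have hstab : Submodule.span ℂ (Set.range P) ≤
        (Submodule.span ℂ (Set.range P)).comap (rho A g'⁻¹ a'⁻¹).toLinearMap := by
      apply hspan
      intro g a hg ha
      rw [Submodule.mem_comap, AlgHom.toLinearMap_apply, hE g a hg ha, map_mul, rho_rho]
      have hgg : (g * g').det ≠ 0 := by rw [Matrix.det_mul]; exact mul_ne_zero hg hg'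
      have haa : (a' * a).det ≠ 0 := by rw [Matrix.det_mul]; exact mul_ne_zero ha' ha
      have h1 := hE _ _ hgg haa
      rw [Matrix.mul_inv_rev, Matrix.mul_inv_rev] at h1
      have h3 : (g'.det * a'.det) ^ M ≠ 0 := pow_ne_zero _ (mul_ne_zero hg' ha')
      have e1 : ((g * g').det * (a' * a).det) ^ M =
          (g'.det * a'.det) ^ M * (g.det * a.det) ^ M := by
        rw [Matrix.det_mul, Matrix.det_mul]
        ring
      have e3 : rho A g'⁻¹ a'⁻¹ (C ((g.det * a.det) ^ M)) = C ((g.det * a.det) ^ M) := by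
        rw [← algebraMap_eq, AlgHom.commutes]
      have h2 : rho A g'⁻¹ a'⁻¹ (C ((g.det * a.det) ^ M)) * rho A (g'⁻¹ * g⁻¹) (a⁻¹ * a'⁻¹) P₀ =
          ((g'.det * a'.det) ^ M)⁻¹ • spz Ph (g * g') (a' * a) := by
        rw [h1, e1, e3, smul_eq_C_mul, C_mul, ← mul_assoc, ← mul_assoc, ← C_mul,
          inv_mul_cancel₀ h3, C_1, one_mul]
      rw [h2, hdec]
      apply Submodule.smul_mem
      apply Submodule.sum_mem
      intro i _
      exact Submodule.smul_mem _ _ (Submodule.subset_span ⟨i, rfl⟩)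
    have hT : ∀ j, ∃ T : Fin N → ℂ, rho A g'⁻¹ a'⁻¹ (P j) = ∑ i, T i • P i := by
      intro j
      have h1 : rho A g'⁻¹ a'⁻¹ (P j) ∈ Submodule.span ℂ (Set.range P) :=
        hstab (Submodule.subset_span ⟨j, rfl⟩)
      obtain ⟨T, hT⟩ := (Submodule.mem_span_range_iff_exists_fun ℂ).1 h1
      exact ⟨T, hT.symm⟩
    choose T hT using hT
    refine ⟨fun j => (g'.det * a'.det) ^ M * T j i, ?_⟩
    intro g a hg ha
    have hgg : (g * g').det ≠ 0 := by rw [Matrix.det_mul]; exact mul_ne_zero hg hg'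
    have haa : (a' * a).det ≠ 0 := by rw [Matrix.det_mul]; exact mul_ne_zero ha' ha
    have h1 : spz Ph (g * g') (a' * a) =
        (g'.det * a'.det) ^ M • rho A g'⁻¹ a'⁻¹ (spz Ph g a) := by
      have e1 : ((g * g').det * (a' * a).det) ^ M =
          (g'.det * a'.det) ^ M * (g.det * a.det) ^ M := by
        rw [Matrix.det_mul, Matrix.det_mul]
        ring
      have e3 : rho A g'⁻¹ a'⁻¹ (C ((g.det * a.det) ^ M)) = C ((g.det * a.det) ^ M) := by
        rw [← algebraMap_eq, AlgHom.commutes]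
      rw [hE _ _ hgg haa, hE _ _ hg ha, map_mul, rho_rho, Matrix.mul_inv_rev, Matrix.mul_inv_rev,
        e1, e3, smul_eq_C_mul, C_mul, mul_assoc]
    rw [hdec, hdec, map_sum] at h1
    simp only [map_smul, hT, Finset.smul_sum, smul_smul] at h1
    rw [Finset.sum_comm] at h1
    simp only [← Finset.sum_smul] at h1
    have h2 := congrFun (huniq _ _ h1) i
    rw [h2]
    apply Finset.sum_congr rfl
    intro j _
    ring

end EK

end Pool.Agent.Lib.MP_4fcc12_ag
end

section
/-!
# Module EK5: invariants with prescribed leading form along a closed orbit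
-/
open MvPolynomial Matrix

set_option linter.unusedSectionVars false

namespace Pool.Agent.Lib.MP_4fcc12_ag

namespace EK

variable {n : ℕ} {κ : Type}

lemma eq_zero_of_invertible' (p : MvPolynomial (Grp n ⊕ κ) ℂ)
    (h : ∀ (g a : Matrix (Fin n) (Fin n) ℂ) (x : κ → ℂ), g.det ≠ 0 → a.det ≠ 0 →
      eval (Sum.elim (gpt g a) x) p = 0) : p = 0 := by
  have h1 : p * rename Sum.inl (dd (n := n) ℂ 1 1) = 0 := by
    apply MvPolynomial.funext
    intro y
    let g : Matrix (Fin n) (Fin n) ℂ := Matrix.of fun i j => y (Sum.inl (Sum.inl (i, j)))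
    let a : Matrix (Fin n) (Fin n) ℂ := Matrix.of fun i j => y (Sum.inl (Sum.inr (i, j)))
    have hy : y = Sum.elim (gpt g a) (fun k => y (Sum.inr k)) := by
      funext s
      rcases s with (⟨i, j⟩ | ⟨i, j⟩) | k <;> rfl
    have hy2 : y ∘ Sum.inl = gpt g a := by
      funext s
      rcases s with ⟨i, j⟩ | ⟨i, j⟩ <;> rfl
    rw [map_mul, map_zero, eval_rename, hy2, eval_dd]
    by_cases hg : g.det = 0
    · rw [hg]; ring
    by_cases ha : a.det = 0
    · rw [ha]; ring
    rw [hy, h g a _ hg ha, zero_mul]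
  refine (mul_eq_zero.1 h1).resolve_right ?_
  exact (map_ne_zero_iff _ (rename_injective _ Sum.inl_injective)).2 (dd_ne_zero _ _ _)

lemma gpt_generic (R : Type*) [CommRing R] : gpt (gX n R) (aX n R) = X := by
  funext s
  rcases s with ⟨i, j⟩ | ⟨i, j⟩ <;> rfl

section

variable (A : Actn n κ) {R : Type} [CommRing R] [Algebra ℂ R] (x : κ → R)

/-- `P ↦ P (x h)` with `h` generic -/
noncomputable def DD : MvPolynomial κ ℂ →ₐ[ℂ] MvPolynomial (Grp n) R :=
  aeval (A.app (fun k => C (x k)) (gX n R) (aX n R))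

lemma map_DD {S : Type} [CommRing S] [Algebra ℂ S] (φ : R →ₐ[ℂ] S) (P : MvPolynomial κ ℂ) :
    MvPolynomial.mapAlgHom φ (DD A x P) = DD A (φ ∘ x) P := by
  have h1 := A.map_app (MvPolynomial.mapAlgHom (σ := Grp n) φ) (fun k => C (x k)) (gX n R)
    (aX n R)
  have hg : (gX n R).map (MvPolynomial.mapAlgHom (σ := Grp n) φ) = gX n S :=
    map_gX (φ : R →+* S)
  have ha : (aX n R).map (MvPolynomial.mapAlgHom (σ := Grp n) φ) = aX n S :=
    map_aX (φ : R →+* S)
  have hx : (MvPolynomial.mapAlgHom (σ := Grp n) φ) ∘ (fun k => C (x k)) =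
      fun k => C ((φ ∘ x) k) := by
    funext k
    simp
  rw [hg, ha, hx] at h1
  rw [DD, DD, ← AlgHom.comp_apply, comp_aeval, ← h1]
  rfl

lemma eval_DD (x₀ : κ → ℂ) (g a : Matrix (Fin n) (Fin n) ℂ) (P : MvPolynomial κ ℂ) :
    eval (gpt g a) (DD A x₀ P) = eval (A.app x₀ g a) P := by
  have h1 := A.map_app (aeval (gpt g a) : MvPolynomial (Grp n) ℂ →ₐ[ℂ] ℂ)
    (fun k => C (x₀ k)) (gX n ℂ) (aX n ℂ)
  have hg : (gX n ℂ).map (aeval (gpt g a) : MvPolynomial (Grp n) ℂ →ₐ[ℂ] ℂ) = g := by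
    ext i j
    simp [gX, gpt]
  have ha : (aX n ℂ).map (aeval (gpt g a) : MvPolynomial (Grp n) ℂ →ₐ[ℂ] ℂ) = a := by
    ext i j
    simp [aX, gpt]
  have hx : (aeval (gpt g a) : MvPolynomial (Grp n) ℂ →ₐ[ℂ] ℂ) ∘ (fun k => C (x₀ k)) = x₀ := by
    funext k
    simp
  rw [hg, ha, hx] at h1
  have h2 : ∀ p : MvPolynomial (Grp n) ℂ, eval (gpt g a) p = aeval (gpt g a) p := fun p => by
    rw [aeval_eq_eval]
  have h3 : ∀ p : MvPolynomial κ ℂ, eval (A.app x₀ g a) p = aeval (A.app x₀ g a) p := fun p => by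
    rw [aeval_eq_eval]
  rw [h2, h3, DD, ← AlgHom.comp_apply, comp_aeval, ← h1]
  rfl

lemma DD_orbIdeal (x₀ : κ → ℂ) {P : MvPolynomial κ ℂ} (hP : P ∈ orbIdeal A x₀) :
    DD A x₀ P = 0 := by
  apply eq_zero_of_invertible
  intro g a hg ha
  rw [eval_DD]
  exact hP g a hg ha

/-- transport of polynomial identities from complex points -/
lemma identity_transport {N M : ℕ} (P : Fin N → MvPolynomial κ ℂ)
    (q : Fin N → MvPolynomial (Grp n) ℂ) (P₀ : MvPolynomial κ ℂ)
    (hid : ∀ (x : κ → ℂ) (g a : Matrix (Fin n) (Fin n) ℂ), g.det ≠ 0 → a.det ≠ 0 →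
        ∑ i, eval (gpt g a) (q i) * eval (A.app x g a) (P i) =
          (g.det * a.det) ^ M * eval x P₀) :
    ∑ i, MvPolynomial.mapAlgHom (Algebra.ofId ℂ R) (q i) * DD A x (P i) =
      dd R 1 1 ^ M * C (aeval x P₀) := by
  have h1 : ∑ i, rename Sum.inl (q i) * aeval A.pol (P i) -
      (rename Sum.inl (dd (n := n) ℂ 1 1)) ^ M * rename Sum.inr P₀ = 0 := by
    apply eq_zero_of_invertible'
    intro g a y hg ha
    rw [map_sub, map_sum, map_mul, map_pow, eval_rename, eval_rename, sub_eq_zero]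
    have e1 : (Sum.elim (gpt g a) y) ∘ Sum.inl = gpt g a := rfl
    have e2 : (Sum.elim (gpt g a) y) ∘ Sum.inr = y := rfl
    have e3 : ∀ p : MvPolynomial κ ℂ, eval (Sum.elim (gpt g a) y) (aeval A.pol p) =
        eval (A.app y g a) p := by
      intro p
      have h1 : ∀ p : MvPolynomial (Grp n ⊕ κ) ℂ, eval (Sum.elim (gpt g a) y) p =
          aeval (Sum.elim (gpt g a) y) p := fun p => by rw [aeval_eq_eval]
      have h2 : ∀ p : MvPolynomial κ ℂ, eval (A.app y g a) p = aeval (A.app y g a) p :=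
        fun p => by rw [aeval_eq_eval]
      rw [h1, h2, ← AlgHom.comp_apply, comp_aeval]
      rfl
    rw [e1, e2, eval_dd, pow_one, pow_one, ← hid y g a hg ha]
    apply Finset.sum_congr rfl
    intro i _
    rw [map_mul, eval_rename, e1, e3]
  let Θ : MvPolynomial (Grp n ⊕ κ) ℂ →ₐ[ℂ] MvPolynomial (Grp n) R :=
    aeval (Sum.elim (gpt (gX n R) (aX n R)) (fun k => C (x k)))
  have hΘ1 : ∀ p : MvPolynomial (Grp n) ℂ, Θ (rename Sum.inl p) =
      MvPolynomial.mapAlgHom (Algebra.ofId ℂ R) p := by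
    intro p
    have : Θ.comp (rename Sum.inl) = MvPolynomial.mapAlgHom (Algebra.ofId ℂ R) := by
      apply MvPolynomial.algHom_ext
      intro s
      rcases s with ⟨i, j⟩ | ⟨i, j⟩ <;> simp [Θ, gpt, gX, aX]
    exact congrArg (fun φ => φ p) this
  have hΘ2 : ∀ p : MvPolynomial κ ℂ, Θ (aeval A.pol p) = DD A x p := by
    intro p
    rw [← AlgHom.comp_apply, comp_aeval]
    rfl
  have hΘ3 : Θ (rename Sum.inr P₀) = C (aeval x P₀) := by
    rw [← Actn.aeval_C_comp]
    have : Θ.comp (rename Sum.inr) = aeval (fun k => C (x k)) := by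
      apply MvPolynomial.algHom_ext
      intro k
      simp [Θ]
    exact congrArg (fun φ => φ P₀) this
  have hdd : MvPolynomial.mapAlgHom (Algebra.ofId ℂ R) (dd (n := n) ℂ 1 1) = dd R 1 1 :=
    map_dd (algebraMap ℂ R) 1 1
  have h2 := congrArg Θ h1
  rw [map_sub, map_sum, map_mul, map_pow, hΘ1, hΘ3, map_zero, sub_eq_zero, hdd] at h2
  rw [← h2]
  apply Finset.sum_congr rfl
  intro i _
  rw [map_mul, hΘ1, hΘ2]

end

end EK

open EK

/-- MODULE EK5 -/
theorem statementEK5 (h : StatementFR) : StatementEK5 := by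
  intro n κ _ A _ Δ r₁ r₂ hΔ x₀ hx₀ hcl k P₀ hP₀ hinv
  obtain ⟨M, N, P, q, hPk, hid, hleft, hright⟩ := exists_data A x₀ k P₀ hP₀ hinv
  obtain ⟨m, Q, hQ⟩ := h n κ A Δ r₁ r₂ hΔ x₀ hx₀ hcl (Fin N) q M hleft hright
  let Pstar := ∑ i, Q i * P i
  refine ⟨m, A.rey (m * r₁) (m * r₂) 0 0 Pstar, ?_, ?_⟩
  · exact A.semi_rey (m * r₁) (m * r₂) 0 0 Pstar (Nat.zero_le _) (Nat.zero_le _)
  intro y
  set x : κ → Polynomial ℂ := fun j => Polynomial.C (x₀ j) + Polynomial.X * Polynomial.C (y j)
    with hx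
  let ε : MvPolynomial (Grp n) (Polynomial ℂ) := C Polynomial.X
  let ι : MvPolynomial (Grp n) ℂ →ₐ[ℂ] MvPolynomial (Grp n) (Polynomial ℂ) :=
    MvPolynomial.mapAlgHom (Algebra.ofId ℂ (Polynomial ℂ))
  let π : MvPolynomial (Grp n) (Polynomial ℂ) →ₐ[ℂ] MvPolynomial (Grp n) ℂ :=
    MvPolynomial.mapAlgHom (Polynomial.aeval (0 : ℂ))
  have hπι : ∀ p, π (ι p) = p := by
    intro p
    have : π.comp ι = AlgHom.id ℂ _ := by
      apply MvPolynomial.algHom_ext
      intro s
      simp [π, ι]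
    exact congrArg (fun φ => φ p) this
  have hπD : ∀ p, π (DD A x p) = DD A x₀ p := by
    intro p
    have h1 := map_DD A x (Polynomial.aeval (0 : ℂ)) p
    have h2 : (Polynomial.aeval (0 : ℂ) : Polynomial ℂ →ₐ[ℂ] ℂ) ∘ x = x₀ := by
      funext j
      simp [hx]
    rw [h2] at h1
    exact h1
  have hπε : π ε = 0 := by simp [π, ε]
  have hker : ∀ z, π z = 0 → ε ∣ z := by
    intro z hz
    rw [C_dvd_iff_dvd_coeff]
    intro β
    rw [Polynomial.X_dvd_iff]
    have h1 := congrArg (coeff β) hz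
    have h2 : coeff β (π z) = Polynomial.aeval (0 : ℂ) (coeff β z) := by
      simp [π, coeff_map]
    rw [h2, coeff_zero] at h1
    rw [Polynomial.coeff_zero_eq_eval_zero]
    simpa using h1
  have hεprime : Prime ε := by
    rw [MvPolynomial.prime_C_iff]
    exact Polynomial.prime_X
  -- divisibility of `D (P i)`
  have hdvdP : ∀ i, ε ^ k ∣ DD A x (P i) := by
    intro i
    have h1 : (orbIdeal A x₀ ^ k).map (DD A x) ≤ Ideal.span {ε ^ k} := by
      rw [Ideal.map_pow, ← Ideal.span_singleton_pow]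
      apply Ideal.pow_right_mono
      rw [Ideal.map_le_iff_le_comap]
      intro p hp
      rw [Ideal.mem_comap, Ideal.mem_span_singleton]
      apply hker
      rw [hπD, DD_orbIdeal A x₀ hp]
    exact Ideal.mem_span_singleton.1 (h1 (Ideal.mem_map_of_mem _ (hPk i)))
  have hQi : ∀ i, ∃ w, DD A x (Q i) = ι (DD A x₀ (Q i)) + ε * w := by
    intro i
    obtain ⟨w, hw⟩ := hker (DD A x (Q i) - ι (DD A x₀ (Q i))) (by
      rw [map_sub, hπι, hπD, sub_self])
    exact ⟨w, by rw [← hw]; ring⟩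
  choose w hw using hQi
  -- the identity from FR
  have hI1 : ∀ i, DD A x₀ (Q i) * dd ℂ 1 1 ^ M = q i * DD A x₀ Δ ^ m := by
    intro i
    rw [← sub_eq_zero]
    apply eq_zero_of_invertible
    intro g a hg ha
    rw [map_sub, map_mul, map_mul, map_pow, map_pow, eval_DD, eval_DD, eval_dd, pow_one, pow_one,
      hQ i g a hg ha, sub_self]
  have hιdd : ι (dd ℂ 1 1) = dd (Polynomial ℂ) 1 1 := map_dd (algebraMap ℂ (Polynomial ℂ)) 1 1
  have hI2 := identity_transport A x P q P₀ hid
  -- the main computation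
  let z := DD A x Pstar - ι (DD A x₀ Δ) ^ m * C (aeval x P₀)
  have hz : ε ^ (k + 1) ∣ dd (Polynomial ℂ) 1 1 ^ M * z := by
    have h1 : dd (Polynomial ℂ) 1 1 ^ M * z =
        ∑ i, dd (Polynomial ℂ) 1 1 ^ M * (ε * w i) * DD A x (P i) := by
      have h2 : dd (Polynomial ℂ) 1 1 ^ M * DD A x Pstar =
          ι (DD A x₀ Δ) ^ m * (∑ i, ι (q i) * DD A x (P i)) +
            ∑ i, dd (Polynomial ℂ) 1 1 ^ M * (ε * w i) * DD A x (P i) := by
        rw [Finset.mul_sum, ← Finset.sum_add_distrib]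
        simp only [Pstar, map_sum, map_mul, Finset.mul_sum]
        apply Finset.sum_congr rfl
        intro i _
        have h3 : ι (DD A x₀ (Q i)) * dd (Polynomial ℂ) 1 1 ^ M =
            ι (q i) * ι (DD A x₀ Δ) ^ m := by
          rw [← hιdd, ← map_pow, ← map_mul, hI1 i, map_mul, map_pow]
        rw [hw i]
        linear_combination (DD A x (P i)) * h3
      rw [mul_sub, h2]
      have h4 : ∑ i, ι (q i) * DD A x (P i) = dd (Polynomial ℂ) 1 1 ^ M * C (aeval x P₀) := hI2
      rw [h4]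
      ring
    rw [h1]
    apply Finset.dvd_sum
    intro i _
    obtain ⟨v, hv⟩ := hdvdP i
    rw [hv]
    exact ⟨dd (Polynomial ℂ) 1 1 ^ M * w i * v, by ring⟩
  have hndvd : ¬ ε ∣ dd (Polynomial ℂ) 1 1 ^ M := by
    rintro ⟨v, hv⟩
    have h1 := congrArg π hv
    rw [← hιdd, ← map_pow, hπι, map_mul, hπε, zero_mul] at h1
    exact pow_ne_zero _ (dd_ne_zero _ _ _) h1
  obtain ⟨z', hz'⟩ := hεprime.pow_dvd_of_dvd_mul_left (k + 1) hndvd hz
  -- conclusion
  have hDΔ : DD A x₀ Δ = dd ℂ r₁ r₂ * C (eval x₀ Δ) := by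
    have h1 := hΔ (R := MvPolynomial (Grp n) ℂ) (fun k => C (x₀ k)) (gX n ℂ) (aX n ℂ)
    rw [Actn.aeval_C_comp] at h1
    have h2 : aeval x₀ Δ = eval x₀ Δ := by rw [aeval_eq_eval]
    rw [h2] at h1
    exact h1
  have hpow : ι (DD A x₀ Δ) ^ m = dd (Polynomial ℂ) (m * r₁) (m * r₂) *
      C (Polynomial.C (eval x₀ Δ ^ m)) := by
    have h1 : ι (dd ℂ r₁ r₂) = dd (Polynomial ℂ) r₁ r₂ := map_dd (algebraMap ℂ (Polynomial ℂ)) _ _
    have h2 : ι (C (eval x₀ Δ)) = C (Polynomial.C (eval x₀ Δ)) := by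
      simp [ι]
    rw [hDΔ, map_mul, h1, h2, mul_pow, ← C_pow, ← Polynomial.C_pow]
    congr 1
    rw [dd, dd, mul_pow, ← pow_mul, ← pow_mul, mul_comm r₁, mul_comm r₂]
  have hDP : DD A x Pstar = (Polynomial.X ^ (k + 1) : Polynomial ℂ) • z' +
      (Polynomial.C (eval x₀ Δ ^ m) * aeval x P₀) • dd (Polynomial ℂ) (m * r₁) (m * r₂) := by
    have h1 : DD A x Pstar = z + ι (DD A x₀ Δ) ^ m * C (aeval x P₀) := by
      simp only [z]
      ring
    rw [h1, hz', hpow, smul_eq_C_mul, smul_eq_C_mul, C_mul, C_pow]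
    ring
  have hfinal : aeval x (A.rey (m * r₁) (m * r₂) 0 0 Pstar) =
      Polynomial.X ^ (k + 1) * Lam (m * r₁) (m * r₂) z' +
        Polynomial.C (eval x₀ Δ ^ m) * aeval x P₀ := by
    rw [A.aeval_rey]
    have h1 : dd (n := n) (Polynomial ℂ) 0 0 = 1 := by simp [dd]
    rw [h1, one_mul]
    have h2 : aeval (A.app (fun k => C (x k)) (gX n (Polynomial ℂ)) (aX n (Polynomial ℂ))) Pstar =
        DD A x Pstar := rfl
    rw [h2, hDP, map_add, map_smul, map_smul, Lam_dd, smul_eq_mul, smul_eq_mul, mul_one]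
  rw [hfinal]
  exact ⟨Lam (m * r₁) (m * r₂) z', by ring⟩

end Pool.Agent.Lib.MP_4fcc12_ag
end

section
/-!
Module ORB: points of the closure of an orbit are reductions of points of the orbit over
valuation rings.
-/
open MvPolynomial Matrix

namespace Pool.Agent.Lib.MP_4fcc12_ag

/-- If the only polynomials without constant term never take the value `1` at `z`, then some
valuation ring has all `z k` in its maximal ideal. -/
lemma exists_valuation_lt_one {κ : Type*} {L : Type*} [Field L] [Algebra ℂ L] (z : κ → L)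
    (hz : ∀ P : MvPolynomial κ ℂ, eval 0 P = 0 → aeval z P ≠ 1) :
    ∃ O : ValuationSubring L, (∀ c : ℂ, algebraMap ℂ L c ∈ O) ∧ ∀ k, O.valuation (z k) < 1 := by
  let φ : MvPolynomial κ ℂ →ₐ[ℂ] L := aeval z
  let I : Ideal φ.toRingHom.range :=
    Ideal.map φ.toRingHom.rangeRestrict (RingHom.ker (eval (0 : κ → ℂ)))
  have hI : I ≠ ⊤ := by
    intro h
    have h1 : (1 : φ.toRingHom.range) ∈ I := by rw [h]; trivial
    rw [Ideal.mem_map_iff_of_surjective _ φ.toRingHom.rangeRestrict_surjective] at h1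
    obtain ⟨P, hP, hP1⟩ := h1
    refine hz P hP ?_
    exact congrArg Subtype.val hP1
  obtain ⟨O, hO, hO'⟩ := Ideal.image_subset_nonunits_valuationSubring I hI
  refine ⟨O, fun c => hO ⟨C c, φ.commutes c⟩, fun k => ?_⟩
  rw [← ValuationSubring.mem_nonunits_iff]
  apply hO'
  refine ⟨φ.toRingHom.rangeRestrict (X k), ?_, ?_⟩
  · apply Ideal.mem_map_of_mem
    rw [RingHom.mem_ker, eval_X]
    rfl
  · show φ (X k) = z k
    exact aeval_X z k

/-- MODULE ORB. -/
theorem statementORB : StatementORB := by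
  intro n κ _ A _ x₀ y hy
  let T := MvPolynomial (Grp n) ℂ
  let F := FractionRing T
  let L := AlgebraicClosure F
  let ι : T →ₐ[ℂ] L := (IsScalarTower.toAlgHom ℂ F L).comp (IsScalarTower.toAlgHom ℂ T F)
  have hι : Function.Injective ι := by
    have h1 : Function.Injective (algebraMap T F) := IsFractionRing.injective T F
    have h2 : Function.Injective (algebraMap F L) := (algebraMap F L).injective
    exact h2.comp h1
  have hdg : (gX n ℂ).det ≠ 0 := by
    intro h
    have h1 := dd_ne_zero (n := n) ℂ 1 0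
    rw [dd, h] at h1
    simp at h1
  have hda : (aX n ℂ).det ≠ 0 := by
    intro h
    have h1 := dd_ne_zero (n := n) ℂ 0 1
    rw [dd, h] at h1
    simp at h1
  have hdet : ∀ M : Matrix (Fin n) (Fin n) T, M.det ≠ 0 → (M.map ι).det ≠ 0 := by
    intro M hM h
    have h1 : ι M.det = (M.map ι).det := AlgHom.map_det ι M
    rw [h, ← map_zero ι] at h1
    exact hM (hι h1)
  -- the generic point of the orbit
  let w : κ → T := A.app (fun j => (C (x₀ j) : T)) (gX n ℂ) (aX n ℂ)
  have hw : ∀ k, ι (w k) = A.app (fun j => algebraMap ℂ L (x₀ j)) ((gX n ℂ).map ι)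
      ((aX n ℂ).map ι) k := by
    intro k
    have h1 := congrFun (A.map_app ι (fun j => (C (x₀ j) : T)) (gX n ℂ) (aX n ℂ)) k
    have h2 : (ι ∘ fun j => (C (x₀ j) : T)) = fun j => algebraMap ℂ L (x₀ j) := by
      funext j
      exact ι.commutes (x₀ j)
    rw [h2] at h1
    exact h1
  have hweval : ∀ (g a : Matrix (Fin n) (Fin n) ℂ) (k : κ),
      eval (gpt g a) (w k) = A.app x₀ g a k := by
    intro g a k
    have h1 := congrFun (A.map_app (aeval (gpt g a) : T →ₐ[ℂ] ℂ) (fun j => (C (x₀ j) : T))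
      (gX n ℂ) (aX n ℂ)) k
    have h2 : ((aeval (gpt g a) : T →ₐ[ℂ] ℂ) ∘ fun j => (C (x₀ j) : T)) = x₀ := by
      funext j
      exact aeval_C _ _
    have h3 : (gX n ℂ).map (aeval (gpt g a) : T →ₐ[ℂ] ℂ) = g := by
      ext i j
      simp [gX, gpt]
    have h4 : (aX n ℂ).map (aeval (gpt g a) : T →ₐ[ℂ] ℂ) = a := by
      ext i j
      simp [aX, gpt]
    rw [h2, h3, h4] at h1
    exact h1
  obtain ⟨O, hO, hO'⟩ := exists_valuation_lt_one (fun k => ι (w k - C (y k))) (by
    intro P hP hP1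
    -- the polynomial `P (X - y) - 1` vanishes on the orbit
    let Q : MvPolynomial κ ℂ := aeval (fun k => X k - C (y k)) P - 1
    have hQ : Q ∈ orbIdeal A x₀ := by
      intro g a _ _
      have h1 : aeval (fun k => w k - C (y k)) P = (1 : T) := by
        apply hι
        rw [map_one, ← hP1, ← AlgHom.comp_apply, comp_aeval]
      have h2 := congrArg (eval (gpt g a)) h1
      rw [map_one] at h2
      have h3 : eval (A.app x₀ g a) Q = eval (gpt g a) (aeval (fun k => w k - C (y k)) P) - 1 := by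
        show eval (A.app x₀ g a) (aeval (fun k => X k - C (y k)) P - 1) = _
        rw [map_sub, map_one]
        congr 1
        have h4 : ((aeval (A.app x₀ g a) : MvPolynomial κ ℂ →ₐ[ℂ] ℂ).comp
            (aeval fun k => X k - C (y k))) =
            (aeval (gpt g a) : T →ₐ[ℂ] ℂ).comp (aeval (fun k => w k - C (y k))) := by
          apply MvPolynomial.algHom_ext
          intro k
          have h5 := hweval g a k
          rw [← coe_aeval_eq_eval] at h5
          simp only [AlgHom.comp_apply, aeval_X, map_sub, aeval_C]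
          rw [show (aeval (gpt g a)) (w k) = A.app x₀ g a k from h5]
        exact congrArg (fun ψ => ψ P) h4
      rw [h3, h2, sub_self]
    have h6 := hy Q hQ
    have h7 : eval y Q = -1 := by
      show eval y (aeval (fun k => X k - C (y k)) P - 1) = -1
      rw [map_sub, map_one]
      have h8 : ((aeval y : MvPolynomial κ ℂ →ₐ[ℂ] ℂ).comp
          (aeval fun k => X k - C (y k))) = aeval (0 : κ → ℂ) := by
        apply MvPolynomial.algHom_ext
        intro k
        simp
      have h9 : eval y (aeval (fun k => X k - C (y k)) P) = eval 0 P :=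
        congrArg (fun ψ => ψ P) h8
      rw [h9, hP, zero_sub]
    rw [h7] at h6
    exact one_ne_zero (neg_eq_zero.1 h6))
  refine ⟨L, inferInstance, inferInstance, inferInstance, O, (gX n ℂ).map ι, (aX n ℂ).map ι, hO,
    hdet _ hdg, hdet _ hda, fun k => ?_⟩
  have h1 := hO' k
  rw [map_sub, hw] at h1
  have h2 : ι (C (y k)) = algebraMap ℂ L (y k) := ι.commutes (y k)
  rw [h2] at h1
  exact h1

end Pool.Agent.Lib.MP_4fcc12_ag
end

section
/-!
Module GF: the stabilizer of a nondegenerate form is finite.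

If it were infinite, an ultrapower `K` of `ℂ` would contain a matrix in the stabilizer with an
entry which is not in `ℂ`; that entry is transcendental over `ℂ` and hence is not contained in
some valuation ring of `K` over `ℂ`, which contradicts the valuative statement `properP`.
-/
open MvPolynomial Matrix Filter

namespace Pool.Agent.Lib.MP_4fcc12_ag

namespace Stab

/-- an element of a field over `ℂ` which belongs to all valuation rings over `ℂ` is in `ℂ` -/
lemma mem_range_of_forall_valuationSubring {K : Type*} [Field K] [Algebra ℂ K] (x : K)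
    (h : ∀ O : ValuationSubring K, (∀ c : ℂ, algebraMap ℂ K c ∈ O) → x ∈ O) :
    ∃ c : ℂ, algebraMap ℂ K c = x := by
  by_cases halg : IsIntegral ℂ x
  · have h1 := IsAlgClosed.degree_eq_one_of_irreducible ℂ (minpoly.irreducible halg)
    exact (minpoly.degree_eq_one_iff).1 h1
  · exfalso
    have hx0 : x ≠ 0 := by
      rintro rfl
      exact halg isIntegral_zero
    obtain ⟨O, hO, hO'⟩ := exists_valuation_lt_one (κ := Unit) (fun _ => x⁻¹) (by
      intro P hP hP1
      apply halg
      rw [← isAlgebraic_iff_isIntegral]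
      have h1 : IsAlgebraic ℂ x⁻¹ := by
        let Q : Polynomial ℂ := MvPolynomial.aeval (fun _ : Unit => (Polynomial.X : Polynomial ℂ)) P
        have hQ : ∀ (F : Type _) [Field F] [Algebra ℂ F] (z : F), Polynomial.aeval z Q =
            MvPolynomial.aeval (fun _ : Unit => z) P := by
          intro F _ _ z
          have h2 : (Polynomial.aeval z).comp
              (MvPolynomial.aeval (fun _ : Unit => (Polynomial.X : Polynomial ℂ))) =
              (MvPolynomial.aeval (fun _ : Unit => z) : MvPolynomial Unit ℂ →ₐ[ℂ] F) := by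
            apply MvPolynomial.algHom_ext
            intro i
            simp
          exact congrArg (fun ψ => ψ P) h2
        refine ⟨Q - 1, ?_, ?_⟩
        · intro h0
          have h3 : Q = 1 := sub_eq_zero.1 h0
          have h4 : Polynomial.aeval (0 : ℂ) Q = MvPolynomial.aeval (fun _ : Unit => (0 : ℂ)) P := by
            have h2 : (Polynomial.aeval (0 : ℂ)).comp
                (MvPolynomial.aeval (fun _ : Unit => (Polynomial.X : Polynomial ℂ))) =
                (MvPolynomial.aeval (fun _ : Unit => (0 : ℂ)) : MvPolynomial Unit ℂ →ₐ[ℂ] ℂ) := by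
              apply MvPolynomial.algHom_ext
              intro i
              simp
            exact congrArg (fun ψ => ψ P) h2
          rw [h3, map_one] at h4
          have h5 : MvPolynomial.aeval (fun _ : Unit => (0 : ℂ)) P = (0 : ℂ) := hP
          rw [h5] at h4
          exact one_ne_zero h4
        · rw [map_sub, map_one, hQ, hP1, sub_self]
      have h6 := h1.inv
      rwa [inv_inv] at h6)
    have h1 := hO' ()
    have h2 := (O.valuation_le_one_iff x).2 (h O hO)
    rw [map_inv₀] at h1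
    have h3 : O.valuation x ≠ 0 := (map_ne_zero _).2 hx0
    have h4 : (1 : O.ValueGroup) < O.valuation x := by
      rwa [inv_lt_one₀ (zero_lt_iff.2 h3)] at h1
    exact absurd h2 (not_le.2 h4)

variable {n : ℕ}

/-- matrices which stabilize a nondegenerate form are invertible -/
lemma det_ne_zero_of_subst {F : Type*} [Field F] {d : ℕ} (hd : 2 ≤ d)
    {f : MvPolynomial (Fin n) F} (hf : f.IsHomogeneous d) (nd : NonDeg f)
    (g : Matrix (Fin n) (Fin n) F) (hg : subst g f = f) : g.det ≠ 0 := by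
  intro h0
  obtain ⟨p, hp0, hp⟩ := Matrix.exists_mulVec_eq_zero_iff.2 h0
  apply hp0
  apply nd
  intro i
  show eval p (pderiv i f) = 0
  rw [← hg, pderiv_subst, map_sum]
  apply Finset.sum_eq_zero
  intro j _
  rw [map_mul, eval_subst, hp]
  have h1 : (pderiv j f).IsHomogeneous (d - 1) := hf.pderiv
  have h2 : eval 0 (pderiv j f) = 0 := by
    have h3 : constantCoeff (pderiv j f) = 0 := by
      rw [constantCoeff_eq]
      apply h1.coeff_eq_zero
      rw [map_zero]
      omega
    rw [← h3]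
    exact congrArg (fun φ : MvPolynomial (Fin n) F →+* F => φ (pderiv j f)) (by
      apply MvPolynomial.ringHom_ext
      · intro r
        simp
      · intro i
        simp)
  rw [h2, mul_zero]

end Stab

/-- MODULE GF. -/
theorem statementGF : StatementGF := by
  intro n d hd f₀ hf₀ nd
  by_contra hinf
  have hinf' : {g : Matrix (Fin n) (Fin n) ℂ | subst g f₀ = f₀}.Infinite := hinf
  -- an injective sequence
  let e := hinf'.natEmbedding
  let gs : ℕ → Matrix (Fin n) (Fin n) ℂ := fun m => (e m : Matrix (Fin n) (Fin n) ℂ)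
  have hgs : ∀ m, subst (gs m) f₀ = f₀ := fun m => (e m).2
  have hinj : Function.Injective gs := fun m m' h => e.injective (Subtype.ext h)
  let K := Germ ((hyperfilter ℕ : Ultrafilter ℕ) : Filter ℕ) ℂ
  let _ : Field K := inferInstance
  let π : (ℕ → ℂ) →+* K := Germ.coeRingHom _
  let cst : ℂ →+* (ℕ → ℂ) := Pi.constRingHom ℕ ℂ
  let _ : Algebra ℂ K := (π.comp cst).toAlgebra
  let G : Matrix (Fin n) (Fin n) (ℕ → ℂ) := Matrix.of fun i j m => gs m i j
  have hG : subst G (MvPolynomial.map cst f₀) = MvPolynomial.map cst f₀ := by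
    ext α : 1
    funext m
    have h1 : MvPolynomial.map (Pi.evalRingHom (fun _ => ℂ) m) (subst G (MvPolynomial.map cst f₀)) =
        MvPolynomial.map (Pi.evalRingHom (fun _ => ℂ) m) (MvPolynomial.map cst f₀) := by
      rw [map_subst, MvPolynomial.map_map]
      have h2 : (Pi.evalRingHom (fun _ => ℂ) m).comp cst = RingHom.id ℂ := by
        ext z
        rfl
      have h3 : G.map (Pi.evalRingHom (fun _ => ℂ) m) = gs m := by
        ext i j
        rfl
      rw [h2, h3, MvPolynomial.map_id]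
      exact hgs m
    have h4 := congrArg (coeff α) h1
    rw [coeff_map, coeff_map] at h4
    exact h4
  let g : Matrix (Fin n) (Fin n) K := G.map π
  have hg : subst g (MvPolynomial.map (algebraMap ℂ K) f₀) =
      MvPolynomial.map (algebraMap ℂ K) f₀ := by
    have h1 := congrArg (MvPolynomial.map π) hG
    rw [map_subst, MvPolynomial.map_map] at h1
    exact h1
  have ndK : NonDeg (MvPolynomial.map (algebraMap ℂ K) f₀) := nd.map
  have hdet : g.det ≠ 0 :=
    Stab.det_ne_zero_of_subst (by omega) (hf₀.map _) ndK g hg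
  -- the entries belong to `ℂ`
  have hmem : ∀ i j, ∃ c : ℂ, algebraMap ℂ K c = g i j := by
    intro i j
    apply Stab.mem_range_of_forall_valuationSubring
    intro O hO
    let ι : ℂ →+* O := (algebraMap ℂ K).codRestrict O.toSubring hO
    let _ : Algebra ℂ (IsLocalRing.ResidueField O) := ((IsLocalRing.residue O).comp ι).toAlgebra
    have h1 : MvPolynomial.map (algebraMap O K) (MvPolynomial.map ι f₀) =
        MvPolynomial.map (algebraMap ℂ K) f₀ := by
      rw [MvPolynomial.map_map]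
      rfl
    have h2 : NonDeg (MvPolynomial.map (IsLocalRing.residue O) (MvPolynomial.map ι f₀)) := by
      rw [MvPolynomial.map_map]
      exact nd.map (F := IsLocalRing.ResidueField O)
    have h3 : IsGLO O g := properP hd (hf₀.map ι) (hf₀.map ι) h2 h2 g hdet (by rw [h1, hg])
    exact h3.mem i j
  choose c hc using hmem
  -- so the sequence is constant on a large set
  have hev : ∀ i j, ∀ᶠ m in ((hyperfilter ℕ : Ultrafilter ℕ) : Filter ℕ), gs m i j = c i j := by
    intro i j
    have h1 : (Germ.ofFun (fun _ : ℕ => c i j) : K) = Germ.ofFun (fun m => gs m i j) := hc i j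
    have h2 := Germ.coe_eq.1 h1
    filter_upwards [h2] with m hm
    exact hm.symm
  have hall : ∀ᶠ m in ((hyperfilter ℕ : Ultrafilter ℕ) : Filter ℕ), gs m = Matrix.of c := by
    have h1 : ∀ᶠ m in ((hyperfilter ℕ : Ultrafilter ℕ) : Filter ℕ), ∀ i j, gs m i j = c i j := by
      rw [Filter.eventually_all]
      intro i
      rw [Filter.eventually_all]
      intro j
      exact hev i j
    filter_upwards [h1] with m hm
    ext i j
    exact hm i j
  have hfin : {m | gs m = Matrix.of c}.Finite := by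
    apply Set.Subsingleton.finite
    intro m hm m' hm'
    exact hinj (hm.trans hm'.symm)
  exact notMem_hyperfilter_of_finite hfin hall

end Pool.Agent.Lib.MP_4fcc12_ag
end
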