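import Pool.Agent.Lib.MP_4fcc12_ag.Spec3
import Mathlib.FieldTheory.IsAlgClosed.AlgebraicClosure
import Mathlib.RingTheory.Valuation.LocalSubring
import Mathlib.RingTheory.Localization.FractionRing
import Mathlib.RingTheory.Polynomial.Basic
import Mathlib.RingTheory.MvPolynomial.Basic

/-!
Module VC: valuative criterion for the quotient.
-/

open MvPolynomial Matrix

namespace Pool.Agent.Lib.MP_4fcc12_ag

/-- extension of a valuation ring to a field, with control of finitely many elements -/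
lemma exists_valuationSubring_extension {K L : Type*} [Field K] [Field L] (O : ValuationSubring K)
    (ι : K →+* L) {σ : Type*} (z : σ → L)
    (hz : ∀ P : MvPolynomial σ O, (∀ α, coeff α P ∈ IsLocalRing.maximalIdeal O) →
      eval₂ (ι.comp O.subtype) z P ≠ 1) :
    ∃ O' : ValuationSubring L, (∀ y : K, ι y ∈ O' ↔ y ∈ O) ∧ ∀ k, z k ∈ O' := by
  let φ : MvPolynomial σ O →+* L := eval₂Hom (ι.comp O.subtype) z
  let I : Ideal φ.range :=
    Ideal.map φ.rangeRestrict (Ideal.map C (IsLocalRing.maximalIdeal O))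
  have hI : I ≠ ⊤ := by
    intro h
    have h1 : (1 : φ.range) ∈ I := by rw [h]; trivial
    rw [Ideal.mem_map_iff_of_surjective _ φ.rangeRestrict_surjective] at h1
    obtain ⟨P, hP, hP1⟩ := h1
    rw [MvPolynomial.mem_map_C_iff] at hP
    exact hz P hP (congrArg Subtype.val hP1)
  obtain ⟨O', hO, hO'⟩ := Ideal.image_subset_nonunits_valuationSubring I hI
  have h1 : ∀ y ∈ O, ι y ∈ O' := fun y hy => hO ⟨C ⟨y, hy⟩, by simp [φ]⟩
  refine ⟨O', fun y => ⟨fun hy => ?_, h1 y⟩, fun k => hO ⟨X k, by simp [φ]⟩⟩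
  by_contra hyO
  have hy0 : y ≠ 0 := by
    rintro rfl
    exact hyO (zero_mem O)
  have hv : 1 < O.valuation y := by
    rw [← not_le]
    intro h2
    exact hyO ((O.valuation_le_one_iff y).1 h2)
  have hv' : O.valuation y⁻¹ < 1 := by
    rw [map_inv₀]
    exact inv_lt_one_of_one_lt₀ hv
  have hmem : y⁻¹ ∈ O := (O.valuation_le_one_iff _).1 hv'.le
  have hmax : (⟨y⁻¹, hmem⟩ : O) ∈ IsLocalRing.maximalIdeal O :=
    (O.valuation_lt_one_iff _).2 hv'
  have h2 : ι y⁻¹ ∈ O'.nonunits := by
    apply hO'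
    refine ⟨φ.rangeRestrict (C ⟨y⁻¹, hmem⟩), ?_, ?_⟩
    · exact Ideal.mem_map_of_mem _ (Ideal.mem_map_of_mem _ hmax)
    · show φ (C ⟨y⁻¹, hmem⟩) = ι y⁻¹
      simp [φ]
  rw [ValuationSubring.mem_nonunits_iff, map_inv₀, map_inv₀] at h2
  have h3 : O'.valuation (ι y) ≤ 1 := (O'.valuation_le_one_iff _).2 hy
  have h4 : O'.valuation (ι y) ≠ 0 := (map_ne_zero _).2 ((map_ne_zero _).2 hy0)
  have h5 : 1 < O'.valuation (ι y) := by
    rwa [inv_lt_one₀ (zero_lt_iff.2 h4)] at h2
  exact absurd h3 (not_le.2 h5)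

/-- MODULE VC. -/
theorem statementVC : StatementVC := by
  classical
  intro n κ _ A _ Δ r₁ r₂ hΔ K _ _ O hO x hx hinv
  let T := MvPolynomial (Grp n) K
  let F := FractionRing T
  let L := AlgebraicClosure F
  let ιT : T →ₐ[ℂ] L := (IsScalarTower.toAlgHom ℂ F L).comp (IsScalarTower.toAlgHom ℂ T F)
  have hιT : Function.Injective ιT := by
    have h1 : Function.Injective (algebraMap T F) := IsFractionRing.injective T F
    have h2 : Function.Injective (algebraMap F L) := (algebraMap F L).injective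
    exact h2.comp h1
  let ι : K →ₐ[ℂ] L := ιT.comp (IsScalarTower.toAlgHom ℂ K T)
  have hιC : ∀ y : K, ι y = ιT (C y) := fun y => rfl
  have hdg : (gX n K).det ≠ 0 := by
    intro h
    have h1 := dd_ne_zero (n := n) K 1 0
    rw [dd, h] at h1
    simp at h1
  have hda : (aX n K).det ≠ 0 := by
    intro h
    have h1 := dd_ne_zero (n := n) K 0 1
    rw [dd, h] at h1
    simp at h1
  have hdet : ∀ M : Matrix (Fin n) (Fin n) T, M.det ≠ 0 → (M.map ιT).det ≠ 0 := by
    intro M hM h
    have h1 : ιT M.det = (M.map ιT).det := AlgHom.map_det ιT M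
    rw [h, ← map_zero ιT] at h1
    exact hM (hιT h1)
  -- the generic point of the orbit
  let w : κ → T := A.app (fun k => (C (x k) : T)) (gX n K) (aX n K)
  have hw : A.app (ι ∘ x) ((gX n K).map ιT) ((aX n K).map ιT) = fun k => ιT (w k) := by
    have h1 := A.map_app ιT (fun j => (C (x j) : T)) (gX n K) (aX n K)
    exact h1.symm
  have hwP : ∀ P : MvPolynomial κ ℂ, aeval (fun k => ιT (w k)) P = ιT (aeval w P) := by
    intro P
    rw [← AlgHom.comp_apply, comp_aeval]
  have hwΔ : aeval w Δ = (gX n K).det ^ r₁ * (aX n K).det ^ r₂ * C (aeval x Δ) := by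
    have h1 := hΔ (fun k => (C (x k) : T)) (gX n K) (aX n K)
    rw [Actn.aeval_C_comp] at h1
    exact h1
  have hwΔ0 : aeval w Δ ≠ 0 := by
    rw [hwΔ]
    refine mul_ne_zero (mul_ne_zero (pow_ne_zero _ hdg) (pow_ne_zero _ hda)) ?_
    rw [Ne, C_eq_zero]
    exact hx
  have hWΔ0 : ιT (aeval w Δ) ≠ 0 := by
    intro h
    rw [← map_zero ιT] at h
    exact hwΔ0 (hιT h)
  let z : Option κ → L := fun o => o.elim (ιT (aeval w Δ))⁻¹ (fun k => ιT (w k))
  obtain ⟨O', hO1, hO2⟩ := exists_valuationSubring_extension O (ι : K →+* L) z (by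
    intro P hP hP1
    -- clear denominators
    obtain ⟨m, hm⟩ : ∃ m : ℕ, ∀ α ∈ P.support, α none ≤ m :=
      ⟨P.support.sup (fun α => α none), fun α hα => Finset.le_sup (f := fun α => α none) hα⟩
    let M : (Option κ →₀ ℕ) → MvPolynomial κ ℂ := fun α =>
      monomial (α.some) 1 * Δ ^ (m - α none)
    have hmon : ∀ α : Option κ →₀ ℕ, α none ≤ m →
        ιT (aeval w Δ) ^ m * ∏ i ∈ α.support, z i ^ α i = ιT (aeval w (M α)) := by
      intro α hα
      have h3 : ∏ i ∈ α.support, z i ^ α i =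
          (ιT (aeval w Δ))⁻¹ ^ (α none) * ιT (aeval w (monomial α.some (1 : ℂ))) := by
        have h4 := Finsupp.prod_option_index α (fun i (e : ℕ) => z i ^ e)
          (fun o => pow_zero _) (fun o a b => pow_add _ _ _)
        rw [aeval_monomial, map_one, one_mul, Finsupp.prod, map_prod]
        rw [Finsupp.prod, Finsupp.prod] at h4
        rw [h4]
        congr 1
        apply Finset.prod_congr rfl
        intro k _
        rw [map_pow]
        rfl
      rw [h3]
      show _ = ιT (aeval w (monomial (α.some) 1 * Δ ^ (m - α none)))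
      rw [map_mul, map_mul, map_pow, map_pow]
      have h5 : ιT (aeval w Δ) ^ m = ιT (aeval w Δ) ^ (m - α none) * ιT (aeval w Δ) ^ (α none) := by
        rw [← pow_add, Nat.sub_add_cancel hα]
      rw [h5, inv_pow, mul_assoc, mul_inv_cancel_left₀ (pow_ne_zero _ hWΔ0), mul_comm]
    have h1 : (aeval w Δ) ^ m = ∑ α ∈ P.support, ((coeff α P : O) : K) • aeval w (M α) := by
      apply hιT
      rw [map_pow, map_sum]
      have h2 : ιT (aeval w Δ) ^ m =
          ιT (aeval w Δ) ^ m * eval₂ ((ι : K →+* L).comp O.subtype) z P := by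
        rw [hP1, mul_one]
      rw [h2, eval₂_eq, Finset.mul_sum]
      apply Finset.sum_congr rfl
      intro α hα
      rw [smul_eq_C_mul, map_mul, ← hmon α (hm α hα), ← hιC]
      show ιT (aeval w Δ) ^ m * (ι ((coeff α P : O) : K) * ∏ i ∈ α.support, z i ^ α i) = _
      ring
    -- apply the Reynolds operator
    have hrey : ∀ Q : MvPolynomial κ ℂ, Lam (m * r₁) (m * r₂) (aeval w Q) =
        aeval x (A.rey (m * r₁) (m * r₂) 0 0 Q) := by
      intro Q
      rw [Actn.aeval_rey]
      congr 1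
      rw [dd, pow_zero, pow_zero, one_mul, one_mul]
    have hΔm : A.Semi (m * r₁) (m * r₂) (Δ ^ m) := by
      intro R _ _ y g a
      rw [map_pow, map_pow, hΔ y g a, mul_pow, mul_pow, ← pow_mul, ← pow_mul, mul_comm r₁,
        mul_comm r₂]
    have h2 := congrArg (Lam (m * r₁) (m * r₂)) h1
    rw [← map_pow, hrey, A.rey_of_semi 0 0 hΔm (by omega) (by omega), map_sum, map_pow] at h2
    have h3 : ∀ α, ∃ o : O, aeval x (A.rey (m * r₁) (m * r₂) 0 0 (M α)) =
        (o : K) * aeval x Δ ^ m := by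
      intro α
      have h4 : A.Semi (m * r₁) (m * r₂) (A.rey (m * r₁) (m * r₂) 0 0 (M α)) :=
        A.semi_rey (m * r₁) (m * r₂) 0 0 (M α) (Nat.zero_le _) (Nat.zero_le _)
      exact ⟨⟨_, hinv m _ h4⟩, (div_mul_cancel₀ _ (pow_ne_zero _ hx)).symm⟩
    choose o ho using h3
    have h4 : aeval x Δ ^ m = ((∑ α ∈ P.support, coeff α P * o α : O) : K) * aeval x Δ ^ m := by
      push_cast
      rw [Finset.sum_mul]
      refine h2.trans ?_
      apply Finset.sum_congr rfl
      intro α _
      rw [map_smul, hrey, ho, smul_eq_mul]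
      ring
    have h5 : (1 : K) = ((∑ α ∈ P.support, coeff α P * o α : O) : K) := by
      exact mul_right_cancel₀ (pow_ne_zero m hx) ((one_mul _).trans h4)
    have h6 : (1 : O) = ∑ α ∈ P.support, coeff α P * o α := Subtype.ext h5
    have h7 : (1 : O) ∈ IsLocalRing.maximalIdeal O := by
      rw [h6]
      exact Ideal.sum_mem _ fun α _ => Ideal.mul_mem_right _ _ (hP α)
    exact (IsLocalRing.maximalIdeal.isMaximal O).ne_top ((Ideal.eq_top_iff_one _).2 h7))
  refine ⟨L, inferInstance, inferInstance, inferInstance, ι, O', (gX n K).map ιT,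
    (aX n K).map ιT, ?_, hO1, hdet _ hdg, hdet _ hda, ?_, ?_⟩
  · intro c
    rw [← ι.commutes]
    exact (hO1 _).2 (hO c)
  · intro k
    rw [hw]
    exact hO2 (some k)
  · rw [hw, hwP]
    exact hO2 none

end Pool.Agent.Lib.MP_4fcc12_ag
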